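/-
MP_8790d8_co: elementary inequalities for finite antitone sequences.
-/
import Mathlib

set_option autoImplicit false
open Finset

namespace Pool.Agent.Lib.Helper7.STK

/-- antitone on an initial segment -/
def Anti (p : ℕ) (r : ℕ → ℝ) : Prop := ∀ i j, i ≤ j → j < p → r j ≤ r i

theorem Anti.mono {p q : ℕ} {r : ℕ → ℝ} (h : Anti p r) (hq : q ≤ p) : Anti q r :=
  fun i j hij hj => h i j hij (hj.trans_le hq)

theorem Anti.shift {p k : ℕ} {r : ℕ → ℝ} (h : Anti p r) : Anti (p - k) (fun i => r (k + i)) :=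
  fun i j hij hj => h _ _ (by omega) (by omega)

/-- the base inequality -/
theorem base_ineq (p : ℕ) (r : ℕ → ℝ) (M : ℝ) (h0 : ∀ i < p, 0 ≤ r i) (hM : ∀ i < p, r i ≤ M)
    (ha : Anti p r) :
    p * ∑ i ∈ range p, (r i) ^ 2 - (∑ i ∈ range p, r i) ^ 2 ≤
      M * ∑ i ∈ range p, ((p : ℝ) - 1 - 2 * i) * r i := by
  induction p with
  | zero => simp
  | succ p ih =>
    have ih' := ih (fun i hi => h0 i (by omega)) (fun i hi => hM i (by omega))
      (ha.mono (Nat.le_succ p))
    rw [sum_range_succ, sum_range_succ, sum_range_succ]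
    have hS : ∑ i ∈ range p, (((p + 1 : ℕ) : ℝ) - 1 - 2 * i) * r i =
        ∑ i ∈ range p, ((p : ℝ) - 1 - 2 * i) * r i + ∑ i ∈ range p, r i := by
      rw [← sum_add_distrib]
      refine sum_congr rfl fun i _ => ?_
      push_cast; ring
    rw [hS]
    have hD : ∑ i ∈ range p, (r i - r p) ^ 2 ≤ M * ∑ i ∈ range p, (r i - r p) := by
      rw [mul_sum]
      refine sum_le_sum fun i hi => ?_
      have hi' := mem_range.1 hi
      have h1 := ha i p hi'.le (Nat.lt_succ_self p)
      have h2 := hM i (by omega)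
      have h3 := h0 p (Nat.lt_succ_self p)
      nlinarith
    have e1 : ∑ i ∈ range p, (r i - r p) ^ 2 = ∑ i ∈ range p, (r i) ^ 2 -
        2 * r p * ∑ i ∈ range p, r i + p * (r p) ^ 2 := by
      have : ∀ i, (r i - r p) ^ 2 = (r i) ^ 2 - 2 * r p * r i + (r p) ^ 2 := fun i => by ring
      simp only [this, sum_add_distrib, sum_sub_distrib, ← mul_sum, sum_const, card_range,
        nsmul_eq_mul]
    have e2 : ∑ i ∈ range p, (r i - r p) = ∑ i ∈ range p, r i - p * r p := by
      rw [sum_sub_distrib]; simp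
    rw [e1, e2] at hD
    push_cast
    nlinarith

/-- squares of an antitone sequence against the square of the sum -/
theorem sum_odd_sq_le (p : ℕ) (r : ℕ → ℝ) (h0 : ∀ i < p, 0 ≤ r i) (ha : Anti p r) :
    ∑ i ∈ range p, (2 * (i : ℝ) + 1) * (r i) ^ 2 ≤ (∑ i ∈ range p, r i) ^ 2 := by
  induction p with
  | zero => simp
  | succ p ih =>
    have ih' := ih (fun i hi => h0 i (by omega)) (ha.mono (Nat.le_succ p))
    rw [sum_range_succ, sum_range_succ]
    have h1 : (p : ℝ) * r p ≤ ∑ i ∈ range p, r i := by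
      have : ∑ i ∈ range p, r p ≤ ∑ i ∈ range p, r i :=
        sum_le_sum fun i hi => ha i p (mem_range.1 hi).le (Nat.lt_succ_self p)
      simpa using this
    have h3 := h0 p (Nat.lt_succ_self p)
    nlinarith [mul_le_mul_of_nonneg_right h1 h3]

/-- Chebyshev -/
theorem cheb (p : ℕ) (g r : ℕ → ℝ) (hg : ∀ i j, i ≤ j → j < p → g i ≤ g j) (ha : Anti p r) :
    p * ∑ i ∈ range p, g i * r i ≤ (∑ i ∈ range p, g i) * ∑ i ∈ range p, r i := by
  have h : AntivaryOn g r (range p : Set ℕ) := by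
    intro i hi j hj hij
    simp only [coe_range, Set.mem_Iio] at hi hj
    rcases le_total i j with h | h
    · exact absurd (ha i j h hj) (not_le.2 hij)
    · exact hg j i h hi
  have := h.card_mul_sum_le_sum_mul_sum
  simpa using this

/-- Cauchy-Schwarz for the constant weight -/
theorem sq_sum_le (p : ℕ) (r : ℕ → ℝ) :
    (∑ i ∈ range p, r i) ^ 2 ≤ p * ∑ i ∈ range p, (r i) ^ 2 := by
  have := sq_sum_le_card_mul_sum_sq (s := range p) (f := r)
  simpa using this

/-- the mass of an antitone `θ ≤ 1` beyond its total mass -/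
theorem tail_mass (k : ℕ) (w a : ℝ) (hw : 0 ≤ w) (θ : ℕ → ℝ) (h0 : ∀ i < k, 0 ≤ θ i)
    (h1 : ∀ i < k, θ i ≤ 1) (hanti : Anti k θ) (ha : a = ∑ i ∈ range k, w * θ i) :
    ∑ i ∈ range k, θ i * (max (((i + 1 : ℕ) : ℝ) * w) a - max ((i : ℝ) * w) a) ≤
      2 * ∑ i ∈ range k, w * (θ i * (1 - θ i)) := by
  classical
  set l : ℕ → ℝ := fun i => max (((i + 1 : ℕ) : ℝ) * w) a - max ((i : ℝ) * w) a with hl
  have hxx : ∀ i : ℕ, (i : ℝ) * w ≤ ((i + 1 : ℕ) : ℝ) * w := by
    intro i; push_cast; nlinarith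
  have hl0 : ∀ i, 0 ≤ l i := fun i => sub_nonneg.2 (max_le_max (hxx i) le_rfl)
  have hlw : ∀ i, l i ≤ w := by
    intro i
    simp only [hl]
    have h2 : ((i + 1 : ℕ) : ℝ) * w = i * w + w := by push_cast; ring
    rw [h2, sub_le_iff_le_add]
    apply max_le
    · have := le_max_left ((i : ℝ) * w) a; linarith
    · have := le_max_right ((i : ℝ) * w) a; linarith
  have ha0 : 0 ≤ a := by
    rw [ha]; exact sum_nonneg fun i hi => mul_nonneg hw (h0 i (mem_range.1 hi))
  have hak : a ≤ (k : ℝ) * w := by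
    rw [ha]
    calc ∑ i ∈ range k, w * θ i ≤ ∑ i ∈ range k, w :=
          sum_le_sum fun i hi => by
            have := h1 i (mem_range.1 hi); nlinarith
      _ = k * w := by simp
  have hsum : ∑ i ∈ range k, l i = (k : ℝ) * w - a := by
    simp only [hl]
    rw [sum_range_sub (fun i : ℕ => max ((i : ℝ) * w) a)]
    rw [max_eq_left hak]; simp [ha0]
  -- complementary form
  have hcomp : ∑ i ∈ range k, θ i * l i = ∑ i ∈ range k, (1 - θ i) * (w - l i) := by
    have e1 : ∑ i ∈ range k, (1 - θ i) * (w - l i) =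
        ∑ i ∈ range k, w - ∑ i ∈ range k, l i - ∑ i ∈ range k, w * θ i +
          ∑ i ∈ range k, θ i * l i := by
      rw [← sum_sub_distrib, ← sum_sub_distrib, ← sum_add_distrib]
      exact sum_congr rfl fun i _ => by ring
    rw [e1, hsum, ← ha]; simp
  set J := (range k).filter (fun i => 1 / 2 ≤ θ i) with hJ
  rcases le_total ((J.card : ℝ) * w) a with hc | hc
  · -- every cell beyond `a` has `θ < 1/2`
    rw [mul_sum]
    refine sum_le_sum fun i hi => ?_
    have hi' := mem_range.1 hi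
    change θ i * l i ≤ _
    by_cases hli : l i = 0
    · rw [hli]
      have := mul_nonneg hw (mul_nonneg (h0 i hi') (sub_nonneg.2 (h1 i hi')))
      linarith
    have hlt : a < ((i + 1 : ℕ) : ℝ) * w := by
      by_contra hcon
      push Not at hcon
      apply hli
      simp only [hl]
      rw [max_eq_right hcon, max_eq_right ((hxx i).trans hcon), sub_self]
    have hθ : θ i < 1 / 2 := by
      by_contra hcon
      push Not at hcon
      have hsub : range (i + 1) ⊆ J := by
        intro j hj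
        have hj' := mem_range.1 hj
        simp only [hJ, mem_filter, mem_range]
        exact ⟨by omega, hcon.trans (hanti j i (by omega) hi')⟩
      have hcard := card_le_card hsub
      rw [card_range] at hcard
      have h5 : ((i + 1 : ℕ) : ℝ) ≤ (J.card : ℝ) := by exact_mod_cast hcard
      have := mul_le_mul_of_nonneg_right h5 hw
      linarith
    have h6 := h0 i hi'
    have h7 : θ i * l i ≤ θ i * w := mul_le_mul_of_nonneg_left (hlw i) h6
    have h8 : θ i * w ≤ 2 * (w * (θ i * (1 - θ i))) := by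
      have : 0 ≤ w * θ i := mul_nonneg hw h6
      nlinarith
    exact h7.trans h8
  · rw [hcomp, mul_sum]
    refine sum_le_sum fun i hi => ?_
    have hi' := mem_range.1 hi
    have hwl : 0 ≤ w - l i := sub_nonneg.2 (hlw i)
    by_cases hli : w - l i = 0
    · rw [hli]
      have := mul_nonneg hw (mul_nonneg (h0 i hi') (sub_nonneg.2 (h1 i hi')))
      linarith
    have hlt : (i : ℝ) * w < a := by
      by_contra hcon
      push Not at hcon
      apply hli
      simp only [hl]
      rw [max_eq_left hcon, max_eq_left (hcon.trans (hxx i))]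
      push_cast; ring
    have hθ : 1 / 2 ≤ θ i := by
      by_contra hcon
      push Not at hcon
      have hsub : J ⊆ range i := by
        intro j hj
        simp only [hJ, mem_filter, mem_range] at hj
        rw [mem_range]
        by_contra hji
        push Not at hji
        have := hanti i j hji hj.1
        linarith [hj.2]
      have hcard := card_le_card hsub
      rw [card_range] at hcard
      have h5 : (J.card : ℝ) ≤ (i : ℝ) := by exact_mod_cast hcard
      have := mul_le_mul_of_nonneg_right h5 hw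
      linarith
    have h6 := h1 i hi'
    have h9 : w - l i ≤ w := by linarith [hl0 i]
    have h7 : (1 - θ i) * (w - l i) ≤ (1 - θ i) * w :=
      mul_le_mul_of_nonneg_left h9 (by linarith)
    have h8 : (1 - θ i) * w ≤ 2 * (w * (θ i * (1 - θ i))) := by
      have : 0 ≤ w * (1 - θ i) := mul_nonneg hw (by linarith)
      nlinarith
    exact h7.trans h8

theorem pow_sub_le {x y : ℝ} (t : ℕ) (hy : 0 ≤ y) (hxy : y ≤ x) :
    x ^ t - y ^ t ≤ t * x ^ (t - 1) * (x - y) := by
  have h := (mul_le_mul_of_nonneg_left hxy (Nat.cast_nonneg t : (0 : ℝ) ≤ t))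
  rcases Nat.eq_zero_or_pos t with ht | ht
  · subst ht; simp
  -- geometric sum
  have hg := (Commute.all x y).geom_sum₂_mul t
  rw [← hg]
  have hx : 0 ≤ x := hy.trans hxy
  refine mul_le_mul_of_nonneg_right ?_ (sub_nonneg.2 hxy)
  calc ∑ i ∈ range t, x ^ i * y ^ (t - 1 - i) ≤ ∑ i ∈ range t, x ^ (t - 1) := by
        refine sum_le_sum fun i hi => ?_
        have hi' := mem_range.1 hi
        calc x ^ i * y ^ (t - 1 - i) ≤ x ^ i * x ^ (t - 1 - i) :=
              mul_le_mul_of_nonneg_left (pow_le_pow_left₀ hy hxy _) (pow_nonneg hx _)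
          _ = x ^ (t - 1) := by rw [← pow_add]; congr 1; omega
    _ = t * x ^ (t - 1) := by simp

/-- the small term: increments of `x^t` against an antitone `θ ≤ 1` -/
theorem small_term (k t : ℕ) (w a : ℝ) (hw : 0 ≤ w) (θ : ℕ → ℝ) (h0 : ∀ i < k, 0 ≤ θ i)
    (h1 : ∀ i < k, θ i ≤ 1) (hanti : Anti k θ) (ha : a = ∑ i ∈ range k, w * θ i) :
    ∑ i ∈ range k, ((((i + 1 : ℕ) : ℝ) * w) ^ t - ((i : ℝ) * w) ^ t) * θ i ≤
      a ^ t + 2 * t * ((k : ℝ) * w) ^ (t - 1) * ∑ i ∈ range k, w * (θ i * (1 - θ i)) := by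
  have ha0 : 0 ≤ a := by
    rw [ha]; exact sum_nonneg fun i hi => mul_nonneg hw (h0 i (mem_range.1 hi))
  have hak : a ≤ (k : ℝ) * w := by
    rw [ha]
    calc ∑ i ∈ range k, w * θ i ≤ ∑ i ∈ range k, w :=
          sum_le_sum fun i hi => by
            have := h1 i (mem_range.1 hi); nlinarith
      _ = k * w := by simp
  have hx0 : ∀ i : ℕ, 0 ≤ (i : ℝ) * w := fun i => mul_nonneg (Nat.cast_nonneg i) hw
  have hxx : ∀ i : ℕ, (i : ℝ) * w ≤ ((i + 1 : ℕ) : ℝ) * w := by
    intro i; push_cast; nlinarith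
  have hmm : ∀ x : ℝ, x ^ t = (min x a) ^ t + (max x a) ^ t - a ^ t := by
    intro x
    rcases le_total x a with h | h
    · rw [min_eq_left h, max_eq_right h]; ring
    · rw [min_eq_right h, max_eq_left h]; ring
  -- split
  have hsplit : ∀ i, ((((i + 1 : ℕ) : ℝ) * w) ^ t - ((i : ℝ) * w) ^ t) * θ i =
      ((min (((i + 1 : ℕ) : ℝ) * w) a) ^ t - (min ((i : ℝ) * w) a) ^ t) * θ i +
      ((max (((i + 1 : ℕ) : ℝ) * w) a) ^ t - (max ((i : ℝ) * w) a) ^ t) * θ i := by
    intro i
    rw [hmm (((i + 1 : ℕ) : ℝ) * w), hmm ((i : ℝ) * w)]; ring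
  rw [sum_congr rfl fun i _ => hsplit i, sum_add_distrib]
  rcases Nat.eq_zero_or_pos t with ht | ht
  · subst ht; simp
  apply add_le_add
  · calc ∑ i ∈ range k, ((min (((i + 1 : ℕ) : ℝ) * w) a) ^ t - (min ((i : ℝ) * w) a) ^ t) * θ i
        ≤ ∑ i ∈ range k, ((min (((i + 1 : ℕ) : ℝ) * w) a) ^ t - (min ((i : ℝ) * w) a) ^ t) := by
          refine sum_le_sum fun i hi => ?_
          have h2 : 0 ≤ (min (((i + 1 : ℕ) : ℝ) * w) a) ^ t - (min ((i : ℝ) * w) a) ^ t :=
            sub_nonneg.2 (pow_le_pow_left₀ (le_min (hx0 i) ha0) (min_le_min (hxx i) le_rfl) t)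
          have h3 := h1 i (mem_range.1 hi)
          nlinarith
      _ = a ^ t := by
          rw [sum_range_sub (fun i : ℕ => (min ((i : ℝ) * w) a) ^ t)]
          rw [min_eq_right hak]
          simp only [Nat.cast_zero, zero_mul, min_eq_left ha0]
          rw [zero_pow ht.ne', sub_zero]
  · have hb : ∀ i ∈ range k,
        ((max (((i + 1 : ℕ) : ℝ) * w) a) ^ t - (max ((i : ℝ) * w) a) ^ t) * θ i ≤
        (t * ((k : ℝ) * w) ^ (t - 1)) *
          (θ i * (max (((i + 1 : ℕ) : ℝ) * w) a - max ((i : ℝ) * w) a)) := by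
      intro i hi
      have hi' := mem_range.1 hi
      have h2 := pow_sub_le (x := max (((i + 1 : ℕ) : ℝ) * w) a) (y := max ((i : ℝ) * w) a) t
        (ha0.trans (le_max_right _ _)) (max_le_max (hxx i) le_rfl)
      have h3 : max (((i + 1 : ℕ) : ℝ) * w) a ≤ (k : ℝ) * w := by
        refine max_le ?_ hak
        refine mul_le_mul_of_nonneg_right ?_ hw
        exact_mod_cast hi'
      have h4 : 0 ≤ max (((i + 1 : ℕ) : ℝ) * w) a - max ((i : ℝ) * w) a :=
        sub_nonneg.2 (max_le_max (hxx i) le_rfl)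
      have h5 : (max (((i + 1 : ℕ) : ℝ) * w) a) ^ (t - 1) ≤ ((k : ℝ) * w) ^ (t - 1) :=
        pow_le_pow_left₀ (ha0.trans (le_max_right _ _)) h3 _
      have h6 : (t : ℝ) * (max (((i + 1 : ℕ) : ℝ) * w) a) ^ (t - 1) *
          (max (((i + 1 : ℕ) : ℝ) * w) a - max ((i : ℝ) * w) a) ≤
          (t * ((k : ℝ) * w) ^ (t - 1)) *
          (max (((i + 1 : ℕ) : ℝ) * w) a - max ((i : ℝ) * w) a) :=
        mul_le_mul_of_nonneg_right (mul_le_mul_of_nonneg_left h5 (Nat.cast_nonneg t)) h4
      have h7 := mul_le_mul_of_nonneg_right (h2.trans h6) (h0 i hi')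
      linarith
    refine (sum_le_sum hb).trans ?_
    rw [← mul_sum]
    have h8 := tail_mass k w a hw θ h0 h1 hanti ha
    have h9 : 0 ≤ (t : ℝ) * ((k : ℝ) * w) ^ (t - 1) :=
      mul_nonneg (Nat.cast_nonneg t) (pow_nonneg (hx0 k) _)
    calc _ ≤ (t * ((k : ℝ) * w) ^ (t - 1)) * (2 * ∑ i ∈ range k, w * (θ i * (1 - θ i))) :=
          mul_le_mul_of_nonneg_left h8 h9
      _ = _ := by ring

/-- sum of odd numbers, weighted -/
theorem sum_odd (k : ℕ) : ∑ i ∈ range k, (2 * (i : ℝ) + 1) = (k : ℝ) ^ 2 := by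
  induction k with
  | zero => simp
  | succ k ih => rw [sum_range_succ, ih]; push_cast; ring

/-- product comparison -/
theorem prod_le {m : ℕ} {x x' y y' : ℝ} (hx : 0 ≤ x) (hx' : 0 < x') (hxx : x ≤ x')
    (hy' : 0 < y') (h : (y - y') * x' ≤ m * (x' - x) * y') :
    x ^ m * y ≤ x' ^ m * y' := by
  rcases le_total y y' with hyy | hyy
  · calc x ^ m * y ≤ x ^ m * y' := mul_le_mul_of_nonneg_left hyy (pow_nonneg hx _)
      _ ≤ x' ^ m * y' := mul_le_mul_of_nonneg_right (pow_le_pow_left₀ hx hxx _) hy'.le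
  -- y ≤ y' (1 + m δ), δ = (x'-x)/x'
  set δ := (x' - x) / x' with hδ
  have hδ0 : 0 ≤ δ := div_nonneg (sub_nonneg.2 hxx) hx'.le
  have hxδ : x = x' * (1 - δ) := by rw [hδ]; field_simp; ring
  have h1 : y ≤ y' * (1 + m * δ) := by
    have h2 : (y - y') ≤ m * δ * y' := by
      rw [hδ]
      have : (m : ℝ) * ((x' - x) / x') * y' = (m * (x' - x) * y') / x' := by ring
      rw [this, le_div_iff₀ hx']
      exact h
    linarith
  have hδ1 : δ ≤ 1 := by rw [hδ, div_le_one hx']; linarith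
  have h3 : (1 - δ) ^ m * (1 + m * δ) ≤ 1 := by
    have h4 : 1 + m * δ ≤ (1 + δ) ^ m := by
      have := one_add_mul_le_pow (a := δ) (by linarith) m
      exact this
    calc (1 - δ) ^ m * (1 + m * δ) ≤ (1 - δ) ^ m * (1 + δ) ^ m :=
          mul_le_mul_of_nonneg_left h4 (pow_nonneg (by linarith) _)
      _ = ((1 - δ) * (1 + δ)) ^ m := by rw [mul_pow]
      _ ≤ 1 := pow_le_one₀ (mul_nonneg (by linarith) (by linarith)) (by nlinarith)
  calc x ^ m * y ≤ x ^ m * (y' * (1 + m * δ)) :=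
        mul_le_mul_of_nonneg_left h1 (pow_nonneg hx _)
    _ = (x' ^ m * y') * ((1 - δ) ^ m * (1 + m * δ)) := by rw [hxδ, mul_pow]; ring
    _ ≤ (x' ^ m * y') * 1 :=
        mul_le_mul_of_nonneg_left h3 (mul_nonneg (pow_nonneg hx'.le _) hy'.le)
    _ = x' ^ m * y' := mul_one _

end Pool.Agent.Lib.Helper7.STK
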