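/-
MP_8790d8_co: threshold shapes and the flattening of the tall part.
-/
import Pool.Agent.Lib.Helper7.STK.Sums

set_option autoImplicit false
open Finset

namespace Pool.Agent.Lib.Helper7.STK

/-- A threshold shape: a clique of measure `c`, containing `k` vertices of mass `w` whose degrees
are `c + e i`. -/
structure GShape (w : ℝ) (k : ℕ) (c : ℝ) (e : ℕ → ℝ) : Prop where
  w0 : 0 < w
  kc : k * w ≤ c
  c1 : c ≤ 1
  nn : ∀ i < k, 0 ≤ e i
  le : ∀ i < k, e i ≤ 1 - c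
  anti : Anti k e

/-- first moment of the excess -/
def sA (w : ℝ) (k : ℕ) (e : ℕ → ℝ) : ℝ := ∑ i ∈ range k, w * e i

/-- second moment of the excess -/
def sY (w : ℝ) (k : ℕ) (e : ℕ → ℝ) : ℝ := ∑ i ∈ range k, w * (e i) ^ 2

/-- mixed moment of the excess -/
def sX (w : ℝ) (k : ℕ) (e : ℕ → ℝ) : ℝ := ∑ i ∈ range k, w * ((2 * (i : ℝ) + 1) * w) * e i

/-- edge density -/
def area (w : ℝ) (k : ℕ) (c : ℝ) (e : ℕ → ℝ) : ℝ := c ^ 2 + 2 * sA w k e

/-- density of the path with two edges -/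
def M2 (w : ℝ) (k : ℕ) (c : ℝ) (e : ℕ → ℝ) : ℝ :=
  c ^ 3 + 2 * c * sA w k e + sY w k e + sX w k e

/-- density of `K_{2,t}` -/
def Ph (t : ℕ) (w : ℝ) (k : ℕ) (c : ℝ) (e : ℕ → ℝ) : ℝ :=
  c ^ (t + 2) + ∑ i ∈ range k, (2 * (i : ℝ) + 1) * w ^ 2 * ((c + e i) ^ t - c ^ t) +
    ∑ i ∈ range k, ((((i + 1 : ℕ) : ℝ) * w) ^ t - ((i : ℝ) * w) ^ t) * ((c + e i) ^ 2 - c ^ 2)

/-- the three families: edge density -/
def TA (a u : ℝ) : ℝ := u ^ 2 + 2 * a - a ^ 2

/-- the three families: density of the path with two edges -/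
def TM (a u : ℝ) : ℝ := u ^ 3 + 2 * u ^ 2 * a + a + a ^ 2 - a ^ 3

/-- the three families: density of `K_{2,t}` -/
def TP (t : ℕ) (a u : ℝ) : ℝ :=
  a ^ 2 + ((a + u) ^ 2 - a ^ 2) * (a + u) ^ t + (1 - (a + u) ^ 2) * a ^ t

section basic
variable {w : ℝ} {k : ℕ} {c : ℝ} {e : ℕ → ℝ}

theorem sA_nonneg (h : GShape w k c e) : 0 ≤ sA w k e :=
  sum_nonneg fun i hi => mul_nonneg h.w0.le (h.nn i (mem_range.1 hi))

theorem sY_nonneg (h : GShape w k c e) : 0 ≤ sY w k e :=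
  sum_nonneg fun i _ => mul_nonneg h.w0.le (sq_nonneg _)

theorem sX_nonneg (h : GShape w k c e) : 0 ≤ sX w k e :=
  sum_nonneg fun i hi => mul_nonneg (mul_nonneg h.w0.le (mul_nonneg (by positivity) h.w0.le))
    (h.nn i (mem_range.1 hi))

theorem kw_nonneg (h : GShape w k c e) : 0 ≤ (k : ℝ) * w := mul_nonneg (Nat.cast_nonneg k) h.w0.le

theorem c_nonneg (h : GShape w k c e) : 0 ≤ c := (kw_nonneg h).trans h.kc

/-- the base inequality in weighted form -/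
theorem base_w (w : ℝ) (k : ℕ) (e : ℕ → ℝ) (M : ℝ) (h0 : ∀ i < k, 0 ≤ e i)
    (hM : ∀ i < k, e i ≤ M) (ha : Anti k e) :
    (k * w) * sY w k e - (sA w k e) ^ 2 ≤ M * ((k * w) * sA w k e - sX w k e) := by
  have h := mul_le_mul_of_nonneg_left (base_ineq k e M h0 hM ha) (sq_nonneg w)
  have e1 : (k * w) * sY w k e - (sA w k e) ^ 2 =
      w ^ 2 * (k * ∑ i ∈ range k, (e i) ^ 2 - (∑ i ∈ range k, e i) ^ 2) := by
    unfold sY sA
    rw [← mul_sum, ← mul_sum]; ring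
  have e2 : (k * w) * sA w k e - sX w k e =
      w ^ 2 * ∑ i ∈ range k, ((k : ℝ) - 1 - 2 * i) * e i := by
    unfold sX sA
    rw [mul_sum, mul_sum, ← sum_sub_distrib]
    refine sum_congr rfl fun i _ => ?_
    ring
  rw [e1, e2]
  calc _ ≤ _ := h
    _ = _ := by ring

theorem cs_w (w : ℝ) (k : ℕ) (e : ℕ → ℝ) :
    (sA w k e) ^ 2 ≤ (k * w) * sY w k e := by
  have h := mul_le_mul_of_nonneg_left (sq_sum_le k e) (sq_nonneg w)
  unfold sY sA
  rw [← mul_sum, ← mul_sum]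
  calc (w * ∑ i ∈ range k, e i) ^ 2 = w ^ 2 * (∑ i ∈ range k, e i) ^ 2 := by ring
    _ ≤ _ := h
    _ = _ := by ring

/-- `Σ (2 i + 1) w² = (k w)²` -/
theorem sum_odd_w (w : ℝ) (k : ℕ) : ∑ i ∈ range k, (2 * (i : ℝ) + 1) * w ^ 2 = (k * w) ^ 2 := by
  rw [← sum_mul, sum_odd]; ring

theorem sum_tau (t : ℕ) (ht : 0 < t) (w : ℝ) (k : ℕ) :
    ∑ i ∈ range k, ((((i + 1 : ℕ) : ℝ) * w) ^ t - ((i : ℝ) * w) ^ t) = (k * w) ^ t := by
  rw [sum_range_sub (fun i : ℕ => ((i : ℝ) * w) ^ t)]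
  simp [ht.ne']

theorem tau_nonneg (t : ℕ) {w : ℝ} (hw : 0 ≤ w) (i : ℕ) :
    0 ≤ (((i + 1 : ℕ) : ℝ) * w) ^ t - ((i : ℝ) * w) ^ t := by
  refine sub_nonneg.2 (pow_le_pow_left₀ (mul_nonneg (Nat.cast_nonneg i) hw) ?_ t)
  push_cast; nlinarith

theorem tau_le (t : ℕ) {w : ℝ} (hw : 0 ≤ w) (i : ℕ) {s : ℝ} (hs : ((i + 1 : ℕ) : ℝ) * w ≤ s) :
    (((i + 1 : ℕ) : ℝ) * w) ^ t - ((i : ℝ) * w) ^ t ≤ t * s ^ (t - 1) * w := by
  have h1 : (i : ℝ) * w ≤ ((i + 1 : ℕ) : ℝ) * w := by push_cast; nlinarith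
  have h0 : 0 ≤ (i : ℝ) * w := mul_nonneg (Nat.cast_nonneg i) hw
  have h := pow_sub_le t h0 h1
  have h2 : ((i + 1 : ℕ) : ℝ) * w - (i : ℝ) * w = w := by push_cast; ring
  rw [h2] at h
  refine h.trans ?_
  refine mul_le_mul_of_nonneg_right ?_ hw
  exact mul_le_mul_of_nonneg_left (pow_le_pow_left₀ (h0.trans h1) hs _) (Nat.cast_nonneg t)

end basic

/-! ### Flattening -/

section flat
variable {w : ℝ} {k : ℕ} {c : ℝ} {e : ℕ → ℝ}

/-- the normalised variance -/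
noncomputable def sW (w : ℝ) (k : ℕ) (c : ℝ) (e : ℕ → ℝ) : ℝ :=
  ∑ i ∈ range k, w * (e i / (1 - c) * (1 - e i / (1 - c)))

theorem sW_eq (hc : c < 1) : (1 - c) ^ 2 * sW w k c e = (1 - c) * sA w k e - sY w k e := by
  have h1 : (1 - c) ≠ 0 := by linarith
  unfold sW sA sY
  rw [mul_sum, mul_sum, ← sum_sub_distrib]
  refine sum_congr rfl fun i _ => ?_
  field_simp

theorem sW_nonneg (h : GShape w k c e) (hc : c < 1) : 0 ≤ sW w k c e := by
  have h1 : 0 < 1 - c := by linarith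
  refine sum_nonneg fun i hi => mul_nonneg h.w0.le (mul_nonneg ?_ ?_)
  · exact div_nonneg (h.nn i (mem_range.1 hi)) h1.le
  · rw [sub_nonneg, div_le_one h1]; exact h.le i (mem_range.1 hi)

theorem TA_flat {a : ℝ} (hc : c < 1) (ha : a = sA w k e / (1 - c)) :
    TA a (c - a) = area w k c e := by
  have h1 : (1 - c) ≠ 0 := by linarith
  have h2 : sA w k e = a * (1 - c) := by rw [ha]; field_simp
  unfold TA area
  rw [h2]; ring

/-- flattening increases `M2` -/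
theorem flat_gain (h : GShape w k c e) (hc : c < 1) {a : ℝ} (ha : a = sA w k e / (1 - c)) :
    (1 - c - k * w) * (1 - c) * sW w k c e ≤ TM a (c - a) - M2 w k c e := by
  have h1 : 0 < 1 - c := by linarith
  have h2 : sA w k e = a * (1 - c) := by rw [ha]; field_simp
  have hb := base_w w k e (1 - c) h.nn h.le h.anti
  have hW := sW_eq (w := w) (k := k) (e := e) hc
  have hT : TM a (c - a) - M2 w k c e = (1 - c) * sA w k e + a * sA w k e - sY w k e
      - sX w k e := by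
    unfold TM M2
    rw [h2]; ring
  rw [hT]
  -- multiply by 1 - c
  have key : (1 - c) * ((1 - c - k * w) * (1 - c) * sW w k c e) ≤
      (1 - c) * ((1 - c) * sA w k e + a * sA w k e - sY w k e - sX w k e) := by
    have e1 : (1 - c) * ((1 - c - k * w) * (1 - c) * sW w k c e) =
        (1 - c - k * w) * ((1 - c) * sA w k e - sY w k e) := by rw [← hW]; ring
    rw [e1]
    have e2 : (sA w k e) ^ 2 = (1 - c) * (a * sA w k e) := by rw [h2]; ring
    rw [e2] at hb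
    nlinarith
  exact le_of_mul_le_mul_left key h1

/-- the small term of `K_{2,t}` under flattening -/
theorem flat_small (t : ℕ) (h : GShape w k c e) (hc : c < 1) {a : ℝ}
    (ha : a = sA w k e / (1 - c)) :
    ∑ i ∈ range k, ((((i + 1 : ℕ) : ℝ) * w) ^ t - ((i : ℝ) * w) ^ t) * ((c + e i) ^ 2 - c ^ 2) ≤
      (1 - c ^ 2) * a ^ t + 2 * t * ((k : ℝ) * w) ^ (t - 1) * sW w k c e := by
  have h1 : 0 < 1 - c := by linarith
  have hc0 := c_nonneg h
  set θ : ℕ → ℝ := fun i => e i / (1 - c) with hθ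
  have hθ0 : ∀ i < k, 0 ≤ θ i := fun i hi => div_nonneg (h.nn i hi) h1.le
  have hθ1 : ∀ i < k, θ i ≤ 1 := fun i hi => (div_le_one h1).2 (h.le i hi)
  have hθa : Anti k θ := fun i j hij hj => div_le_div_of_nonneg_right (h.anti i j hij hj) h1.le
  have haθ : a = ∑ i ∈ range k, w * θ i := by
    rw [ha]; unfold sA
    rw [sum_div]
    refine sum_congr rfl fun i _ => ?_
    simp only [hθ]; ring
  have hs := small_term k t w a h.w0.le θ hθ0 hθ1 hθa haθ
  have hstep : ∑ i ∈ range k, ((((i + 1 : ℕ) : ℝ) * w) ^ t - ((i : ℝ) * w) ^ t) *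
      ((c + e i) ^ 2 - c ^ 2) ≤ (1 - c ^ 2) *
      ∑ i ∈ range k, ((((i + 1 : ℕ) : ℝ) * w) ^ t - ((i : ℝ) * w) ^ t) * θ i := by
    rw [mul_sum]
    refine sum_le_sum fun i hi => ?_
    have hi' := mem_range.1 hi
    have h3 : (c + e i) ^ 2 - c ^ 2 ≤ (1 - c ^ 2) * θ i := by
      have h4 : e i = (1 - c) * θ i := by simp only [hθ]; field_simp
      rw [h4]
      have h5 := hθ0 i hi'
      have h6 := hθ1 i hi'
      have h7 : 0 ≤ θ i * (1 - θ i) := mul_nonneg h5 (by linarith)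
      nlinarith [mul_nonneg (sq_nonneg (1 - c)) h7]
    calc _ ≤ ((((i + 1 : ℕ) : ℝ) * w) ^ t - ((i : ℝ) * w) ^ t) * ((1 - c ^ 2) * θ i) :=
          mul_le_mul_of_nonneg_left h3 (tau_nonneg t h.w0.le i)
      _ = _ := by ring
  refine hstep.trans ?_
  have h8 : 0 ≤ 1 - c ^ 2 := by nlinarith
  have h9 : 1 - c ^ 2 ≤ 1 := by nlinarith [sq_nonneg c]
  refine (mul_le_mul_of_nonneg_left hs h8).trans ?_
  rw [mul_add]
  have h10 : 0 ≤ 2 * t * ((k : ℝ) * w) ^ (t - 1) * ∑ i ∈ range k, w * (θ i * (1 - θ i)) := by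
    refine mul_nonneg (mul_nonneg (by positivity) (pow_nonneg (kw_nonneg h) _)) ?_
    exact sW_nonneg h hc
  have h11 : sW w k c e = ∑ i ∈ range k, w * (θ i * (1 - θ i)) := rfl
  rw [h11]
  nlinarith

/-- the key pointwise inequality -/
theorem key_pt {T : ℕ} {c η d : ℝ} (hc0 : 0 ≤ c) (hc : c < 1) (hη : 0 < η) (hcη : c + η < 1)
    (hk : (c + η) ^ T ≤ η / (1 - c)) (hd : c + η ≤ d) (hd1 : d ≤ 1) :
    d ^ (2 * T) - c ^ (2 * T) ≤ (1 - c ^ (2 * T)) * ((d - c) / (1 - c)) ^ 2 := by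
  have h1 : 0 < 1 - c := by linarith
  set v := (d - c) / (1 - c) with hv
  have hv0 : 0 ≤ v := div_nonneg (by linarith) h1.le
  have hv1 : v ≤ 1 := by rw [hv, div_le_one h1]; linarith
  have hd0 : 0 ≤ d := by linarith
  -- d^T ≤ v by convexity
  have hdv : d ^ T ≤ v := by
    set b := c + η with hb
    have hb1 : 0 < 1 - b := by linarith
    have hb0 : 0 ≤ b := by linarith
    set l := (1 - d) / (1 - b) with hl
    have hl0 : 0 ≤ l := div_nonneg (by linarith) hb1.le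
    have hl1 : 0 ≤ 1 - l := by
      rw [sub_nonneg, hl, div_le_one hb1]; linarith
    have hdl : d = l * b + (1 - l) * 1 := by
      rw [hl]; field_simp; ring
    have hconv := (convexOn_pow (𝕜 := ℝ) T).2 (x := b) (y := 1) hb0 (Set.mem_Ici.2 zero_le_one) hl0 hl1
      (by ring)
    simp only [smul_eq_mul, one_pow] at hconv
    rw [← hdl] at hconv
    refine hconv.trans ?_
    have h2 : l * b ^ T ≤ l * (η / (1 - c)) := mul_le_mul_of_nonneg_left hk hl0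
    have h3 : v = l * (η / (1 - c)) + (1 - l) * 1 := by
      rw [hv]
      have h4 : d - c = l * η + (1 - l) * (1 - c) := by
        have : η = b - c := by rw [hb]; ring
        rw [this, hdl]
        ring_nf
      rw [h4]; field_simp
    linarith
  have h5 : d ^ (2 * T) ≤ v ^ 2 := by
    rw [mul_comm, pow_mul]
    exact pow_le_pow_left₀ (pow_nonneg hd0 _) hdv 2
  have h6 : 0 ≤ c ^ (2 * T) := pow_nonneg hc0 _
  have h7 : v ^ 2 ≤ 1 := pow_le_one₀ hv0 hv1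
  nlinarith

/-- the main term of `K_{2,t}` for the tall vertices -/
theorem flat_main {T : ℕ} {η : ℝ} (h : GShape w k c e) (hc : c < 1) (hη : 0 < η)
    (hcη : c + η < 1) (hk : (c + η) ^ T ≤ η / (1 - c)) (l : ℕ) (hl : l ≤ k)
    (htall : ∀ i < l, η ≤ e i) :
    ∑ i ∈ range l, (2 * (i : ℝ) + 1) * w ^ 2 * ((c + e i) ^ (2 * T) - c ^ (2 * T)) ≤
      (1 - c ^ (2 * T)) * (sA w l e / (1 - c)) ^ 2 := by
  have h1 : 0 < 1 - c := by linarith
  have hc0 := c_nonneg h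
  have h2 : ∑ i ∈ range l, (2 * (i : ℝ) + 1) * w ^ 2 * ((c + e i) ^ (2 * T) - c ^ (2 * T)) ≤
      (1 - c ^ (2 * T)) * (w ^ 2 * ∑ i ∈ range l, (2 * (i : ℝ) + 1) * (e i / (1 - c)) ^ 2) := by
    rw [mul_sum, mul_sum]
    refine sum_le_sum fun i hi => ?_
    have hi' := mem_range.1 hi
    have h3 := key_pt hc0 hc hη hcη hk (d := c + e i) (by linarith [htall i hi'])
      (by linarith [h.le i (by omega)])
    have h4 : (c + e i - c) / (1 - c) = e i / (1 - c) := by congr 1; ring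
    rw [h4] at h3
    have h5 : 0 ≤ (2 * (i : ℝ) + 1) * w ^ 2 := by positivity
    calc _ ≤ (2 * (i : ℝ) + 1) * w ^ 2 * ((1 - c ^ (2 * T)) * (e i / (1 - c)) ^ 2) :=
          mul_le_mul_of_nonneg_left h3 h5
      _ = _ := by ring
  refine h2.trans ?_
  have h6 : 0 ≤ 1 - c ^ (2 * T) := sub_nonneg.2 (pow_le_one₀ hc0 hc.le)
  refine mul_le_mul_of_nonneg_left ?_ h6
  have h7 := sum_odd_sq_le l (fun i => e i / (1 - c))
    (fun i hi => div_nonneg (h.nn i (by omega)) h1.le)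
    (fun i j hij hj => div_le_div_of_nonneg_right (h.anti i j hij (by omega)) h1.le)
  have h8 : (sA w l e / (1 - c)) ^ 2 = w ^ 2 * (∑ i ∈ range l, e i / (1 - c)) ^ 2 := by
    unfold sA
    rw [← mul_sum, ← sum_div]; ring
  rw [h8]
  exact mul_le_mul_of_nonneg_left h7 (sq_nonneg w)

end flat

end Pool.Agent.Lib.Helper7.STK
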