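/-
MP_8790d8_co: the families, definitions and basic facts.
-/
import Pool.Agent.Lib.Helper7.STK.Shape

set_option autoImplicit false
open Finset

namespace Pool.Agent.Lib.Helper7.STK

/-- the parameter `u` of the family member of density `β` with `a` dominating vertices -/
noncomputable def uu (β a : ℝ) : ℝ := Real.sqrt (β - 2 * a + a ^ 2)

/-- value of the family member -/
noncomputable def PT (T m : ℕ) (β a : ℝ) : ℝ := (TM a (uu β a)) ^ m * TP (2 * T) a (uu β a)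

/-- the parameter of the quasi-star -/
noncomputable def rS (β : ℝ) : ℝ := 1 - Real.sqrt (1 - β)

/-- value of the quasi-star -/
noncomputable def PS (T m : ℕ) (β : ℝ) : ℝ := (TM (rS β) 0) ^ m * TP (2 * T) (rS β) 0

theorem PT_cont (T m : ℕ) : Continuous (fun p : ℝ × ℝ => PT T m p.1 p.2) := by
  unfold PT TM TP uu
  fun_prop

theorem PS_cont (T m : ℕ) : Continuous (fun β : ℝ => PS T m β) := by
  unfold PS TM TP rS
  fun_prop

/-- lower end of the window -/
noncomputable def bm : ℝ := (119 / 169) ^ 2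

/-- upper end of the window -/
noncomputable def bp : ℝ := (120 / 169) ^ 2

theorem bm_bp : bm < bp ∧ 0 < bm ∧ bp < 81 / 100 ∧ bm + bp = 1 ∧ bp < 505 / 1000 ∧
    495 / 1000 < bm := by
  unfold bm bp; norm_num

theorem TA_ge_sq {a u : ℝ} (ha : 0 ≤ a) (h : a + u ≤ 1) : (a + u) ^ 2 ≤ TA a u := by
  unfold TA; nlinarith

theorem uu_facts {β a : ℝ} (hβ : bm ≤ β) (hβ' : β ≤ 81 / 100) (ha : 0 ≤ a) (ha' : a ≤ 1 / 50) :
    (uu β a) ^ 2 = β - 2 * a + a ^ 2 ∧ 67 / 100 ≤ uu β a ∧ uu β a ≤ 9 / 10 ∧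
      a + uu β a ≤ 9 / 10 ∧ TA a (uu β a) = β := by
  have hb := bm_bp.2.2.2.2.2
  have h1 : 0 ≤ β - 2 * a + a ^ 2 := by nlinarith
  have h2 : (uu β a) ^ 2 = β - 2 * a + a ^ 2 := Real.sq_sqrt h1
  have h0 : 0 ≤ uu β a := Real.sqrt_nonneg _
  have h3 : 67 / 100 ≤ uu β a := by
    by_contra hcon
    push Not at hcon
    nlinarith
  have h4 : uu β a ≤ 9 / 10 := by
    by_contra hcon
    push Not at hcon
    nlinarith
  have hTA : TA a (uu β a) = β := by unfold TA; linarith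
  refine ⟨h2, h3, h4, ?_, hTA⟩
  have h5 := TA_ge_sq ha (show a + uu β a ≤ 1 by linarith)
  rw [hTA] at h5
  by_contra hcon
  push Not at hcon
  nlinarith

theorem rS_facts {β : ℝ} (hβ : 0 ≤ β) (hβ' : β ≤ 1) :
    0 ≤ rS β ∧ rS β ≤ 1 ∧ (1 - rS β) ^ 2 = 1 - β ∧ TA (rS β) 0 = β := by
  unfold rS
  have h0 : 0 ≤ Real.sqrt (1 - β) := Real.sqrt_nonneg _
  have h2 : Real.sqrt (1 - β) ^ 2 = 1 - β := Real.sq_sqrt (by linarith)
  have h1 : Real.sqrt (1 - β) ≤ 1 := by
    by_contra hcon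
    push Not at hcon
    nlinarith
  refine ⟨by linarith, by linarith, ?_, ?_⟩
  · rw [show 1 - (1 - Real.sqrt (1 - β)) = Real.sqrt (1 - β) by ring]; exact h2
  · unfold TA; linarith

/-- every shape of density at most `β` has value at most `v` -/
def Dom (T m : ℕ) (β v : ℝ) : Prop :=
  ∀ (w : ℝ) (k : ℕ) (c : ℝ) (e : ℕ → ℝ), GShape w k c e → k * w = c → area w k c e ≤ β →
    (M2 w k c e) ^ m * Ph (2 * T) w k c e ≤ v

end Pool.Agent.Lib.Helper7.STK
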