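/-
MP_8790d8_co: bounds for the values of a shape.
-/
import Pool.Agent.Lib.Helper7.STK.Shape

set_option autoImplicit false
open Finset

namespace Pool.Agent.Lib.Helper7.STK

section
variable {w : ℝ} {k : ℕ} {c : ℝ} {e : ℕ → ℝ}

theorem Ph_le_one (t : ℕ) (ht : 0 < t) (h : GShape w k c e) : Ph t w k c e ≤ 1 := by
  have hc0 := c_nonneg h
  have hc1 := h.c1
  have hkw := kw_nonneg h
  have h1 : ∑ i ∈ range k, (2 * (i : ℝ) + 1) * w ^ 2 * ((c + e i) ^ t - c ^ t) ≤
      (k * w) ^ 2 * (1 - c ^ t) := by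
    rw [← sum_odd_w w k, sum_mul]
    refine sum_le_sum fun i hi => ?_
    refine mul_le_mul_of_nonneg_left ?_ (by positivity)
    have h2 := h.le i (mem_range.1 hi)
    have h3 := h.nn i (mem_range.1 hi)
    have : (c + e i) ^ t ≤ 1 := pow_le_one₀ (by linarith) (by linarith)
    linarith
  have h2 : ∑ i ∈ range k, ((((i + 1 : ℕ) : ℝ) * w) ^ t - ((i : ℝ) * w) ^ t) *
      ((c + e i) ^ 2 - c ^ 2) ≤ (k * w) ^ t * (1 - c ^ 2) := by
    rw [← sum_tau t ht w k, sum_mul]
    refine sum_le_sum fun i hi => ?_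
    refine mul_le_mul_of_nonneg_left ?_ (tau_nonneg t h.w0.le i)
    have h2 := h.le i (mem_range.1 hi)
    have h3 := h.nn i (mem_range.1 hi)
    have : (c + e i) ^ 2 ≤ 1 := pow_le_one₀ (by linarith) (by linarith)
    linarith
  have h3 : (k * w) ^ 2 ≤ c ^ 2 := pow_le_pow_left₀ hkw h.kc 2
  have h4 : (k * w) ^ t ≤ c ^ t := pow_le_pow_left₀ hkw h.kc t
  have h5 : c ^ t ≤ 1 := pow_le_one₀ hc0 hc1
  have h6 : c ^ 2 ≤ 1 := pow_le_one₀ hc0 hc1
  unfold Ph
  have h7 := mul_le_mul_of_nonneg_right h3 (sub_nonneg.2 h5)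
  have h8 := mul_le_mul_of_nonneg_right h4 (sub_nonneg.2 h6)
  have h9 : c ^ (t + 2) = c ^ t * c ^ 2 := pow_add c t 2
  have h10 : 0 ≤ c ^ t := pow_nonneg hc0 t
  rw [h9]
  nlinarith

theorem Ph_nonneg (t : ℕ) (h : GShape w k c e) : 0 ≤ Ph t w k c e := by
  have hc0 := c_nonneg h
  unfold Ph
  refine add_nonneg (add_nonneg (pow_nonneg hc0 _) ?_) ?_
  · refine sum_nonneg fun i hi => mul_nonneg (by positivity) ?_
    have h3 := h.nn i (mem_range.1 hi)
    exact sub_nonneg.2 (pow_le_pow_left₀ hc0 (by linarith) t)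
  · refine sum_nonneg fun i hi => mul_nonneg (tau_nonneg t h.w0.le i) ?_
    have h3 := h.nn i (mem_range.1 hi)
    exact sub_nonneg.2 (pow_le_pow_left₀ hc0 (by linarith) 2)

theorem M2_nonneg (h : GShape w k c e) : 0 ≤ M2 w k c e := by
  have hc0 := c_nonneg h
  have := sA_nonneg h; have := sY_nonneg h; have := sX_nonneg h
  unfold M2; positivity

/-- Chebyshev for the mixed moment -/
theorem sX_le (h : GShape w k c e) : sX w k e ≤ k * w * sA w k e := by
  rcases Nat.eq_zero_or_pos k with hk | hk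
  · subst hk; simp [sX, sA]
  have hch := cheb k (fun i => (2 * (i : ℝ) + 1)) e
    (fun i j hij _ => by
      have : (i : ℝ) ≤ j := by exact_mod_cast hij
      show 2 * (i : ℝ) + 1 ≤ 2 * (j : ℝ) + 1
      linarith) h.anti
  rw [sum_odd] at hch
  have hk0 : (0 : ℝ) < k := by exact_mod_cast hk
  have h1 : ∑ i ∈ range k, (2 * (i : ℝ) + 1) * e i ≤ k * ∑ i ∈ range k, e i := by
    have : (k : ℝ) * ∑ i ∈ range k, (2 * (i : ℝ) + 1) * e i ≤
        k * (k * ∑ i ∈ range k, e i) := by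
      calc _ ≤ _ := hch
        _ = _ := by ring
    exact le_of_mul_le_mul_left this hk0
  have h2 := mul_le_mul_of_nonneg_left h1 (sq_nonneg w)
  unfold sX sA
  calc ∑ i ∈ range k, w * ((2 * (i : ℝ) + 1) * w) * e i =
        w ^ 2 * ∑ i ∈ range k, (2 * (i : ℝ) + 1) * e i := by
        rw [mul_sum]; exact sum_congr rfl fun i _ => by ring
    _ ≤ w ^ 2 * (k * ∑ i ∈ range k, e i) := h2
    _ = k * w * ∑ i ∈ range k, w * e i := by rw [← mul_sum]; ring

theorem M2_le_one (h : GShape w k c e) : M2 w k c e ≤ 1 := by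
  have hc0 := c_nonneg h
  have hc1 := h.c1
  have hkw := kw_nonneg h
  have hkc := h.kc
  have hA0 := sA_nonneg h
  have hA : sA w k e ≤ k * w * (1 - c) := by
    unfold sA
    calc ∑ i ∈ range k, w * e i ≤ ∑ i ∈ range k, w * (1 - c) :=
          sum_le_sum fun i hi => mul_le_mul_of_nonneg_left (h.le i (mem_range.1 hi)) h.w0.le
      _ = k * w * (1 - c) := by simp; ring
  have hA' : sA w k e ≤ c * (1 - c) := by nlinarith
  have hY : sY w k e ≤ (1 - c) * sA w k e := by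
    unfold sY sA
    rw [mul_sum]
    refine sum_le_sum fun i hi => ?_
    have h1 := h.le i (mem_range.1 hi)
    have h2 := h.nn i (mem_range.1 hi)
    have h3 : (e i) ^ 2 ≤ (1 - c) * e i := by nlinarith
    have := mul_le_mul_of_nonneg_left h3 h.w0.le
    linarith
  have hX := sX_le h
  have hX' : sX w k e ≤ c * sA w k e := by nlinarith
  have h1 : M2 w k c e ≤ c ^ 3 + (1 + 2 * c) * sA w k e := by
    unfold M2; linarith
  have h2 : (1 + 2 * c) * sA w k e ≤ (1 + 2 * c) * (c * (1 - c)) :=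
    mul_le_mul_of_nonneg_left hA' (by linarith)
  have h3 : c ^ 3 + (1 + 2 * c) * (c * (1 - c)) ≤ 1 := by
    have : 1 - (c ^ 3 + (1 + 2 * c) * (c * (1 - c))) = (1 - c) * ((1 - c) * (1 + c)) := by ring
    nlinarith [mul_nonneg (sub_nonneg.2 hc1) (mul_nonneg (sub_nonneg.2 hc1)
      (show 0 ≤ 1 + c by linarith))]
  linarith

end

end Pool.Agent.Lib.Helper7.STK
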