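/-
MP_8790d8_co: scaling of shapes.
-/
import Pool.Agent.Lib.Helper7.STK.FamDefs
import Pool.Agent.Lib.Helper7.STK.ShapeB

set_option autoImplicit false
open Finset

namespace Pool.Agent.Lib.Helper7.STK

/-! ### Scaling -/

section scale
variable {w : ℝ} {k : ℕ} {c : ℝ} {e : ℕ → ℝ} {σ : ℝ}

theorem GShape.scale (h : GShape w k c e) (h0 : 0 < σ) (h1 : σ ≤ 1) :
    GShape (σ * w) k (σ * c) (fun i => σ * e i) := by
  refine ⟨mul_pos h0 h.w0, ?_, ?_, ?_, ?_, ?_⟩
  · have := mul_le_mul_of_nonneg_left h.kc h0.le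
    linarith
  · have := mul_le_mul_of_nonneg_left h.c1 h0.le
    linarith
  · intro i hi; exact mul_nonneg h0.le (h.nn i hi)
  · intro i hi
    have := mul_le_mul_of_nonneg_left (h.le i hi) h0.le
    show σ * e i ≤ 1 - σ * c
    linarith
  · intro i j hij hj
    exact mul_le_mul_of_nonneg_left (h.anti i j hij hj) h0.le

theorem sA_scale : sA (σ * w) k (fun i => σ * e i) = σ ^ 2 * sA w k e := by
  unfold sA; rw [mul_sum]; exact sum_congr rfl fun i _ => by ring

theorem area_scale : area (σ * w) k (σ * c) (fun i => σ * e i) = σ ^ 2 * area w k c e := by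
  unfold area; rw [sA_scale]; ring

theorem M2_scale : M2 (σ * w) k (σ * c) (fun i => σ * e i) = σ ^ 3 * M2 w k c e := by
  have hY : sY (σ * w) k (fun i => σ * e i) = σ ^ 3 * sY w k e := by
    unfold sY; rw [mul_sum]; exact sum_congr rfl fun i _ => by ring
  have hX : sX (σ * w) k (fun i => σ * e i) = σ ^ 3 * sX w k e := by
    unfold sX; rw [mul_sum]; exact sum_congr rfl fun i _ => by ring
  unfold M2; rw [sA_scale, hY, hX]; ring

theorem Ph_scale (t : ℕ) : Ph t (σ * w) k (σ * c) (fun i => σ * e i) =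
    σ ^ (t + 2) * Ph t w k c e := by
  unfold Ph
  rw [mul_add, mul_add, mul_sum, mul_sum]
  congr 1
  · congr 1
    · rw [mul_pow]
    · refine sum_congr rfl fun i _ => ?_
      have : σ * c + σ * e i = σ * (c + e i) := by ring
      simp only [this, mul_pow]
      rw [pow_add]; ring
  · refine sum_congr rfl fun i _ => ?_
    have h1 : σ * c + σ * e i = σ * (c + e i) := by ring
    have h2 : ∀ x : ℝ, x * (σ * w) = σ * (x * w) := fun x => by ring
    simp only [h1, h2, mul_pow]
    rw [pow_add]; ring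

end scale

end Pool.Agent.Lib.Helper7.STK
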