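/-
MP_8790d8_co: the star side.
-/
import Pool.Agent.Lib.Helper7.STK.FamDefs
import Pool.Agent.Lib.Helper7.STK.ShapeB

set_option autoImplicit false
open Finset

namespace Pool.Agent.Lib.Helper7.STK

/-- numerical conditions on the parameters `t = 2 T` and `m` -/
structure Par (T m : ℕ) : Prop where
  T5 : 5 ≤ T
  pS : 2 * ((2 * T : ℕ) : ℝ) * (12 * (4 / 5) ^ (2 * T - 2) + 2 * (2 / 5) ^ (2 * T - 3)) ≤
    6 / 100 * m
  pT : 16 * ((2 * T : ℕ) : ℝ) * (1 / 2) ^ (2 * T - 2) ≤ 1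
  gap : (1 - 2 / 10 ^ 10 : ℝ) ^ m < (1 / 4) ^ (T + 1)
  pm : 144 * ((2 * T : ℕ) : ℝ) ^ 2 ≤ m
  T100 : T = 100
  m12 : (m : ℝ) = 10 ^ 12

/-! ### Elementary facts on the families -/

theorem TM_comp (a u : ℝ) :
    TM a u = 2 * TA a u - 1 + ((1 - a) ^ 3 - 2 * u ^ 2 * (1 - a) + u ^ 3) := by
  unfold TM TA; ring

theorem TM_le_one {a u : ℝ} (ha : 0 ≤ a) (hu : 0 ≤ u) (h : a + u ≤ 1) : TM a u ≤ 1 := by
  have h1 : TM a u ≤ TM a (1 - a) := by
    unfold TM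
    have h2 : u ≤ 1 - a := by linarith
    have h3 : u ^ 3 ≤ (1 - a) ^ 3 := pow_le_pow_left₀ hu h2 3
    have h4 : u ^ 2 ≤ (1 - a) ^ 2 := pow_le_pow_left₀ hu h2 2
    nlinarith [mul_le_mul_of_nonneg_right h4 ha]
  refine h1.trans (le_of_eq ?_)
  unfold TM; ring

theorem TP_eq (t : ℕ) (a u : ℝ) : TP t a u = a ^ 2 + (1 - a ^ 2) * a ^ t +
    ((a + u) ^ 2 - a ^ 2) * ((a + u) ^ t - a ^ t) := by
  unfold TP; ring

theorem TP_eq' (t : ℕ) (a c : ℝ) : TP t a (c - a) = c ^ (t + 2) + a ^ 2 * (1 - c ^ t) +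
    (1 - c ^ 2) * a ^ t := by
  unfold TP
  have : a + (c - a) = c := by ring
  rw [this]; ring

/-- comparison with the quasi-star, first functional -/
theorem TM_le_S {a u ρ : ℝ} (ha : 0 ≤ a) (hu : 0 ≤ u) (h : a + u ≤ 1 / 2) (hρ1 : ρ ≤ 1)
    (hρ0 : 0 ≤ ρ) (hA : TA a u = TA ρ 0) : TM a u + u ^ 2 / 32 ≤ TM ρ 0 := by
  rw [TM_comp a u, TM_comp ρ 0, hA]
  set b := 1 - a with hb
  set σ := 1 - ρ with hσ
  have hσb : σ ^ 2 = b ^ 2 - u ^ 2 := by
    unfold TA at hA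
    rw [hσ, hb]; linear_combination hA
  have hσ0 : 0 ≤ σ := by linarith
  have hσ1 : σ ≤ 1 := by linarith
  set Y := b ^ 3 - 2 * u ^ 2 * b + u ^ 3 with hY
  set X := σ ^ 3 with hX
  have hX0 : 0 ≤ X := pow_nonneg hσ0 3
  have hX1 : X ≤ 1 := pow_le_one₀ hσ0 hσ1
  have hXY : X ^ 2 - Y ^ 2 = u ^ 2 * (b - u) ^ 2 * (b ^ 2 - 2 * u ^ 2) := by
    have : X ^ 2 = (σ ^ 2) ^ 3 := by rw [hX]; ring
    rw [this, hσb, hY]; ring
  have hbu : 1 / 2 ≤ b - u := by linarith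
  have hb2 : 1 / 4 ≤ b ^ 2 - 2 * u ^ 2 := by
    have hu2 : u ≤ 1 / 2 - a := by linarith
    have : u ^ 2 ≤ (1 / 2 - a) ^ 2 := pow_le_pow_left₀ hu hu2 2
    have ha2 : a ≤ 1 / 2 := by linarith
    have ha3 : a ^ 2 ≤ (1 / 2) ^ 2 := pow_le_pow_left₀ ha ha2 2
    rw [hb]; linarith
  have hlow : u ^ 2 / 16 ≤ X ^ 2 - Y ^ 2 := by
    rw [hXY]
    have h1 : 1 / 4 ≤ (b - u) ^ 2 := by
      have h1' : (1 / 2 : ℝ) ^ 2 ≤ (b - u) ^ 2 := pow_le_pow_left₀ (by norm_num) hbu 2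
      linarith
    have h2 : 1 / 16 ≤ (b - u) ^ 2 * (b ^ 2 - 2 * u ^ 2) := by
      have h2' := mul_le_mul h1 hb2 (by norm_num) (sq_nonneg (b - u))
      linarith
    have := mul_le_mul_of_nonneg_left h2 (sq_nonneg u)
    linarith
  have hYX : Y ≤ X := by
    by_contra hcon
    push Not at hcon
    have : X ^ 2 < Y ^ 2 := pow_lt_pow_left₀ hcon hX0 (by norm_num)
    linarith [sq_nonneg u]
  have h3 : (X - Y) * (X + Y) ≤ (X - Y) * 2 :=
    mul_le_mul_of_nonneg_left (by linarith) (by linarith)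
  have h4 : (X - Y) * (X + Y) = X ^ 2 - Y ^ 2 := by ring
  have h5 : (σ ^ 3 - 2 * (0 : ℝ) ^ 2 * σ + 0 ^ 3) = X := by rw [hX]; ring
  rw [h5]
  linarith

theorem rho_facts {a u ρ : ℝ} (ha : 0 ≤ a) (hu : 0 ≤ u) (h : a + u ≤ 1) (hρ1 : ρ ≤ 1)
    (hρ0 : 0 ≤ ρ) (hA : TA a u = TA ρ 0) : a ≤ ρ ∧ u ^ 2 / 2 ≤ ρ - a ∧
      (a + u) ^ 2 / 2 ≤ ρ := by
  have h1 : (ρ - a) * (2 - ρ - a) = u ^ 2 := by
    unfold TA at hA; nlinarith
  have h2 : a ≤ ρ := by
    by_contra hcon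
    push Not at hcon
    have h3 : (ρ - a) * (2 - ρ - a) < 0 ∨ 2 - ρ - a = 0 := by
      rcases eq_or_lt_of_le (show 0 ≤ 2 - ρ - a by linarith) with h | h
      · right; exact h.symm
      · left; exact mul_neg_of_neg_of_pos (by linarith) h
    rcases h3 with h3 | h3
    · nlinarith [sq_nonneg u]
    · linarith
  refine ⟨h2, ?_, ?_⟩
  · have h3 : (ρ - a) * (2 - ρ - a) ≤ (ρ - a) * 2 :=
      mul_le_mul_of_nonneg_left (by linarith) (by linarith)
    linarith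
  · have h4 := TA_ge_sq ha h
    rw [hA] at h4
    unfold TA at h4
    nlinarith [sq_nonneg ρ]

/-- comparison with the quasi-star, second functional -/
theorem TP_le_S {T m : ℕ} (hP : Par T m) {a u ρ : ℝ} (ha : 0 ≤ a) (hu : 0 ≤ u)
    (h : a + u ≤ 1 / 2) (hρ1 : ρ ≤ 1)
    (hρ0 : 0 ≤ ρ) (hA : TA a u = TA ρ 0) : TP (2 * T) a u ≤ TP (2 * T) ρ 0 := by
  obtain ⟨haρ, hρa, hcρ⟩ := rho_facts ha hu (by linarith) hρ1 hρ0 hA
  set t := 2 * T with ht
  have hT := hP.T5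
  have ht10 : 10 ≤ t := by omega
  rw [TP_eq, TP_eq]
  set c := a + u with hc
  have hc0 : 0 ≤ c := by linarith
  have hρ2 : ρ ≤ 1 / 2 := by
    unfold TA at hA
    have hu2 : u ^ 2 ≤ (1 / 2 - a) ^ 2 := pow_le_pow_left₀ hu (by linarith) 2
    by_contra hcon
    push Not at hcon
    nlinarith
  have hρt : ρ ^ t ≤ 1 / 2 := by
    calc ρ ^ t ≤ (1 / 2) ^ t := pow_le_pow_left₀ hρ0 hρ2 t
      _ ≤ (1 / 2) ^ 1 := pow_le_pow_of_le_one (by norm_num) (by norm_num) (by omega)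
      _ = 1 / 2 := by norm_num
  -- the main difference
  have e1 : ρ ^ 2 + (1 - ρ ^ 2) * ρ ^ t - (a ^ 2 + (1 - a ^ 2) * a ^ t) =
      (ρ ^ 2 - a ^ 2) * (1 - ρ ^ t) + (1 - a ^ 2) * (ρ ^ t - a ^ t) := by ring
  have h1 : 0 ≤ (1 - a ^ 2) * (ρ ^ t - a ^ t) :=
    mul_nonneg (by nlinarith) (sub_nonneg.2 (pow_le_pow_left₀ ha haρ t))
  have h2 : u ^ 2 * ρ / 2 ≤ ρ ^ 2 - a ^ 2 := by
    have : ρ ^ 2 - a ^ 2 = (ρ - a) * (ρ + a) := by ring
    rw [this]
    have h3 : u ^ 2 / 2 * ρ ≤ (ρ - a) * (ρ + a) :=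
      mul_le_mul hρa (by linarith) hρ0 (by linarith)
    linarith
  have h4 : u ^ 2 * ρ / 4 ≤ (ρ ^ 2 - a ^ 2) * (1 - ρ ^ t) := by
    have h5 : 0 ≤ ρ ^ 2 - a ^ 2 := le_trans (by positivity) h2
    nlinarith
  -- the error
  have h6 : (c ^ 2 - a ^ 2) * (c ^ t - a ^ t) ≤ 2 * t * c ^ t * u ^ 2 := by
    have h7 : c ^ 2 - a ^ 2 ≤ 2 * c * u := by
      have : u = c - a := by rw [hc]; ring
      rw [this]; nlinarith [sq_nonneg (c - a)]
    have h8 := pow_sub_le t ha (show a ≤ c by linarith)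
    have h9 : c - a = u := by rw [hc]; ring
    rw [h9] at h8
    have h10 : 0 ≤ c ^ t - a ^ t := sub_nonneg.2 (pow_le_pow_left₀ ha (by linarith) t)
    calc (c ^ 2 - a ^ 2) * (c ^ t - a ^ t) ≤ (2 * c * u) * (t * c ^ (t - 1) * u) :=
          mul_le_mul h7 h8 h10 (by positivity)
      _ = 2 * t * (c * c ^ (t - 1)) * u ^ 2 := by ring
      _ = 2 * t * c ^ t * u ^ 2 := by
          rw [← pow_succ']; congr 3; omega
  have h11 : 2 * t * c ^ t ≤ ρ / 4 := by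
    have h12 : c ^ t = c ^ 2 * c ^ (t - 2) := by rw [← pow_add]; congr 1; omega
    have h13 : c ^ (t - 2) ≤ (1 / 2) ^ (t - 2) := pow_le_pow_left₀ hc0 h _
    have h14 := hP.pT
    rw [← ht] at h14
    have h15 : 16 * (t : ℝ) * c ^ (t - 2) ≤ 1 :=
      (mul_le_mul_of_nonneg_left h13 (by positivity)).trans h14
    rw [h12]
    have h16 : 2 * t * (c ^ 2 * c ^ (t - 2)) = (c ^ 2 / 8) * (16 * t * c ^ (t - 2)) := by ring
    rw [h16]
    have h17 : (c ^ 2 / 8) * (16 * t * c ^ (t - 2)) ≤ (c ^ 2 / 8) * 1 :=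
      mul_le_mul_of_nonneg_left h15 (by positivity)
    linarith
  have h18 : 2 * t * c ^ t * u ^ 2 ≤ ρ / 4 * u ^ 2 := mul_le_mul_of_nonneg_right h11 (sq_nonneg u)
  have h19 : (ρ + 0) ^ 2 - ρ ^ 2 = 0 := by ring
  rw [h19, zero_mul, add_zero]
  linarith

/-! ### Shapes -/

section
variable {w : ℝ} {k : ℕ} {c : ℝ} {e : ℕ → ℝ}

theorem Ph_ge (t : ℕ) (h : GShape w k c e) : c ^ (t + 2) ≤ Ph t w k c e := by
  have hc0 := c_nonneg h
  unfold Ph
  have h1 : 0 ≤ ∑ i ∈ range k, (2 * (i : ℝ) + 1) * w ^ 2 * ((c + e i) ^ t - c ^ t) := by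
    refine sum_nonneg fun i hi => mul_nonneg (by positivity) ?_
    have h3 := h.nn i (mem_range.1 hi)
    exact sub_nonneg.2 (pow_le_pow_left₀ hc0 (by linarith) t)
  have h2 : 0 ≤ ∑ i ∈ range k, ((((i + 1 : ℕ) : ℝ) * w) ^ t - ((i : ℝ) * w) ^ t) *
      ((c + e i) ^ 2 - c ^ 2) := by
    refine sum_nonneg fun i hi => mul_nonneg (tau_nonneg t h.w0.le i) ?_
    have h3 := h.nn i (mem_range.1 hi)
    exact sub_nonneg.2 (pow_le_pow_left₀ hc0 (by linarith) 2)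
  linarith

theorem a_facts (h : GShape w k c e) (hc : c < 1) {a : ℝ} (ha : a = sA w k e / (1 - c)) :
    0 ≤ a ∧ a ≤ k * w := by
  have h1 : 0 < 1 - c := by linarith
  refine ⟨by rw [ha]; exact div_nonneg (sA_nonneg h) h1.le, ?_⟩
  rw [ha, div_le_iff₀ h1]
  unfold sA
  calc ∑ i ∈ range k, w * e i ≤ ∑ i ∈ range k, w * (1 - c) :=
        sum_le_sum fun i hi => mul_le_mul_of_nonneg_left (h.le i (mem_range.1 hi)) h.w0.le
    _ = k * w * (1 - c) := by simp; ring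

/-- the number of tall vertices -/
theorem exists_split (h : Anti k e) (η : ℝ) : ∃ l ≤ k, (∀ i < l, η ≤ e i) ∧
    ∀ i, l ≤ i → i < k → e i < η := by
  classical
  induction k with
  | zero => exact ⟨0, le_rfl, fun i hi => absurd hi (by omega), fun i _ hi => absurd hi (by omega)⟩
  | succ k ih =>
    by_cases hk : η ≤ e k
    · exact ⟨k + 1, le_rfl, fun i hi => hk.trans (h i k (by omega) (by omega)),
        fun i h1 h2 => absurd h2 (by omega)⟩
    · obtain ⟨l, hl, h1, h2⟩ := ih (h.mono (Nat.le_succ k))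
      refine ⟨l, by omega, h1, fun i hi1 hi2 => ?_⟩
      by_cases hik : i = k
      · rw [hik]; exact not_le.1 hk
      · exact h2 i hi1 (by omega)

/-- split of a sum over `range k` at `l` -/
theorem sum_split {l : ℕ} (hl : l ≤ k) (f : ℕ → ℝ) :
    ∑ i ∈ range k, f i = ∑ i ∈ range l, f i + ∑ i ∈ range (k - l), f (l + i) := by
  have : k = l + (k - l) := by omega
  conv_lhs => rw [this]
  rw [sum_range_add]

theorem side_aux1 {ρ : ℝ} (h0 : 0 ≤ ρ) (h1 : ρ ≤ 1) : TM ρ 0 ≤ 2 * ρ := by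
  unfold TM; nlinarith [pow_nonneg h0 3]

theorem side_aux2 {ρ : ℝ} (h0 : 0 < ρ) (h1 : ρ ≤ 1) : 0 < TM ρ 0 := by
  unfold TM
  have : 0 < ρ ^ 3 + ρ := by positivity
  nlinarith [mul_nonneg h0.le (mul_nonneg h0.le (sub_nonneg.2 h1))]

theorem side_aux3 {ρ : ℝ} (h0 : 0 ≤ ρ) (h1 : ρ ≤ 1) : 0 ≤ 1 - ρ ^ 2 := by
  have := pow_le_one₀ (n := 2) h0 h1
  linarith

/-- the star side for small cliques -/
theorem star_side {T m : ℕ} (hP : Par T m) (h : GShape w k c e) (hkc : k * w = c)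
    (hc : c ≤ 2 / 5) {ρ : ℝ} (hρ0 : 0 ≤ ρ) (hρ1 : ρ ≤ 1) (hA : area w k c e = TA ρ 0) :
    (M2 w k c e) ^ m * Ph (2 * T) w k c e ≤ (TM ρ 0) ^ m * TP (2 * T) ρ 0 := by
  have hT := hP.T5
  set t := 2 * T with ht
  have ht10 : 10 ≤ t := by omega
  have hc1 : c < 1 := by linarith
  have hc0 := c_nonneg h
  have h1c : 0 < 1 - c := by linarith
  set a := sA w k e / (1 - c) with ha
  obtain ⟨ha0, hac⟩ := a_facts h hc1 ha
  rw [hkc] at hac
  have hTA : TA a (c - a) = TA ρ 0 := by rw [TA_flat hc1 ha, hA]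
  have hau : a + (c - a) ≤ 1 / 2 := by linarith
  have hM := TM_le_S ha0 (by linarith) hau hρ1 hρ0 hTA
  have hPle := TP_le_S hP ha0 (by linarith) hau hρ1 hρ0 hTA
  obtain ⟨_, _, hcρ⟩ := rho_facts ha0 (by linarith : 0 ≤ c - a) (by linarith) hρ1 hρ0 hTA
  have hcρ' : c ^ 2 / 2 ≤ ρ := by
    have : a + (c - a) = c := by ring
    rwa [this] at hcρ
  have hgain := flat_gain h hc1 ha
  rw [hkc] at hgain
  set W := sW w k c e with hW
  have hW0 : 0 ≤ W := sW_nonneg h hc1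
  have hsmall := flat_small t h hc1 ha
  rw [hkc, ← hW] at hsmall
  -- trivial case `c = 0`
  rcases eq_or_lt_of_le hc0 with hc00 | hcpos
  · have hk0 : k = 0 := by
      have : (k : ℝ) * w = 0 := by rw [hkc, ← hc00]
      rcases mul_eq_zero.1 this with h' | h'
      · exact_mod_cast h'
      · exact absurd h' h.w0.ne'
    subst hk0
    have hM0 : M2 w 0 c e = 0 := by unfold M2 sA sY sX; simp [← hc00]
    have hP0 : Ph t w 0 c e = 0 := by unfold Ph; simp [← hc00]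
    rw [hM0, hP0, mul_zero]
    refine mul_nonneg (pow_nonneg ?_ _) ?_
    · have h2' := M2_nonneg h
      rw [hM0] at hgain
      have h3' : 0 ≤ (1 - c - c) * (1 - c) * W :=
        mul_nonneg (mul_nonneg (by linarith) h1c.le) hW0
      linarith [sq_nonneg (c - a)]
    · rw [TP_eq]
      have : (ρ + 0) ^ 2 - ρ ^ 2 = 0 := by ring
      rw [this, zero_mul, add_zero]
      have := pow_nonneg hρ0 t
      have : 0 ≤ 1 - ρ ^ 2 := side_aux3 hρ0 hρ1
      positivity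
  have hρpos : 0 < ρ := lt_of_lt_of_le (by positivity) hcρ'
  -- the main term
  obtain ⟨l, hl, htall, hlow⟩ := exists_split h.anti c
  have hcc : c + c < 1 := by linarith
  have hkey : (c + c) ^ T ≤ c / (1 - c) := by
    have e1 : (c + c) ^ T = (2 * c) * (2 * c) ^ (T - 1) := by
      rw [← pow_succ']; congr 1
      · ring
      · omega
    have e2 : (2 * c) ^ (T - 1) ≤ 1 / 2 := by
      calc (2 * c) ^ (T - 1) ≤ (4 / 5) ^ (T - 1) := pow_le_pow_left₀ (by linarith) (by linarith) _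
        _ ≤ (4 / 5) ^ 4 := pow_le_pow_of_le_one (by norm_num) (by norm_num) (by omega)
        _ ≤ 1 / 2 := by norm_num
    rw [e1, le_div_iff₀ h1c]
    have : 2 * c * (2 * c) ^ (T - 1) ≤ 2 * c * (1 / 2) := mul_le_mul_of_nonneg_left e2 (by linarith)
    have h3 : 0 ≤ 2 * c * (2 * c) ^ (T - 1) := by positivity
    have h4 : 2 * c * (2 * c) ^ (T - 1) * (1 - c) ≤ 2 * c * (2 * c) ^ (T - 1) * 1 :=
      mul_le_mul_of_nonneg_left (by linarith) h3
    linarith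
  have hmain := flat_main h hc1 hcpos hcc hkey l hl htall
  set Al := ∑ i ∈ range (k - l), w * e (l + i) with hAl
  have hAl0 : 0 ≤ Al := sum_nonneg fun i hi => mul_nonneg h.w0.le
    (h.nn _ (by have := mem_range.1 hi; omega))
  have hAsplit : sA w k e = sA w l e + Al := sum_split hl _
  have hA1 : 0 ≤ sA w l e := sum_nonneg fun i hi => mul_nonneg h.w0.le
    (h.nn _ (by have := mem_range.1 hi; omega))
  -- low vertices
  have hlowP : ∑ i ∈ range (k - l), (2 * ((l + i : ℕ) : ℝ) + 1) * w ^ 2 *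
      ((c + e (l + i)) ^ t - c ^ t) ≤ t * (2 * c) ^ t * Al := by
    rw [hAl, mul_sum]
    refine sum_le_sum fun i hi => ?_
    have hi' := mem_range.1 hi
    have hik : l + i < k := by omega
    have he0 := h.nn (l + i) hik
    have hec := (hlow (l + i) (by omega) hik).le
    have h3 := pow_sub_le t hc0 (show c ≤ c + e (l + i) by linarith)
    have h4 : c + e (l + i) - c = e (l + i) := by ring
    rw [h4] at h3
    have h5 : (c + e (l + i)) ^ (t - 1) ≤ (2 * c) ^ (t - 1) :=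
      pow_le_pow_left₀ (by linarith) (by linarith) _
    have h6 : (2 * ((l + i : ℕ) : ℝ) + 1) * w ≤ 2 * c := by
      rw [← hkc]
      have : ((l + i : ℕ) : ℝ) + 1 ≤ k := by exact_mod_cast hik
      have h6' : (2 * ((l + i : ℕ) : ℝ) + 1) * w ≤ (2 * k) * w :=
        mul_le_mul_of_nonneg_right (by linarith) h.w0.le
      linarith
    have h7 : (c + e (l + i)) ^ t - c ^ t ≤ t * (2 * c) ^ (t - 1) * e (l + i) :=
      h3.trans (mul_le_mul_of_nonneg_right (mul_le_mul_of_nonneg_left h5 (by positivity)) he0)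
    have h8 : 0 ≤ (2 * ((l + i : ℕ) : ℝ) + 1) * w := mul_nonneg (by positivity) h.w0.le
    calc (2 * ((l + i : ℕ) : ℝ) + 1) * w ^ 2 * ((c + e (l + i)) ^ t - c ^ t)
        = ((2 * ((l + i : ℕ) : ℝ) + 1) * w) * (w * ((c + e (l + i)) ^ t - c ^ t)) := by ring
      _ ≤ (2 * c) * (w * (t * (2 * c) ^ (t - 1) * e (l + i))) := by
          refine mul_le_mul h6 (mul_le_mul_of_nonneg_left h7 h.w0.le) ?_ (by linarith)
          exact mul_nonneg h.w0.le (sub_nonneg.2 (pow_le_pow_left₀ hc0 (by linarith) t))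
      _ = t * ((2 * c) * (2 * c) ^ (t - 1)) * (w * e (l + i)) := by ring
      _ = t * (2 * c) ^ t * (w * e (l + i)) := by rw [← pow_succ']; congr 3; omega
  -- variance bound
  have hWl : Al ≤ 3 * W := by
    have h3 : W = sW w l c e + ∑ i ∈ range (k - l),
        w * (e (l + i) / (1 - c) * (1 - e (l + i) / (1 - c))) := sum_split hl _
    have h4 : 0 ≤ sW w l c e := by
      refine sum_nonneg fun i hi => mul_nonneg h.w0.le (mul_nonneg ?_ ?_)
      · exact div_nonneg (h.nn i (by have := mem_range.1 hi; omega)) h1c.le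
      · rw [sub_nonneg, div_le_one h1c]; exact h.le i (by have := mem_range.1 hi; omega)
    have h5 : Al ≤ 3 * ∑ i ∈ range (k - l),
        w * (e (l + i) / (1 - c) * (1 - e (l + i) / (1 - c))) := by
      rw [hAl, mul_sum]
      refine sum_le_sum fun i hi => ?_
      have hi' := mem_range.1 hi
      have hik : l + i < k := by omega
      have he0 := h.nn (l + i) hik
      have hec := (hlow (l + i) (by omega) hik).le
      have h6 : e (l + i) / (1 - c) ≤ 2 / 3 := by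
        rw [div_le_iff₀ h1c]; linarith
      have h7 : e (l + i) ≤ e (l + i) / (1 - c) := by
        rw [le_div_iff₀ h1c]
        have := mul_le_mul_of_nonneg_left (by linarith : 1 - c ≤ 1) he0
        linarith
      have h8 : 0 ≤ e (l + i) / (1 - c) := div_nonneg he0 h1c.le
      have h9 : e (l + i) ≤ 3 * (e (l + i) / (1 - c) * (1 - e (l + i) / (1 - c))) := by
        have h10 : e (l + i) / (1 - c) * (1 / 3) ≤
            e (l + i) / (1 - c) * (1 - e (l + i) / (1 - c)) :=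
          mul_le_mul_of_nonneg_left (by linarith) h8
        linarith
      have := mul_le_mul_of_nonneg_left h9 h.w0.le
      linarith
    linarith
  -- assemble
  have hPh : Ph t w k c e ≤ TP t ρ 0 + (3 * t * (2 * c) ^ t + 2 * t * c ^ (t - 1)) * W := by
    have h3 : Ph t w k c e = c ^ (t + 2) +
        (∑ i ∈ range l, (2 * (i : ℝ) + 1) * w ^ 2 * ((c + e i) ^ t - c ^ t) +
        ∑ i ∈ range (k - l), (2 * ((l + i : ℕ) : ℝ) + 1) * w ^ 2 *
          ((c + e (l + i)) ^ t - c ^ t)) +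
        ∑ i ∈ range k, ((((i + 1 : ℕ) : ℝ) * w) ^ t - ((i : ℝ) * w) ^ t) *
          ((c + e i) ^ 2 - c ^ 2) := by
      unfold Ph
      rw [sum_split hl (fun i => (2 * (i : ℝ) + 1) * w ^ 2 * ((c + e i) ^ t - c ^ t))]
    have h4 : (sA w l e / (1 - c)) ^ 2 ≤ a ^ 2 := by
      refine pow_le_pow_left₀ (div_nonneg hA1 h1c.le) ?_ 2
      rw [ha]
      exact div_le_div_of_nonneg_right (by linarith) h1c.le
    have h5 : 0 ≤ 1 - c ^ t := sub_nonneg.2 (pow_le_one₀ hc0 hc1.le)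
    have h6 := mul_le_mul_of_nonneg_left h4 h5
    have h7 : t * (2 * c) ^ t * Al ≤ t * (2 * c) ^ t * (3 * W) :=
      mul_le_mul_of_nonneg_left hWl (by positivity)
    have h8 := TP_eq' t a c
    rw [h3]
    linarith
  have hM0 := M2_nonneg h
  have hdiff : 12 / 100 * W ≤ TM ρ 0 - M2 w k c e := by
    have h3 : 12 / 100 ≤ (1 - c - c) * (1 - c) := by
      have h3' : (1 / 5 : ℝ) * (3 / 5) ≤ (1 - c - c) * (1 - c) :=
        mul_le_mul (by linarith) (by linarith) (by norm_num) (by linarith)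
      linarith
    have h4 : 12 / 100 * W ≤ (1 - c - c) * (1 - c) * W := mul_le_mul_of_nonneg_right h3 hW0
    have h5 := sq_nonneg (c - a)
    linarith
  have hTMρ : TM ρ 0 ≤ 2 * ρ := side_aux1 hρ0 hρ1
  have hTMpos : 0 < TM ρ 0 := side_aux2 hρpos hρ1
  have hTPρ : ρ ^ 2 ≤ TP t ρ 0 := by
    rw [TP_eq]
    have : (ρ + 0) ^ 2 - ρ ^ 2 = 0 := by ring
    rw [this, zero_mul, add_zero]
    have h3 := pow_nonneg hρ0 t
    have : 0 ≤ 1 - ρ ^ 2 := side_aux3 hρ0 hρ1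
    linarith [mul_nonneg this h3]
  refine prod_le hM0 hTMpos (by linarith [mul_nonneg (by norm_num : (0:ℝ) ≤ 12/100) hW0])
    (lt_of_lt_of_le (by positivity) hTPρ) ?_
  -- numerical comparison
  have hnum : (3 * t * (2 * c) ^ t + 2 * t * c ^ (t - 1)) * 2 ≤ 12 / 100 * m * ρ := by
    have e1 : (2 * c) ^ t ≤ 4 * c ^ 2 * (4 / 5) ^ (t - 2) := by
      have : (2 * c) ^ t = (2 * c) ^ 2 * (2 * c) ^ (t - 2) := by
        rw [← pow_add]; congr 1; omega
      rw [this]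
      have h3 : (2 * c) ^ (t - 2) ≤ (4 / 5) ^ (t - 2) :=
        pow_le_pow_left₀ (by linarith) (by linarith) _
      calc (2 * c) ^ 2 * (2 * c) ^ (t - 2) ≤ (2 * c) ^ 2 * (4 / 5) ^ (t - 2) :=
            mul_le_mul_of_nonneg_left h3 (sq_nonneg _)
        _ = _ := by ring
    have e2 : c ^ (t - 1) ≤ c ^ 2 * (2 / 5) ^ (t - 3) := by
      have : c ^ (t - 1) = c ^ 2 * c ^ (t - 3) := by
        rw [← pow_add]; congr 1; omega
      rw [this]
      exact mul_le_mul_of_nonneg_left (pow_le_pow_left₀ hc0 hc _) (sq_nonneg _)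
    have h14 := hP.pS
    rw [← ht] at h14
    have e3 : (3 * t * (2 * c) ^ t + 2 * t * c ^ (t - 1)) * 2 ≤
        (3 * t * (4 * c ^ 2 * (4 / 5) ^ (t - 2)) + 2 * t * (c ^ 2 * (2 / 5) ^ (t - 3))) * 2 := by
      have t0 : (0 : ℝ) ≤ t := Nat.cast_nonneg t
      linarith [mul_le_mul_of_nonneg_left e1 t0, mul_le_mul_of_nonneg_left e2 t0]
    have e4 : (3 * t * (4 * c ^ 2 * (4 / 5) ^ (t - 2)) + 2 * t * (c ^ 2 * (2 / 5) ^ (t - 3))) * 2 =
        c ^ 2 * (2 * t * (12 * (4 / 5) ^ (t - 2) + 2 * (2 / 5) ^ (t - 3))) := by ring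
    rw [e4] at e3
    have e5 : c ^ 2 * (2 * t * (12 * (4 / 5) ^ (t - 2) + 2 * (2 / 5) ^ (t - 3))) ≤
        c ^ 2 * (6 / 100 * m) := mul_le_mul_of_nonneg_left h14 (sq_nonneg c)
    have m0 : (0 : ℝ) ≤ m := Nat.cast_nonneg m
    have e6 : (m : ℝ) * (c ^ 2 / 2) ≤ m * ρ := mul_le_mul_of_nonneg_left hcρ' m0
    linarith
  set E := 3 * t * (2 * c) ^ t + 2 * t * c ^ (t - 1) with hE
  have hE0 : 0 ≤ E := by positivity
  have hyy : Ph t w k c e - TP t ρ 0 ≤ E * W := by linarith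
  have f1 : (Ph t w k c e - TP t ρ 0) * TM ρ 0 ≤ (E * W) * (2 * ρ) :=
    mul_le_mul hyy hTMρ hTMpos.le (mul_nonneg hE0 hW0)
  have m0 : (0 : ℝ) ≤ m := Nat.cast_nonneg m
  have f2 : (m : ℝ) * (12 / 100 * W) * ρ ^ 2 ≤ m * (TM ρ 0 - M2 w k c e) * TP t ρ 0 := by
    refine mul_le_mul (mul_le_mul_of_nonneg_left hdiff m0) hTPρ (sq_nonneg _) ?_
    exact mul_nonneg m0 (le_trans (by positivity) hdiff)
  have f3 : (E * W) * (2 * ρ) ≤ (m : ℝ) * (12 / 100 * W) * ρ ^ 2 := by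
    have := mul_le_mul_of_nonneg_right hnum (mul_nonneg hW0 hρ0)
    linarith
  linarith

end

end Pool.Agent.Lib.Helper7.STK
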