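/-
MP_8790d8_co: the gap lemma and the middle range.
-/
import Pool.Agent.Lib.Helper7.STK.Side

set_option autoImplicit false
open Finset

namespace Pool.Agent.Lib.Helper7.STK

theorem gap_lt {T m : ℕ} (hP : Par T m) {x x' y y' : ℝ} (hx : 0 ≤ x) (hxx : x + 2 / 10 ^ 10 ≤ x')
    (hx1 : x' ≤ 1) (hy0 : 0 ≤ y) (hy : y ≤ 1) (hy' : (1 / 4) ^ (T + 1) ≤ y') :
    x ^ m * y < x' ^ m * y' := by
  have hx0 : 0 < x' := lt_of_lt_of_le (by linarith) hxx
  have h1 : x ≤ x' * (1 - 2 / 10 ^ 10) := by nlinarith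
  have h2 : x ^ m ≤ x' ^ m * (1 - 2 / 10 ^ 10) ^ m := by
    rw [← mul_pow]; exact pow_le_pow_left₀ hx h1 m
  have h3 : 0 < x' ^ m := pow_pos hx0 m
  calc x ^ m * y ≤ x ^ m * 1 := mul_le_mul_of_nonneg_left hy (pow_nonneg hx m)
    _ = x ^ m := mul_one _
    _ ≤ x' ^ m * (1 - 2 / 10 ^ 10) ^ m := h2
    _ < x' ^ m * (1 / 4) ^ (T + 1) := mul_lt_mul_of_pos_left hP.gap h3
    _ ≤ x' ^ m * y' := mul_le_mul_of_nonneg_left hy' h3.le

theorem MK_MS {x y : ℝ} (h : x ^ 2 + y ^ 2 = 1) :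
    TM 0 x - TM (1 - y) 0 = (x - y) * (1 - x) * (1 - y) := by
  unfold TM
  linear_combination (x + 1 - y) * h

theorem TM_K (x : ℝ) : TM 0 x = x ^ 3 := by unfold TM; ring

theorem TA_K (x : ℝ) : TA 0 x = x ^ 2 := by unfold TA; ring

theorem TP_K (T : ℕ) (hT : 0 < T) (x : ℝ) : TP (2 * T) 0 x = x ^ (2 * T + 2) := by
  unfold TP
  have : (0 : ℝ) ^ (2 * T) = 0 := zero_pow (by omega)
  rw [this, zero_add]
  rw [pow_add]; ring

theorem TP_S_ge (t : ℕ) {ρ : ℝ} (h0 : 0 ≤ ρ) (h1 : ρ ≤ 1) : ρ ^ 2 ≤ TP t ρ 0 := by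
  rw [TP_eq]
  have : (ρ + 0) ^ 2 - ρ ^ 2 = 0 := by ring
  rw [this, zero_mul, add_zero]
  have h3 := pow_nonneg h0 t
  have : 0 ≤ 1 - ρ ^ 2 := by nlinarith
  nlinarith [mul_nonneg this h3]

theorem TM_nonneg {a u : ℝ} (ha : 0 ≤ a) (hu : 0 ≤ u) (h : a + u ≤ 1) : 0 ≤ TM a u := by
  unfold TM
  have h1 : 0 ≤ u ^ 3 := pow_nonneg hu 3
  have h2 : 0 ≤ 2 * u ^ 2 * a := by positivity
  have h3 : a ≤ 1 := by linarith
  nlinarith [mul_nonneg ha (mul_nonneg ha (sub_nonneg.2 h3))]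

theorem TP_nonneg (t : ℕ) {a u : ℝ} (ha : 0 ≤ a) (hu : 0 ≤ u) (h : a + u ≤ 1) :
    0 ≤ TP t a u := by
  unfold TP
  have h1 : 0 ≤ (a + u) ^ 2 - a ^ 2 := by nlinarith
  have h2 : 0 ≤ 1 - (a + u) ^ 2 := by nlinarith
  positivity

theorem TP_le_one (t : ℕ) {a u : ℝ} (ha : 0 ≤ a) (hu : 0 ≤ u) (h : a + u ≤ 1) :
    TP t a u ≤ 1 := by
  unfold TP
  have h1 : 0 ≤ (a + u) ^ 2 - a ^ 2 := by nlinarith
  have h2 : 0 ≤ 1 - (a + u) ^ 2 := by nlinarith
  have h3 : (a + u) ^ t ≤ 1 := pow_le_one₀ (by linarith) h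
  have h4 : a ^ t ≤ 1 := pow_le_one₀ ha (by linarith)
  nlinarith [mul_le_mul_of_nonneg_left h3 h1, mul_le_mul_of_nonneg_left h4 h2]

/-- numerical lower bounds for the second factor -/
theorem quarter_le {T : ℕ} (hT : 5 ≤ T) {z : ℝ} (hz : 1 / 1000 ≤ z) : (1 / 4) ^ (T + 1) ≤ z := by
  refine le_trans ?_ hz
  calc (1 / 4 : ℝ) ^ (T + 1) ≤ (1 / 4) ^ 6 :=
        pow_le_pow_of_le_one (by norm_num) (by norm_num) (by omega)
    _ ≤ 1 / 1000 := by norm_num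

theorem quarter_le_K {T : ℕ} {x : ℝ} (hx : 1 / 2 ≤ x) : (1 / 4) ^ (T + 1) ≤ x ^ (2 * T + 2) := by
  have : x ^ (2 * T + 2) = (x ^ 2) ^ (T + 1) := by rw [← pow_mul]; congr 1
  rw [this]
  exact pow_le_pow_left₀ (by norm_num) (by nlinarith) _

section
variable {w : ℝ} {k : ℕ} {c : ℝ} {e : ℕ → ℝ}

theorem M2_le_flat (h : GShape w k c e) (hkc : k * w = c) (hc : c ≤ 1 / 2) {a : ℝ}
    (ha : a = sA w k e / (1 - c)) : M2 w k c e ≤ TM a (c - a) := by
  have hc1 : c < 1 := by linarith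
  have hgain := flat_gain h hc1 ha
  have hW := sW_nonneg h hc1
  rw [hkc] at hgain
  have h2 : 0 ≤ (1 - c - c) * (1 - c) := mul_nonneg (by linarith) (by linarith)
  have h3 : 0 ≤ (1 - c - c) * (1 - c) * sW w k c e := mul_nonneg h2 hW
  linarith

/-- the middle range -/
theorem mid_side {T m : ℕ} (hP : Par T m) (h : GShape w k c e) (hkc : k * w = c)
    (hc : 2 / 5 ≤ c) (hc' : c ≤ 1 / 2) {ρ : ℝ} (hρ0 : 0 ≤ ρ) (hρ1 : ρ ≤ 50 / 169)
    (hA : area w k c e = TA ρ 0) :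
    (M2 w k c e) ^ m * Ph (2 * T) w k c e ≤ (TM ρ 0) ^ m * TP (2 * T) ρ 0 := by
  have hT := hP.T5
  have hc1 : c < 1 := by linarith
  set a := sA w k e / (1 - c) with ha
  obtain ⟨ha0, hac⟩ := a_facts h hc1 ha
  rw [hkc] at hac
  have hTA : TA a (c - a) = TA ρ 0 := by rw [TA_flat hc1 ha, hA]
  have hau : a + (c - a) ≤ 1 / 2 := by linarith
  have hM := TM_le_S ha0 (by linarith) hau (by linarith) hρ0 hTA
  obtain ⟨haρ, _, hcρ⟩ := rho_facts ha0 (by linarith : 0 ≤ c - a) (by linarith) (by linarith)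
    hρ0 hTA
  have hcρ' : c ^ 2 / 2 ≤ ρ := by
    have : a + (c - a) = c := by ring
    rwa [this] at hcρ
  have hM2 := M2_le_flat h hkc hc' ha
  have hu : 1 / 10 ≤ c - a := by linarith
  have hu2 : 1 / 100 ≤ (c - a) ^ 2 := by nlinarith
  have hρ8 : 8 / 100 ≤ ρ := by nlinarith
  refine (gap_lt hP (M2_nonneg h) ?_ (TM_le_one hρ0 le_rfl (by linarith)) (Ph_nonneg _ h)
    (Ph_le_one _ (by omega) h) ?_).le
  · linarith
  · refine quarter_le hT (le_trans ?_ (TP_S_ge _ hρ0 (by linarith)))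
    nlinarith

/-- small cliques, all densities below the end of the window -/
theorem small_side {T m : ℕ} (hP : Par T m) (h : GShape w k c e) (hkc : k * w = c)
    (hc' : c ≤ 1 / 2) {ρ : ℝ} (hρ0 : 0 ≤ ρ) (hρ1 : ρ ≤ 50 / 169)
    (hA : area w k c e = TA ρ 0) :
    (M2 w k c e) ^ m * Ph (2 * T) w k c e ≤ (TM ρ 0) ^ m * TP (2 * T) ρ 0 := by
  rcases le_total c (2 / 5) with hc | hc
  · exact star_side hP h hkc hc hρ0 (by linarith) hA
  · exact mid_side hP h hkc hc hc' hρ0 hρ1 hA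

/-- small cliques, densities above the window -/
theorem small_above {T m : ℕ} (hP : Par T m) (h : GShape w k c e) (hkc : k * w = c)
    (hc' : c ≤ 1 / 2) {x : ℝ} (hx0 : 120 / 169 ≤ x) (hx1 : x ≤ 9 / 10)
    (hA : area w k c e = x ^ 2) :
    (M2 w k c e) ^ m * Ph (2 * T) w k c e ≤ (TM 0 x) ^ m * TP (2 * T) 0 x := by
  have hT := hP.T5
  have hc1 : c < 1 := by linarith
  set a := sA w k e / (1 - c) with ha
  obtain ⟨ha0, hac⟩ := a_facts h hc1 ha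
  rw [hkc] at hac
  set y := Real.sqrt (1 - x ^ 2) with hy
  have hx2 : x ^ 2 ≤ 1 := by nlinarith
  have hy0 : 0 ≤ y := Real.sqrt_nonneg _
  have hy2 : x ^ 2 + y ^ 2 = 1 := by rw [hy, Real.sq_sqrt (by linarith)]; ring
  have hyl : y ≤ 119 / 169 := by
    by_contra hcon
    push Not at hcon
    nlinarith
  have hTA : TA a (c - a) = TA (1 - y) 0 := by
    rw [TA_flat hc1 ha, hA]; unfold TA; linarith
  have hau : a + (c - a) ≤ 1 / 2 := by linarith
  have hM := TM_le_S ha0 (by linarith) hau (by linarith) (by linarith) hTA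
  have hM2 := M2_le_flat h hkc hc' ha
  have hKS := MK_MS hy2
  have h1 : 1 / 10000 ≤ (x - y) * (1 - x) * (1 - y) := by
    have h2 : 1 / 169 ≤ x - y := by linarith
    have h3 : 1 / 10 ≤ 1 - x := by linarith
    have h4 : 50 / 169 ≤ 1 - y := by linarith
    have h5 : 1 / 169 * (1 / 10) ≤ (x - y) * (1 - x) :=
      mul_le_mul h2 h3 (by norm_num) (by linarith)
    have h6 : 1 / 169 * (1 / 10) * (50 / 169) ≤ (x - y) * (1 - x) * (1 - y) :=
      mul_le_mul h5 h4 (by norm_num) (le_trans (by norm_num) h5)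
    exact le_trans (by norm_num) h6
  refine (gap_lt hP (M2_nonneg h) ?_ (TM_le_one le_rfl (by linarith) (by linarith))
    (Ph_nonneg _ h) (Ph_le_one _ (by omega) h) ?_).le
  · nlinarith [sq_nonneg (c - a)]
  · rw [TP_K T (by omega)]
    exact quarter_le_K (by linarith)

/-- an elementary inequality for `x³` with `x² = c² + 2 A` -/
theorem cube_ge {c x A : ℝ} (hc : 0 ≤ c) (hx : 0 ≤ x) (hA : 0 ≤ A) (hAc : A ≤ c ^ 2)
    (hxc : x ^ 2 = c ^ 2 + 2 * A) : c ^ 4 + 3 * c ^ 2 * A + 7 / 6 * A ^ 2 ≤ c * x ^ 3 := by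
  have h1 : 0 ≤ c * x ^ 3 := by positivity
  refine le_of_sq_le_sq ?_ h1
  have h2 : (c * x ^ 3) ^ 2 = c ^ 2 * (c ^ 2 + 2 * A) ^ 3 := by
    rw [← hxc]; ring
  rw [h2]
  have h3 : c ^ 2 * (c ^ 2 + 2 * A) ^ 3 - (c ^ 4 + 3 * c ^ 2 * A + 7 / 6 * A ^ 2) ^ 2 =
      A ^ 2 * (2 / 3 * c ^ 4 + c ^ 2 * A - 49 / 36 * A ^ 2) := by ring
  have h4 : 0 ≤ 2 / 3 * c ^ 4 + c ^ 2 * A - 49 / 36 * A ^ 2 := by
    have h5 : A ^ 2 ≤ c ^ 2 * A := by nlinarith
    have h6 : c ^ 2 * A ≤ c ^ 4 := by nlinarith [sq_nonneg c]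
    nlinarith
  nlinarith [mul_nonneg (sq_nonneg A) h4]

/-- big cliques: the first functional against the quasi-clique -/
theorem M2_le_K (h : GShape w k c e) (hkc : k * w = c) (hc : 1 / 2 ≤ c) {x : ℝ} (hx : 0 ≤ x)
    (hA : area w k c e = x ^ 2) : M2 w k c e + (sA w k e) ^ 2 / 6 ≤ TM 0 x := by
  rw [TM_K]
  have hc0 : 0 < c := by linarith
  have hc1 := h.c1
  have hb := base_w w k e (1 - c) h.nn h.le h.anti
  have hX := sX_le h
  have hA0 := sA_nonneg h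
  rw [hkc] at hb hX
  have hAc : sA w k e ≤ c ^ 2 := by
    have : sA w k e ≤ k * w * (1 - c) := by
      unfold sA
      calc ∑ i ∈ range k, w * e i ≤ ∑ i ∈ range k, w * (1 - c) :=
            sum_le_sum fun i hi => mul_le_mul_of_nonneg_left (h.le i (mem_range.1 hi)) h.w0.le
        _ = k * w * (1 - c) := by simp; ring
    rw [hkc] at this
    nlinarith
  have hcube := cube_ge hc0.le hx hA0 hAc (by rw [← hA]; rfl)
  have h1 : c * (sY w k e + sX w k e) ≤ c ^ 2 * sA w k e + (sA w k e) ^ 2 := by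
    have h2 : (2 * c - 1) * sX w k e ≤ (2 * c - 1) * (c * sA w k e) :=
      mul_le_mul_of_nonneg_left hX (by linarith)
    nlinarith
  have h3 : c * M2 w k c e ≤ c * x ^ 3 - (sA w k e) ^ 2 / 6 := by
    unfold M2
    nlinarith
  have h4 : c * (M2 w k c e + (sA w k e) ^ 2 / 6) ≤ c * x ^ 3 := by
    nlinarith [sq_nonneg (sA w k e)]
  exact le_of_mul_le_mul_left h4 hc0

/-- big cliques, densities below the window -/
theorem big_below {T m : ℕ} (hP : Par T m) (h : GShape w k c e) (hkc : k * w = c)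
    (hc' : 1 / 2 ≤ c) {ρ : ℝ} (hρ0 : 0 ≤ ρ) (hρ1 : ρ ≤ 49 / 169)
    (hA : area w k c e = TA ρ 0) :
    (M2 w k c e) ^ m * Ph (2 * T) w k c e ≤ (TM ρ 0) ^ m * TP (2 * T) ρ 0 := by
  have hT := hP.T5
  have hA0 := sA_nonneg h
  set y := 1 - ρ with hy
  have hρy : ρ = 1 - y := by rw [hy]; ring
  have hβ : area w k c e = 1 - y ^ 2 := by rw [hA]; unfold TA; rw [hy]; ring
  have hβc : c ^ 2 ≤ area w k c e := by unfold area; linarith
  have hy2' : y ^ 2 ≤ 3 / 4 := by nlinarith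
  have hyl : 120 / 169 ≤ y := by linarith
  have hyu : y ≤ 87 / 100 := by
    by_contra hcon
    push Not at hcon
    nlinarith
  set x := Real.sqrt (1 - y ^ 2) with hx
  have hx0 : 0 ≤ x := Real.sqrt_nonneg _
  have hxx : x ^ 2 = 1 - y ^ 2 := by rw [hx, Real.sq_sqrt (by nlinarith)]
  have hxl : x ≤ 119 / 169 := by
    by_contra hcon
    push Not at hcon
    nlinarith
  have hK := M2_le_K h hkc hc' hx0 (by rw [hβ, hxx])
  have hKS := MK_MS (x := x) (y := y) (by linarith)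
  rw [← hρy] at hKS
  have h1 : 1 / 10000 ≤ (y - x) * (1 - x) * (1 - y) := by
    have h2 : 1 / 169 ≤ y - x := by linarith
    have h3 : 50 / 169 ≤ 1 - x := by linarith
    have h4 : 13 / 100 ≤ 1 - y := by linarith
    have h5 : 1 / 169 * (50 / 169) ≤ (y - x) * (1 - x) :=
      mul_le_mul h2 h3 (by norm_num) (by linarith)
    have h6 : 1 / 169 * (50 / 169) * (13 / 100) ≤ (y - x) * (1 - x) * (1 - y) :=
      mul_le_mul h5 h4 (by norm_num) (le_trans (by norm_num) h5)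
    exact le_trans (by norm_num) h6
  refine (gap_lt hP (M2_nonneg h) ?_ (TM_le_one hρ0 le_rfl (by linarith)) (Ph_nonneg _ h)
    (Ph_le_one _ (by omega) h) ?_).le
  · have h2 : (x - y) * (1 - x) * (1 - y) = - ((y - x) * (1 - x) * (1 - y)) := by ring
    nlinarith [sq_nonneg (sA w k e)]
  · refine quarter_le hT (le_trans ?_ (TP_S_ge _ hρ0 (by linarith)))
    nlinarith

end

end Pool.Agent.Lib.Helper7.STK
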