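/-
MP_8790d8_co: shapes near the quasi-clique.
-/
import Pool.Agent.Lib.Helper7.STK.Mid

set_option autoImplicit false
open Finset

namespace Pool.Agent.Lib.Helper7.STK

theorem pow_tangent (q : ℕ) {c δ : ℝ} (hc : 0 < c) (hδ : 0 ≤ δ) :
    c ^ (q + 2) + ((q : ℝ) + 2) * c ^ (q + 1) * δ ≤ (c + δ) ^ (q + 2) := by
  have h1 := one_add_mul_le_pow (a := δ / c) (by have := div_nonneg hδ hc.le; linarith) (q + 2)
  have h2 : c + δ = c * (1 + δ / c) := by field_simp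
  rw [h2, mul_pow]
  have h3 := mul_le_mul_of_nonneg_left h1 (pow_nonneg hc.le (q + 2))
  have h4 : c ^ (q + 2) * (1 + ((q + 2 : ℕ) : ℝ) * (δ / c)) =
      c ^ (q + 2) + ((q : ℝ) + 2) * c ^ (q + 1) * δ := by
    have : c ^ (q + 2) = c ^ (q + 1) * c := pow_succ c (q + 1)
    rw [mul_add, mul_one]
    congr 1
    rw [this]; push_cast; field_simp
  linarith

theorem f_tangent (q : ℕ) {c δ s : ℝ} (hc : 0 < c) (hδ : 0 ≤ δ) (hs : 0 ≤ s) (hsc : s ≤ c) :
    c ^ (q + 4) - s ^ 2 * c ^ (q + 2) - s ^ (q + 2) * c ^ 2 +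
      (((q : ℝ) + 4) * c ^ (q + 3) - ((q : ℝ) + 2) * s ^ 2 * c ^ (q + 1) -
        2 * s ^ (q + 2) * c) * δ ≤
    (c + δ) ^ (q + 4) - s ^ 2 * (c + δ) ^ (q + 2) - s ^ (q + 2) * (c + δ) ^ 2 := by
  have hR := pow_tangent q hc hδ
  have e1 : (c + δ) ^ (q + 4) = (c + δ) ^ 2 * (c + δ) ^ (q + 2) := by
    rw [← pow_add]; congr 1; omega
  rw [e1]
  set X := (c + δ) ^ (q + 2) with hX
  set S := s ^ (q + 2) with hS
  have hS1 : S ≤ c ^ (q + 2) := pow_le_pow_left₀ hs hsc _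
  have e2 : c ^ (q + 4) = c ^ 3 * c ^ (q + 1) := by rw [← pow_add]; congr 1; omega
  have e3 : c ^ (q + 3) = c ^ 2 * c ^ (q + 1) := by rw [← pow_add]; congr 1; omega
  have e4 : c ^ (q + 2) = c * c ^ (q + 1) := by rw [← pow_succ']
  rw [e4] at hR hS1
  rw [e2, e3, e4]
  set C := c ^ (q + 1) with hC
  have hC0 : 0 ≤ C := pow_nonneg hc.le _
  have h1 : 0 ≤ ((c + δ) ^ 2 - s ^ 2) * (X - c * C - ((q : ℝ) + 2) * C * δ) := by
    refine mul_nonneg ?_ (by linarith)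
    nlinarith
  have h2 : 0 ≤ (2 * ((q : ℝ) + 2) * (c * C) + (c * C - S)) * δ ^ 2 := by
    have : 0 ≤ 2 * ((q : ℝ) + 2) * (c * C) := by positivity
    exact mul_nonneg (by linarith) (sq_nonneg _)
  have h3 : 0 ≤ ((q : ℝ) + 2) * C * δ ^ 3 := by positivity
  have key : (c + δ) ^ 2 * X - s ^ 2 * X - S * (c + δ) ^ 2 - (c ^ 3 * C - s ^ 2 * (c * C) -
      S * c ^ 2 + (((q : ℝ) + 4) * (c ^ 2 * C) - ((q : ℝ) + 2) * s ^ 2 * C - 2 * S * c) * δ) =
      ((c + δ) ^ 2 - s ^ 2) * (X - c * C - ((q : ℝ) + 2) * C * δ) +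
      (2 * ((q : ℝ) + 2) * (c * C) + (c * C - S)) * δ ^ 2 + ((q : ℝ) + 2) * C * δ ^ 3 := by
    ring
  linarith

/-- second order upper bound for a power -/
theorem pow_add_le (q : ℕ) {c r : ℝ} (hc : 0 < c) (hr : 0 ≤ r) (hrc : ((q : ℝ) + 2) * r ≤ c) :
    (c + r) ^ (q + 2) ≤ c ^ (q + 2) + ((q : ℝ) + 2) * c ^ (q + 1) * r +
      ((q : ℝ) + 2) ^ 2 * c ^ q * r ^ 2 := by
  have h2 : c + r = c * (1 + r / c) := by field_simp
  set z := ((q : ℝ) + 2) * (r / c) with hz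
  have hz0 : 0 ≤ z := by positivity
  have hz1 : z ≤ 1 := by
    rw [hz, ← mul_div_assoc, div_le_one hc]; exact hrc
  have h3 : (1 + r / c) ^ (q + 2) ≤ 1 + z + z ^ 2 := by
    calc (1 + r / c) ^ (q + 2) ≤ (Real.exp (r / c)) ^ (q + 2) := by
          refine pow_le_pow_left₀ (by positivity) ?_ _
          have := Real.add_one_le_exp (r / c); linarith
      _ = Real.exp z := by rw [← Real.exp_nat_mul, hz]; push_cast; ring_nf
      _ ≤ 1 + z + z ^ 2 := by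
          have := Real.abs_exp_sub_one_sub_id_le (x := z) (by rw [abs_of_nonneg hz0]; exact hz1)
          have := (abs_le.1 this).2
          linarith
  rw [h2, mul_pow]
  have h4 := mul_le_mul_of_nonneg_left h3 (pow_nonneg hc.le (q + 2))
  have h5 : c ^ (q + 2) * (1 + z + z ^ 2) = c ^ (q + 2) + ((q : ℝ) + 2) * c ^ (q + 1) * r +
      ((q : ℝ) + 2) ^ 2 * c ^ q * r ^ 2 := by
    rw [hz]
    have e1 : c ^ (q + 2) = c ^ q * c ^ 2 := pow_add c q 2
    have e2 : c ^ (q + 1) = c ^ q * c := pow_succ c q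
    rw [e1, e2]; field_simp
  linarith

section
variable {w : ℝ} {k : ℕ} {c : ℝ} {e : ℕ → ℝ}

/-- flattening the tall part near the quasi-clique -/
theorem flat_near {T m : ℕ} (hP : Par T m) (h : GShape w k c e) (hkw : k * w ≤ 1 / 50)
    (hc : 1 / 2 ≤ c) (hc' : c ≤ 9 / 10) (htall : ∀ i < k, 1 / 800 ≤ e i) :
    ∃ a : ℝ, 0 ≤ a ∧ a ≤ 1 / 50 ∧ TA a (c - a) = area w k c e ∧
      (M2 w k c e) ^ m * Ph (2 * T) w k c e ≤
        (TM a (c - a)) ^ m * TP (2 * T) a (c - a) := by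
  have hT := hP.T5
  have hc1 : c < 1 := by linarith
  have h1c : 0 < 1 - c := by linarith
  have hkw0 := kw_nonneg h
  set t := 2 * T with ht
  set a := sA w k e / (1 - c) with ha
  obtain ⟨ha0, hac⟩ := a_facts h hc1 ha
  refine ⟨a, ha0, hac.trans hkw, TA_flat hc1 ha, ?_⟩
  have hgain := flat_gain h hc1 ha
  set W := sW w k c e with hW
  have hW0 : 0 ≤ W := sW_nonneg h hc1
  have hsmall := flat_small t h hc1 ha
  rw [← hW] at hsmall
  have hkey : (c + 1 / 800) ^ T ≤ (1 / 800) / (1 - c) := by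
    have h3 : (c + 1 / 800) ^ T ≤ (9 / 10 + 1 / 800) ^ T :=
      pow_le_pow_left₀ (by linarith) (by linarith) _
    have h4 : (9 / 10 + 1 / 800 : ℝ) ^ T ≤ 1 / 800 := by rw [hP.T100]; norm_num
    have h5 : (1 / 800 : ℝ) ≤ (1 / 800) / (1 - c) := by
      rw [le_div_iff₀ h1c]; linarith
    linarith
  have hmain := flat_main h hc1 (by norm_num : (0:ℝ) < 1 / 800) (by linarith) hkey k le_rfl htall
  rw [← ha, ← ht] at hmain
  have hPh : Ph t w k c e ≤ TP t a (c - a) + 2 * t * (k * w) ^ (t - 1) * W := by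
    rw [TP_eq']
    unfold Ph
    linarith
  have hdiff : 8 / 1000 * W ≤ TM a (c - a) - M2 w k c e := by
    have h3 : 8 / 1000 ≤ (1 - c - k * w) * (1 - c) := by nlinarith
    have := mul_le_mul_of_nonneg_right h3 hW0
    linarith
  have hM0 := M2_nonneg h
  have hM2c : c ^ 3 ≤ M2 w k c e := by
    have := sA_nonneg h; have := sY_nonneg h; have := sX_nonneg h
    have hc0 : 0 ≤ c := by linarith
    unfold M2
    nlinarith [mul_nonneg hc0 (sA_nonneg h)]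
  have hTM0 : 0 < TM a (c - a) := by
    have : 0 < c ^ 3 := by positivity
    nlinarith
  have hTM1 : TM a (c - a) ≤ 1 := TM_le_one ha0 (by linarith) (by linarith)
  have hTP : c ^ (t + 2) ≤ TP t a (c - a) := by
    rw [TP_eq']
    have h3 : c ^ t ≤ 1 := pow_le_one₀ (by linarith) hc1.le
    have h4 : c ^ 2 ≤ 1 := pow_le_one₀ (by linarith) hc1.le
    have h5 : 0 ≤ a ^ t := pow_nonneg ha0 t
    nlinarith [mul_nonneg (sq_nonneg a) (sub_nonneg.2 h3), mul_nonneg (sub_nonneg.2 h4) h5]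
  have hcpos : 0 < c ^ (t + 2) := pow_pos (by linarith) _
  refine prod_le hM0 hTM0 (by linarith [mul_nonneg (by norm_num : (0:ℝ) ≤ 8/1000) hW0])
    (lt_of_lt_of_le hcpos hTP) ?_
  have hnum : 2 * (t : ℝ) * (k * w) ^ (t - 1) ≤ m * (8 / 1000) * c ^ (t + 2) := by
    have h3 : (k * w) ^ (t - 1) ≤ (1 / 50) ^ (t - 1) := pow_le_pow_left₀ hkw0 hkw _
    have h4 : (1 / 2) ^ (t + 2) ≤ c ^ (t + 2) := pow_le_pow_left₀ (by norm_num) hc _
    have h5 : 2 * (t : ℝ) * (1 / 50) ^ (t - 1) ≤ m * (8 / 1000) * (1 / 2) ^ (t + 2) := by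
      rw [hP.m12]
      have : t = 200 := by rw [ht, hP.T100]
      rw [this]; norm_num
    calc 2 * (t : ℝ) * (k * w) ^ (t - 1) ≤ 2 * (t : ℝ) * (1 / 50) ^ (t - 1) :=
          mul_le_mul_of_nonneg_left h3 (by positivity)
      _ ≤ _ := h5
      _ ≤ _ := mul_le_mul_of_nonneg_left h4 (by positivity)
  have hyy : Ph t w k c e - TP t a (c - a) ≤ 2 * t * (k * w) ^ (t - 1) * W := by linarith
  calc (Ph t w k c e - TP t a (c - a)) * TM a (c - a)
      ≤ (2 * t * (k * w) ^ (t - 1) * W) * 1 :=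
        mul_le_mul hyy hTM1 hTM0.le (mul_nonneg (mul_nonneg (by positivity)
          (pow_nonneg hkw0 _)) hW0)
    _ = (2 * t * (k * w) ^ (t - 1)) * W := by ring
    _ ≤ (m * (8 / 1000) * c ^ (t + 2)) * W := mul_le_mul_of_nonneg_right hnum hW0
    _ = (m * (8 / 1000 * W)) * c ^ (t + 2) := by ring
    _ ≤ (m * (TM a (c - a) - M2 w k c e)) * TP t a (c - a) := by
        have m0 : (0 : ℝ) ≤ m := Nat.cast_nonneg m
        refine mul_le_mul (mul_le_mul_of_nonneg_left hdiff m0) hTP hcpos.le ?_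
        exact mul_nonneg m0 (le_trans (by positivity) hdiff)

end

end Pool.Agent.Lib.Helper7.STK
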