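/-
MP_8790d8_co: shapes near the quasi-clique, moving the low part into the clique.
-/
import Pool.Agent.Lib.Helper7.STK.Near

set_option autoImplicit false
open Finset

namespace Pool.Agent.Lib.Helper7.STK

section shift
variable (w : ℝ) (l : ℕ) (e : ℕ → ℝ) (δ : ℝ)

theorem sA_shift : sA w l (fun i => e i - δ) = sA w l e - l * w * δ := by
  unfold sA
  have : ∀ i, w * (e i - δ) = w * e i - w * δ := fun i => by ring
  simp only [this, sum_sub_distrib, sum_const, card_range, nsmul_eq_mul]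
  ring

theorem sY_shift : sY w l (fun i => e i - δ) = sY w l e - 2 * δ * sA w l e + l * w * δ ^ 2 := by
  unfold sY sA
  have : ∀ i, w * (e i - δ) ^ 2 = w * (e i) ^ 2 - 2 * δ * (w * e i) + w * δ ^ 2 :=
    fun i => by ring
  simp only [this, sum_sub_distrib, sum_add_distrib, sum_const, card_range, nsmul_eq_mul,
    ← mul_sum]
  ring

theorem sX_shift : sX w l (fun i => e i - δ) = sX w l e - (l * w) ^ 2 * δ := by
  unfold sX
  have : ∀ i : ℕ, w * ((2 * (i : ℝ) + 1) * w) * (e i - δ) =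
      w * ((2 * (i : ℝ) + 1) * w) * e i - (2 * (i : ℝ) + 1) * w ^ 2 * δ := fun i => by ring
  simp only [this, sum_sub_distrib, ← sum_mul]
  rw [sum_odd]; ring

end shift

section split
variable {w : ℝ} {k l : ℕ} (e : ℕ → ℝ)

theorem sA_split (hl : l ≤ k) : sA w k e = sA w l e + sA w (k - l) (fun j => e (l + j)) :=
  sum_split hl _

theorem sY_split (hl : l ≤ k) : sY w k e = sY w l e + sY w (k - l) (fun j => e (l + j)) :=
  sum_split hl _

theorem sX_split (hl : l ≤ k) : sX w k e = sX w l e + 2 * (l * w) *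
    sA w (k - l) (fun j => e (l + j)) + sX w (k - l) (fun j => e (l + j)) := by
  unfold sX sA
  rw [sum_split hl, add_assoc]
  congr 1
  rw [mul_sum, ← sum_add_distrib]
  refine sum_congr rfl fun i _ => ?_
  push_cast; ring

end split

/-- The data of the step. -/
structure StepData (w : ℝ) (k l : ℕ) (c : ℝ) (e : ℕ → ℝ) (s u u' δ : ℝ) : Prop where
  sh : GShape w k c e
  kc : k * w = c
  lk : l ≤ k
  sdef : s = l * w
  udef : u = c - s
  s50 : s ≤ 1 / 50
  c12 : 1 / 2 ≤ c
  c910 : c ≤ 9 / 10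
  u0 : 0 ≤ u'
  u2 : u' ^ 2 = u ^ 2 + 2 * sA w (k - l) (fun j => e (l + j))
  ddef : δ = u' - u
  low : ∀ i, l ≤ i → i < k → e i ≤ 1 / 400

section
variable {w : ℝ} {k l : ℕ} {c : ℝ} {e : ℕ → ℝ} {s u u' δ : ℝ}

theorem StepData.basic (d : StepData w k l c e s u u' δ) :
    0 ≤ s ∧ 48 / 100 ≤ u ∧ ((k - l : ℕ) : ℝ) * w = u ∧ 0 < k - l := by
  have hw := d.sh.w0
  have hs : 0 ≤ s := by rw [d.sdef]; exact mul_nonneg (Nat.cast_nonneg _) hw.le
  have hu : 48 / 100 ≤ u := by
    have := d.udef; have := d.s50; have := d.c12; linarith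
  have h3 : ((k - l : ℕ) : ℝ) * w = u := by
    rw [Nat.cast_sub d.lk, sub_mul, d.kc, ← d.sdef, d.udef]
  refine ⟨hs, hu, h3, ?_⟩
  rcases Nat.eq_zero_or_pos (k - l) with h0 | h0
  · rw [h0] at h3; simp at h3; linarith
  · exact h0

theorem StepData.low' (d : StepData w k l c e s u u' δ) (j : ℕ) (hj : j < k - l) :
    0 ≤ e (l + j) ∧ e (l + j) ≤ 1 / 400 := by
  have := d.lk
  exact ⟨d.sh.nn _ (by omega), d.low _ (by omega) (by omega)⟩

theorem StepData.anti' (d : StepData w k l c e s u u' δ) :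
    Anti (k - l) (fun j => e (l + j)) := d.sh.anti.shift

theorem StepData.Al_nonneg (d : StepData w k l c e s u u' δ) :
    0 ≤ sA w (k - l) (fun j => e (l + j)) :=
  sum_nonneg fun j hj => mul_nonneg d.sh.w0.le (d.low' j (mem_range.1 hj)).1

theorem StepData.Yl_nonneg (d : StepData w k l c e s u u' δ) :
    0 ≤ sY w (k - l) (fun j => e (l + j)) :=
  sum_nonneg fun j _ => mul_nonneg d.sh.w0.le (sq_nonneg _)

theorem StepData.Al_le (d : StepData w k l c e s u u' δ) :
    sA w (k - l) (fun j => e (l + j)) ≤ u / 400 := by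
  obtain ⟨_, _, h3, _⟩ := d.basic
  unfold sA
  calc ∑ i ∈ range (k - l), w * e (l + i) ≤ ∑ i ∈ range (k - l), w * (1 / 400) :=
        sum_le_sum fun i hi => mul_le_mul_of_nonneg_left (d.low' i (mem_range.1 hi)).2 d.sh.w0.le
    _ = u / 400 := by
        rw [sum_const, card_range, nsmul_eq_mul, ← h3]; ring

theorem StepData.delta (d : StepData w k l c e s u u' δ) :
    0 ≤ δ ∧ δ ≤ sA w (k - l) (fun j => e (l + j)) / u ∧
    sA w (k - l) (fun j => e (l + j)) / u -
      (sA w (k - l) (fun j => e (l + j))) ^ 2 / (2 * u ^ 3) ≤ δ := by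
  obtain ⟨_, hu, _, _⟩ := d.basic
  have hu0 : 0 < u := by linarith
  have hA := d.Al_nonneg
  have h2 := d.u2
  set A := sA w (k - l) (fun j => e (l + j)) with hAd
  have hu' : u' = u + δ := by rw [d.ddef]; ring
  rw [hu'] at h2
  have h0 := d.u0
  have hδ0 : 0 ≤ δ := by
    by_contra hcon
    push Not at hcon
    rw [hu'] at h0
    nlinarith
  have hδ1 : δ ≤ A / u := by
    rw [le_div_iff₀ hu0]; nlinarith [sq_nonneg δ]
  refine ⟨hδ0, hδ1, ?_⟩
  have e1 : A / u - A ^ 2 / (2 * u ^ 3) = A / u - (A / u) ^ 2 / (2 * u) := by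
    field_simp
  rw [e1]
  have h3 : δ = A / u - δ ^ 2 / (2 * u) := by
    field_simp; nlinarith
  have h4 : δ ^ 2 / (2 * u) ≤ (A / u) ^ 2 / (2 * u) :=
    div_le_div_of_nonneg_right (pow_le_pow_left₀ hδ0 hδ1 2) (by linarith)
  linarith

theorem StepData.shape (d : StepData w k l c e s u u' δ) (htall : ∀ i < l, 1 / 400 ≤ e i)
    (hδ : δ ≤ 1 / 800) :
    GShape w l (c + δ) (fun i => e i - δ) ∧ (∀ i < l, 1 / 800 ≤ e i - δ) := by
  obtain ⟨hs, hu, _, _⟩ := d.basic
  obtain ⟨hδ0, _, _⟩ := d.delta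
  have hlk := d.lk
  have h1 : ∀ i < l, 1 / 800 ≤ e i - δ := fun i hi => by have := htall i hi; linarith
  refine ⟨⟨d.sh.w0, ?_, ?_, ?_, ?_, ?_⟩, h1⟩
  · rw [← d.sdef]; have := d.udef; linarith
  · have := d.c910; linarith
  · intro i hi; have := h1 i hi; linarith
  · intro i hi
    have := d.sh.le i (by omega)
    show e i - δ ≤ 1 - (c + δ)
    linarith
  · intro i j hij hj
    have := d.sh.anti i j hij (by omega)
    show e j - δ ≤ e i - δ
    linarith

theorem StepData.area_eq (d : StepData w k l c e s u u' δ) :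
    area w l (c + δ) (fun i => e i - δ) = area w k c e := by
  have h2 := d.u2
  unfold area
  rw [sA_shift, sA_split e d.lk, ← d.sdef]
  have hu' : u' = u + δ := by rw [d.ddef]; ring
  rw [hu', d.udef] at h2
  linarith

/-- the gain in the first functional -/
theorem StepData.gain (d : StepData w k l c e s u u' δ) :
    sY w (k - l) (fun j => e (l + j)) / 6 ≤
      M2 w l (c + δ) (fun i => e i - δ) - M2 w k c e := by
  obtain ⟨hs, hu, h3, _⟩ := d.basic
  have h2 := d.u2
  have hA0 := d.Al_nonneg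
  have hAle := d.Al_le
  have hY0 := d.Yl_nonneg
  have hb := base_w w (k - l) (fun j => e (l + j)) (1 / 400)
    (fun i hi => (d.low' i hi).1) (fun i hi => (d.low' i hi).2) d.anti'
  have hcs := cs_w w (k - l) (fun j => e (l + j))
  rw [h3] at hb hcs
  unfold M2
  rw [sA_shift, sY_shift, sX_shift, sA_split e d.lk, sY_split e d.lk, sX_split e d.lk, ← d.sdef]
  set A := sA w (k - l) (fun j => e (l + j))
  set Y := sY w (k - l) (fun j => e (l + j))
  set X := sX w (k - l) (fun j => e (l + j))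
  have hu' : u' = u + δ := by rw [d.ddef]; ring
  have hc : c = s + u := by rw [d.udef]; ring
  have hu0 : 0 < u := by linarith
  have hcube := cube_ge (c := u) (x := u') (A := A) hu0.le d.u0 hA0 (by nlinarith) h2
  rw [hu'] at hcube h2
  have key : (c + δ) ^ 3 + 2 * (c + δ) * (sA w l e - s * δ) + (sY w l e - 2 * δ * sA w l e +
      s * δ ^ 2) + (sX w l e - s ^ 2 * δ) - (c ^ 3 + 2 * c * (sA w l e + A) + (sY w l e + Y) +
      (sX w l e + 2 * s * A + X)) = (u + δ) ^ 3 - u ^ 3 - 2 * u * A - Y - X := by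
    rw [hc]
    linear_combination (2 * s) * h2
  rw [key]
  have h5 : u * (Y / 6) ≤ u * ((u + δ) ^ 3 - u ^ 3 - 2 * u * A - Y - X) := by
    have h6 : 400 * (u * Y - A ^ 2) ≤ u * A - X := by linarith
    have h7 := mul_le_mul_of_nonneg_left h6 hu0.le
    have h8 : 0 ≤ (400 * u - 1 - 1 / 6) * (u * Y - A ^ 2) :=
      mul_nonneg (by linarith) (by linarith)
    nlinarith
  exact le_of_mul_le_mul_left h5 hu0

end

end Pool.Agent.Lib.Helper7.STK
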