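/-
MP_8790d8_co: shapes near the quasi-clique, the loss in the second functional.
-/
import Pool.Agent.Lib.Helper7.STK.Step

set_option autoImplicit false
open Finset

namespace Pool.Agent.Lib.Helper7.STK

/-- the tall part of the second functional -/
def PhTall (t : ℕ) (w : ℝ) (l : ℕ) (c : ℝ) (e : ℕ → ℝ) : ℝ :=
  ∑ i ∈ range l, ((2 * (i : ℝ) + 1) * w ^ 2 * (c + e i) ^ t +
    ((((i + 1 : ℕ) : ℝ) * w) ^ t - ((i : ℝ) * w) ^ t) * (c + e i) ^ 2)

theorem Ph_tall_eq (t : ℕ) (ht : 0 < t) (w : ℝ) (l : ℕ) (c : ℝ) (e : ℕ → ℝ) :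
    c ^ (t + 2) + ∑ i ∈ range l, (2 * (i : ℝ) + 1) * w ^ 2 * ((c + e i) ^ t - c ^ t) +
    ∑ i ∈ range l, ((((i + 1 : ℕ) : ℝ) * w) ^ t - ((i : ℝ) * w) ^ t) *
      ((c + e i) ^ 2 - c ^ 2) =
    (c ^ (t + 2) - (l * w) ^ 2 * c ^ t - (l * w) ^ t * c ^ 2) + PhTall t w l c e := by
  unfold PhTall
  rw [← sum_odd_w w l, ← sum_tau t ht w l, sum_mul, sum_mul, sum_add_distrib]
  have h1 : ∑ i ∈ range l, (2 * (i : ℝ) + 1) * w ^ 2 * ((c + e i) ^ t - c ^ t) =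
      ∑ i ∈ range l, (2 * (i : ℝ) + 1) * w ^ 2 * (c + e i) ^ t -
      ∑ i ∈ range l, (2 * (i : ℝ) + 1) * w ^ 2 * c ^ t := by
    rw [← sum_sub_distrib]; exact sum_congr rfl fun i _ => by ring
  have h2 : ∑ i ∈ range l, ((((i + 1 : ℕ) : ℝ) * w) ^ t - ((i : ℝ) * w) ^ t) *
      ((c + e i) ^ 2 - c ^ 2) =
      ∑ i ∈ range l, ((((i + 1 : ℕ) : ℝ) * w) ^ t - ((i : ℝ) * w) ^ t) * (c + e i) ^ 2 -
      ∑ i ∈ range l, ((((i + 1 : ℕ) : ℝ) * w) ^ t - ((i : ℝ) * w) ^ t) * c ^ 2 := by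
    rw [← sum_sub_distrib]; exact sum_congr rfl fun i _ => by ring
  rw [h1, h2]; ring

section
variable {w : ℝ} {k l : ℕ} {c : ℝ} {e : ℕ → ℝ} {s u u' δ : ℝ}

theorem tau_mono (t : ℕ) {w : ℝ} (hw : 0 ≤ w) (i j : ℕ) (hij : i ≤ j) :
    (((i + 1 : ℕ) : ℝ) * w) ^ t - ((i : ℝ) * w) ^ t ≤
    (((j + 1 : ℕ) : ℝ) * w) ^ t - ((j : ℝ) * w) ^ t := by
  have key : ∀ n : ℕ, (((n + 1 : ℕ) : ℝ) * w) ^ t - ((n : ℝ) * w) ^ t =
      w * ∑ a ∈ range t, (((n + 1 : ℕ) : ℝ) * w) ^ a * ((n : ℝ) * w) ^ (t - 1 - a) := by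
    intro n
    have := (Commute.all (((n + 1 : ℕ) : ℝ) * w) ((n : ℝ) * w)).geom_sum₂_mul t
    rw [← this]
    have h2 : ((n + 1 : ℕ) : ℝ) * w - (n : ℝ) * w = w := by push_cast; ring
    rw [h2, mul_comm]
  rw [key, key]
  refine mul_le_mul_of_nonneg_left ?_ hw
  refine sum_le_sum fun a _ => ?_
  have h1 : (i : ℝ) * w ≤ (j : ℝ) * w := mul_le_mul_of_nonneg_right (by exact_mod_cast hij) hw
  have h2 : ((i + 1 : ℕ) : ℝ) * w ≤ ((j + 1 : ℕ) : ℝ) * w :=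
    mul_le_mul_of_nonneg_right (by exact_mod_cast Nat.succ_le_succ hij) hw
  have h3 : 0 ≤ (i : ℝ) * w := mul_nonneg (Nat.cast_nonneg _) hw
  have h4 : 0 ≤ ((i + 1 : ℕ) : ℝ) * w := mul_nonneg (Nat.cast_nonneg _) hw
  exact mul_le_mul (pow_le_pow_left₀ h4 h2 _) (pow_le_pow_left₀ h3 h1 _) (pow_nonneg h3 _)
    (pow_nonneg (h4.trans h2) _)

/-- the contribution of the low part -/
theorem StepData.low_part (d : StepData w k l c e s u u' δ) {q : ℕ} (hq : q + 2 = 200) :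
    ∑ j ∈ range (k - l), ((2 * ((l + j : ℕ) : ℝ) + 1) * w ^ 2 *
        ((c + e (l + j)) ^ (q + 2) - c ^ (q + 2)) +
      ((((l + j + 1 : ℕ) : ℝ) * w) ^ (q + 2) - (((l + j : ℕ) : ℝ) * w) ^ (q + 2)) *
        ((c + e (l + j)) ^ 2 - c ^ 2)) ≤
    (((q : ℝ) + 4) * c ^ (q + 3) - ((q : ℝ) + 2) * s ^ 2 * c ^ (q + 1) -
        2 * s ^ (q + 2) * c) * (sA w (k - l) (fun j => e (l + j)) / u) +
    (2 * ((q : ℝ) + 2) ^ 2 + ((q : ℝ) + 2)) * c ^ (q + 1) *
      sY w (k - l) (fun j => e (l + j)) := by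
  obtain ⟨hs, hu, h3, hkl⟩ := d.basic
  have hw := d.sh.w0
  have hc0 : 0 < c := by have := d.c12; linarith
  have hqr : (q : ℝ) + 2 = 200 := by exact_mod_cast hq
  set n := k - l with hn
  set τ : ℕ → ℝ := fun j => (((l + j + 1 : ℕ) : ℝ) * w) ^ (q + 2) -
    (((l + j : ℕ) : ℝ) * w) ^ (q + 2) with hτ
  set g : ℕ → ℝ := fun j => (2 * ((l + j : ℕ) : ℝ) + 1) * w ^ 2 * (((q : ℝ) + 2) * c ^ (q + 1)) +
    2 * c * τ j with hg
  have hτ0 : ∀ j, 0 ≤ τ j := fun j => tau_nonneg (q + 2) hw.le (l + j)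
  have hτle : ∀ j < n, τ j ≤ ((q : ℝ) + 2) * c ^ (q + 1) * w := by
    intro j hj
    have h5 : ((l + j + 1 : ℕ) : ℝ) * w ≤ c := by
      rw [← d.kc]
      refine mul_le_mul_of_nonneg_right ?_ hw.le
      have := d.lk
      exact_mod_cast (by omega : l + j + 1 ≤ k)
    have h6 := tau_le (q + 2) hw.le (l + j) h5
    have h7 : ((q + 2 : ℕ) : ℝ) = (q : ℝ) + 2 := by push_cast; ring
    rw [h7] at h6
    exact h6
  have hpos : ∀ j < n, (2 * ((l + j : ℕ) : ℝ) + 1) * w ≤ 2 * c := by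
    intro j hj
    rw [← d.kc]
    have h5 : ((l + j : ℕ) : ℝ) + 1 ≤ k := by
      have := d.lk
      exact_mod_cast (by omega : l + j + 1 ≤ k)
    nlinarith
  -- pointwise bound
  have hpt : ∀ j ∈ range n, ((2 * ((l + j : ℕ) : ℝ) + 1) * w ^ 2 *
        ((c + e (l + j)) ^ (q + 2) - c ^ (q + 2)) + τ j * ((c + e (l + j)) ^ 2 - c ^ 2)) ≤
      g j * e (l + j) + (2 * ((q : ℝ) + 2) ^ 2 + ((q : ℝ) + 2)) * c ^ (q + 1) *
        (w * (e (l + j)) ^ 2) := by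
    intro j hj
    have hj' := mem_range.1 hj
    obtain ⟨hr0, hr1⟩ := d.low' j hj'
    set r := e (l + j) with hr
    have h5 := pow_add_le q hc0 hr0 (by rw [hqr]; have := d.c12; linarith)
    have h6 : 0 ≤ (2 * ((l + j : ℕ) : ℝ) + 1) * w ^ 2 := by positivity
    have h7 := mul_le_mul_of_nonneg_left (sub_le_sub_right h5 (c ^ (q + 2))) h6
    have h8 : (2 * ((l + j : ℕ) : ℝ) + 1) * w ^ 2 * (((q : ℝ) + 2) ^ 2 * c ^ q * r ^ 2) ≤
        2 * ((q : ℝ) + 2) ^ 2 * c ^ (q + 1) * (w * r ^ 2) := by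
      have h9 := mul_le_mul_of_nonneg_right (hpos j hj')
        (show 0 ≤ ((q : ℝ) + 2) ^ 2 * c ^ q * (w * r ^ 2) by positivity)
      have e1 : c ^ (q + 1) = c ^ q * c := pow_succ c q
      rw [e1]
      nlinarith
    have h10 : τ j * r ^ 2 ≤ ((q : ℝ) + 2) * c ^ (q + 1) * (w * r ^ 2) := by
      have := mul_le_mul_of_nonneg_right (hτle j hj') (sq_nonneg r)
      linarith
    have h11 : τ j * ((c + r) ^ 2 - c ^ 2) = 2 * c * τ j * r + τ j * r ^ 2 := by ring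
    rw [h11]
    have h12 : g j * r = (2 * ((l + j : ℕ) : ℝ) + 1) * w ^ 2 * (((q : ℝ) + 2) * c ^ (q + 1) * r) +
        2 * c * τ j * r := by simp only [hg]; ring
    rw [h12]
    nlinarith
  refine (sum_le_sum hpt).trans ?_
  rw [sum_add_distrib, ← mul_sum]
  have hYdef : ∑ i ∈ range n, w * e (l + i) ^ 2 = sY w n (fun j => e (l + j)) := rfl
  rw [hYdef]
  refine add_le_add ?_ le_rfl
  -- Chebyshev
  have hch := cheb n g (fun j => e (l + j)) (fun i j hij hj => by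
    have h5 : ((l + i : ℕ) : ℝ) ≤ ((l + j : ℕ) : ℝ) := by exact_mod_cast (by omega : l + i ≤ l + j)
    have h6 : τ i ≤ τ j := tau_mono (q + 2) hw.le (l + i) (l + j) (by omega)
    have h7 : 0 ≤ w ^ 2 * (((q : ℝ) + 2) * c ^ (q + 1)) := by positivity
    show (2 * ((l + i : ℕ) : ℝ) + 1) * w ^ 2 * (((q : ℝ) + 2) * c ^ (q + 1)) + 2 * c * τ i ≤
      (2 * ((l + j : ℕ) : ℝ) + 1) * w ^ 2 * (((q : ℝ) + 2) * c ^ (q + 1)) + 2 * c * τ j
    nlinarith) d.anti'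
  have hsumg : ∑ j ∈ range n, g j = ((q : ℝ) + 4) * c ^ (q + 3) -
      ((q : ℝ) + 2) * s ^ 2 * c ^ (q + 1) - 2 * s ^ (q + 2) * c := by
    have h5 : ∑ j ∈ range n, (2 * ((l + j : ℕ) : ℝ) + 1) * w ^ 2 = c ^ 2 - s ^ 2 := by
      have h6 := sum_odd_w w k
      rw [sum_split d.lk, sum_odd_w w l, d.kc, ← d.sdef] at h6
      linarith
    have h7 : ∑ j ∈ range n, τ j = c ^ (q + 2) - s ^ (q + 2) := by
      have h6 := sum_tau (q + 2) (by omega) w k
      rw [sum_split d.lk, sum_tau (q + 2) (by omega) w l, d.kc, ← d.sdef] at h6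
      have h8 : ∑ j ∈ range n, τ j = ∑ i ∈ range (k - l), ((((l + i + 1 : ℕ) : ℝ) * w) ^ (q + 2) -
        (((l + i : ℕ) : ℝ) * w) ^ (q + 2)) := rfl
      rw [h8]; linarith
    simp only [hg]
    rw [sum_add_distrib, ← sum_mul, ← mul_sum, h5, h7]
    have e1 : c ^ (q + 3) = c ^ 2 * c ^ (q + 1) := by rw [← pow_add]; congr 1; omega
    have e2 : c ^ (q + 2) = c * c ^ (q + 1) := by rw [← pow_succ']
    rw [e1, e2]; ring
  rw [hsumg] at hch
  set G := ((q : ℝ) + 4) * c ^ (q + 3) - ((q : ℝ) + 2) * s ^ 2 * c ^ (q + 1) -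
    2 * s ^ (q + 2) * c with hG
  have hn0 : (0 : ℝ) < n := by exact_mod_cast hkl
  have hu0 : 0 < u := by linarith
  have h13 : sA w n (fun j => e (l + j)) = w * ∑ j ∈ range n, e (l + j) := by
    unfold sA; rw [mul_sum]
  rw [h13, ← h3]
  have h14 : G * (w * ∑ j ∈ range n, e (l + j) / (n * w)) =
      G * ∑ j ∈ range n, e (l + j) / n := by
    rw [mul_sum]
    congr 1
    refine sum_congr rfl fun j _ => ?_
    field_simp
  have h15 : G * (w * (∑ j ∈ range n, e (l + j)) / (n * w)) = (G * ∑ j ∈ range n, e (l + j)) / n := by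
    field_simp
  rw [h15, le_div_iff₀ hn0]
  calc (∑ j ∈ range n, g j * e (l + j)) * n = n * ∑ j ∈ range n, g j * e (l + j) := by ring
    _ ≤ _ := hch

/-- the loss in the second functional -/
theorem StepData.loss (d : StepData w k l c e s u u' δ) {q : ℕ} (hq : q + 2 = 200) :
    Ph (q + 2) w k c e - Ph (q + 2) w l (c + δ) (fun i => e i - δ) ≤
      3 * ((q : ℝ) + 2) ^ 2 * c ^ (q + 1) * sY w (k - l) (fun j => e (l + j)) := by
  obtain ⟨hs, hu, h3, hkl⟩ := d.basic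
  have hc0 : 0 < c := by have := d.c12; linarith
  have hu0 : 0 < u := by linarith
  have hqr : (q : ℝ) + 2 = 200 := by exact_mod_cast hq
  obtain ⟨hδ0, _, hδ2⟩ := d.delta
  have hlow := d.low_part hq
  have hcs := cs_w w (k - l) (fun j => e (l + j))
  rw [h3] at hcs
  have hY0 := d.Yl_nonneg
  set A := sA w (k - l) (fun j => e (l + j)) with hA
  set Y := sY w (k - l) (fun j => e (l + j)) with hY
  have htan := f_tangent q hc0 hδ0 hs (by have := d.udef; linarith)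
  set G := ((q : ℝ) + 4) * c ^ (q + 3) - ((q : ℝ) + 2) * s ^ 2 * c ^ (q + 1) -
    2 * s ^ (q + 2) * c with hG
  -- the two values
  have hPh' : Ph (q + 2) w l (c + δ) (fun i => e i - δ) =
      ((c + δ) ^ (q + 4) - s ^ 2 * (c + δ) ^ (q + 2) - s ^ (q + 2) * (c + δ) ^ 2) +
        PhTall (q + 2) w l c e := by
    unfold Ph
    rw [Ph_tall_eq (q + 2) (by omega), ← d.sdef]
    have h5 : PhTall (q + 2) w l (c + δ) (fun i => e i - δ) = PhTall (q + 2) w l c e := by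
      unfold PhTall
      refine sum_congr rfl fun i _ => ?_
      have : c + δ + (e i - δ) = c + e i := by ring
      simp only [this]
    rw [h5]
  have hPh : Ph (q + 2) w k c e =
      (c ^ (q + 4) - s ^ 2 * c ^ (q + 2) - s ^ (q + 2) * c ^ 2) + PhTall (q + 2) w l c e +
      ∑ j ∈ range (k - l), ((2 * ((l + j : ℕ) : ℝ) + 1) * w ^ 2 *
        ((c + e (l + j)) ^ (q + 2) - c ^ (q + 2)) +
      ((((l + j + 1 : ℕ) : ℝ) * w) ^ (q + 2) - (((l + j : ℕ) : ℝ) * w) ^ (q + 2)) *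
        ((c + e (l + j)) ^ 2 - c ^ 2)) := by
    unfold Ph
    rw [sum_split d.lk, sum_split d.lk, sum_add_distrib]
    have h5 := Ph_tall_eq (q + 2) (by omega) w l c e
    rw [← d.sdef] at h5
    have h6 : q + 2 + 2 = q + 4 := rfl
    rw [h6] at h5 ⊢
    linarith
  rw [hPh, hPh']
  have hGle : G ≤ ((q : ℝ) + 4) * c ^ (q + 3) := by
    rw [hG]
    have h5 : 0 ≤ ((q : ℝ) + 2) * s ^ 2 * c ^ (q + 1) := by positivity
    have h6 : 0 ≤ 2 * s ^ (q + 2) * c := by positivity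
    linarith
  have hG0 : 0 ≤ G := by
    rw [hG]
    have hsc : s ≤ c := by have := d.udef; linarith
    have h5 : s ^ 2 ≤ c ^ 2 := pow_le_pow_left₀ hs hsc 2
    have h6 : s ^ (q + 2) ≤ c ^ (q + 2) := pow_le_pow_left₀ hs hsc _
    have e1 : c ^ (q + 3) = c ^ 2 * c ^ (q + 1) := by rw [← pow_add]; congr 1; omega
    have e2 : c ^ (q + 2) = c * c ^ (q + 1) := by rw [← pow_succ']
    rw [e2] at h6
    rw [e1]
    set C := c ^ (q + 1) with hC
    have hC0 : 0 ≤ C := pow_nonneg hc0.le _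
    have h7 : ((q : ℝ) + 2) * s ^ 2 * C ≤ ((q : ℝ) + 2) * c ^ 2 * C := by
      have := mul_le_mul_of_nonneg_left h5 (show 0 ≤ ((q : ℝ) + 2) * C by positivity)
      linarith
    have h8 : 2 * s ^ (q + 2) * c ≤ 2 * (c * C) * c := by
      have := mul_le_mul_of_nonneg_right h6 hc0.le
      linarith
    linarith
  -- error
  have h16 : G * (A / u) - G * δ ≤ ((q : ℝ) + 4) * c ^ (q + 3) * (A ^ 2 / (2 * u ^ 3)) := by
    have h5 : G * (A / u) - G * δ ≤ G * (A ^ 2 / (2 * u ^ 3)) := by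
      have := mul_le_mul_of_nonneg_left hδ2 hG0
      linarith
    have h6 : 0 ≤ A ^ 2 / (2 * u ^ 3) := by positivity
    exact h5.trans (mul_le_mul_of_nonneg_right hGle h6)
  have h17 : ((q : ℝ) + 4) * c ^ (q + 3) * (A ^ 2 / (2 * u ^ 3)) ≤
      (6 / 10) * ((q : ℝ) + 4) * c ^ (q + 1) * Y := by
    have h5 : A ^ 2 / (2 * u ^ 3) ≤ Y / (2 * u ^ 2) := by
      rw [div_le_div_iff₀ (by positivity) (by positivity)]
      have := mul_le_mul_of_nonneg_left hcs (show 0 ≤ 2 * u ^ 2 by positivity)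
      linarith
    have h6 : c ^ 2 / (2 * u ^ 2) ≤ 6 / 10 := by
      rw [div_le_iff₀ (by positivity)]
      have h7 := d.udef
      have h8 := d.s50
      have h9 := d.c12
      have h10 : 24 / 25 * c ≤ u := by linarith
      have h11 : (24 / 25 * c) ^ 2 ≤ u ^ 2 := pow_le_pow_left₀ (by positivity) h10 2
      linarith [sq_nonneg c]
    have e1 : c ^ (q + 3) = c ^ 2 * c ^ (q + 1) := by rw [← pow_add]; congr 1; omega
    calc ((q : ℝ) + 4) * c ^ (q + 3) * (A ^ 2 / (2 * u ^ 3)) ≤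
        ((q : ℝ) + 4) * c ^ (q + 3) * (Y / (2 * u ^ 2)) :=
          mul_le_mul_of_nonneg_left h5 (by positivity)
      _ = (c ^ 2 / (2 * u ^ 2)) * (((q : ℝ) + 4) * c ^ (q + 1) * Y) := by rw [e1]; ring
      _ ≤ (6 / 10) * (((q : ℝ) + 4) * c ^ (q + 1) * Y) :=
          mul_le_mul_of_nonneg_right h6 (by positivity)
      _ = _ := by ring
  have h18 : (2 * ((q : ℝ) + 2) ^ 2 + ((q : ℝ) + 2)) * c ^ (q + 1) * Y +
      (6 / 10) * ((q : ℝ) + 4) * c ^ (q + 1) * Y ≤ 3 * ((q : ℝ) + 2) ^ 2 * c ^ (q + 1) * Y := by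
    have h5 : 0 ≤ c ^ (q + 1) * Y := by positivity
    have h6 : (2 * ((q : ℝ) + 2) ^ 2 + ((q : ℝ) + 2)) + (6 / 10) * ((q : ℝ) + 4) ≤
        3 * ((q : ℝ) + 2) ^ 2 := by
      have : (q : ℝ) = 198 := by linarith
      rw [this]; norm_num
    have := mul_le_mul_of_nonneg_right h6 h5
    linarith
  linarith

end

end Pool.Agent.Lib.Helper7.STK
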