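/-
MP_8790d8_co: shapes with a big clique are beaten by the three families.
-/
import Pool.Agent.Lib.Helper7.STK.Loss

set_option autoImplicit false
open Finset

namespace Pool.Agent.Lib.Helper7.STK

section
variable {w : ℝ} {k : ℕ} {c : ℝ} {e : ℕ → ℝ}

/-- shapes with a big clique are beaten by the three families -/
theorem big_side {T m : ℕ} (hP : Par T m) (h : GShape w k c e) (hkc : k * w = c)
    (hc : 1 / 2 ≤ c) (hA : area w k c e ≤ 81 / 100) :
    ∃ a u : ℝ, 0 ≤ a ∧ a ≤ 1 / 50 ∧ 0 ≤ u ∧ a + u ≤ 9 / 10 ∧ TA a u = area w k c e ∧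
      (M2 w k c e) ^ m * Ph (2 * T) w k c e ≤ (TM a u) ^ m * TP (2 * T) a u := by
  have hT := hP.T5
  have hA0 := sA_nonneg h
  have hc0 : 0 < c := by linarith
  set x := Real.sqrt (area w k c e) with hx
  have harea0 : 0 ≤ area w k c e := by unfold area; positivity
  have hx0 : 0 ≤ x := Real.sqrt_nonneg _
  have hxx : x ^ 2 = area w k c e := by rw [hx, Real.sq_sqrt harea0]
  have hx9 : x ≤ 9 / 10 := by
    by_contra hcon
    push Not at hcon
    nlinarith
  have hcx : c ≤ x := by
    have : c ^ 2 ≤ x ^ 2 := by rw [hxx]; unfold area; linarith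
    exact le_of_sq_le_sq this hx0
  have hK := M2_le_K h hkc hc hx0 hxx.symm
  rcases le_total (12 / 10 ^ 10) ((sA w k e) ^ 2) with hbig | hsmall
  · refine ⟨0, x, le_rfl, by norm_num, hx0, by linarith, ?_, ?_⟩
    · rw [TA_K, hxx]
    · refine (gap_lt hP (M2_nonneg h) ?_ (TM_le_one le_rfl hx0 (by linarith)) (Ph_nonneg _ h)
        (Ph_le_one _ (by omega) h) ?_).le
      · linarith
      · rw [TP_K T (by omega)]
        exact quarter_le_K (by linarith)
  -- near the quasi-clique
  have hAs : sA w k e ≤ 35 / 10 ^ 6 := by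
    by_contra hcon
    push Not at hcon
    nlinarith
  obtain ⟨l, hl, htall, hlow⟩ := exists_split h.anti (1 / 400)
  set s := (l : ℝ) * w with hs
  set u := c - s with hu
  set A := sA w (k - l) (fun j => e (l + j)) with hAd
  have hsA : s / 400 ≤ sA w k e := by
    have h1 : sA w k e = sA w l e + A := sA_split e hl
    have h2 : 0 ≤ A := sum_nonneg fun j hj => mul_nonneg h.w0.le
      (h.nn _ (by have := mem_range.1 hj; omega))
    have h3 : s / 400 ≤ sA w l e := by
      unfold sA
      calc s / 400 = ∑ i ∈ range l, w * (1 / 400) := by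
            rw [sum_const, card_range, nsmul_eq_mul, hs]; ring
        _ ≤ ∑ i ∈ range l, w * e i := sum_le_sum fun i hi =>
            mul_le_mul_of_nonneg_left (htall i (mem_range.1 hi)) h.w0.le
    linarith
  have hs50 : s ≤ 1 / 50 := by linarith
  have hAl0 : 0 ≤ A := sum_nonneg fun j hj => mul_nonneg h.w0.le
      (h.nn _ (by have := mem_range.1 hj; omega))
  set u' := Real.sqrt (u ^ 2 + 2 * A) with hu'
  have d : StepData w k l c e s u u' (u' - u) :=
    { sh := h, kc := hkc, lk := hl, sdef := hs, udef := hu, s50 := hs50, c12 := hc,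
      c910 := by linarith, u0 := Real.sqrt_nonneg _,
      u2 := Real.sq_sqrt (by positivity), ddef := rfl,
      low := fun i h1 h2 => (hlow i h1 h2).le }
  obtain ⟨hs0, hu48, h3, hkl⟩ := d.basic
  obtain ⟨hδ0, hδ1, _⟩ := d.delta
  have hu0 : 0 < u := by linarith
  set δ := u' - u with hδ
  have hδ : δ ≤ 1 / 800 := by
    refine hδ1.trans ?_
    rw [div_le_iff₀ hu0]
    have h1 : sA w k e = sA w l e + A := sA_split e hl
    have h2 : 0 ≤ sA w l e := sum_nonneg fun j hj => mul_nonneg h.w0.le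
      (h.nn _ (by have := mem_range.1 hj; omega))
    linarith
  obtain ⟨hsh, htall'⟩ := d.shape htall hδ
  have harea := d.area_eq
  have hgain := d.gain
  have hY0 := d.Yl_nonneg
  obtain ⟨q, hq⟩ : ∃ q, q + 2 = 2 * T := ⟨2 * T - 2, by omega⟩
  have hq200 : q + 2 = 200 := by rw [hq, hP.T100]
  have hloss := d.loss hq200
  rw [hq] at hloss
  set Y := sY w (k - l) (fun j => e (l + j)) with hY
  set M' := M2 w l (c + δ) (fun i => e i - δ) with hM'
  set P' := Ph (2 * T) w l (c + δ) (fun i => e i - δ) with hP'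
  have hc'9 : c + δ ≤ 9 / 10 := by
    have h1 : (c + δ) ^ 2 ≤ area w l (c + δ) (fun i => e i - δ) := by
      have := sA_nonneg hsh
      unfold area; linarith
    rw [harea] at h1
    by_contra hcon
    push Not at hcon
    have h2 := pow_lt_pow_left₀ hcon (by norm_num) two_ne_zero
    linarith
  have hstep : (M2 w k c e) ^ m * Ph (2 * T) w k c e ≤ M' ^ m * P' := by
    have hM1 : M' ≤ 1 := M2_le_one hsh
    have hM0 := M2_nonneg h
    have hPge : c ^ (q + 4) ≤ P' := by
      have h1 := Ph_ge (2 * T) hsh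
      have h2 : c ^ (2 * T + 2) ≤ (c + δ) ^ (2 * T + 2) :=
        pow_le_pow_left₀ hc0.le (by linarith) _
      have h4 : q + 4 = 2 * T + 2 := by omega
      rw [h4]; exact h2.trans h1
    have hM3 : c ^ 3 ≤ M2 w k c e := by
      have := sY_nonneg h; have := sX_nonneg h
      unfold M2
      linarith [mul_nonneg hc0.le (sA_nonneg h)]
    have hM'pos : 0 < M' := by
      have : 0 < c ^ 3 := by positivity
      linarith
    refine prod_le hM0 hM'pos (by linarith) (lt_of_lt_of_le (pow_pos hc0 _) hPge) ?_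
    have e1 : c ^ (q + 4) = c ^ 3 * c ^ (q + 1) := by rw [← pow_add]; congr 1; omega
    have h8 : (1 : ℝ) / 8 ≤ c ^ 3 := by
      calc (1 : ℝ) / 8 = (1 / 2) ^ 3 := by norm_num
        _ ≤ c ^ 3 := pow_le_pow_left₀ (by norm_num) hc 3
    have hpm := hP.pm
    have hcast : ((2 * T : ℕ) : ℝ) = (q : ℝ) + 2 := by rw [← hq]; push_cast; ring
    rw [hcast] at hpm
    have hC0 : 0 ≤ c ^ (q + 1) * Y := by positivity
    have m0 : (0 : ℝ) ≤ m := Nat.cast_nonneg m
    calc (Ph (2 * T) w k c e - P') * M' ≤ (3 * ((q : ℝ) + 2) ^ 2 * c ^ (q + 1) * Y) * 1 :=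
          mul_le_mul hloss hM1 hM'pos.le (by positivity)
      _ = (144 * ((q : ℝ) + 2) ^ 2) * (c ^ (q + 1) * Y) * (1 / 48) := by ring
      _ ≤ m * (c ^ (q + 1) * Y) * (1 / 48) :=
          mul_le_mul_of_nonneg_right (mul_le_mul_of_nonneg_right hpm hC0) (by norm_num)
      _ = m * (Y / 6) * (1 / 8 * c ^ (q + 1)) := by ring
      _ ≤ m * (Y / 6) * (c ^ 3 * c ^ (q + 1)) :=
          mul_le_mul_of_nonneg_left (mul_le_mul_of_nonneg_right h8 (by positivity))
            (by positivity)
      _ = m * (Y / 6) * c ^ (q + 4) := by rw [e1]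
      _ ≤ m * (M' - M2 w k c e) * P' :=
          mul_le_mul (mul_le_mul_of_nonneg_left hgain m0) hPge (by positivity)
            (mul_nonneg m0 (le_trans (by positivity) hgain))
  obtain ⟨a, ha0, ha1, hTA, hfin⟩ := flat_near hP hsh (by rw [← hs]; exact hs50)
    (by linarith) hc'9 htall'
  have hsc : a ≤ c + δ := by linarith
  exact ⟨a, c + δ - a, ha0, ha1, by linarith, by linarith, by rw [hTA, harea],
    hstep.trans hfin⟩

end

end Pool.Agent.Lib.Helper7.STK
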