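/-
MP_8790d8_co: analysis of the families.
-/
import Pool.Agent.Lib.Helper7.STK.Big
import Pool.Agent.Lib.Helper7.STK.FamDefs

set_option autoImplicit false
open Finset

namespace Pool.Agent.Lib.Helper7.STK

theorem cube_lower {x u : ℝ} (hx : 0 ≤ x) (hu : 0 ≤ u) :
    u ^ 3 + 3 / 2 * u * (x ^ 2 - u ^ 2) ≤ x ^ 3 := by
  have : x ^ 3 - u ^ 3 - 3 / 2 * u * (x ^ 2 - u ^ 2) = (x - u) ^ 2 * (x + u / 2) := by ring
  nlinarith [mul_nonneg (sq_nonneg (x - u)) (show 0 ≤ x + u / 2 by linarith)]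

theorem uu_K {β : ℝ} : uu β 0 = Real.sqrt β := by unfold uu; norm_num

theorem PT_K {T m : ℕ} (hT : 0 < T) (β : ℝ) :
    PT T m β 0 = (Real.sqrt β ^ 3) ^ m * (Real.sqrt β) ^ (2 * T + 2) := by
  unfold PT
  rw [uu_K, TM_K, TP_K T hT]

/-- first functional against the quasi-clique -/
theorem TM_lt_K {x a u : ℝ} (hx : 0 ≤ x) (hu : 67 / 100 ≤ u) (hu' : u ≤ 9 / 10) (ha : 0 ≤ a)
    (ha' : a ≤ 1 / 50) (h : TA a u = x ^ 2) : TM a u + a / 50 ≤ x ^ 3 := by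
  have h1 := cube_lower hx (by linarith : 0 ≤ u)
  rw [← h] at h1
  refine le_trans ?_ h1
  unfold TA TM
  have key : u ^ 3 + 3 / 2 * u * (u ^ 2 + 2 * a - a ^ 2 - u ^ 2) - (u ^ 3 + 2 * u ^ 2 * a + a +
      a ^ 2 - a ^ 3 + a / 50) = a * ((1 - u) * (2 * u - 1) - (1 + 3 / 2 * u) * a + a ^ 2 -
      1 / 50) := by ring
  have h2 : 0 ≤ (1 - u) * (2 * u - 1) - (1 + 3 / 2 * u) * a + a ^ 2 - 1 / 50 := by
    have h3 : 8 / 100 ≤ (1 - u) * (2 * u - 1) := by nlinarith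
    have h4 : (1 + 3 / 2 * u) * a ≤ (1 + 3 / 2 * (9 / 10)) * (1 / 50) :=
      mul_le_mul (by linarith) ha' ha (by norm_num)
    nlinarith [sq_nonneg a]
  nlinarith [mul_nonneg ha h2]

/-- second functional against the quasi-clique -/
theorem TP_lt_K {T : ℕ} (hT : 1 ≤ T) {x a u : ℝ} (hx : 0 ≤ x) (hu : 0 ≤ u) (ha : 0 ≤ a)
    (hau : a + u ≤ 1) (h : TA a u = x ^ 2) : TP (2 * T) a u ≤ x ^ (2 * T + 2) + 2 * a ^ 2 := by
  have ha1 : a ≤ 1 := by linarith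
  have h1 : (a + u) ^ 2 ≤ x ^ 2 := by rw [← h]; exact TA_ge_sq ha hau
  have h2 : a + u ≤ x := le_of_sq_le_sq h1 hx
  have h3 : (a + u) ^ (2 * T + 2) ≤ x ^ (2 * T + 2) := pow_le_pow_left₀ (by linarith) h2 _
  have h4 : a ^ (2 * T) ≤ a ^ 2 := pow_le_pow_of_le_one ha ha1 (by omega)
  have h5 : (a + u) ^ (2 * T + 2) = (a + u) ^ (2 * T) * (a + u) ^ 2 := pow_add _ _ _
  have h6 : 0 ≤ (a + u) ^ (2 * T) := pow_nonneg (by linarith) _
  have h7 : 0 ≤ a ^ (2 * T) := pow_nonneg ha _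
  unfold TP
  nlinarith [mul_nonneg (sq_nonneg a) h6, mul_nonneg (sq_nonneg (a + u)) h7]

/-- near the quasi-clique the family loses -/
theorem PT_le_K {T m : ℕ} (hP : Par T m) {β a : ℝ} (hβ : bm ≤ β) (hβ' : β ≤ 81 / 100)
    (ha : 0 ≤ a) (ha' : a ≤ 1 / 50) (h : 100 * a ≤ m * (Real.sqrt β) ^ (2 * T + 2)) :
    PT T m β a ≤ PT T m β 0 := by
  have hT := hP.T5
  obtain ⟨h2, h3, h4, h5, h6⟩ := uu_facts hβ hβ' ha ha'
  have hb := bm_bp.2.2.2.2.2
  set x := Real.sqrt β with hx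
  have hx0 : 0 < x := Real.sqrt_pos.2 (by linarith)
  have hxx : x ^ 2 = β := Real.sq_sqrt (by linarith)
  have hx1 : x ≤ 1 := by
    by_contra hcon
    push Not at hcon
    nlinarith
  rw [PT_K (by omega)]
  rw [← hx]
  unfold PT
  have hTM := TM_lt_K hx0.le h3 h4 ha ha' (by rw [h6, hxx])
  have hTP := TP_lt_K (T := T) (by omega) hx0.le (by linarith : 0 ≤ uu β a) ha (by linarith)
    (by rw [h6, hxx])
  have hx3 : x ^ 3 ≤ 1 := pow_le_one₀ hx0.le hx1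
  refine prod_le (TM_nonneg ha (by linarith) (by linarith)) (pow_pos hx0 3) (by linarith)
    (pow_pos hx0 _) ?_
  have hp : 0 < x ^ (2 * T + 2) := pow_pos hx0 _
  calc (TP (2 * T) a (uu β a) - x ^ (2 * T + 2)) * x ^ 3 ≤ (2 * a ^ 2) * 1 := by
        refine mul_le_mul (by linarith) hx3 (pow_nonneg hx0.le 3) (by positivity)
    _ = a / 50 * (100 * a) := by ring
    _ ≤ a / 50 * (m * x ^ (2 * T + 2)) := mul_le_mul_of_nonneg_left h (by positivity)
    _ = m * (a / 50) * x ^ (2 * T + 2) := by ring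
    _ ≤ m * (x ^ 3 - TM a (uu β a)) * x ^ (2 * T + 2) := by
        have m0 : (0 : ℝ) ≤ m := Nat.cast_nonneg m
        exact mul_le_mul_of_nonneg_right (mul_le_mul_of_nonneg_left (by linarith) m0) hp.le

/-- at density `81/100` the quasi-clique is best -/
theorem PT_le_K_top {T m : ℕ} (hP : Par T m) {a : ℝ} (ha : 0 ≤ a) (ha' : a ≤ 1 / 50) :
    PT T m (81 / 100) a ≤ PT T m (81 / 100) 0 := by
  have hb := bm_bp
  refine PT_le_K hP (by linarith [hb.1, hb.2.2.1]) le_rfl ha ha' ?_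
  have h1 : Real.sqrt (81 / 100) = 9 / 10 := by
    rw [show (81 / 100 : ℝ) = (9 / 10) ^ 2 by norm_num]
    exact Real.sqrt_sq (by norm_num)
  rw [h1, hP.m12, hP.T100]
  have : (2 : ℝ) ≤ 10 ^ 12 * (9 / 10) ^ (2 * 100 + 2) := by norm_num
  linarith

/-- `a` cannot be too small -/
noncomputable def amin (T m : ℕ) : ℝ := m * (119 / 169) ^ (2 * T + 2) / 100

theorem amin_pos {T m : ℕ} (hP : Par T m) : 0 < amin T m := by
  unfold amin
  rw [hP.m12]; positivity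

theorem PT_le_K_small {T m : ℕ} (hP : Par T m) {β a : ℝ} (hβ : bm ≤ β) (hβ' : β ≤ 81 / 100)
    (ha : 0 ≤ a) (ha' : a ≤ 1 / 50) (h : a ≤ amin T m) :
    PT T m β a ≤ PT T m β 0 := by
  refine PT_le_K hP hβ hβ' ha ha' ?_
  have h1 : 119 / 169 ≤ Real.sqrt β := by
    refine Real.le_sqrt_of_sq_le ?_
    exact hβ
  have h2 : (119 / 169 : ℝ) ^ (2 * T + 2) ≤ Real.sqrt β ^ (2 * T + 2) :=
    pow_le_pow_left₀ (by norm_num) h1 _
  have m0 : (0 : ℝ) ≤ m := Nat.cast_nonneg m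
  have h3 := mul_le_mul_of_nonneg_left h2 m0
  unfold amin at h
  linarith

/-- in the window, a member of the family beats the quasi-clique -/
theorem PT_gt_K {T m : ℕ} (hP : Par T m) {β : ℝ} (hβ : bm ≤ β) (hβ' : β ≤ bp) :
    PT T m β 0 < PT T m β (1 / m) := by
  have hT := hP.T5
  have hb := bm_bp
  have hβ8 : β ≤ 81 / 100 := by linarith [hb.2.2.1]
  have hm := hP.m12
  set a : ℝ := 1 / m with ha
  have ham : a = 1 / 10 ^ 12 := by rw [ha, hm]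
  have ha0 : 0 < a := by rw [ham]; norm_num
  have ha1 : a ≤ 1 / 50 := by rw [ham]; norm_num
  obtain ⟨h2, h3, h4, h5, h6⟩ := uu_facts hβ hβ8 ha0.le ha1
  set x := Real.sqrt β with hx
  have hx0 : 0 < x := Real.sqrt_pos.2 (by linarith [hb.2.2.2.2.2])
  have hxx : x ^ 2 = β := Real.sq_sqrt (by linarith [hb.2.2.2.2.2])
  have hxu : x ≤ 120 / 169 := by
    have : x ^ 2 ≤ (120 / 169) ^ 2 := by rw [hxx]; exact hβ'
    exact le_of_sq_le_sq this (by norm_num)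
  have hxl : 119 / 169 ≤ x := by
    have : (119 / 169) ^ 2 ≤ x ^ 2 := by rw [hxx]; exact hβ
    exact le_of_sq_le_sq this hx0.le
  rw [PT_K (by omega), ← hx]
  unfold PT
  set u := uu β a with hu
  have hu0 : 0 ≤ u := by linarith
  -- first functional
  have hTM : x ^ 3 - a / 5 ≤ TM a u := by
    have h7 := cube_lower (x := u) (u := x) hu0 hx0.le
    have h8 : u ^ 2 - x ^ 2 = - (2 * a - a ^ 2) := by rw [h2, hxx]; ring
    rw [h8] at h7
    unfold TM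
    have h9 : 49 / 100 ≤ u ^ 2 := by
      rw [h2, ham]
      have := hb.2.2.2.2.2
      norm_num
      linarith
    have h10 : 3 * x - 1 - 2 * u ^ 2 ≤ 1 / 5 := by linarith
    have h11 : a * (3 * x - 1 - 2 * u ^ 2) ≤ a * (1 / 5) := mul_le_mul_of_nonneg_left h10 ha0.le
    have h12 : 0 ≤ a ^ 2 - a ^ 3 := by linarith [mul_nonneg (sq_nonneg a) (show 0 ≤ 1 - a by linarith)]
    have h13 : 0 ≤ 3 / 2 * x * a ^ 2 := by positivity
    linarith
  have hx3 : (119 / 169 : ℝ) ^ 3 ≤ x ^ 3 := pow_le_pow_left₀ (by norm_num) hxl 3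
  have hx3' : (34 : ℝ) / 100 ≤ x ^ 3 := le_trans (by norm_num) hx3
  have hx3pos : 0 < x ^ 3 := by positivity
  -- power
  have hpow : (1 / 3) * (x ^ 3) ^ m ≤ (TM a u) ^ m := by
    have h7 : x ^ 3 * (1 - a / 5 / x ^ 3) ≤ TM a u := by
      have : x ^ 3 * (1 - a / 5 / x ^ 3) = x ^ 3 - a / 5 := by field_simp
      rw [this]; exact hTM
    have h8 : a / 5 / x ^ 3 ≤ 2 / 3 * a := by
      rw [div_le_iff₀ hx3pos]
      have := mul_le_mul_of_nonneg_left hx3' ha0.le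
      linarith
    have h9 : 0 ≤ 1 - a / 5 / x ^ 3 := by linarith
    have h10 : (x ^ 3) ^ m * (1 - a / 5 / x ^ 3) ^ m ≤ (TM a u) ^ m := by
      rw [← mul_pow]
      exact pow_le_pow_left₀ (mul_nonneg hx3pos.le h9) h7 m
    have h11 : 1 / 3 ≤ (1 - a / 5 / x ^ 3) ^ m := by
      have h12 := one_add_mul_le_pow (a := - (a / 5 / x ^ 3)) (by linarith) m
      have h13 : 1 + (m : ℝ) * - (a / 5 / x ^ 3) ≥ 1 / 3 := by
        have h14 : (m : ℝ) * (a / 5 / x ^ 3) ≤ m * (2 / 3 * a) :=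
          mul_le_mul_of_nonneg_left h8 (Nat.cast_nonneg m)
        have h15 : (m : ℝ) * a = 1 := by
          rw [ha, mul_one_div, div_self]
          rw [hm]; norm_num
        linarith
      have h16 : 1 + - (a / 5 / x ^ 3) = 1 - a / 5 / x ^ 3 := by ring
      rw [h16] at h12
      linarith
    have h17 := mul_le_mul_of_nonneg_left h11 (pow_nonneg hx3pos.le m)
    linarith
  -- second functional
  have hTP : a ^ 2 ≤ TP (2 * T) a u := by
    rw [TP_eq]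
    have h7 : 0 ≤ (1 - a ^ 2) * a ^ (2 * T) :=
      mul_nonneg (sub_nonneg.2 (pow_le_one₀ ha0.le (by linarith))) (pow_nonneg ha0.le _)
    have h8 : 0 ≤ ((a + u) ^ 2 - a ^ 2) * ((a + u) ^ (2 * T) - a ^ (2 * T)) :=
      mul_nonneg (sub_nonneg.2 (pow_le_pow_left₀ ha0.le (by linarith) 2))
        (sub_nonneg.2 (pow_le_pow_left₀ ha0.le (by linarith) _))
    linarith
  have hK : x ^ (2 * T + 2) < 1 / 3 * a ^ 2 := by
    have h7 : x ^ (2 * T + 2) ≤ (120 / 169) ^ (2 * T + 2) := pow_le_pow_left₀ hx0.le hxu _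
    have h8 : (120 / 169 : ℝ) ^ (2 * T + 2) < 1 / 3 * (1 / 10 ^ 12) ^ 2 := by
      rw [hP.T100]; norm_num
    rw [ham]; linarith
  have hpm : 0 < (x ^ 3) ^ m := pow_pos hx3pos m
  calc (x ^ 3) ^ m * x ^ (2 * T + 2) < (x ^ 3) ^ m * (1 / 3 * a ^ 2) :=
        mul_lt_mul_of_pos_left hK hpm
    _ = (1 / 3) * (x ^ 3) ^ m * a ^ 2 := by ring
    _ ≤ (TM a u) ^ m * TP (2 * T) a u :=
        mul_le_mul hpow hTP (sq_nonneg a) (le_trans (by positivity) hpow)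

end Pool.Agent.Lib.Helper7.STK
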