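/-
MP_8790d8_co: the window.
-/
import Pool.Agent.Lib.Helper7.STK.Fam

set_option autoImplicit false
open Finset

namespace Pool.Agent.Lib.Helper7.STK

/-- the family member is monotone in the density -/
theorem PT_mono {T m : ℕ} {β β' a : ℝ} (hβ : bm ≤ β) (hβ' : β' ≤ 81 / 100) (h : β ≤ β')
    (ha : 0 ≤ a) (ha' : a ≤ 1 / 50) : PT T m β a ≤ PT T m β' a := by
  obtain ⟨h1, h2, h3, h4, h5⟩ := uu_facts hβ (h.trans hβ') ha ha'
  obtain ⟨g1, g2, g3, g4, g5⟩ := uu_facts (hβ.trans h) hβ' ha ha'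
  have hu : uu β a ≤ uu β' a := Real.sqrt_le_sqrt (by linarith)
  have hu0 : 0 ≤ uu β a := by linarith
  unfold PT
  refine mul_le_mul (pow_le_pow_left₀ (TM_nonneg ha hu0 (by linarith)) ?_ _) ?_
    (TP_nonneg _ ha hu0 (by linarith)) (pow_nonneg (TM_nonneg ha (by linarith) (by linarith)) _)
  · unfold TM
    have e1 : (uu β a) ^ 3 ≤ (uu β' a) ^ 3 := pow_le_pow_left₀ hu0 hu 3
    have e2 : (uu β a) ^ 2 ≤ (uu β' a) ^ 2 := pow_le_pow_left₀ hu0 hu 2
    nlinarith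
  · unfold TP
    have e1 : (a + uu β a) ^ 2 ≤ (a + uu β' a) ^ 2 := pow_le_pow_left₀ (by linarith) (by linarith) 2
    have e2 : (a + uu β a) ^ (2 * T) ≤ (a + uu β' a) ^ (2 * T) :=
      pow_le_pow_left₀ (by linarith) (by linarith) _
    have e3 : a ^ (2 * T) ≤ (a + uu β' a) ^ (2 * T) := pow_le_pow_left₀ ha (by linarith) _
    have e4 : 0 ≤ (a + uu β a) ^ 2 - a ^ 2 := sub_nonneg.2 (pow_le_pow_left₀ ha (by linarith) 2)
    have e5 := mul_le_mul_of_nonneg_left e2 e4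
    have e6 : 0 ≤ (a + uu β' a) ^ 2 - (a + uu β a) ^ 2 := by linarith
    have e7 := mul_le_mul_of_nonneg_left e3 e6
    linarith

/-- the quasi-star is monotone in the density -/
theorem PS_mono {T m : ℕ} {β β' : ℝ} (hβ : 0 ≤ β) (hβ' : β' ≤ 1) (h : β ≤ β') :
    PS T m β ≤ PS T m β' := by
  obtain ⟨h1, h2, h3, h4⟩ := rS_facts hβ (h.trans hβ')
  obtain ⟨g1, g2, g3, g4⟩ := rS_facts (hβ.trans h) hβ'
  have hr : rS β ≤ rS β' := by
    unfold rS
    have := Real.sqrt_le_sqrt (show 1 - β' ≤ 1 - β by linarith)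
    linarith
  unfold PS
  refine mul_le_mul (pow_le_pow_left₀ (TM_nonneg h1 le_rfl (by linarith)) ?_ _) ?_
    (TP_nonneg _ h1 le_rfl (by linarith)) (pow_nonneg (TM_nonneg g1 le_rfl (by linarith)) _)
  · have key : ∀ r : ℝ, TM r 0 = 1 - 2 * (1 - r) ^ 2 + (1 - r) ^ 3 := by
      intro r; unfold TM; ring
    rw [key, key]
    have e1 : 0 ≤ 1 - rS β' := by linarith
    have e2 : 1 - rS β' ≤ 1 - rS β := by linarith
    have e3 : 1 - rS β ≤ 1 := by linarith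
    set p := 1 - rS β'
    set q := 1 - rS β
    have : 1 - 2 * p ^ 2 + p ^ 3 - (1 - 2 * q ^ 2 + q ^ 3) =
        (q - p) * (2 * (q + p) - (q ^ 2 + q * p + p ^ 2)) := by ring
    have h7 : 0 ≤ 2 * (q + p) - (q ^ 2 + q * p + p ^ 2) := by nlinarith
    nlinarith [mul_nonneg (show 0 ≤ q - p by linarith) h7]
  · have key : ∀ r : ℝ, TP (2 * T) r 0 = 1 - (1 - r ^ 2) * (1 - r ^ (2 * T)) := by
      intro r; unfold TP; ring
    rw [key, key]
    have e1 : (rS β) ^ (2 * T) ≤ (rS β') ^ (2 * T) := pow_le_pow_left₀ h1 hr _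
    have e2 : (rS β) ^ 2 ≤ (rS β') ^ 2 := pow_le_pow_left₀ h1 hr 2
    have e3 : (rS β') ^ (2 * T) ≤ 1 := pow_le_one₀ g1 g2
    have e4 : (rS β') ^ 2 ≤ 1 := pow_le_one₀ g1 g2
    have := mul_le_mul (sub_le_sub_left e2 1) (sub_le_sub_left e1 1) (by linarith) (by linarith)
    linarith

/-- the quasi-clique beats the quasi-star above the window -/
theorem PS_lt_K {T m : ℕ} (hP : Par T m) {β : ℝ} (hβ : bp ≤ β) (hβ' : β ≤ 81 / 100) :
    PS T m β < PT T m β 0 := by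
  have hT := hP.T5
  have hb := bm_bp
  obtain ⟨h1, h2, h3, h4⟩ := rS_facts (show 0 ≤ β by linarith [hb.1, hb.2.1])
    (show β ≤ 1 by linarith)
  set x := Real.sqrt β with hx
  have hx0 : 0 ≤ x := Real.sqrt_nonneg _
  have hxx : x ^ 2 = β := Real.sq_sqrt (by linarith [hb.1, hb.2.1])
  have hxl : 120 / 169 ≤ x := by
    have : (120 / 169) ^ 2 ≤ x ^ 2 := by rw [hxx]; exact hβ
    exact le_of_sq_le_sq this hx0
  have hxu : x ≤ 9 / 10 := by
    have : x ^ 2 ≤ (9 / 10) ^ 2 := by rw [hxx]; linarith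
    exact le_of_sq_le_sq this (by norm_num)
  have hxy : x ^ 2 + (1 - rS β) ^ 2 = 1 := by rw [hxx, h3]; ring
  set y := 1 - rS β with hy
  have hyu : y ≤ 119 / 169 := by
    by_contra hcon
    push Not at hcon
    nlinarith
  have hKS := MK_MS hxy
  have hr : 1 - y = rS β := by rw [hy]; ring
  rw [hr] at hKS
  have hgap : 1 / 10000 ≤ (x - y) * (1 - x) * rS β := by
    have h2 : 1 / 169 ≤ x - y := by linarith
    have h3 : 1 / 10 ≤ 1 - x := by linarith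
    have h4 : 50 / 169 ≤ rS β := by linarith
    have h5 : 1 / 169 * (1 / 10) ≤ (x - y) * (1 - x) :=
      mul_le_mul h2 h3 (by norm_num) (by linarith)
    have h6 : 1 / 169 * (1 / 10) * (50 / 169) ≤ (x - y) * (1 - x) * rS β :=
      mul_le_mul h5 h4 (by norm_num) (le_trans (by norm_num) h5)
    exact le_trans (by norm_num) h6
  unfold PS PT
  rw [uu_K, ← hx]
  refine gap_lt hP (TM_nonneg h1 le_rfl (by linarith)) ?_ (TM_le_one le_rfl hx0 (by linarith))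
    (TP_nonneg _ h1 le_rfl (by linarith)) (TP_le_one _ h1 le_rfl (by linarith)) ?_
  · linarith
  · rw [TP_K T (by omega)]
    exact quarter_le_K (by linarith)

/-- at the lower end of the window the quasi-star beats the family -/
theorem PT_le_S_low {T m : ℕ} (hP : Par T m) {a : ℝ} (ha : 0 ≤ a) (ha' : a ≤ 1 / 50) :
    PT T m bm a ≤ PS T m bm := by
  have hT := hP.T5
  have hb := bm_bp
  obtain ⟨h2, h3, h4, h5, h6⟩ := uu_facts le_rfl (by linarith [hb.1, hb.2.2.1]) ha ha'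
  have hρ : rS bm = 49 / 169 := by
    unfold rS bm
    rw [show (1 - (119 / 169) ^ 2 : ℝ) = (120 / 169) ^ 2 by norm_num, Real.sqrt_sq (by norm_num)]
    norm_num
  have hTM := TM_lt_K (x := 119 / 169) (by norm_num) h3 h4 ha ha' (by rw [h6]; rfl)
  have hu0 : 0 ≤ uu bm a := by linarith
  unfold PS PT
  rw [hρ]
  refine (gap_lt hP (TM_nonneg ha hu0 (by linarith)) ?_ (TM_le_one (by norm_num) le_rfl (by norm_num))
    (TP_nonneg _ ha hu0 (by linarith)) (TP_le_one _ ha hu0 (by linarith)) ?_).le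
  · have : (119 / 169 : ℝ) ^ 3 + 2 / 10 ^ 10 ≤ TM (49 / 169) 0 := by unfold TM; norm_num
    linarith
  · refine quarter_le hT (le_trans ?_ (TP_S_ge _ (by norm_num) (by norm_num)))
    norm_num

/-- growth of the first functional of the family -/
theorem window_M {u u' a Δ β : ℝ} (hβ : β ≤ 505 / 1000) (hΔ : 0 ≤ Δ) (ha : 0 ≤ a)
    (ha' : a ≤ 1 / 50) (hu : 67 / 100 ≤ u) (hu' : 67 / 100 ≤ u')
    (h1 : u ^ 2 = β - 2 * a + a ^ 2) (h2 : u' ^ 2 - u ^ 2 = Δ) :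
    TM a u + 29 / 10 * Δ * TM a u ≤ TM a u' := by
  have hu0 : 0 ≤ u := by linarith
  have h7 := cube_lower (x := u') (u := u) (by linarith) hu0
  rw [h2] at h7
  have h9 : TM a u' - TM a u = u' ^ 3 - u ^ 3 + 2 * a * Δ := by
    rw [← h2]; unfold TM; ring
  have h10 : 29 / 10 * TM a u ≤ 3 / 2 * u + 2 * a := by
    have h11 : u ^ 2 ≤ 505 / 1000 - 198 / 100 * a := by
      rw [h1]; nlinarith
    have h12 : 29 / 10 * TM a u = 29 / 10 * (u * u ^ 2 + 2 * u ^ 2 * a + a + a ^ 2 - a ^ 3) := by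
      unfold TM; ring
    rw [h12]
    have h13 : u * u ^ 2 ≤ u * (505 / 1000 - 198 / 100 * a) := mul_le_mul_of_nonneg_left h11 hu0
    have h14 : u ^ 2 * a ≤ (505 / 1000) * a := mul_le_mul_of_nonneg_right (by linarith) ha
    have h15 : 0 ≤ a ^ 3 := pow_nonneg ha 3
    have h16 : a ^ 2 ≤ a * (1 / 50) := by rw [pow_two]; exact mul_le_mul_of_nonneg_left ha' ha
    have h17 : 67 / 100 * a ≤ u * a := mul_le_mul_of_nonneg_right hu ha
    nlinarith
  have h17 := mul_le_mul_of_nonneg_right h10 hΔ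
  linarith

theorem TM_S (r : ℝ) : TM r 0 = 1 - 2 * (1 - r) ^ 2 + (1 - r) ^ 3 := by unfold TM; ring

/-- lower bound of the first functional of the quasi-star -/
theorem window_N0 {p r : ℝ} (hr : r = 1 - p) (hp1 : p ≤ 120 / 169) (hp0 : 119 / 169 ≤ p) :
    3495 / 10000 ≤ TM r 0 := by
  rw [TM_S, hr]
  have h7 : 1 - 2 * (1 - (1 - p)) ^ 2 + (1 - (1 - p)) ^ 3 -
      (1 - 2 * (120 / 169) ^ 2 + (120 / 169) ^ 3) =
      (120 / 169 - p) * (2 * (120 / 169 + p) - ((120 / 169) ^ 2 + 120 / 169 * p + p ^ 2)) := by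
    ring
  have h8 : 0 ≤ 2 * (120 / 169 + p) - ((120 / 169) ^ 2 + 120 / 169 * p + p ^ 2) := by nlinarith
  have h9 := mul_nonneg (sub_nonneg.2 hp1) h8
  have h10 : (3495 / 10000 : ℝ) ≤ 1 - 2 * (120 / 169) ^ 2 + (120 / 169) ^ 3 := by norm_num
  linarith

/-- growth of the first functional of the quasi-star -/
theorem window_N {p q Δ r s : ℝ} (hr : r = 1 - p) (hs : s = 1 - q) (hp1 : p ≤ 120 / 169)
    (hq : 119 / 169 ≤ q) (hpq : q ≤ p) (h2 : p ^ 2 - q ^ 2 = Δ) (hΔ : 0 ≤ Δ) :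
    TM s 0 ≤ TM r 0 + 271 / 100 * Δ * TM r 0 := by
  have hN := window_N0 hr hp1 (hq.trans hpq)
  have h7 := cube_lower (x := p) (u := q) (by linarith) (by linarith)
  rw [h2] at h7
  have h8 : TM s 0 - TM r 0 = 2 * Δ - (p ^ 3 - q ^ 3) := by
    rw [TM_S, TM_S, hr, hs, ← h2]; ring
  have h9 : 3 / 2 * (119 / 169) * Δ ≤ 3 / 2 * q * Δ :=
    mul_le_mul_of_nonneg_right (by linarith) hΔ
  have h10 : (2 - 3 / 2 * (119 / 169)) * Δ ≤ 271 / 100 * Δ * TM r 0 := by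
    have h11 : 271 / 100 * Δ * (3495 / 10000) ≤ 271 / 100 * Δ * TM r 0 :=
      mul_le_mul_of_nonneg_left hN (by positivity)
    have h12 : (2 - 3 / 2 * (119 / 169)) * Δ ≤ 271 / 100 * (3495 / 10000) * Δ :=
      mul_le_mul_of_nonneg_right (by norm_num) hΔ
    linarith
  linarith

theorem TP_S (t : ℕ) (r : ℝ) : TP t r 0 = 1 - (1 - r ^ 2) * (1 - r ^ t) := by unfold TP; ring

/-- growth of the second functional of the quasi-star -/
theorem window_S {T m : ℕ} (hP : Par T m) {r s Δ : ℝ} (hr0 : 49 / 169 ≤ r) (hrs : r ≤ s)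
    (hs : s ≤ 1) (h : s - r ≤ Δ) (hΔ : 0 ≤ Δ) :
    TP (2 * T) s 0 - TP (2 * T) r 0 ≤ 3000 * Δ * TP (2 * T) r 0 := by
  have r1 : 0 ≤ r := by linarith
  have hS8 : 8 / 100 ≤ TP (2 * T) r 0 := by
    refine le_trans ?_ (TP_S_ge _ r1 (by linarith))
    nlinarith
  have h8 := pow_sub_le (x := s) (y := r) (2 * T) r1 hrs
  have h9 : s ^ (2 * T - 1) ≤ 1 := pow_le_one₀ (by linarith) hs
  have h10 : s ^ (2 * T) - r ^ (2 * T) ≤ 200 * Δ := by
    have h11 : ((2 * T : ℕ) : ℝ) = 200 := by rw [hP.T100]; norm_num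
    rw [h11] at h8
    have h12 : 200 * s ^ (2 * T - 1) * (s - r) ≤ 200 * 1 * Δ :=
      mul_le_mul (mul_le_mul_of_nonneg_left h9 (by norm_num)) h (by linarith) (by norm_num)
    linarith
  have h13 : s ^ 2 - r ^ 2 ≤ 2 * Δ := by
    have : s ^ 2 - r ^ 2 = (s - r) * (s + r) := by ring
    rw [this]
    have : (s - r) * (s + r) ≤ Δ * 2 := mul_le_mul h (by linarith) (by linarith) hΔ
    linarith
  have h14 : TP (2 * T) s 0 - TP (2 * T) r 0 ≤ 202 * Δ := by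
    rw [TP_S, TP_S]
    have e3 : 0 ≤ r ^ (2 * T) := pow_nonneg r1 _
    have e4 : s ^ (2 * T) ≤ 1 := pow_le_one₀ (by linarith) hs
    have e6 : s ^ 2 ≤ 1 := pow_le_one₀ (by linarith) hs
    have e7 : 0 ≤ r ^ 2 := sq_nonneg _
    have e8 : r ^ 2 ≤ 1 := pow_le_one₀ r1 (by linarith)
    have e9 : r ^ (2 * T) ≤ s ^ (2 * T) := pow_le_pow_left₀ r1 hrs _
    have e10 : r ^ 2 ≤ s ^ 2 := pow_le_pow_left₀ r1 hrs 2
    set A := r ^ 2
    set A' := s ^ 2
    set B := r ^ (2 * T)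
    set B' := s ^ (2 * T)
    have : 1 - (1 - A') * (1 - B') - (1 - (1 - A) * (1 - B)) =
        (A' - A) * (1 - B') + (1 - A) * (B' - B) := by ring
    have f1 : (A' - A) * (1 - B') ≤ (A' - A) * 1 :=
      mul_le_mul_of_nonneg_left (by linarith) (by linarith)
    have f2 : (1 - A) * (B' - B) ≤ 1 * (B' - B) :=
      mul_le_mul_of_nonneg_right (by linarith) (by linarith)
    linarith
  have h15 : 3000 * Δ * (8 / 100) ≤ 3000 * Δ * TP (2 * T) r 0 :=
    mul_le_mul_of_nonneg_left hS8 (show 0 ≤ 3000 * Δ by positivity)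
  linarith

/-- combination of the growth estimates -/
theorem window_comb {m : ℕ} {M M' N N' S S' Δ : ℝ} (hm : (m : ℝ) = 10 ^ 12) (hΔ : 0 ≤ Δ)
    (hΔ1 : Δ ≤ 1 / 100) (hM : 0 < M) (hN : 0 < N) (hN' : 0 ≤ N') (hS : 0 < S)
    (h1 : M + 29 / 10 * Δ * M ≤ M') (h2 : N' ≤ N + 271 / 100 * Δ * N)
    (h3 : S' - S ≤ 3000 * Δ * S) : (M * N') ^ m * S' ≤ (M' * N) ^ m * S := by
  have hM'0 : 0 < M' := lt_of_lt_of_le hM (le_trans (by
    have : 0 ≤ 29 / 10 * Δ * M := by positivity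
    linarith) h1)
  have hX'pos : 0 < M' * N := mul_pos hM'0 hN
  have hXX : M * N' ≤ M' * N - 1 / 10 * Δ * (M' * N) := by
    have h7 : M * N' ≤ M * (N * (1 + 271 / 100 * Δ)) :=
      mul_le_mul_of_nonneg_left (by linarith) hM.le
    have h8 : M * (1 + 29 / 10 * Δ) * (N * (1 - 1 / 10 * Δ)) ≤ M' * (N * (1 - 1 / 10 * Δ)) :=
      mul_le_mul_of_nonneg_right (by linarith) (mul_nonneg hN.le (by linarith))
    have h10 : 1 + 271 / 100 * Δ ≤ (1 + 29 / 10 * Δ) * (1 - 1 / 10 * Δ) := by nlinarith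
    have h9 : (M * N) * (1 + 271 / 100 * Δ) ≤ (M * N) * ((1 + 29 / 10 * Δ) * (1 - 1 / 10 * Δ)) :=
      mul_le_mul_of_nonneg_left h10 (mul_nonneg hM.le hN.le)
    calc M * N' ≤ M * (N * (1 + 271 / 100 * Δ)) := h7
      _ = (M * N) * (1 + 271 / 100 * Δ) := by ring
      _ ≤ (M * N) * ((1 + 29 / 10 * Δ) * (1 - 1 / 10 * Δ)) := h9
      _ = M * (1 + 29 / 10 * Δ) * (N * (1 - 1 / 10 * Δ)) := by ring
      _ ≤ M' * (N * (1 - 1 / 10 * Δ)) := h8
      _ = _ := by ring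
  have h0 : 0 ≤ 1 / 10 * Δ * (M' * N) := by positivity
  refine prod_le (mul_nonneg hM.le hN') hX'pos (by linarith) hS ?_
  have h7 : (S' - S) * (M' * N) ≤ 3000 * Δ * S * (M' * N) :=
    mul_le_mul_of_nonneg_right h3 hX'pos.le
  have h8 : (m : ℝ) * (1 / 10 * Δ * (M' * N)) * S ≤ m * (M' * N - M * N') * S := by
    have m0 : (0 : ℝ) ≤ m := Nat.cast_nonneg m
    exact mul_le_mul_of_nonneg_right (mul_le_mul_of_nonneg_left (by linarith) m0) hS.le
  have h9 : 3000 * Δ * S * (M' * N) ≤ (m : ℝ) * (1 / 10 * Δ * (M' * N)) * S := by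
    rw [hm]
    have : 0 ≤ Δ * S * (M' * N) := by positivity
    calc 3000 * Δ * S * (M' * N) = 3000 * (Δ * S * (M' * N)) := by ring
      _ ≤ 10 ^ 12 * (1 / 10) * (Δ * S * (M' * N)) :=
          mul_le_mul_of_nonneg_right (by norm_num) this
      _ = _ := by ring
  linarith

/-- monotonicity of the ratio in the window -/
theorem window_mono {T m : ℕ} (hP : Par T m) {β β' a : ℝ} (hβ : bm ≤ β) (hβ' : β' ≤ bp)
    (h : β ≤ β') (ha : 0 ≤ a) (ha' : a ≤ 1 / 50) :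
    PT T m β a * PS T m β' ≤ PT T m β' a * PS T m β := by
  have hT := hP.T5
  have hb := bm_bp
  obtain ⟨h1, h2, h3, h4, h5⟩ := uu_facts hβ (by linarith [hb.2.2.1]) ha ha'
  obtain ⟨g1, g2, g3, g4, g5⟩ := uu_facts (hβ.trans h) (by linarith [hb.2.2.1]) ha ha'
  obtain ⟨r1, r2, r3, r4⟩ := rS_facts (show 0 ≤ β by linarith [hb.2.1])
    (show β ≤ 1 by linarith [hb.2.2.1])
  obtain ⟨s1, s2, s3, s4⟩ := rS_facts (show 0 ≤ β' by linarith [hb.2.1])
    (show β' ≤ 1 by linarith [hb.2.2.1])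
  have hΔ0 : 0 ≤ β' - β := by linarith
  have hΔ1 : β' - β ≤ 1 / 100 := by
    have h7 : bp - bm ≤ 1 / 100 := by unfold bp bm; norm_num
    linarith
  have hp1 : 1 - rS β ≤ 120 / 169 := by
    have h7 : (1 - rS β) ^ 2 ≤ (120 / 169) ^ 2 := by
      rw [r3]
      have : bm = 1 - (120 / 169) ^ 2 := by unfold bm; norm_num
      linarith
    exact le_of_sq_le_sq h7 (by norm_num)
  have hq1 : 119 / 169 ≤ 1 - rS β' := by
    have h7 : (119 / 169) ^ 2 ≤ (1 - rS β') ^ 2 := by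
      rw [s3]
      have : bp = 1 - (119 / 169) ^ 2 := by unfold bp; norm_num
      linarith
    exact le_of_sq_le_sq h7 (by linarith)
  have hpq : 1 - rS β' ≤ 1 - rS β := by
    have h7 : (1 - rS β') ^ 2 ≤ (1 - rS β) ^ 2 := by rw [r3, s3]; linarith
    exact le_of_sq_le_sq h7 (by linarith)
  have hpq2 : (1 - rS β) ^ 2 - (1 - rS β') ^ 2 = β' - β := by rw [r3, s3]; ring
  have hpq3 : rS β' - rS β ≤ β' - β := by
    rw [← hpq2]
    have e1 : (1 - rS β) ^ 2 - (1 - rS β') ^ 2 =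
        (rS β' - rS β) * ((1 - rS β) + (1 - rS β')) := by ring
    rw [e1]
    have e2 : (rS β' - rS β) * 1 ≤ (rS β' - rS β) * ((1 - rS β) + (1 - rS β')) :=
      mul_le_mul_of_nonneg_left (by linarith) (by linarith)
    linarith
  have hu0 : 0 ≤ uu β a := by linarith
  have hu'0 : 0 ≤ uu β' a := by linarith
  have hMM' := window_M (by linarith [hb.2.2.2.2.1]) hΔ0 ha ha' h2 g2 h1
    (show uu β' a ^ 2 - uu β a ^ 2 = β' - β by rw [h1, g1]; ring)
  have hNN' := window_N (r := rS β) (s := rS β') (by ring) (by ring) hp1 hq1 hpq hpq2 hΔ0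
  have hN0 := window_N0 (p := 1 - rS β) (r := rS β) (by ring) hp1 (hq1.trans hpq)
  have hSS := window_S hP (by linarith) (by linarith) s2 hpq3 hΔ0
  have hMpos : 0 < TM a (uu β a) := by
    unfold TM
    have e1 : 0 < (uu β a) ^ 3 := pow_pos (by linarith) 3
    have e2 : 0 ≤ a ^ 2 - a ^ 3 := by
      have : a ^ 2 - a ^ 3 = a ^ 2 * (1 - a) := by ring
      rw [this]
      exact mul_nonneg (sq_nonneg a) (by linarith)
    have e3 : 0 ≤ 2 * (uu β a) ^ 2 * a := by positivity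
    linarith
  have hS0 : 0 < TP (2 * T) (rS β) 0 := by
    refine lt_of_lt_of_le ?_ (TP_S_ge _ r1 r2)
    have : 49 / 169 ≤ rS β := by linarith
    positivity
  have hprod := window_comb hP.m12 hΔ0 hΔ1 hMpos (by linarith) (TM_nonneg s1 le_rfl (by linarith))
    hS0 hMM' hNN' hSS
  have hTPmono : TP (2 * T) a (uu β a) ≤ TP (2 * T) a (uu β' a) := by
    have huu : uu β a ≤ uu β' a := Real.sqrt_le_sqrt (by linarith)
    unfold TP
    have e1 : (a + uu β a) ^ 2 ≤ (a + uu β' a) ^ 2 := pow_le_pow_left₀ (by linarith) (by linarith) 2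
    have e2 : (a + uu β a) ^ (2 * T) ≤ (a + uu β' a) ^ (2 * T) :=
      pow_le_pow_left₀ (by linarith) (by linarith) _
    have e3 : a ^ (2 * T) ≤ (a + uu β' a) ^ (2 * T) := pow_le_pow_left₀ ha (by linarith) _
    have e4 : 0 ≤ (a + uu β a) ^ 2 - a ^ 2 := sub_nonneg.2 (pow_le_pow_left₀ ha (by linarith) 2)
    have e5 := mul_le_mul_of_nonneg_left e2 e4
    have e6 : 0 ≤ (a + uu β' a) ^ 2 - (a + uu β a) ^ 2 := by linarith
    have e7 := mul_le_mul_of_nonneg_left e3 e6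
    linarith
  have hTP0 : 0 ≤ TP (2 * T) a (uu β a) := TP_nonneg _ ha hu0 (by linarith)
  have hM'N : 0 ≤ TM a (uu β' a) * TM (rS β) 0 :=
    mul_nonneg (TM_nonneg ha hu'0 (by linarith)) (by linarith)
  unfold PT PS
  calc TM a (uu β a) ^ m * TP (2 * T) a (uu β a) * (TM (rS β') 0 ^ m * TP (2 * T) (rS β') 0) =
        (TM a (uu β a) * TM (rS β') 0) ^ m * TP (2 * T) (rS β') 0 * TP (2 * T) a (uu β a) := by
        rw [mul_pow]; ring
    _ ≤ (TM a (uu β' a) * TM (rS β) 0) ^ m * TP (2 * T) (rS β) 0 * TP (2 * T) a (uu β' a) :=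
        mul_le_mul hprod hTPmono hTP0 (mul_nonneg (pow_nonneg hM'N m) hS0.le)
    _ = _ := by rw [mul_pow]; ring

end Pool.Agent.Lib.Helper7.STK
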