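/-
MP_8790d8_co: the optimal shapes at all densities.
-/
import Pool.Agent.Lib.Helper7.STK.Window
import Pool.Agent.Lib.Helper7.STK.Scale

set_option autoImplicit false
open Finset

namespace Pool.Agent.Lib.Helper7.STK

theorem PT_cont1 (T m : ℕ) (a : ℝ) : Continuous (fun β : ℝ => PT T m β a) := by
  unfold PT TM TP uu
  fun_prop

theorem PT_cont2 (T m : ℕ) (β : ℝ) : Continuous (fun a : ℝ => PT T m β a) := by
  unfold PT TM TP uu
  fun_prop

theorem PT_cont3 (T m : ℕ) : Continuous (fun p : ℝ × ℝ => PT T m p.1 0) := by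
  unfold PT TM TP uu
  fun_prop

theorem PS_cont3 (T m : ℕ) : Continuous (fun p : ℝ × ℝ => PS T m p.1) := by
  unfold PS TM TP rS
  fun_prop

theorem rS_le {β y : ℝ} (h : β ≤ 1 - y ^ 2) : rS β ≤ 1 - y := by
  unfold rS
  have : y ≤ Real.sqrt (1 - β) := Real.le_sqrt_of_sq_le (by linarith)
  linarith

theorem area_nonneg {w : ℝ} {k : ℕ} {c : ℝ} {e : ℕ → ℝ} (h : GShape w k c e) :
    0 ≤ area w k c e := by
  have := sA_nonneg h
  unfold area; positivity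

theorem reduce_low {T m : ℕ} (hP : Par T m) {w : ℝ} {k : ℕ} {c : ℝ} {e : ℕ → ℝ}
    (h : GShape w k c e) (hkc : k * w = c) (hA : area w k c e ≤ bm) :
    (M2 w k c e) ^ m * Ph (2 * T) w k c e ≤ PS T m (area w k c e) := by
  have hb := bm_bp
  obtain ⟨h1, h2, h3, h4⟩ := rS_facts (area_nonneg h)
    (show area w k c e ≤ 1 by linarith [hb.1, hb.2.2.1])
  have h5 : rS (area w k c e) ≤ 49 / 169 := by
    have h6 : area w k c e ≤ 1 - (120 / 169) ^ 2 := by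
      refine hA.trans ?_
      unfold bm; norm_num
    have := rS_le h6
    linarith
  unfold PS
  rcases le_total c (1 / 2) with hc | hc
  · exact small_side hP h hkc hc h1 (by linarith) h4.symm
  · exact big_below hP h hkc hc h1 h5 h4.symm

theorem reduce_high {T m : ℕ} (hP : Par T m) {w : ℝ} {k : ℕ} {c : ℝ} {e : ℕ → ℝ}
    (h : GShape w k c e) (hkc : k * w = c) (hA : bm ≤ area w k c e)
    (hA' : area w k c e ≤ 81 / 100) :
    (∃ a, 0 ≤ a ∧ a ≤ 1 / 50 ∧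
      (M2 w k c e) ^ m * Ph (2 * T) w k c e ≤ PT T m (area w k c e) a) ∨
    (area w k c e ≤ bp ∧
      (M2 w k c e) ^ m * Ph (2 * T) w k c e ≤ PS T m (area w k c e)) := by
  have hb := bm_bp
  rcases le_total c (1 / 2) with hc | hc
  · rcases le_total (area w k c e) bp with hp | hp
    · right
      refine ⟨hp, ?_⟩
      obtain ⟨h1, h2, h3, h4⟩ := rS_facts (area_nonneg h) (show area w k c e ≤ 1 by linarith)
      have h5 : rS (area w k c e) ≤ 50 / 169 := by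
        have h6 : area w k c e ≤ 1 - (119 / 169) ^ 2 := by
          refine hp.trans ?_
          unfold bp; norm_num
        have := rS_le h6
        linarith
      unfold PS
      exact small_side hP h hkc hc h1 h5 h4.symm
    · left
      refine ⟨0, le_rfl, by norm_num, ?_⟩
      unfold PT
      rw [uu_K]
      refine small_above hP h hkc hc ?_ ?_ (Real.sq_sqrt (area_nonneg h)).symm
      · exact Real.le_sqrt_of_sq_le hp
      · rw [Real.sqrt_le_left (by norm_num)]; linarith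
  · left
    obtain ⟨a, u, h1, h2, h3, h4, h5, h6⟩ := big_side hP h hkc hc hA'
    refine ⟨a, h1, h2, ?_⟩
    have h7 : uu (area w k c e) a = u := by
      unfold uu
      have : area w k c e - 2 * a + a ^ 2 = u ^ 2 := by rw [← h5]; unfold TA; ring
      rw [this, Real.sqrt_sq h3]
    unfold PT
    rw [h7]; exact h6

/-- the right threshold -/
theorem exists_delta {T m : ℕ} (hP : Par T m) : ∃ δ, bp < δ ∧ δ ≤ 81 / 100 ∧
    (∀ a, 0 ≤ a → a ≤ 1 / 50 → PT T m δ a ≤ PT T m δ 0) ∧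
    (∀ β, bm ≤ β → β < δ → ∃ a, 0 ≤ a ∧ a ≤ 1 / 50 ∧ PT T m β 0 < PT T m β a) ∧
    (∃ a, 0 < a ∧ a ≤ 1 / 50 ∧ PT T m δ 0 ≤ PT T m δ a) := by
  have hb := bm_bp
  have hcont := PT_cont T m
  set AK : Set ℝ := {β | β ∈ Set.Icc bm (81 / 100) ∧
    ∀ a ∈ Set.Icc (0 : ℝ) (1 / 50), PT T m β a ≤ PT T m β 0} with hAK
  have hclosed : IsClosed AK := by
    have h1 : AK = Set.Icc bm (81 / 100) ∩
        ⋂ a ∈ Set.Icc (0 : ℝ) (1 / 50), {β | PT T m β a ≤ PT T m β 0} := by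
      ext β; simp [hAK]
    rw [h1]
    refine isClosed_Icc.inter (isClosed_biInter fun a _ => ?_)
    exact isClosed_le (PT_cont1 T m a) (PT_cont1 T m 0)
  have hne : (81 / 100 : ℝ) ∈ AK := ⟨⟨by linarith [hb.1, hb.2.2.1], le_rfl⟩,
    fun a ha => PT_le_K_top hP ha.1 ha.2⟩
  have hbdd : BddBelow AK := ⟨bm, fun β hβ => hβ.1.1⟩
  set δ := sInf AK with hδ
  have hmem : δ ∈ AK := hclosed.csInf_mem ⟨_, hne⟩ hbdd
  have hm1 : (1 : ℝ) / m ≤ 1 / 50 := by rw [hP.m12]; norm_num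
  have hm0 : (0 : ℝ) ≤ 1 / m := by rw [hP.m12]; norm_num
  have hδbp : bp < δ := by
    by_contra hcon
    push Not at hcon
    have h1 := PT_gt_K hP hmem.1.1 hcon
    exact absurd (hmem.2 (1 / m) ⟨hm0, hm1⟩) (not_le.2 h1)
  have hnot : ∀ β, bm ≤ β → β < δ → ∃ a, 0 ≤ a ∧ a ≤ 1 / 50 ∧ PT T m β 0 < PT T m β a := by
    intro β h1 h2
    by_contra hcon
    push Not at hcon
    have h3 : β ∈ AK := ⟨⟨h1, h2.le.trans hmem.1.2⟩, fun a ha => hcon a ha.1 ha.2⟩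
    exact absurd (csInf_le hbdd h3) (not_le.2 h2)
  refine ⟨δ, hδbp, hmem.1.2, fun a h1 h2 => hmem.2 a ⟨h1, h2⟩, hnot, ?_⟩
  -- compactness
  set C : Set (ℝ × ℝ) := {p | p ∈ Set.Icc bm (81 / 100) ×ˢ Set.Icc (amin T m) (1 / 50) ∧
    PT T m p.1 0 ≤ PT T m p.1 p.2} with hC
  have hCcomp : IsCompact C := by
    have h1 : C = (Set.Icc bm (81 / 100) ×ˢ Set.Icc (amin T m) (1 / 50)) ∩
        {p | PT T m p.1 0 ≤ PT T m p.1 p.2} := by ext p; simp [hC]
    rw [h1]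
    refine (isCompact_Icc.prod isCompact_Icc).inter_right ?_
    exact isClosed_le (PT_cont3 T m) hcont
  have hBclosed : IsClosed (Prod.fst '' C) := (hCcomp.image continuous_fst).isClosed
  have hsub : Set.Ioo bp δ ⊆ Prod.fst '' C := by
    intro β hβ
    obtain ⟨a, h1, h2, h3⟩ := hnot β (hb.1.le.trans hβ.1.le) hβ.2
    have h4 : amin T m ≤ a := by
      by_contra hcon
      push Not at hcon
      exact absurd (PT_le_K_small hP (hb.1.le.trans hβ.1.le) (hβ.2.le.trans hmem.1.2) h1 h2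
        hcon.le) (not_le.2 h3)
    exact ⟨(β, a), ⟨⟨⟨hb.1.le.trans hβ.1.le, hβ.2.le.trans hmem.1.2⟩, ⟨h4, h2⟩⟩, h3.le⟩, rfl⟩
  have h5 : δ ∈ Prod.fst '' C := by
    have h6 : δ ∈ closure (Set.Ioo bp δ) := by
      rw [closure_Ioo hδbp.ne]; exact ⟨hδbp.le, le_rfl⟩
    exact hBclosed.closure_subset_iff.2 hsub h6
  obtain ⟨⟨β, a⟩, ⟨⟨_, h7, h8⟩, h9⟩, h10⟩ := h5
  simp only at h10 h7 h8 h9
  subst h10
  exact ⟨a, (amin_pos hP).trans_le h7, h8, h9⟩

/-- the left threshold -/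
theorem exists_gamma {T m : ℕ} (hP : Par T m) : ∃ γ, bm ≤ γ ∧ γ < bp ∧
    (∀ a, 0 ≤ a → a ≤ 1 / 50 → PT T m γ a ≤ PS T m γ) ∧
    (∀ β, γ < β → β ≤ bp → ∃ a, 0 ≤ a ∧ a ≤ 1 / 50 ∧ PS T m β < PT T m β a) ∧
    (∃ a, 0 < a ∧ a ≤ 1 / 50 ∧ PS T m γ ≤ PT T m γ a) := by
  have hb := bm_bp
  have hcont := PT_cont T m
  have hcontS := PS_cont T m
  set AS : Set ℝ := {β | β ∈ Set.Icc bm bp ∧
    ∀ a ∈ Set.Icc (0 : ℝ) (1 / 50), PT T m β a ≤ PS T m β} with hAS
  have hclosed : IsClosed AS := by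
    have h1 : AS = Set.Icc bm bp ∩
        ⋂ a ∈ Set.Icc (0 : ℝ) (1 / 50), {β | PT T m β a ≤ PS T m β} := by
      ext β; simp [hAS]
    rw [h1]
    refine isClosed_Icc.inter (isClosed_biInter fun a _ => ?_)
    exact isClosed_le (PT_cont1 T m a) hcontS
  have hne : bm ∈ AS := ⟨⟨le_rfl, hb.1.le⟩, fun a ha => PT_le_S_low hP ha.1 ha.2⟩
  have hbdd : BddAbove AS := ⟨bp, fun β hβ => hβ.1.2⟩
  set γ := sSup AS with hγ
  have hmem : γ ∈ AS := hclosed.csSup_mem ⟨_, hne⟩ hbdd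
  have hγbp : γ < bp := by
    rcases eq_or_lt_of_le hmem.1.2 with h | h
    · exfalso
      have h1 := PS_lt_K hP h.ge (by linarith [hb.2.2.1])
      exact absurd (hmem.2 0 ⟨le_rfl, by norm_num⟩) (not_le.2 h1)
    · exact h
  have hnot : ∀ β, γ < β → β ≤ bp → ∃ a, 0 ≤ a ∧ a ≤ 1 / 50 ∧ PS T m β < PT T m β a := by
    intro β h1 h2
    by_contra hcon
    push Not at hcon
    have h3 : β ∈ AS := ⟨⟨hmem.1.1.trans h1.le, h2⟩, fun a ha => hcon a ha.1 ha.2⟩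
    exact absurd (le_csSup hbdd h3) (not_le.2 h1)
  refine ⟨γ, hmem.1.1, hγbp, fun a h1 h2 => hmem.2 a ⟨h1, h2⟩, hnot, ?_⟩
  set C : Set (ℝ × ℝ) := {p | p ∈ Set.Icc bm bp ×ˢ Set.Icc (amin T m) (1 / 50) ∧
    PS T m p.1 ≤ PT T m p.1 p.2} with hC
  have hCcomp : IsCompact C := by
    have h1 : C = (Set.Icc bm bp ×ˢ Set.Icc (amin T m) (1 / 50)) ∩
        {p | PS T m p.1 ≤ PT T m p.1 p.2} := by ext p; simp [hC]
    rw [h1]
    refine (isCompact_Icc.prod isCompact_Icc).inter_right ?_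
    exact isClosed_le (PS_cont3 T m) hcont
  have hBclosed : IsClosed (Prod.fst '' C) := (hCcomp.image continuous_fst).isClosed
  have hm1 : (1 : ℝ) / m ≤ 1 / 50 := by rw [hP.m12]; norm_num
  have hm0 : (0 : ℝ) ≤ 1 / m := by rw [hP.m12]; norm_num
  have hsub : Set.Ioo γ bp ⊆ Prod.fst '' C := by
    intro β hβ
    have hβ1 : bm ≤ β := hmem.1.1.trans hβ.1.le
    have hβ2 : β ≤ 81 / 100 := by linarith [hβ.2, hb.2.2.1]
    obtain ⟨a, h1, h2, h3⟩ := hnot β hβ.1 hβ.2.le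
    -- a maximiser
    obtain ⟨s, hs, hmax⟩ := (isCompact_Icc (a := (0 : ℝ)) (b := 1 / 50)).exists_isMaxOn
      ⟨0, le_rfl, by norm_num⟩
      (PT_cont2 T m β).continuousOn
    have hs1 : PS T m β < PT T m β s := lt_of_lt_of_le h3 (hmax (show a ∈ Set.Icc (0:ℝ) (1/50)
      from ⟨h1, h2⟩))
    have hs2 : PT T m β 0 < PT T m β s := lt_of_lt_of_le (PT_gt_K hP hβ1 hβ.2.le)
      (hmax (show (1 : ℝ) / m ∈ Set.Icc (0:ℝ) (1/50) from ⟨hm0, hm1⟩))
    have h4 : amin T m ≤ s := by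
      by_contra hcon
      push Not at hcon
      exact absurd (PT_le_K_small hP hβ1 hβ2 hs.1 hs.2 hcon.le) (not_le.2 hs2)
    exact ⟨(β, s), ⟨⟨⟨hβ1, hβ.2.le⟩, ⟨h4, hs.2⟩⟩, hs1.le⟩, rfl⟩
  have h5 : γ ∈ Prod.fst '' C := by
    have h6 : γ ∈ closure (Set.Ioo γ bp) := by
      rw [closure_Ioo hγbp.ne]; exact ⟨le_rfl, hγbp.le⟩
    exact hBclosed.closure_subset_iff.2 hsub h6
  obtain ⟨⟨β, a⟩, ⟨⟨_, h7, h8⟩, h9⟩, h10⟩ := h5
  simp only at h10 h7 h8 h9
  subst h10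
  exact ⟨a, (amin_pos hP).trans_le h7, h8, h9⟩

/-- The optimal shapes at all densities. -/
theorem analysis {T m : ℕ} (hP : Par T m) : ∃ γ δ : ℝ, 0 < γ ∧ γ < δ ∧ δ < 1 ∧ bm ≤ γ ∧
    δ ≤ 81 / 100 ∧
    (∀ β, 0 ≤ β → β ≤ γ → Dom T m β (PS T m β)) ∧
    (∀ β, γ ≤ β → β ≤ δ → ∃ a, 0 < a ∧ a ≤ 1 / 50 ∧ Dom T m β (PT T m β a)) ∧
    (∀ β, δ ≤ β → β ≤ 1 → Dom T m β (PT T m β 0)) ∧
    (∀ β, γ < β → β < δ → ∃ a, 0 < a ∧ a ≤ 1 / 50 ∧ Dom T m β (PT T m β a) ∧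
      PS T m β < PT T m β a ∧ PT T m β 0 < PT T m β a) := by
  have hb := bm_bp
  have hT := hP.T5
  have hcont := PT_cont T m
  obtain ⟨γ, hγ1, hγ2, hγS, hγT, aγ, haγ0, haγ1, haγ⟩ := exists_gamma hP
  obtain ⟨δ, hδ1, hδ2, hδK, hδT, aδ, haδ0, haδ1, haδ⟩ := exists_delta hP
  -- quasi-stars win up to γ
  have hSwin : ∀ β, bm ≤ β → β ≤ γ → ∀ a, 0 ≤ a → a ≤ 1 / 50 → PT T m β a ≤ PS T m β := by
    intro β h1 h2 a h3 h4
    have h5 := window_mono hP h1 hγ2.le h2 h3 h4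
    have h6 := hγS a h3 h4
    have hpos : 0 < PS T m γ := by
      obtain ⟨r1, r2, r3, r4⟩ := rS_facts (show 0 ≤ γ by linarith [hb.2.1])
        (show γ ≤ 1 by linarith [hb.2.2.1])
      have hr : 0 < rS γ := by
        rcases eq_or_lt_of_le r1 with h | h
        · exfalso
          rw [← h] at r4
          unfold TA at r4
          linarith [hb.2.1]
        · exact h
      unfold PS
      refine mul_pos (pow_pos ?_ _) (lt_of_lt_of_le (by positivity) (TP_S_ge _ r1 r2))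
      unfold TM
      have e1 : 0 < rS γ ^ 3 := by positivity
      have e2 : rS γ ^ 3 ≤ rS γ ^ 2 := pow_le_pow_of_le_one r1 r2 (by norm_num)
      nlinarith
    have h7 : PT T m β a * PS T m γ ≤ PS T m β * PS T m γ := by
      have hPS0 : 0 ≤ PS T m β := by
        obtain ⟨r1, r2, r3, r4⟩ := rS_facts (show 0 ≤ β by linarith [hb.2.1])
          (show β ≤ 1 by linarith [hb.2.2.1])
        exact mul_nonneg (pow_nonneg (TM_nonneg r1 le_rfl (by linarith)) _)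
          (TP_nonneg _ r1 le_rfl (by linarith))
      calc _ ≤ PT T m γ a * PS T m β := h5
        _ ≤ PS T m γ * PS T m β := mul_le_mul_of_nonneg_right h6 hPS0
        _ = _ := by ring
    exact le_of_mul_le_mul_right h7 hpos
  have hI : ∀ β, 0 ≤ β → β ≤ γ → Dom T m β (PS T m β) := by
    intro β h1 h2 w k c e hsh hkc hA
    have hA0 := area_nonneg hsh
    have hmono : PS T m (area w k c e) ≤ PS T m β := PS_mono hA0 (by linarith [hb.2.2.1]) hA
    rcases le_total (area w k c e) bm with h3 | h3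
    · exact (reduce_low hP hsh hkc h3).trans hmono
    · rcases reduce_high hP hsh hkc h3 (by linarith [hb.2.2.1]) with ⟨a, h4, h5, h6⟩ | ⟨_, h6⟩
      · exact h6.trans ((hSwin _ h3 (hA.trans h2) a h4 h5).trans hmono)
      · exact h6.trans hmono
  -- everything is below some family member between γ and δ
  have hII' : ∀ β, γ ≤ β → β ≤ δ → ∀ (w : ℝ) (k : ℕ) (c : ℝ) (e : ℕ → ℝ), GShape w k c e →
      k * w = c → area w k c e ≤ β → ∃ a, 0 ≤ a ∧ a ≤ 1 / 50 ∧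
      (M2 w k c e) ^ m * Ph (2 * T) w k c e ≤ PT T m β a := by
    intro β h1 h2 w k c e hsh hkc hA
    rcases le_total (area w k c e) γ with h3 | h3
    · refine ⟨aγ, haγ0.le, haγ1, ?_⟩
      have h4 := hI γ (by linarith [hb.2.1]) le_rfl w k c e hsh hkc h3
      exact h4.trans (haγ.trans (PT_mono hγ1 (by linarith) h1 haγ0.le haγ1))
    · have h3' : bm ≤ area w k c e := hγ1.trans h3
      rcases reduce_high hP hsh hkc h3' (by linarith) with ⟨a, h4, h5, h6⟩ | ⟨h5, h6⟩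
      · exact ⟨a, h4, h5, h6.trans (PT_mono h3' (by linarith) hA h4 h5)⟩
      · rcases eq_or_lt_of_le h3 with h7 | h7
        · refine ⟨aγ, haγ0.le, haγ1, ?_⟩
          rw [← h7] at h6
          exact h6.trans (haγ.trans (PT_mono hγ1 (by linarith) h1 haγ0.le haγ1))
        · obtain ⟨a, h8, h9, h10⟩ := hγT _ h7 h5
          exact ⟨a, h8, h9, h6.trans (h10.le.trans (PT_mono h3' (by linarith) hA h8 h9))⟩
  -- a maximising member strictly between
  have hmaxi : ∀ β, γ ≤ β → β < δ → ∃ a, 0 < a ∧ a ≤ 1 / 50 ∧ PT T m β 0 < PT T m β a ∧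
      ∀ a', 0 ≤ a' → a' ≤ 1 / 50 → PT T m β a' ≤ PT T m β a := by
    intro β h1 h2
    obtain ⟨s, hs, hmax⟩ := (isCompact_Icc (a := (0 : ℝ)) (b := 1 / 50)).exists_isMaxOn
      ⟨0, le_rfl, by norm_num⟩
      (PT_cont2 T m β).continuousOn
    obtain ⟨a, h3, h4, h5⟩ := hδT β (hγ1.trans h1) h2
    have h6 : PT T m β 0 < PT T m β s := lt_of_lt_of_le h5
      (hmax (show a ∈ Set.Icc (0:ℝ) (1/50) from ⟨h3, h4⟩))
    refine ⟨s, ?_, hs.2, h6, fun a' h7 h8 => hmax (show a' ∈ Set.Icc (0:ℝ) (1/50) from ⟨h7, h8⟩)⟩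
    rcases eq_or_lt_of_le hs.1 with h | h
    · rw [← h] at h6; exact absurd h6 (lt_irrefl _)
    · exact h
  have hII : ∀ β, γ ≤ β → β ≤ δ → ∃ a, 0 < a ∧ a ≤ 1 / 50 ∧ Dom T m β (PT T m β a) := by
    intro β h1 h2
    rcases eq_or_lt_of_le h2 with h3 | h3
    · refine ⟨aδ, haδ0, haδ1, ?_⟩
      intro w k c e hsh hkc hA
      obtain ⟨a, h4, h5, h6⟩ := hII' β h1 h2 w k c e hsh hkc hA
      rw [h3] at h6 ⊢
      exact h6.trans ((hδK a h4 h5).trans haδ)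
    · obtain ⟨s, hs0, hs1, _, hmax⟩ := hmaxi β h1 h3
      refine ⟨s, hs0, hs1, ?_⟩
      intro w k c e hsh hkc hA
      obtain ⟨a, h4, h5, h6⟩ := hII' β h1 h2 w k c e hsh hkc hA
      exact h6.trans (hmax a h4 h5)
  refine ⟨γ, δ, by linarith [hb.2.1], by linarith, by linarith, hγ1, hδ2, hI, hII, ?_, ?_⟩
  · -- quasi-cliques
    intro β h1 h2 w k c e hsh hkc hA
    have hδpos : 0 < δ := by linarith [hb.1, hb.2.1]
    have hDomδ : Dom T m δ (PT T m δ 0) := by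
      intro w k c e hsh hkc hA
      obtain ⟨a, h4, h5, h6⟩ := hII' δ (by linarith) le_rfl w k c e hsh hkc hA
      exact h6.trans (hδK a h4 h5)
    have hKmono : ∀ x y : ℝ, 0 ≤ x → x ≤ y → PT T m x 0 ≤ PT T m y 0 := by
      intro x y hx hxy
      rw [PT_K (by omega), PT_K (by omega)]
      have h3 : Real.sqrt x ≤ Real.sqrt y := Real.sqrt_le_sqrt hxy
      have h4 : 0 ≤ Real.sqrt x := Real.sqrt_nonneg x
      have h5 : 0 ≤ Real.sqrt y := Real.sqrt_nonneg y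
      exact mul_le_mul (pow_le_pow_left₀ (pow_nonneg h4 3) (pow_le_pow_left₀ h4 h3 3) m)
        (pow_le_pow_left₀ h4 h3 _) (pow_nonneg h4 _) (pow_nonneg (pow_nonneg h5 3) m)
    rcases le_total (area w k c e) δ with h3 | h3
    · exact (hDomδ w k c e hsh hkc h3).trans (hKmono _ _ hδpos.le h1)
    · set α := area w k c e with hα
      have hαpos : 0 < α := hδpos.trans_le h3
      set σ := Real.sqrt (δ / α) with hσ
      have hσ0 : 0 < σ := Real.sqrt_pos.2 (div_pos hδpos hαpos)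
      have hσ1 : σ ≤ 1 := by
        rw [hσ, Real.sqrt_le_left (by norm_num), one_pow]
        exact (div_le_one hαpos).2 h3
      have hσ2 : σ ^ 2 = δ / α := Real.sq_sqrt (div_pos hδpos hαpos).le
      have hsh' := hsh.scale hσ0 hσ1
      have harea' : area (σ * w) k (σ * c) (fun i => σ * e i) = δ := by
        rw [area_scale, hσ2, ← hα]; field_simp
      have h4 := hDomδ _ _ _ _ hsh' (by rw [← hkc]; ring) harea'.le
      rw [M2_scale, Ph_scale] at h4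
      have h5 : Real.sqrt δ = σ * Real.sqrt α := by
        rw [hσ, ← Real.sqrt_mul (div_pos hδpos hαpos).le]
        congr 1; field_simp
      have h6 : PT T m δ 0 = ((σ ^ 3) ^ m * σ ^ (2 * T + 2)) * PT T m α 0 := by
        rw [PT_K (by omega), PT_K (by omega), h5]
        rw [mul_pow, mul_pow, mul_pow]; ring
      rw [h6] at h4
      have h7 : 0 < (σ ^ 3) ^ m * σ ^ (2 * T + 2) := by positivity
      have h8 : ((σ ^ 3) ^ m * σ ^ (2 * T + 2)) * ((M2 w k c e) ^ m * Ph (2 * T) w k c e) ≤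
          ((σ ^ 3) ^ m * σ ^ (2 * T + 2)) * PT T m α 0 := by
        calc _ = (σ ^ 3 * M2 w k c e) ^ m * (σ ^ (2 * T + 2) * Ph (2 * T) w k c e) := by
              rw [mul_pow]; ring
          _ ≤ _ := h4
      exact (le_of_mul_le_mul_left h8 h7).trans (hKmono _ _ hαpos.le hA)
  · intro β h1 h2
    obtain ⟨s, hs0, hs1, hsK, hmax⟩ := hmaxi β h1.le h2
    refine ⟨s, hs0, hs1, ?_, ?_, hsK⟩
    · intro w k c e hsh hkc hA
      obtain ⟨a, h4, h5, h6⟩ := hII' β h1.le h2.le w k c e hsh hkc hA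
      exact h6.trans (hmax a h4 h5)
    rcases le_total β bp with h3 | h3
    · obtain ⟨a, h8, h9, h10⟩ := hγT β h1 h3
      exact lt_of_lt_of_le h10 (hmax a h8 h9)
    · exact (PS_lt_K hP h3 (by linarith)).trans hsK

/-- the parameters -/
theorem par_ex (m : ℕ) (hm : (m : ℝ) = 10 ^ 12) : Par 100 m := by
  refine ⟨by norm_num, ?_, by norm_num, ?_, ?_, rfl, hm⟩
  · rw [hm]; norm_num
  · have h1 : (1 - 2 / 10 ^ 10 : ℝ) ≤ Real.exp (-(2 / 10 ^ 10)) := by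
      have := Real.add_one_le_exp (-(2 / 10 ^ 10 : ℝ)); linarith
    have h2 : (1 - 2 / 10 ^ 10 : ℝ) ^ m ≤ Real.exp (-(2 / 10 ^ 10)) ^ m :=
      pow_le_pow_left₀ (by norm_num) h1 m
    have h3 : Real.exp (-(2 / 10 ^ 10 : ℝ)) ^ m = (Real.exp (-1)) ^ 200 := by
      rw [← Real.exp_nat_mul, ← Real.exp_nat_mul, hm]; norm_num
    have h4 : Real.exp (-1) < 2 / 5 := by
      rw [Real.exp_neg]
      have := Real.exp_one_gt_d9
      rw [inv_lt_comm₀ (by positivity) (by norm_num)]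
      linarith
    have h5 : (Real.exp (-1)) ^ 200 < (2 / 5) ^ 200 :=
      pow_lt_pow_left₀ h4 (Real.exp_pos _).le (by norm_num)
    have h6 : ((2 : ℝ) / 5) ^ 200 ≤ (1 / 4) ^ (100 + 1) := by norm_num
    rw [h3] at h2
    linarith
  · rw [hm]; norm_num

end Pool.Agent.Lib.Helper7.STK
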