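/-
MP_8790d8_co: the Kelmans transformation.
-/
import Mathlib

set_option autoImplicit false
open Finset

namespace Pool.Agent.Lib.Helper7.STK

/-- convexity of powers -/
theorem pow_add_pow_le {x y x' y' : ℕ} (t : ℕ) (h : x + y = x' + y') (h1 : x ≤ x') (h2 : y ≤ x') :
    x ^ t + y ^ t ≤ x' ^ t + y' ^ t := by
  -- WLOG y ≤ x
  have key : ∀ (x y : ℕ), x + y = x' + y' → x ≤ x' → y ≤ x → x ^ t + y ^ t ≤ x' ^ t + y' ^ t := by
    intro x y h h1 h3
    induction t with
    | zero => simp
    | succ t ih =>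
      have hy : y' ≤ y := by omega
      obtain ⟨s, hs⟩ : ∃ s, x' = x + s := ⟨x' - x, by omega⟩
      obtain ⟨r, hr⟩ : ∃ r, y = y' + r := ⟨y - y', by omega⟩
      have hsr : r = s := by omega
      have hp : y ^ t ≤ x ^ t := Nat.pow_le_pow_left h3 t
      have hp2 : y' ^ t ≤ y ^ t := Nat.pow_le_pow_left hy t
      have hyx : y' ≤ x' := by omega
      rw [pow_succ, pow_succ, pow_succ, pow_succ]
      subst hsr
      zify at *
      have e1 : (y : ℤ) = y' + r := hr
      have e2 : (x' : ℤ) = x + r := hs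
      have e3 : (0 : ℤ) ≤ r := by positivity
      have ih' : (y : ℤ) ^ t - y' ^ t ≤ x' ^ t - x ^ t := by linarith
      have h5 : ((y : ℤ) ^ t - y' ^ t) * y' ≤ (x' ^ t - x ^ t) * x' := by
        calc ((y : ℤ) ^ t - y' ^ t) * y' ≤ ((y : ℤ) ^ t - y' ^ t) * x' :=
              mul_le_mul_of_nonneg_left hyx (by linarith)
          _ ≤ (x' ^ t - x ^ t) * x' := mul_le_mul_of_nonneg_right ih' (by positivity)
      have h6 : ((y : ℤ)) ^ t * r ≤ x ^ t * r := mul_le_mul_of_nonneg_right hp e3
      have h7 : (y : ℤ) ^ t * y = y ^ t * y' + y ^ t * r := by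
        rw [← mul_add, ← e1]
      have h8 : (x : ℤ) ^ t * x = x ^ t * x' - x ^ t * r := by
        rw [e2]; ring
      rw [h7, h8]
      linarith
  rcases le_total y x with h3 | h3
  · exact key x y h h1 h3
  · have := key y x (by omega) h2 h3
    omega

section
variable {V : Type} [Fintype V] [DecidableEq V]

/-- indicator -/
def bt (b : V → V → Bool) (x y : V) : ℕ := (b x y).toNat

/-- degree in the reflexive relation -/
def dg (b : V → V → Bool) (x : V) : ℕ := ∑ y, bt b x y

/-- codegree in the reflexive relation -/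
def co (b : V → V → Bool) (x y : V) : ℕ := ∑ z, bt b x z * bt b y z

/-- sum of the squared degrees -/
def Fd (b : V → V → Bool) : ℕ := ∑ x, (dg b x) ^ 2

/-- sum of the powers of the codegrees -/
def Qd (t : ℕ) (b : V → V → Bool) : ℕ := ∑ x, ∑ y, (co b x y) ^ t

/-- sum of the degrees -/
def Ed (b : V → V → Bool) : ℕ := ∑ x, dg b x

/-- symmetric and reflexive -/
structure SR (b : V → V → Bool) : Prop where
  symm : ∀ x y, b x y = b y x
  refl : ∀ x, b x x = true

/-- Kelmans transformation -/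
def kel (b : V → V → Bool) (i j : V) (x y : V) : Bool :=
  if x = i then (if y = i then b i i else if y = j then b i j else (b i y || b j y))
  else if x = j then (if y = i then b j i else if y = j then b j j else (b i y && b j y))
  else if y = i then (b x i || b x j)
  else if y = j then (b x i && b x j)
  else b x y

/-- the remaining vertices -/
def rst (i j : V) : Finset V := ((univ : Finset V).erase i).erase j

theorem mem_rst {i j x : V} : x ∈ rst i j ↔ x ≠ i ∧ x ≠ j := by
  unfold rst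
  simp only [mem_erase, mem_univ, and_true]
  exact and_comm

theorem sum_two {i j : V} (hij : i ≠ j) (f : V → ℕ) :
    ∑ x, f x = f i + f j + ∑ x ∈ rst i j, f x := by
  unfold rst
  rw [add_assoc, add_sum_erase _ _ (by simp [hij.symm]), add_sum_erase _ _ (mem_univ i)]

section kel
variable {b : V → V → Bool} (hb : SR b) {i j : V} (hij : i ≠ j)

theorem kel_ii : kel b i j i i = b i i := by simp [kel]
theorem kel_ij (hij : i ≠ j) : kel b i j i j = b i j := by simp [kel, hij.symm]
theorem kel_ji (hij : i ≠ j) : kel b i j j i = b j i := by simp [kel, hij.symm]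
theorem kel_jj (hij : i ≠ j) : kel b i j j j = b j j := by simp [kel, hij.symm]
theorem kel_iy {y : V} (h : y ∈ rst i j) : kel b i j i y = (b i y || b j y) := by
  rw [mem_rst] at h; simp [kel, h.1, h.2]
theorem kel_jy (hij : i ≠ j) {y : V} (h : y ∈ rst i j) : kel b i j j y = (b i y && b j y) := by
  rw [mem_rst] at h; simp [kel, h.1, h.2, hij.symm]
theorem kel_xi {x : V} (h : x ∈ rst i j) : kel b i j x i = (b x i || b x j) := by
  rw [mem_rst] at h; simp [kel, h.1, h.2]
theorem kel_xj (hij : i ≠ j) {x : V} (h : x ∈ rst i j) : kel b i j x j = (b x i && b x j) := by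
  rw [mem_rst] at h; simp [kel, h.1, h.2, hij.symm]
theorem kel_xy {x y : V} (h : x ∈ rst i j) (h' : y ∈ rst i j) : kel b i j x y = b x y := by
  rw [mem_rst] at h h'; simp [kel, h.1, h.2, h'.1, h'.2]

theorem cases3 (i j x : V) : x = i ∨ x = j ∨ x ∈ rst i j := by
  rw [mem_rst]
  by_cases h : x = i
  · exact Or.inl h
  · by_cases h' : x = j
    · exact Or.inr (Or.inl h')
    · exact Or.inr (Or.inr ⟨h, h'⟩)

include hb hij in
theorem kel_SR : SR (kel b i j) := by
  constructor
  · intro x y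
    rcases cases3 i j x with hx | hx | hx <;> rcases cases3 i j y with hy | hy | hy
    · rw [hx, hy]
    · rw [hx, hy, kel_ij hij, kel_ji hij, hb.symm]
    · rw [hx, kel_iy hy, kel_xi hy, hb.symm i y, hb.symm j y]
    · rw [hx, hy, kel_ij hij, kel_ji hij, hb.symm]
    · rw [hx, hy]
    · rw [hx, kel_jy hij hy, kel_xj hij hy, hb.symm i y, hb.symm j y]
    · rw [hy, kel_iy hx, kel_xi hx, hb.symm i x, hb.symm j x]
    · rw [hy, kel_jy hij hx, kel_xj hij hx, hb.symm i x, hb.symm j x]
    · rw [kel_xy hx hy, kel_xy hy hx, hb.symm]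
  · intro x
    rcases cases3 i j x with hx | hx | hx
    · rw [hx, kel_ii]; exact hb.refl _
    · rw [hx, kel_jj hij]; exact hb.refl _
    · rw [kel_xy hx hx]; exact hb.refl _

theorem or_and_nat (p q : Bool) : (p || q).toNat + (p && q).toNat = p.toNat + q.toNat := by
  cases p <;> cases q <;> rfl

include hij in
theorem dg_rst {x : V} (hx : x ∈ rst i j) : dg (kel b i j) x = dg b x := by
  unfold dg
  rw [sum_two hij, sum_two hij (fun y => bt b x y)]
  unfold bt
  rw [kel_xi hx, kel_xj hij hx, or_and_nat]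
  congr 1
  exact sum_congr rfl fun y hy => by rw [kel_xy hx hy]

theorem dg_eq (b : V → V → Bool) (hij : i ≠ j) (x : V) :
    dg b x = bt b x i + bt b x j + ∑ y ∈ rst i j, bt b x y := by
  unfold dg; rw [sum_two hij]

theorem co_eq (b : V → V → Bool) (hij : i ≠ j) (x y : V) :
    co b x y = bt b x i * bt b y i + bt b x j * bt b y j +
      ∑ z ∈ rst i j, bt b x z * bt b y z := by
  unfold co; rw [sum_two hij]

include hb hij in
theorem dg_sum : dg (kel b i j) i + dg (kel b i j) j = dg b i + dg b j := by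
  rw [dg_eq _ hij, dg_eq _ hij, dg_eq _ hij, dg_eq _ hij]
  have h1 : ∑ y ∈ rst i j, bt (kel b i j) i y + ∑ y ∈ rst i j, bt (kel b i j) j y =
      ∑ y ∈ rst i j, bt b i y + ∑ y ∈ rst i j, bt b j y := by
    rw [← sum_add_distrib, ← sum_add_distrib]
    refine sum_congr rfl fun y hy => ?_
    unfold bt
    rw [kel_iy hy, kel_jy hij hy, or_and_nat]
  unfold bt at *
  rw [kel_ii, kel_ij hij, kel_ji hij, kel_jj hij]
  omega

include hb hij in
theorem dg_ge : dg b i ≤ dg (kel b i j) i ∧ dg b j ≤ dg (kel b i j) i := by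
  have hs := hb.symm i j
  have hi := hb.refl i
  have hj := hb.refl j
  constructor
  · rw [dg_eq _ hij, dg_eq _ hij]
    have h1 : ∑ y ∈ rst i j, bt b i y ≤ ∑ y ∈ rst i j, bt (kel b i j) i y := by
      refine sum_le_sum fun y hy => ?_
      unfold bt
      rw [kel_iy hy]
      cases b i y <;> cases b j y <;> decide
    unfold bt at *
    rw [kel_ii, kel_ij hij]
    omega
  · rw [dg_eq _ hij, dg_eq _ hij]
    have h1 : ∑ y ∈ rst i j, bt b j y ≤ ∑ y ∈ rst i j, bt (kel b i j) i y := by
      refine sum_le_sum fun y hy => ?_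
      unfold bt
      rw [kel_iy hy]
      cases b i y <;> cases b j y <;> decide
    unfold bt at *
    rw [kel_ii, kel_ij hij, hi, hj, hs]
    omega

include hb hij in
theorem Ed_kel : Ed (kel b i j) = Ed b := by
  unfold Ed
  rw [sum_two hij, sum_two hij (fun x => dg b x), dg_sum hb hij]
  congr 1
  exact sum_congr rfl fun x hx => dg_rst hij hx

include hb hij in
theorem Fd_kel : Fd b ≤ Fd (kel b i j) := by
  unfold Fd
  rw [sum_two hij, sum_two hij (fun x => dg (kel b i j) x ^ 2)]
  refine Nat.add_le_add ?_ ?_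
  · obtain ⟨h1, h2⟩ := dg_ge hb hij
    exact pow_add_pow_le 2 (dg_sum hb hij).symm h1 h2
  · exact (sum_congr rfl fun x hx => by rw [dg_rst hij hx]).le

/-- the pair is nested -/
def Nested (b : V → V → Bool) (i j : V) : Prop :=
  (∀ y, y ≠ i → y ≠ j → b i y = true → b j y = true) ∨
  (∀ y, y ≠ i → y ≠ j → b j y = true → b i y = true)

include hb hij in
theorem dg_gt (hn : ¬ Nested b i j) : dg b i < dg (kel b i j) i ∧ dg b j < dg (kel b i j) i := by
  have hs := hb.symm i j
  have hi := hb.refl i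
  have hj := hb.refl j
  unfold Nested at hn
  push Not at hn
  obtain ⟨⟨y1, h1, h2, h3, h4⟩, ⟨y2, g1, g2, g3, g4⟩⟩ := hn
  constructor
  · rw [dg_eq _ hij, dg_eq _ hij]
    have h1 : ∑ y ∈ rst i j, bt b i y < ∑ y ∈ rst i j, bt (kel b i j) i y := by
      refine sum_lt_sum (fun y hy => ?_) ⟨y2, mem_rst.2 ⟨g1, g2⟩, ?_⟩
      · unfold bt
        rw [kel_iy hy]
        cases b i y <;> cases b j y <;> decide
      · unfold bt
        rw [kel_iy (mem_rst.2 ⟨g1, g2⟩), g3]
        simp only [ne_eq, Bool.not_eq_true] at g4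
        rw [g4]; decide
    unfold bt at *
    rw [kel_ii, kel_ij hij]
    omega
  · rw [dg_eq _ hij, dg_eq _ hij]
    have h1 : ∑ y ∈ rst i j, bt b j y < ∑ y ∈ rst i j, bt (kel b i j) i y := by
      refine sum_lt_sum (fun y hy => ?_) ⟨y1, mem_rst.2 ⟨h1, h2⟩, ?_⟩
      · unfold bt
        rw [kel_iy hy]
        cases b i y <;> cases b j y <;> decide
      · unfold bt
        rw [kel_iy (mem_rst.2 ⟨h1, h2⟩), h3]
        simp only [ne_eq, Bool.not_eq_true] at h4
        rw [h4]; decide
    unfold bt at *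
    rw [kel_ii, kel_ij hij, hi, hj, hs]
    omega

include hb hij in
theorem Fd_kel_lt (hn : ¬ Nested b i j) : Fd b < Fd (kel b i j) := by
  unfold Fd
  rw [sum_two hij, sum_two hij (fun x => dg (kel b i j) x ^ 2)]
  have h3 : ∑ x ∈ rst i j, dg b x ^ 2 = ∑ x ∈ rst i j, dg (kel b i j) x ^ 2 :=
    sum_congr rfl fun x hx => by rw [dg_rst hij hx]
  rw [h3]
  refine Nat.add_lt_add_right ?_ _
  obtain ⟨h1, h2⟩ := dg_gt hb hij hn
  have h4 := dg_sum hb hij
  set A := dg b i
  set B := dg b j
  set A' := dg (kel b i j) i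
  set B' := dg (kel b i j) j
  obtain ⟨s, hs⟩ : ∃ s, A' = A + (s + 1) := ⟨A' - A - 1, by omega⟩
  obtain ⟨r, hr⟩ : ∃ r, A' = B + (r + 1) := ⟨A' - B - 1, by omega⟩
  zify at *
  have e1 : (B' : ℤ) = A + B - A' := by linarith
  have key : (A' : ℤ) ^ 2 + B' ^ 2 - (A ^ 2 + B ^ 2) = 2 * ((A' - A) * (A' - B)) := by
    rw [e1]; ring
  have : 0 < ((A' : ℤ) - A) * (A' - B) := mul_pos (by linarith) (by linarith)
  linarith

theorem co_comm (b : V → V → Bool) (x y : V) : co b x y = co b y x := by
  unfold co; exact sum_congr rfl fun z _ => mul_comm _ _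

include hb hij in
theorem co_rr {x y : V} (hx : x ∈ rst i j) (hy : y ∈ rst i j) :
    co b x y ≤ co (kel b i j) x y := by
  rw [co_eq _ hij, co_eq _ hij]
  have h1 : ∑ z ∈ rst i j, bt (kel b i j) x z * bt (kel b i j) y z =
      ∑ z ∈ rst i j, bt b x z * bt b y z := by
    refine sum_congr rfl fun z hz => ?_
    unfold bt
    rw [kel_xy hx hz, kel_xy hy hz]
  rw [h1]
  unfold bt
  rw [kel_xi hx, kel_xj hij hx, kel_xi hy, kel_xj hij hy]
  refine Nat.add_le_add_right ?_ _
  cases b x i <;> cases b x j <;> cases b y i <;> cases b y j <;> decide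

include hb hij in
theorem co_ri {x : V} (hx : x ∈ rst i j) (t : ℕ) :
    co b x i ^ t + co b x j ^ t ≤ co (kel b i j) x i ^ t + co (kel b i j) x j ^ t := by
  have hs := hb.symm i j
  have hi := hb.refl i
  have hj := hb.refl j
  have e1 : ∑ z ∈ rst i j, bt (kel b i j) x z * bt (kel b i j) i z =
      ∑ z ∈ rst i j, (b x z).toNat * (b i z || b j z).toNat := by
    refine sum_congr rfl fun z hz => ?_
    unfold bt
    rw [kel_xy hx hz, kel_iy hz]
  have e2 : ∑ z ∈ rst i j, bt (kel b i j) x z * bt (kel b i j) j z =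
      ∑ z ∈ rst i j, (b x z).toNat * (b i z && b j z).toNat := by
    refine sum_congr rfl fun z hz => ?_
    unfold bt
    rw [kel_xy hx hz, kel_jy hij hz]
  have e3 : ∑ z ∈ rst i j, (b x z).toNat * (b i z || b j z).toNat +
      ∑ z ∈ rst i j, (b x z).toNat * (b i z && b j z).toNat =
      ∑ z ∈ rst i j, bt b x z * bt b i z + ∑ z ∈ rst i j, bt b x z * bt b j z := by
    rw [← sum_add_distrib, ← sum_add_distrib]
    refine sum_congr rfl fun z _ => ?_
    unfold bt
    rw [← mul_add, or_and_nat, mul_add]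
  have e4 : ∑ z ∈ rst i j, bt b x z * bt b i z ≤
      ∑ z ∈ rst i j, (b x z).toNat * (b i z || b j z).toNat := by
    refine sum_le_sum fun z _ => ?_
    unfold bt
    refine Nat.mul_le_mul_left _ ?_
    cases b i z <;> cases b j z <;> decide
  have e5 : ∑ z ∈ rst i j, bt b x z * bt b j z ≤
      ∑ z ∈ rst i j, (b x z).toNat * (b i z || b j z).toNat := by
    refine sum_le_sum fun z _ => ?_
    unfold bt
    refine Nat.mul_le_mul_left _ ?_
    cases b i z <;> cases b j z <;> decide
  rw [co_eq (kel b i j) hij, co_eq (kel b i j) hij, e1, e2, co_eq b hij, co_eq b hij]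
  unfold bt at *
  rw [kel_xi hx, kel_xj hij hx, kel_ii, kel_ij hij, kel_ji hij, kel_jj hij, hi, hj, ← hs]
  set S1 := ∑ z ∈ rst i j, (b x z).toNat * (b i z || b j z).toNat
  set S2 := ∑ z ∈ rst i j, (b x z).toNat * (b i z && b j z).toNat
  set S3 := ∑ z ∈ rst i j, (b x z).toNat * (b i z).toNat
  set S4 := ∑ z ∈ rst i j, (b x z).toNat * (b j z).toNat
  refine pow_add_pow_le t ?_ ?_ ?_
  · cases b x i <;> cases b x j <;> cases b i j <;> simp <;> omega
  · cases b x i <;> cases b x j <;> cases b i j <;> simp <;> omega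
  · cases b x i <;> cases b x j <;> cases b i j <;> simp <;> omega

include hb hij in
theorem co_ij : co (kel b i j) i j = co b i j := by
  rw [co_eq _ hij, co_eq _ hij]
  have e1 : ∑ z ∈ rst i j, bt (kel b i j) i z * bt (kel b i j) j z =
      ∑ z ∈ rst i j, bt b i z * bt b j z := by
    refine sum_congr rfl fun z hz => ?_
    unfold bt
    rw [kel_iy hz, kel_jy hij hz]
    cases b i z <;> cases b j z <;> rfl
  rw [e1]
  unfold bt
  rw [kel_ii, kel_ij hij, kel_ji hij, kel_jj hij]

theorem co_self (b : V → V → Bool) (x : V) : co b x x = dg b x := by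
  unfold co dg bt
  refine sum_congr rfl fun z _ => ?_
  cases b x z <;> rfl

include hb hij in
theorem co_diag (t : ℕ) :
    co b i i ^ t + co b j j ^ t ≤ co (kel b i j) i i ^ t + co (kel b i j) j j ^ t := by
  rw [co_self, co_self, co_self, co_self]
  obtain ⟨h1, h2⟩ := dg_ge hb hij
  exact pow_add_pow_le t (dg_sum hb hij).symm h1 h2

include hb hij in
theorem Qd_kel (t : ℕ) : Qd t b ≤ Qd t (kel b i j) := by
  have split : ∀ c : V → V → Bool, Qd t c = (co c i i ^ t + co c j j ^ t) + 2 * co c i j ^ t +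
      2 * ∑ x ∈ rst i j, (co c x i ^ t + co c x j ^ t) +
      ∑ x ∈ rst i j, ∑ y ∈ rst i j, co c x y ^ t := by
    intro c
    unfold Qd
    rw [sum_two hij]
    rw [sum_two hij (fun y => co c i y ^ t), sum_two hij (fun y => co c j y ^ t)]
    have h1 : ∑ x ∈ rst i j, ∑ y, co c x y ^ t = ∑ x ∈ rst i j, (co c x i ^ t + co c x j ^ t) +
        ∑ x ∈ rst i j, ∑ y ∈ rst i j, co c x y ^ t := by
      rw [← sum_add_distrib]
      exact sum_congr rfl fun x _ => by rw [sum_two hij]
    have h2 : ∑ y ∈ rst i j, co c i y ^ t = ∑ y ∈ rst i j, co c y i ^ t :=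
      sum_congr rfl fun y _ => by rw [co_comm]
    have h3 : ∑ y ∈ rst i j, co c j y ^ t = ∑ y ∈ rst i j, co c y j ^ t :=
      sum_congr rfl fun y _ => by rw [co_comm]
    rw [h1, h2, h3, co_comm c j i, sum_add_distrib]
    ring
  rw [split, split]
  refine Nat.add_le_add (Nat.add_le_add (Nat.add_le_add ?_ ?_) ?_) ?_
  · exact co_diag hb hij t
  · rw [co_ij hb hij]
  · exact Nat.mul_le_mul_left _ (sum_le_sum fun x hx => co_ri hb hij hx t)
  · exact sum_le_sum fun x hx => sum_le_sum fun y hy =>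
      Nat.pow_le_pow_left (co_rr hb hij hx hy) t

end kel

/-- a nested relation with at least the same value -/
theorem exists_nested [Nonempty V] {m : ℕ} (hm : 0 < m) (t : ℕ) (b₀ : V → V → Bool) (hb₀ : SR b₀) :
    ∃ b : V → V → Bool, SR b ∧ Ed b = Ed b₀ ∧ Fd b₀ ^ m * Qd t b₀ ≤ Fd b ^ m * Qd t b ∧
      ∀ i j, i ≠ j → Nested b i j := by
  classical
  set S : Finset (V → V → Bool) := univ.filter (fun b => SR b ∧ Ed b = Ed b₀) with hS
  have hne : S.Nonempty := ⟨b₀, by simp [hS, hb₀]⟩
  obtain ⟨b, hbS, hmax⟩ := exists_max_image S (fun b => Fd b ^ m * Qd t b) hne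
  simp only [hS, mem_filter, mem_univ, true_and] at hbS
  refine ⟨b, hbS.1, hbS.2, hmax b₀ (by simp [hS, hb₀]), ?_⟩
  intro i j hij
  by_contra hn
  have h1 := Fd_kel_lt hbS.1 hij hn
  have h2 := Qd_kel hbS.1 hij t
  have h3 : 0 < Qd t b := by
    obtain ⟨x⟩ := (inferInstance : Nonempty V)
    have h4 : 0 < co b x x := by
      rw [co_self]
      unfold dg
      refine sum_pos' (fun _ _ => Nat.zero_le _) ⟨x, mem_univ _, ?_⟩
      unfold bt
      rw [hbS.1.refl]; decide
    unfold Qd
    refine sum_pos' (fun _ _ => Nat.zero_le _) ⟨x, mem_univ _, ?_⟩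
    exact sum_pos' (fun _ _ => Nat.zero_le _) ⟨x, mem_univ _, pow_pos h4 t⟩
  have h5 : Fd b ^ m * Qd t b < Fd (kel b i j) ^ m * Qd t (kel b i j) := by
    calc Fd b ^ m * Qd t b < Fd (kel b i j) ^ m * Qd t b :=
          Nat.mul_lt_mul_of_pos_right (Nat.pow_lt_pow_left h1 hm.ne') h3
      _ ≤ _ := Nat.mul_le_mul_left _ h2
  have h6 := hmax (kel b i j) (by
    simp only [hS, mem_filter, mem_univ, true_and]
    exact ⟨kel_SR hbS.1 hij, (Ed_kel hbS.1 hij).trans hbS.2⟩)
  exact absurd h6 (not_le.2 h5)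

end

end Pool.Agent.Lib.Helper7.STK
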