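/-
MP_8790d8_co: from graphs to threshold shapes.
-/
import Pool.Agent.Lib.Helper7.STK.Kelmans

set_option autoImplicit false
open Finset

namespace Pool.Agent.Lib.Helper7.STK

section relabel
variable {V : Type} [Fintype V] [DecidableEq V]

theorem dg_relabel (b : V → V → Bool) (σ : V ≃ V) (x : V) :
    dg (fun x y => b (σ x) (σ y)) x = dg b (σ x) := by
  unfold dg bt
  exact σ.sum_comp (fun y => (b (σ x) y).toNat)

theorem co_relabel (b : V → V → Bool) (σ : V ≃ V) (x y : V) :
    co (fun x y => b (σ x) (σ y)) x y = co b (σ x) (σ y) := by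
  unfold co bt
  exact σ.sum_comp (fun z => (b (σ x) z).toNat * (b (σ y) z).toNat)

theorem Ed_relabel (b : V → V → Bool) (σ : V ≃ V) :
    Ed (fun x y => b (σ x) (σ y)) = Ed b := by
  unfold Ed
  simp only [dg_relabel]
  exact σ.sum_comp (fun x => dg b x)

theorem Fd_relabel (b : V → V → Bool) (σ : V ≃ V) :
    Fd (fun x y => b (σ x) (σ y)) = Fd b := by
  unfold Fd
  simp only [dg_relabel]
  exact σ.sum_comp (fun x => dg b x ^ 2)

theorem Qd_relabel (t : ℕ) (b : V → V → Bool) (σ : V ≃ V) :
    Qd t (fun x y => b (σ x) (σ y)) = Qd t b := by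
  unfold Qd
  simp only [co_relabel]
  rw [σ.sum_comp (fun x => ∑ y, co b x (σ y) ^ t)]
  exact sum_congr rfl fun x _ => σ.sum_comp (fun y => co b x y ^ t)

end relabel

/-- the shifted property -/
def Shifted {n : ℕ} (b : Fin n → Fin n → Bool) : Prop :=
  ∀ i j x : Fin n, i < j → x ≠ i → x ≠ j → b j x = true → b i x = true

theorem nested_deg {n : ℕ} {b : Fin n → Fin n → Bool} (hb : SR b) {i j : Fin n} (hij : i ≠ j)
    (hn : Nested b i j) (hd : dg b j ≤ dg b i) (x : Fin n) (hxi : x ≠ i) (hxj : x ≠ j)
    (hx : b j x = true) : b i x = true := by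
  rcases hn with h | h
  · by_contra hcon
    rw [Bool.not_eq_true] at hcon
    have hs := hb.symm i j
    rw [dg_eq b hij, dg_eq b hij] at hd
    have h1 : ∑ y ∈ rst i j, bt b i y < ∑ y ∈ rst i j, bt b j y := by
      refine sum_lt_sum (fun y hy => ?_) ⟨x, mem_rst.2 ⟨hxi, hxj⟩, ?_⟩
      · rw [mem_rst] at hy
        unfold bt
        cases hbi : b i y
        · simp
        · rw [h y hy.1 hy.2 hbi]
      · unfold bt; rw [hcon, hx]; decide
    unfold bt at *
    rw [hb.refl, hb.refl, hs] at hd
    omega
  · exact h x hxi hxj hx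

/-- a shifted relation with at least the same value -/
theorem exists_shifted {n : ℕ} (hn : 0 < n) {m : ℕ} (hm : 0 < m) (t : ℕ)
    (b₀ : Fin n → Fin n → Bool) (hb₀ : SR b₀) :
    ∃ b : Fin n → Fin n → Bool, SR b ∧ Ed b = Ed b₀ ∧
      Fd b₀ ^ m * Qd t b₀ ≤ Fd b ^ m * Qd t b ∧ Shifted b := by
  haveI : Nonempty (Fin n) := ⟨⟨0, hn⟩⟩
  obtain ⟨b, hb, hE, hv, hnest⟩ := exists_nested hm t b₀ hb₀
  set f : Fin n → ℕ := fun x => n - dg b x with hf
  set σ := Tuple.sort f with hσ
  have hmono : Monotone (f ∘ σ) := Tuple.monotone_sort f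
  have hdn : ∀ x, dg b x ≤ n := by
    intro x
    unfold dg
    calc ∑ y, bt b x y ≤ ∑ y : Fin n, 1 := sum_le_sum fun y _ => by
          unfold bt; exact Bool.toNat_le _
      _ = n := by simp
  refine ⟨fun x y => b (σ x) (σ y), ⟨fun x y => hb.symm _ _, fun x => hb.refl _⟩, ?_, ?_, ?_⟩
  · rw [Ed_relabel, hE]
  · rw [Fd_relabel, Qd_relabel]; exact hv
  · intro i j x hij hxi hxj hx
    have h1 : f (σ i) ≤ f (σ j) := hmono hij.le
    have h2 : dg b (σ j) ≤ dg b (σ i) := by
      have := hdn (σ i); have := hdn (σ j)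
      simp only [hf] at h1
      omega
    exact nested_deg hb (fun h => hij.ne (σ.injective h)) (hnest _ _ (fun h => hij.ne
      (σ.injective h))) h2 (σ x) (fun h => hxi (σ.injective h)) (fun h => hxj (σ.injective h)) hx

/-- initial segments -/
theorem down_closed_iff {n : ℕ} (S : Finset (Fin n)) (h : ∀ v ∈ S, ∀ u, u < v → u ∈ S)
    (v : Fin n) : v ∈ S ↔ (v : ℕ) < S.card := by
  constructor
  · intro hv
    have hsub : (univ : Finset (Fin n)).filter (fun u => u ≤ v) ⊆ S := by
      intro u hu
      simp only [mem_filter, mem_univ, true_and] at hu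
      rcases eq_or_lt_of_le hu with h1 | h1
      · rw [h1]; exact hv
      · exact h v hv u h1
    have hc := card_le_card hsub
    have h2 : ((univ : Finset (Fin n)).filter (fun u => u ≤ v)).card = v + 1 := by
      have : (univ : Finset (Fin n)).filter (fun u => u ≤ v) = Finset.Iic v := by ext; simp
      rw [this, Fin.card_Iic]
    omega
  · intro hv
    by_contra hcon
    have hsub : S ⊆ (univ : Finset (Fin n)).filter (fun u => u < v) := by
      intro u hu
      simp only [mem_filter, mem_univ, true_and]
      by_contra hle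
      push Not at hle
      rcases eq_or_lt_of_le hle with h1 | h1
      · rw [h1] at hcon; exact hcon hu
      · exact hcon (h u hu v h1)
    have hc := card_le_card hsub
    have h2 : ((univ : Finset (Fin n)).filter (fun u => u < v)).card = v := by
      have : (univ : Finset (Fin n)).filter (fun u => u < v) = Finset.Iio v := by ext; simp
      rw [this, Fin.card_Iio]
    omega

/-- the numerical data of a shifted relation -/
structure Data (n p : ℕ) (E K : ℕ → ℕ) : Prop where
  pn : p ≤ n
  iff : ∀ y < p, ∀ v, p ≤ v → v < n → (y < K v ↔ v < p + E y)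
  Kp : ∀ v, p ≤ v → v < n → K v ≤ p
  En : ∀ y < p, E y ≤ n - p
  anti : ∀ i j, i ≤ j → j < p → E j ≤ E i

theorem exists_data {n : ℕ} (b : Fin n → Fin n → Bool) (hb : SR b) (hs : Shifted b) :
    ∃ (p : ℕ) (E K : ℕ → ℕ), Data n p E K ∧ (∀ v : Fin n, (v : ℕ) < p → dg b v = p + E v) ∧
      (∀ v : Fin n, p ≤ (v : ℕ) → dg b v = 1 + K v) := by
  classical
  set P : Finset (Fin n) := univ.filter (fun v => ∀ i < v, b i v = true) with hP
  set p := P.card with hp
  have hPd : ∀ v ∈ P, ∀ u, u < v → u ∈ P := by
    intro v hv u huv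
    simp only [hP, mem_filter, mem_univ, true_and] at hv ⊢
    intro i hi
    have h1 := hv i (hi.trans huv)
    rw [hb.symm] at h1 ⊢
    exact hs u v i huv hi.ne (hi.trans huv).ne h1
  have hPiff := down_closed_iff P hPd
  have hpn : p ≤ n := by
    have := card_le_univ P
    rw [Fintype.card_fin] at this
    exact this
  -- inside the clique
  have hclique : ∀ u v : Fin n, (u : ℕ) < p → (v : ℕ) < p → b u v = true := by
    intro u v hu hv
    have hu' := (hPiff u).2 hu
    have hv' := (hPiff v).2 hv
    simp only [hP, mem_filter, mem_univ, true_and] at hu' hv'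
    rcases lt_trichotomy u v with h | h | h
    · exact hv' u h
    · rw [h]; exact hb.refl v
    · rw [hb.symm]; exact hu' v h
  -- outside
  have hout : ∀ u v : Fin n, p ≤ (u : ℕ) → p ≤ (v : ℕ) → u ≠ v → b u v = false := by
    have key : ∀ u v : Fin n, p ≤ (u : ℕ) → u < v → b u v = false := by
      intro u v hu huv
      by_contra hcon
      rw [Bool.not_eq_false] at hcon
      have hu' : u ∉ P := fun h => absurd ((hPiff u).1 h) (not_lt.2 hu)
      simp only [hP, mem_filter, mem_univ, true_and] at hu'
      push Not at hu'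
      obtain ⟨i, hi, hiu⟩ := hu'
      -- b v u → b v i → b u i
      have h1 : b i v = true := hs i u v hi (hi.trans huv).ne' huv.ne' hcon
      have h2 : b u i = true := hs u v i huv hi.ne (hi.trans huv).ne (by rw [hb.symm]; exact h1)
      rw [hb.symm] at h2
      exact hiu h2
    intro u v hu hv huv
    rcases lt_or_gt_of_ne huv with h | h
    · exact key u v hu h
    · rw [hb.symm]; exact key v u hv h
  set Ef : Fin n → ℕ := fun v => (univ.filter (fun y : Fin n => p ≤ (y : ℕ) ∧ b v y = true)).card
    with hEf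
  set Kf : Fin n → ℕ := fun v => (univ.filter (fun y : Fin n => (y : ℕ) < p ∧ b v y = true)).card
    with hKf
  set E : ℕ → ℕ := fun i => if h : i < n then Ef ⟨i, h⟩ else 0 with hE
  set K : ℕ → ℕ := fun i => if h : i < n then Kf ⟨i, h⟩ else 0 with hK
  have hEv : ∀ v : Fin n, E v = Ef v := fun v => by simp [hE, v.2]
  have hKv : ∀ v : Fin n, K v = Kf v := fun v => by simp [hK, v.2]
  have hcardp : (univ.filter (fun y : Fin n => (y : ℕ) < p)).card = p := by
    have h1 : (univ.filter (fun y : Fin n => (y : ℕ) < p)) = P := by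
      ext y; rw [hPiff]; simp [hp]
    rw [h1]
  have hdgc : ∀ v, dg b v = (univ.filter (fun y => b v y = true)).card := by
    intro v
    unfold dg bt
    rw [card_filter]
    refine sum_congr rfl fun y _ => ?_
    cases b v y <;> rfl
  have hdg1 : ∀ v : Fin n, (v : ℕ) < p → dg b v = p + Ef v := by
    intro v hv
    rw [hdgc]
    have h1 : univ.filter (fun y => b v y = true) = (univ.filter (fun y : Fin n => (y : ℕ) < p)) ∪
        (univ.filter (fun y : Fin n => p ≤ (y : ℕ) ∧ b v y = true)) := by
      ext y
      simp only [mem_filter, mem_univ, true_and, mem_union]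
      constructor
      · intro h
        rcases lt_or_ge (y : ℕ) p with h2 | h2
        · exact Or.inl h2
        · exact Or.inr ⟨h2, h⟩
      · rintro (h | h)
        · exact hclique v y hv h
        · exact h.2
    rw [h1, card_union_of_disjoint, hcardp]
    rw [disjoint_filter]
    intro y _ h2 h3
    omega
  have hdg2 : ∀ v : Fin n, p ≤ (v : ℕ) → dg b v = 1 + Kf v := by
    intro v hv
    rw [hdgc]
    have h1 : univ.filter (fun y => b v y = true) = {v} ∪
        (univ.filter (fun y : Fin n => (y : ℕ) < p ∧ b v y = true)) := by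
      ext y
      simp only [mem_filter, mem_univ, true_and, mem_union, mem_singleton]
      constructor
      · intro h
        by_cases h2 : y = v
        · exact Or.inl h2
        · right
          refine ⟨?_, h⟩
          by_contra h3
          push Not at h3
          have := hout v y hv h3 (Ne.symm h2)
          rw [this] at h
          exact Bool.false_ne_true h
      · rintro (h | h)
        · rw [h]; exact hb.refl v
        · exact h.2
    rw [h1, card_union_of_disjoint, card_singleton]
    rw [disjoint_left]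
    intro y h2 h3
    simp only [mem_singleton] at h2
    simp only [mem_filter, mem_univ, true_and] at h3
    rw [h2] at h3
    omega
  -- the two initial segments
  have hKiff : ∀ v : Fin n, p ≤ (v : ℕ) → ∀ y : Fin n, ((y : ℕ) < p ∧ b v y = true) ↔
      (y : ℕ) < Kf v := by
    intro v hv y
    have := down_closed_iff (univ.filter (fun y : Fin n => (y : ℕ) < p ∧ b v y = true)) (by
      intro a ha c hca
      simp only [mem_filter, mem_univ, true_and] at ha ⊢
      have hca' : (c : ℕ) < a := hca
      refine ⟨by omega, ?_⟩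
      have h2 := hs c a v hca (fun h => by rw [h] at hv; omega) (fun h => by rw [h] at hv; omega)
        (by rw [hb.symm]; exact ha.2)
      rw [hb.symm]; exact h2) y
    rw [← this]
    simp only [mem_filter, mem_univ, true_and]
  have hEiff : ∀ y : Fin n, (y : ℕ) < p → ∀ v : Fin n, p ≤ (v : ℕ) → (b y v = true ↔
      (v : ℕ) < p + Ef y) := by
    intro y hy v hv
    have := down_closed_iff (univ.filter (fun v : Fin n => b y v = true)) (by
      intro a ha c hca
      simp only [mem_filter, mem_univ, true_and] at ha ⊢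
      rcases lt_or_ge (c : ℕ) p with h1 | h1
      · exact hclique y c hy h1
      · have hca' : (c : ℕ) < a := hca
        have h2 := hs c a y hca (fun h => by rw [← h] at h1; omega)
          (fun h => by rw [h] at hy; omega) (by rw [hb.symm]; exact ha)
        rw [hb.symm]; exact h2) v
    simp only [mem_filter, mem_univ, true_and] at this
    rw [this, ← hdgc, hdg1 y hy]
  refine ⟨p, E, K, ⟨hpn, ?_, ?_, ?_, ?_⟩, fun v hv => by rw [hdg1 v hv, hEv],
    fun v hv => by rw [hdg2 v hv, hKv]⟩
  · intro y hy v hpv hvn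
    have h1 := hEiff ⟨y, by omega⟩ hy ⟨v, hvn⟩ hpv
    have h2 := hKiff ⟨v, hvn⟩ hpv ⟨y, by omega⟩
    have h3 : E y = Ef ⟨y, by omega⟩ := hEv ⟨y, by omega⟩
    have h4 : K v = Kf ⟨v, hvn⟩ := hKv ⟨v, hvn⟩
    rw [h3, h4]
    rw [hb.symm] at h1
    constructor
    · intro h5
      exact h1.1 (h2.2 h5).2
    · intro h5
      exact h2.1 ⟨hy, h1.2 h5⟩
  · intro v hpv hvn
    have h4 : K v = Kf ⟨v, hvn⟩ := hKv ⟨v, hvn⟩
    rw [h4]
    calc Kf ⟨v, hvn⟩ ≤ (univ.filter (fun y : Fin n => (y : ℕ) < p)).card :=
          card_le_card fun y hy => by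
            simp only [mem_filter, mem_univ, true_and] at hy ⊢
            exact hy.1
      _ = p := hcardp
  · intro y hy
    have h3 : E y = Ef ⟨y, by omega⟩ := hEv ⟨y, by omega⟩
    have h5 := hdg1 ⟨y, by omega⟩ hy
    have h6 : dg b ⟨y, by omega⟩ ≤ n := by
      unfold dg
      calc ∑ z, bt b ⟨y, by omega⟩ z ≤ ∑ z : Fin n, 1 := sum_le_sum fun z _ => by
            unfold bt; exact Bool.toNat_le _
        _ = n := by simp
    rw [h3]
    omega
  · intro i j hij hj
    rcases eq_or_lt_of_le hij with h | h
    · rw [h]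
    · have h3 : E i = Ef ⟨i, by omega⟩ := hEv ⟨i, by omega⟩
      have h4 : E j = Ef ⟨j, by omega⟩ := hEv ⟨j, by omega⟩
      rw [h3, h4]
      refine card_le_card fun y hy => ?_
      simp only [mem_filter, mem_univ, true_and] at hy ⊢
      refine ⟨hy.1, hs ⟨i, by omega⟩ ⟨j, by omega⟩ y h ?_ ?_ hy.2⟩
      · intro h5; rw [h5] at hy; have := hy.1; simp only at this; omega
      · intro h5; rw [h5] at hy; have := hy.1; simp only at this; omega

end Pool.Agent.Lib.Helper7.STK
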