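/-
MP_8790d8_co: the shape of a shifted relation.
-/
import Pool.Agent.Lib.Helper7.STK.Threshold
import Pool.Agent.Lib.Helper7.STK.FamDefs

set_option autoImplicit false
open Finset

namespace Pool.Agent.Lib.Helper7.STK

theorem double_count {n p : ℕ} {E K : ℕ → ℕ} (d : Data n p E K) (g G : ℕ → ℝ) (hG : G 0 = 0) :
    ∑ v ∈ Ico p n, g v * G (K v) =
      ∑ y ∈ range p, (G (y + 1) - G y) * ∑ v ∈ Ico p (p + E y), g v := by
  have h1 : ∀ v ∈ Ico p n, g v * G (K v) =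
      ∑ y ∈ range p, if y < K v then (G (y + 1) - G y) * g v else 0 := by
    intro v hv
    rw [mem_Ico] at hv
    have hK := d.Kp v hv.1 hv.2
    rw [← sum_filter]
    have h2 : (range p).filter (fun y => y < K v) = range (K v) := by
      ext y; simp only [mem_filter, mem_range]; omega
    rw [h2, ← sum_mul, sum_range_sub, hG]; ring
  rw [sum_congr rfl h1, sum_comm]
  refine sum_congr rfl fun y hy => ?_
  rw [mem_range] at hy
  rw [← sum_filter, mul_sum]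
  refine sum_congr ?_ fun _ _ => rfl
  ext v
  simp only [mem_filter, mem_Ico]
  have hE := d.En y hy
  have hpn := d.pn
  constructor
  · rintro ⟨⟨h2, h3⟩, h4⟩
    exact ⟨h2, (d.iff y hy v h2 h3).1 h4⟩
  · rintro ⟨h2, h3⟩
    have h4 : v < n := by omega
    exact ⟨⟨h2, h4⟩, (d.iff y hy v h2 h4).2 h3⟩

theorem sum_Ico_odd (p q : ℕ) :
    ∑ v ∈ Ico p (p + q), (2 * (v : ℝ) + 1) = ((p : ℝ) + q) ^ 2 - p ^ 2 := by
  rw [sum_Ico_eq_sub _ (Nat.le_add_right p q), sum_odd, sum_odd]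
  push_cast; ring

/-- the degrees -/
def DD (p : ℕ) (E K : ℕ → ℕ) (v : ℕ) : ℕ := if v < p then p + E v else 1 + K v

section
variable {n p : ℕ} {E K : ℕ → ℕ}

theorem sum_DD (d : Data n p E K) (F : ℕ → ℕ → ℝ) :
    ∑ v ∈ range n, F v (DD p E K v) = ∑ v ∈ range p, F v (p + E v) +
      ∑ v ∈ Ico p n, F v (1 + K v) := by
  rw [range_eq_Ico, ← sum_Ico_consecutive _ (Nat.zero_le p) d.pn, range_eq_Ico]
  congr 1
  · refine sum_congr rfl fun v hv => ?_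
    rw [mem_Ico] at hv
    simp [DD, hv.2]
  · refine sum_congr rfl fun v hv => ?_
    rw [mem_Ico] at hv
    simp [DD, not_lt.2 hv.1]

theorem shape_GShape (hn : 0 < n) (d : Data n p E K) :
    GShape (1 / n) p (p / n) (fun i => (E i : ℝ) / n) := by
  have hn' : (0 : ℝ) < n := by exact_mod_cast hn
  have hpn : (p : ℝ) ≤ n := by exact_mod_cast d.pn
  refine ⟨by positivity, le_of_eq (by ring), (div_le_one hn').2 hpn, fun i _ => by positivity,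
    ?_, ?_⟩
  · intro i hi
    have h1 := d.En i hi
    have h2 := d.pn
    have h3 : (E i : ℝ) + p ≤ n := by exact_mod_cast (by omega : E i + p ≤ n)
    rw [div_le_iff₀ hn']
    field_simp
    linarith
  · intro i j hij hj
    refine div_le_div_of_nonneg_right ?_ hn'.le
    exact_mod_cast d.anti i j hij hj

theorem shape_area (hn : 0 < n) (d : Data n p E K) :
    area (1 / n) p (p / n) (fun i => (E i : ℝ) / n) ≤
      (∑ v ∈ range n, (DD p E K v : ℝ)) / (n : ℝ) ^ 2 := by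
  have hn' : (0 : ℝ) < n := by exact_mod_cast hn
  have h1 := sum_DD d (fun _ x => (x : ℝ))
  rw [h1]
  have h2 : ∑ v ∈ Ico p n, ((1 + K v : ℕ) : ℝ) = ((n : ℝ) - p) + ∑ y ∈ range p, (E y : ℝ) := by
    have h3 := double_count d (fun _ => 1) (fun x => (x : ℝ)) (by simp)
    simp only [one_mul] at h3
    have h4 : ∑ y ∈ range p, (((y + 1 : ℕ) : ℝ) - (y : ℝ)) * ∑ v ∈ Ico p (p + E y), (1 : ℝ) =
        ∑ y ∈ range p, (E y : ℝ) := by
      refine sum_congr rfl fun y _ => ?_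
      rw [sum_const, Nat.card_Ico, nsmul_eq_mul]
      push_cast
      have : p + E y - p = E y := by omega
      rw [this]; ring
    rw [h4] at h3
    have h5 : ∑ v ∈ Ico p n, ((1 + K v : ℕ) : ℝ) = ∑ v ∈ Ico p n, (1 : ℝ) +
        ∑ v ∈ Ico p n, (K v : ℝ) := by
      rw [← sum_add_distrib]; exact sum_congr rfl fun v _ => by push_cast; ring
    rw [h5, h3, sum_const, Nat.card_Ico, nsmul_eq_mul, Nat.cast_sub d.pn]; ring
  have h3 : ∑ v ∈ range p, ((p + E v : ℕ) : ℝ) = (p : ℝ) ^ 2 + ∑ y ∈ range p, (E y : ℝ) := by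
    have h5 : ∑ v ∈ range p, ((p + E v : ℕ) : ℝ) = ∑ v ∈ range p, (p : ℝ) +
        ∑ v ∈ range p, (E v : ℝ) := by
      rw [← sum_add_distrib]; exact sum_congr rfl fun v _ => by push_cast; ring
    rw [h5, sum_const, card_range, nsmul_eq_mul]; ring
  rw [h2, h3]
  have h4 : area (1 / n) p (p / n) (fun i => (E i : ℝ) / n) =
      ((p : ℝ) ^ 2 + 2 * ∑ y ∈ range p, (E y : ℝ)) / (n : ℝ) ^ 2 := by
    unfold area sA
    have : ∑ i ∈ range p, 1 / (n : ℝ) * ((E i : ℝ) / n) =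
        (∑ y ∈ range p, (E y : ℝ)) / (n : ℝ) ^ 2 := by
      rw [sum_div]; refine sum_congr rfl fun i _ => ?_
      field_simp
    rw [this]; field_simp
  rw [h4]
  refine div_le_div_of_nonneg_right ?_ (by positivity)
  have hpn : (p : ℝ) ≤ n := by exact_mod_cast d.pn
  linarith

theorem K_le (d : Data n p E K) {v : ℕ} (h1 : p ≤ v) (h2 : v < n) : 1 + K v ≤ n := by
  have := d.Kp v h1 h2; omega

theorem shape_F (hn : 0 < n) (d : Data n p E K) :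
    ∑ v ∈ range n, (DD p E K v : ℝ) ^ 2 ≤
      (n : ℝ) ^ 3 * (M2 (1 / n) p (p / n) (fun i => (E i : ℝ) / n) + 3 / n) := by
  have hn' : (0 : ℝ) < n := by exact_mod_cast hn
  have h1 := sum_DD d (fun _ x => (x : ℝ) ^ 2)
  rw [h1]
  have h3 := double_count d (fun _ => 1) (fun x => (x : ℝ) ^ 2) (by simp)
  simp only [one_mul] at h3
  have h4 : ∑ y ∈ range p, (((y + 1 : ℕ) : ℝ) ^ 2 - (y : ℝ) ^ 2) *
      ∑ v ∈ Ico p (p + E y), (1 : ℝ) = ∑ y ∈ range p, (2 * (y : ℝ) + 1) * (E y : ℝ) := by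
    refine sum_congr rfl fun y _ => ?_
    rw [sum_const, Nat.card_Ico, nsmul_eq_mul]
    push_cast
    have : p + E y - p = E y := by omega
    rw [this]; ring
  rw [h4] at h3
  have h5 : ∑ v ∈ Ico p n, ((1 + K v : ℕ) : ℝ) ^ 2 ≤ ∑ v ∈ Ico p n, (K v : ℝ) ^ 2 +
      3 * (n : ℝ) ^ 2 := by
    have h6 : ∀ v ∈ Ico p n, ((1 + K v : ℕ) : ℝ) ^ 2 ≤ (K v : ℝ) ^ 2 + 3 * n := by
      intro v hv
      rw [mem_Ico] at hv
      have h7 : (1 : ℝ) + K v ≤ n := by exact_mod_cast K_le d hv.1 hv.2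
      have h8 : (0 : ℝ) ≤ K v := Nat.cast_nonneg _
      push_cast
      nlinarith
    refine (sum_le_sum h6).trans ?_
    rw [sum_add_distrib, sum_const, Nat.card_Ico, nsmul_eq_mul, Nat.cast_sub d.pn]
    have hp0 : (0 : ℝ) ≤ p := Nat.cast_nonneg _
    nlinarith
  have h6 : ∑ v ∈ range p, ((p + E v : ℕ) : ℝ) ^ 2 = (p : ℝ) ^ 3 +
      2 * p * ∑ v ∈ range p, (E v : ℝ) + ∑ v ∈ range p, (E v : ℝ) ^ 2 := by
    have h7 : ∀ v, ((p + E v : ℕ) : ℝ) ^ 2 = (p : ℝ) ^ 2 + 2 * p * (E v : ℝ) + (E v : ℝ) ^ 2 := by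
      intro v; push_cast; ring
    simp only [h7, sum_add_distrib, ← mul_sum, sum_const, card_range, nsmul_eq_mul]
    ring
  have h7 : (n : ℝ) ^ 3 * (M2 (1 / n) p (p / n) (fun i => (E i : ℝ) / n) + 3 / n) =
      (p : ℝ) ^ 3 + 2 * p * ∑ v ∈ range p, (E v : ℝ) + ∑ v ∈ range p, (E v : ℝ) ^ 2 +
      ∑ y ∈ range p, (2 * (y : ℝ) + 1) * (E y : ℝ) + 3 * (n : ℝ) ^ 2 := by
    unfold M2 sA sY sX
    have e1 : ∑ i ∈ range p, 1 / (n : ℝ) * ((E i : ℝ) / n) =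
        (∑ y ∈ range p, (E y : ℝ)) / (n : ℝ) ^ 2 := by
      rw [sum_div]; refine sum_congr rfl fun i _ => ?_
      field_simp
    have e2 : ∑ i ∈ range p, 1 / (n : ℝ) * ((E i : ℝ) / n) ^ 2 =
        (∑ y ∈ range p, (E y : ℝ) ^ 2) / (n : ℝ) ^ 3 := by
      rw [sum_div]; refine sum_congr rfl fun i _ => ?_
      field_simp
    have e3 : ∑ i ∈ range p, 1 / (n : ℝ) * ((2 * (i : ℝ) + 1) * (1 / n)) * ((E i : ℝ) / n) =
        (∑ y ∈ range p, (2 * (y : ℝ) + 1) * (E y : ℝ)) / (n : ℝ) ^ 3 := by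
      rw [sum_div]; refine sum_congr rfl fun i _ => ?_
      field_simp
    rw [e1, e2, e3]; field_simp
  rw [h7, h6]
  have h8 : ∑ v ∈ Ico p n, (K v : ℝ) ^ 2 = ∑ y ∈ range p, (2 * (y : ℝ) + 1) * (E y : ℝ) := h3
  linarith

theorem shape_Q (hn : 0 < n) (d : Data n p E K) {t : ℕ} (ht : 0 < t) :
    ∑ v ∈ range n, (2 * (v : ℝ) + 1) * (DD p E K v : ℝ) ^ t ≤
      (n : ℝ) ^ (t + 2) * (Ph t (1 / n) p (p / n) (fun i => (E i : ℝ) / n) + t / n) := by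
  have hn' : (0 : ℝ) < n := by exact_mod_cast hn
  have h1 := sum_DD d (fun v x => (2 * (v : ℝ) + 1) * (x : ℝ) ^ t)
  rw [h1]
  have h3 := double_count d (fun v => 2 * (v : ℝ) + 1) (fun x => (x : ℝ) ^ t)
    (by simp [ht.ne'])
  have h4 : ∑ y ∈ range p, (((y + 1 : ℕ) : ℝ) ^ t - (y : ℝ) ^ t) *
      ∑ v ∈ Ico p (p + E y), (2 * (v : ℝ) + 1) =
      ∑ y ∈ range p, (((y + 1 : ℕ) : ℝ) ^ t - (y : ℝ) ^ t) * (((p : ℝ) + E y) ^ 2 - p ^ 2) :=
    sum_congr rfl fun y _ => by rw [sum_Ico_odd]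
  rw [h4] at h3
  have h5 : ∑ v ∈ Ico p n, (2 * (v : ℝ) + 1) * ((1 + K v : ℕ) : ℝ) ^ t ≤
      ∑ v ∈ Ico p n, (2 * (v : ℝ) + 1) * (K v : ℝ) ^ t + t * (n : ℝ) ^ (t + 1) := by
    have h6 : ∀ v ∈ Ico p n, (2 * (v : ℝ) + 1) * ((1 + K v : ℕ) : ℝ) ^ t ≤
        (2 * (v : ℝ) + 1) * (K v : ℝ) ^ t + (2 * (v : ℝ) + 1) * (t * (n : ℝ) ^ (t - 1)) := by
      intro v hv
      rw [mem_Ico] at hv
      rw [← mul_add]
      refine mul_le_mul_of_nonneg_left ?_ (by positivity)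
      have h7 : (1 : ℝ) + K v ≤ n := by exact_mod_cast K_le d hv.1 hv.2
      have h8 : (0 : ℝ) ≤ K v := Nat.cast_nonneg _
      push_cast
      have h9 := pow_sub_le (x := 1 + (K v : ℝ)) (y := (K v : ℝ)) t h8 (by linarith)
      have h10 : (t : ℝ) * (1 + (K v : ℝ)) ^ (t - 1) * (1 + (K v : ℝ) - K v) ≤
          t * (n : ℝ) ^ (t - 1) := by
        have : (1 + (K v : ℝ) - K v) = 1 := by ring
        rw [this, mul_one]
        exact mul_le_mul_of_nonneg_left (pow_le_pow_left₀ (by linarith) h7 _) (Nat.cast_nonneg _)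
      linarith
    refine (sum_le_sum h6).trans ?_
    rw [sum_add_distrib, ← sum_mul]
    have h7 : ∑ v ∈ Ico p n, (2 * (v : ℝ) + 1) ≤ (n : ℝ) ^ 2 := by
      have h8 := sum_Ico_odd p (n - p)
      have h9 : p + (n - p) = n := by have := d.pn; omega
      rw [h9] at h8
      rw [h8, Nat.cast_sub d.pn]
      have : (0 : ℝ) ≤ (p : ℝ) ^ 2 := sq_nonneg _
      nlinarith
    have h8 : (∑ v ∈ Ico p n, (2 * (v : ℝ) + 1)) * (t * (n : ℝ) ^ (t - 1)) ≤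
        (n : ℝ) ^ 2 * (t * (n : ℝ) ^ (t - 1)) := mul_le_mul_of_nonneg_right h7 (by positivity)
    have h9 : (n : ℝ) ^ 2 * (t * (n : ℝ) ^ (t - 1)) = t * (n : ℝ) ^ (t + 1) := by
      have : t + 1 = 2 + (t - 1) := by omega
      rw [this, pow_add]; ring
    linarith
  have h7 : (n : ℝ) ^ (t + 2) * (Ph t (1 / n) p (p / n) (fun i => (E i : ℝ) / n) + t / n) =
      ∑ v ∈ range p, (2 * (v : ℝ) + 1) * ((p + E v : ℕ) : ℝ) ^ t +
      ∑ y ∈ range p, (((y + 1 : ℕ) : ℝ) ^ t - (y : ℝ) ^ t) * (((p : ℝ) + E y) ^ 2 - p ^ 2) +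
      t * (n : ℝ) ^ (t + 1) := by
    unfold Ph
    have e0 : (n : ℝ) ^ (t + 2) = (n : ℝ) ^ t * (n : ℝ) ^ 2 := pow_add _ _ _
    have e1 : ∑ i ∈ range p, (2 * (i : ℝ) + 1) * (1 / (n : ℝ)) ^ 2 *
        (((p : ℝ) / n + (E i : ℝ) / n) ^ t - ((p : ℝ) / n) ^ t) =
        (∑ v ∈ range p, (2 * (v : ℝ) + 1) * ((p + E v : ℕ) : ℝ) ^ t - (p : ℝ) ^ 2 * p ^ t) /
          (n : ℝ) ^ (t + 2) := by
      rw [← sum_odd p, sum_mul, ← sum_sub_distrib, sum_div]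
      refine sum_congr rfl fun i _ => ?_
      rw [← add_div, div_pow, div_pow, div_pow, e0]
      push_cast
      field_simp
    have e2 : ∑ i ∈ range p, ((((i + 1 : ℕ) : ℝ) * (1 / (n : ℝ))) ^ t -
        ((i : ℝ) * (1 / (n : ℝ))) ^ t) *
        (((p : ℝ) / n + (E i : ℝ) / n) ^ 2 - ((p : ℝ) / n) ^ 2) =
        (∑ y ∈ range p, (((y + 1 : ℕ) : ℝ) ^ t - (y : ℝ) ^ t) *
          (((p : ℝ) + E y) ^ 2 - p ^ 2)) / (n : ℝ) ^ (t + 2) := by
      rw [sum_div]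
      refine sum_congr rfl fun i _ => ?_
      rw [mul_one_div, mul_one_div, div_pow, div_pow, e0]
      field_simp
    rw [e1, e2, e0]
    have e3 : ((p : ℝ) / n) ^ (t + 2) = (p : ℝ) ^ 2 * p ^ t / ((n : ℝ) ^ t * (n : ℝ) ^ 2) := by
      rw [div_pow, e0, pow_add (p : ℝ)]; ring
    have e4 : (n : ℝ) ^ (t + 1) = (n : ℝ) ^ t * n := pow_succ _ _
    rw [e3, e4]
    field_simp
    ring
  rw [h7]
  linarith

end

end Pool.Agent.Lib.Helper7.STK
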