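/-
MP_8790d8_co: the upper bound for graphs in terms of shapes.
-/
import Pool.Agent.Lib.Helper7.STK.ShapeOf

set_option autoImplicit false
open Finset

namespace Pool.Agent.Lib.Helper7.STK

theorem sum_max (n : ℕ) (g : ℕ → ℕ) :
    ∑ x ∈ range n, ∑ y ∈ range n, g (max x y) = ∑ v ∈ range n, (2 * v + 1) * g v := by
  induction n with
  | zero => simp
  | succ n ih =>
    rw [sum_range_succ, sum_range_succ (fun v => (2 * v + 1) * g v), ← ih]
    have h1 : ∑ x ∈ range n, ∑ y ∈ range (n + 1), g (max x y) =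
        ∑ x ∈ range n, ∑ y ∈ range n, g (max x y) + n * g n := by
      have : ∀ x ∈ range n, ∑ y ∈ range (n + 1), g (max x y) =
          ∑ y ∈ range n, g (max x y) + g n := by
        intro x hx
        rw [mem_range] at hx
        rw [sum_range_succ, max_eq_right hx.le]
      rw [sum_congr rfl this, sum_add_distrib]; simp
    have h2 : ∑ y ∈ range (n + 1), g (max n y) = (n + 1) * g n := by
      have : ∀ y ∈ range (n + 1), g (max n y) = g n := by
        intro y hy
        rw [mem_range] at hy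
        rw [max_eq_left (by omega)]
      rw [sum_congr rfl this]; simp
    rw [h1, h2]; ring

theorem co_le_dg {n : ℕ} (b : Fin n → Fin n → Bool) (x y : Fin n) : co b x y ≤ dg b x := by
  unfold co dg
  refine sum_le_sum fun z _ => ?_
  have : bt b y z ≤ 1 := by unfold bt; exact Bool.toNat_le _
  calc bt b x z * bt b y z ≤ bt b x z * 1 := Nat.mul_le_mul_left _ this
    _ = _ := mul_one _

/-- every reflexive symmetric relation is below a shape -/
theorem upper_rel {n : ℕ} (hn : 0 < n) {m : ℕ} (hm : 0 < m) {t : ℕ} (ht : 0 < t)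
    (b₀ : Fin n → Fin n → Bool) (hb₀ : SR b₀) :
    ∃ (p : ℕ) (e : ℕ → ℝ), GShape (1 / n) p (p / n) e ∧
      area (1 / n) p (p / n) e ≤ (Ed b₀ : ℝ) / (n : ℝ) ^ 2 ∧
      ((Fd b₀ : ℝ) / (n : ℝ) ^ 3) ^ m * ((Qd t b₀ : ℝ) / (n : ℝ) ^ (t + 2)) ≤
        (M2 (1 / n) p (p / n) e + 3 / n) ^ m * (Ph t (1 / n) p (p / n) e + t / n) := by
  have hn' : (0 : ℝ) < n := by exact_mod_cast hn
  obtain ⟨b, hb, hE, hv, hsh⟩ := exists_shifted hn hm t b₀ hb₀
  obtain ⟨p, E, K, d, hd1, hd2⟩ := exists_data b hb hsh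
  have hDD : ∀ v : Fin n, dg b v = DD p E K v := by
    intro v
    unfold DD
    split_ifs with h
    · exact hd1 v h
    · exact hd2 v (not_lt.1 h)
  have hEd : Ed b = ∑ v ∈ range n, DD p E K v := by
    unfold Ed
    rw [sum_congr rfl fun v _ => hDD v]
    exact Fin.sum_univ_eq_sum_range (fun v => DD p E K v) n
  have hFd : Fd b = ∑ v ∈ range n, (DD p E K v) ^ 2 := by
    unfold Fd
    rw [sum_congr rfl fun v _ => by rw [hDD v]]
    exact Fin.sum_univ_eq_sum_range (fun v => DD p E K v ^ 2) n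
  have hQd : Qd t b ≤ ∑ v ∈ range n, (2 * v + 1) * (DD p E K v) ^ t := by
    rw [← sum_max n (fun v => DD p E K v ^ t)]
    unfold Qd
    have h1 : ∀ x y : Fin n, co b x y ^ t ≤ DD p E K (max (x : ℕ) (y : ℕ)) ^ t := by
      intro x y
      refine Nat.pow_le_pow_left ?_ t
      rcases le_total (x : ℕ) (y : ℕ) with h | h
      · rw [max_eq_right h, ← hDD y, co_comm]; exact co_le_dg b y x
      · rw [max_eq_left h, ← hDD x]; exact co_le_dg b x y
    calc ∑ x, ∑ y, co b x y ^ t ≤ ∑ x : Fin n, ∑ y : Fin n, DD p E K (max (x : ℕ) (y : ℕ)) ^ t :=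
          sum_le_sum fun x _ => sum_le_sum fun y _ => h1 x y
      _ = ∑ x : Fin n, ∑ y ∈ range n, DD p E K (max (x : ℕ) y) ^ t :=
          sum_congr rfl fun x _ => Fin.sum_univ_eq_sum_range
            (fun y => DD p E K (max (x : ℕ) y) ^ t) n
      _ = ∑ x ∈ range n, ∑ y ∈ range n, DD p E K (max x y) ^ t :=
          Fin.sum_univ_eq_sum_range (fun x => ∑ y ∈ range n, DD p E K (max x y) ^ t) n
  refine ⟨p, fun i => (E i : ℝ) / n, shape_GShape hn d, ?_, ?_⟩
  · refine (shape_area hn d).trans (le_of_eq ?_)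
    rw [← hE, hEd]; push_cast; rfl
  · have h1 : ((Fd b₀ : ℝ)) ^ m * (Qd t b₀ : ℝ) ≤ (Fd b : ℝ) ^ m * (Qd t b : ℝ) := by
      exact_mod_cast hv
    have h2 : (Fd b : ℝ) ≤ (n : ℝ) ^ 3 * (M2 (1 / n) p (p / n) (fun i => (E i : ℝ) / n) + 3 / n) := by
      have := shape_F hn d
      rw [hFd]; push_cast; exact this
    have h3 : (Qd t b : ℝ) ≤
        (n : ℝ) ^ (t + 2) * (Ph t (1 / n) p (p / n) (fun i => (E i : ℝ) / n) + t / n) := by
      have h4 := shape_Q hn d ht
      have h5 : (Qd t b : ℝ) ≤ ((∑ v ∈ range n, (2 * v + 1) * (DD p E K v) ^ t : ℕ) : ℝ) := by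
        exact_mod_cast hQd
      push_cast at h5
      exact h5.trans h4
    rw [div_pow, div_mul_div_comm, div_le_iff₀ (by positivity)]
    refine h1.trans ?_
    have h6 : (Fd b : ℝ) ^ m ≤ ((n : ℝ) ^ 3 *
        (M2 (1 / n) p (p / n) (fun i => (E i : ℝ) / n) + 3 / n)) ^ m :=
      pow_le_pow_left₀ (Nat.cast_nonneg _) h2 m
    have h7 := mul_le_mul h6 h3 (Nat.cast_nonneg _) (le_trans (by positivity) h6)
    refine h7.trans (le_of_eq ?_)
    rw [mul_pow]; ring

section graph
open Classical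

/-- sum of the squares of the degrees -/
noncomputable def sdeg {V : Type} [Fintype V] (H : SimpleGraph V) : ℕ :=
  ∑ v, (univ.filter (fun u => H.Adj v u)).card ^ 2

/-- sum of the `t`-th powers of the codegrees -/
noncomputable def scod {V : Type} [Fintype V] (t : ℕ) (H : SimpleGraph V) : ℕ :=
  ∑ u, ∑ v, (univ.filter (fun z => H.Adj u z ∧ H.Adj v z)).card ^ t

theorem two_edges {V : Type} [Fintype V] (H : SimpleGraph V) :
    2 * H.edgeSet.ncard = ∑ v, (univ.filter (fun u => H.Adj v u)).card := by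
  have h := H.sum_degrees_eq_twice_card_edges
  rw [← SimpleGraph.coe_edgeFinset, Set.ncard_coe_finset, ← h]
  refine sum_congr rfl fun v _ => ?_
  rw [← SimpleGraph.card_neighborFinset_eq_degree]
  congr 1
  ext u; simp

/-- the reflexive closure -/
noncomputable def rb {n : ℕ} (H : SimpleGraph (Fin n)) (x y : Fin n) : Bool :=
  decide (x = y ∨ H.Adj x y)

theorem rb_SR {n : ℕ} (H : SimpleGraph (Fin n)) : SR (rb H) := by
  constructor
  · intro x y
    unfold rb
    exact decide_eq_decide.2 ⟨fun h => h.imp Eq.symm (fun h => h.symm),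
      fun h => h.imp Eq.symm (fun h => h.symm)⟩
  · intro x; simp [rb]

theorem dg_rb {n : ℕ} (H : SimpleGraph (Fin n)) (x : Fin n) :
    dg (rb H) x = (univ.filter (fun u => H.Adj x u)).card + 1 := by
  have h1 : dg (rb H) x = (univ.filter (fun u => x = u ∨ H.Adj x u)).card := by
    unfold dg bt rb
    rw [card_filter]
    refine sum_congr rfl fun y _ => ?_
    by_cases h : x = y ∨ H.Adj x y
    · simp [h]
    · simp [h]
  have h2 : univ.filter (fun u => x = u ∨ H.Adj x u) =
      insert x (univ.filter (fun u => H.Adj x u)) := by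
    ext u; simp [eq_comm]
  rw [h1, h2, card_insert_of_notMem (by simp)]

theorem co_rb_ge {n : ℕ} (H : SimpleGraph (Fin n)) (x y : Fin n) :
    (univ.filter (fun z => H.Adj x z ∧ H.Adj y z)).card ≤ co (rb H) x y := by
  unfold co bt rb
  rw [card_filter]
  refine sum_le_sum fun z _ => ?_
  by_cases h : H.Adj x z ∧ H.Adj y z
  · simp [h.1, h.2]
  · simp [h]

/-- every graph is below a shape -/
theorem upper_graph {n : ℕ} (hn : 0 < n) {m : ℕ} (hm : 0 < m) {t : ℕ} (ht : 0 < t)
    (H : SimpleGraph (Fin n)) :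
    ∃ (p : ℕ) (e : ℕ → ℝ), GShape (1 / n) p (p / n) e ∧
      area (1 / n) p (p / n) e ≤ (2 * (H.edgeSet.ncard : ℝ) + n) / (n : ℝ) ^ 2 ∧
      ((sdeg H : ℝ) / (n : ℝ) ^ 3) ^ m * ((scod t H : ℝ) / (n : ℝ) ^ (t + 2)) ≤
        (M2 (1 / n) p (p / n) e + 3 / n) ^ m * (Ph t (1 / n) p (p / n) e + t / n) := by
  have hn' : (0 : ℝ) < n := by exact_mod_cast hn
  obtain ⟨p, e, h1, h2, h3⟩ := upper_rel hn hm ht (rb H) (rb_SR H)
  refine ⟨p, e, h1, ?_, ?_⟩
  · refine h2.trans (le_of_eq ?_)
    congr 1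
    have h4 : Ed (rb H) = 2 * H.edgeSet.ncard + n := by
      unfold Ed
      rw [two_edges, sum_congr rfl fun x _ => dg_rb H x, sum_add_distrib]
      simp
    rw [h4]; push_cast; ring
  · refine le_trans ?_ h3
    have h4 : (sdeg H : ℝ) ≤ Fd (rb H) := by
      have : sdeg H ≤ Fd (rb H) := by
        unfold sdeg Fd
        refine sum_le_sum fun x _ => Nat.pow_le_pow_left ?_ 2
        rw [dg_rb]; omega
      exact_mod_cast this
    have h5 : (scod t H : ℝ) ≤ Qd t (rb H) := by
      have : scod t H ≤ Qd t (rb H) := by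
        unfold scod Qd
        exact sum_le_sum fun x _ => sum_le_sum fun y _ => Nat.pow_le_pow_left (co_rb_ge H x y) t
      exact_mod_cast this
    refine mul_le_mul ?_ ?_ (by positivity) (by positivity)
    · exact pow_le_pow_left₀ (by positivity) (div_le_div_of_nonneg_right h4 (by positivity)) m
    · exact div_le_div_of_nonneg_right h5 (by positivity)

end graph

end Pool.Agent.Lib.Helper7.STK
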