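/-
MP_8790d8_co: degree and codegree sums of the three-part graphs.
-/
import Pool.Agent.Lib.Helper7.STK.Upper

set_option autoImplicit false
open Finset

namespace Pool.Agent.Lib.Helper7.STK

/-- the three-part graph: `R` dominating, `Y` a clique, the rest independent -/
def tG {n : ℕ} (R Y : Finset (Fin n)) : SimpleGraph (Fin n) where
  Adj i j := i ≠ j ∧ (i ∈ R ∨ j ∈ R ∨ (i ∈ Y ∧ j ∈ Y))
  symm.symm _ _ h := ⟨h.1.symm, by tauto⟩
  loopless := ⟨fun _ h => h.1 rfl⟩

section
variable {n : ℕ} {R Y : Finset (Fin n)}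

/-- the core of a neighbourhood -/
def core (R Y : Finset (Fin n)) (i : Fin n) : Finset (Fin n) :=
  if i ∈ R then univ else if i ∈ Y then R ∪ Y else R

theorem mem_core {i z : Fin n} (h : z ≠ i) : (tG R Y).Adj i z ↔ z ∈ core R Y i := by
  unfold core
  show (i ≠ z ∧ (i ∈ R ∨ z ∈ R ∨ (i ∈ Y ∧ z ∈ Y))) ↔ _
  split_ifs with h1 h2
  · simp [h.symm, h1]
  · simp [h.symm, h1, h2]
  · simp [h.symm, h1, h2]

theorem core_self_R {i : Fin n} (h : i ∈ R) : core R Y i = univ := by simp [core, h]
theorem core_self_Y {i : Fin n} (h : i ∉ R) (h' : i ∈ Y) : core R Y i = R ∪ Y := by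
  simp [core, h, h']
theorem core_self_B {i : Fin n} (h : i ∉ R) (h' : i ∉ Y) : core R Y i = R := by
  simp [core, h, h']

theorem sum3 (hd : Disjoint R Y) (a b c : ℝ) :
    ∑ i : Fin n, (if i ∈ R then a else if i ∈ Y then b else c) =
      R.card * a + Y.card * b + ((n : ℝ) - R.card - Y.card) * c := by
  have h1 : ∀ i : Fin n, (if i ∈ R then a else if i ∈ Y then b else c) =
      (if i ∈ R then (a - c) else 0) + (if i ∈ Y then (b - c) else 0) + c := by
    intro i
    by_cases hR : i ∈ R
    · have hY : i ∉ Y := disjoint_left.1 hd hR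
      simp [hR, hY]
    · by_cases hY : i ∈ Y
      · simp [hR, hY]
      · simp [hR, hY]
  rw [sum_congr rfl fun i _ => h1 i, sum_add_distrib, sum_add_distrib, ← sum_filter, ← sum_filter]
  simp only [filter_mem_eq_inter, univ_inter, sum_const, nsmul_eq_mul, card_univ, Fintype.card_fin]
  ring

open Classical in
theorem deg_bounds (i : Fin n) :
    ((univ.filter (fun u => (tG R Y).Adj i u)).card : ℝ) ≤ (core R Y i).card ∧
    ((core R Y i).card : ℝ) - 1 ≤ (univ.filter (fun u => (tG R Y).Adj i u)).card := by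
  have h1 : univ.filter (fun u => (tG R Y).Adj i u) = (core R Y i).erase i := by
    ext u
    simp only [mem_filter, mem_univ, true_and, mem_erase]
    constructor
    · intro h
      have : u ≠ i := h.1.symm
      exact ⟨this, (mem_core this).1 h⟩
    · rintro ⟨h, h'⟩
      exact (mem_core h).2 h'
  rw [h1]
  constructor
  · exact_mod_cast card_erase_le
  · have h2 := pred_card_le_card_erase (s := core R Y i) (a := i)
    have h3 : (core R Y i).card ≤ ((core R Y i).erase i).card + 1 := by omega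
    have : ((core R Y i).card : ℝ) ≤ ((core R Y i).erase i).card + 1 := by exact_mod_cast h3
    linarith

open Classical in
theorem cod_bounds (i j : Fin n) :
    ((univ.filter (fun z => (tG R Y).Adj i z ∧ (tG R Y).Adj j z)).card : ℝ) ≤
      (core R Y i ∩ core R Y j).card ∧
    ((core R Y i ∩ core R Y j).card : ℝ) - 2 ≤
      (univ.filter (fun z => (tG R Y).Adj i z ∧ (tG R Y).Adj j z)).card := by
  have h1 : univ.filter (fun z => (tG R Y).Adj i z ∧ (tG R Y).Adj j z) =
      ((core R Y i ∩ core R Y j).erase i).erase j := by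
    ext u
    simp only [mem_filter, mem_univ, true_and, mem_erase, mem_inter]
    constructor
    · rintro ⟨h, h'⟩
      have h2 : u ≠ i := h.1.symm
      have h3 : u ≠ j := h'.1.symm
      exact ⟨h3, h2, (mem_core h2).1 h, (mem_core h3).1 h'⟩
    · rintro ⟨h3, h2, h4, h5⟩
      exact ⟨(mem_core h2).2 h4, (mem_core h3).2 h5⟩
  rw [h1]
  constructor
  · exact_mod_cast card_erase_le.trans card_erase_le
  · have h2 := pred_card_le_card_erase (s := core R Y i ∩ core R Y j) (a := i)
    have h3 := pred_card_le_card_erase (s := (core R Y i ∩ core R Y j).erase i) (a := j)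
    have h4 : (core R Y i ∩ core R Y j).card ≤
        (((core R Y i ∩ core R Y j).erase i).erase j).card + 2 := by omega
    have : ((core R Y i ∩ core R Y j).card : ℝ) ≤
        (((core R Y i ∩ core R Y j).erase i).erase j).card + 2 := by exact_mod_cast h4
    linarith

theorem core_le (i : Fin n) : ((core R Y i).card : ℝ) ≤ n := by
  have := card_le_univ (core R Y i)
  rw [Fintype.card_fin] at this
  exact_mod_cast this

theorem sum_core_sq (hd : Disjoint R Y) :
    ∑ i : Fin n, ((core R Y i).card : ℝ) ^ 2 = R.card * (n : ℝ) ^ 2 +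
      Y.card * ((R.card : ℝ) + Y.card) ^ 2 + ((n : ℝ) - R.card - Y.card) * (R.card : ℝ) ^ 2 := by
  rw [← sum3 hd]
  refine sum_congr rfl fun i _ => ?_
  split_ifs with h1 h2
  · rw [core_self_R h1, card_univ, Fintype.card_fin]
  · rw [core_self_Y h1 h2, card_union_of_disjoint hd]; push_cast; ring
  · rw [core_self_B h1 h2]

theorem sum_core_pow (hd : Disjoint R Y) (t : ℕ) :
    ∑ i : Fin n, ∑ j : Fin n, ((core R Y i ∩ core R Y j).card : ℝ) ^ t =
      (R.card : ℝ) ^ 2 * (n : ℝ) ^ t +
      (((R.card : ℝ) + Y.card) ^ 2 - (R.card : ℝ) ^ 2) * ((R.card : ℝ) + Y.card) ^ t +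
      ((n : ℝ) ^ 2 - ((R.card : ℝ) + Y.card) ^ 2) * (R.card : ℝ) ^ t := by
  have hRY : (R ∪ Y).card = R.card + Y.card := card_union_of_disjoint hd
  have hU : (univ : Finset (Fin n)).card = n := by simp
  have hcast : ((R ∪ Y).card : ℝ) = (R.card : ℝ) + Y.card := by rw [hRY]; push_cast; ring
  have inner : ∀ i : Fin n, ∑ j : Fin n, ((core R Y i ∩ core R Y j).card : ℝ) ^ t =
      if i ∈ R then ∑ j : Fin n, (if j ∈ R then (n : ℝ) ^ t else if j ∈ Y then
        ((R.card : ℝ) + Y.card) ^ t else (R.card : ℝ) ^ t)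
      else if i ∈ Y then ∑ j : Fin n, (if j ∈ R then ((R.card : ℝ) + Y.card) ^ t else
        if j ∈ Y then ((R.card : ℝ) + Y.card) ^ t else (R.card : ℝ) ^ t)
      else ∑ j : Fin n, (if j ∈ R then (R.card : ℝ) ^ t else if j ∈ Y then (R.card : ℝ) ^ t else
        (R.card : ℝ) ^ t) := by
    intro i
    have e1 : (R ∪ Y) ∩ R = R := by ext; simp only [mem_inter, mem_union]; tauto
    have e2 : R ∩ (R ∪ Y) = R := by ext; simp only [mem_inter, mem_union]; tauto
    by_cases h1 : i ∈ R
    · rw [if_pos h1, core_self_R h1]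
      refine sum_congr rfl fun j _ => ?_
      split_ifs with g1 g2
      · rw [core_self_R g1, inter_self, hU]
      · rw [core_self_Y g1 g2, univ_inter, hcast]
      · rw [core_self_B g1 g2, univ_inter]
    · rw [if_neg h1]
      by_cases h2 : i ∈ Y
      · rw [if_pos h2, core_self_Y h1 h2]
        refine sum_congr rfl fun j _ => ?_
        split_ifs with g1 g2
        · rw [core_self_R g1, inter_univ, hcast]
        · rw [core_self_Y g1 g2, inter_self, hcast]
        · rw [core_self_B g1 g2, e1]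
      · rw [if_neg h2, core_self_B h1 h2]
        refine sum_congr rfl fun j _ => ?_
        split_ifs with g1 g2
        · rw [core_self_R g1, inter_univ]
        · rw [core_self_Y g1 g2, e2]
        · rw [core_self_B g1 g2, inter_self]
  rw [sum_congr rfl fun i _ => inner i, sum3 hd, sum3 hd, sum3 hd, sum3 hd]
  ring

open Classical in
/-- the degree sum of the three-part graph -/
theorem sdeg_tG (hn : 0 < n) (hd : Disjoint R Y) :
    |(sdeg (tG R Y) : ℝ) / (n : ℝ) ^ 3 - TM (R.card / n) (Y.card / n)| ≤ 2 / n := by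
  have hn' : (0 : ℝ) < n := by exact_mod_cast hn
  have h1 : TM (R.card / n) (Y.card / n) =
      (∑ i : Fin n, ((core R Y i).card : ℝ) ^ 2) / (n : ℝ) ^ 3 := by
    rw [sum_core_sq hd]
    unfold TM
    field_simp
    ring
  have h2 : (sdeg (tG R Y) : ℝ) ≤ ∑ i : Fin n, ((core R Y i).card : ℝ) ^ 2 := by
    unfold sdeg
    push_cast
    exact sum_le_sum fun i _ => pow_le_pow_left₀ (Nat.cast_nonneg _) (deg_bounds i).1 2
  have h3 : ∑ i : Fin n, ((core R Y i).card : ℝ) ^ 2 ≤ sdeg (tG R Y) + 2 * (n : ℝ) ^ 2 := by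
    unfold sdeg
    push_cast
    have h4 : ∀ i : Fin n, ((core R Y i).card : ℝ) ^ 2 ≤
        ((univ.filter (fun u => (tG R Y).Adj i u)).card : ℝ) ^ 2 + 2 * n := by
      intro i
      obtain ⟨g1, g2⟩ := deg_bounds (R := R) (Y := Y) i
      have g3 := core_le (R := R) (Y := Y) i
      have g4 : (0 : ℝ) ≤ (univ.filter (fun u => (tG R Y).Adj i u)).card := Nat.cast_nonneg _
      nlinarith
    refine (sum_le_sum fun i _ => h4 i).trans (le_of_eq ?_)
    rw [sum_add_distrib]
    simp only [sum_const, card_univ, Fintype.card_fin, nsmul_eq_mul]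
    ring
  rw [h1, ← sub_div, abs_div, abs_of_pos (show (0 : ℝ) < (n : ℝ) ^ 3 by positivity),
    div_le_iff₀ (by positivity), abs_le]
  have h5 : 2 / (n : ℝ) * (n : ℝ) ^ 3 = 2 * (n : ℝ) ^ 2 := by field_simp
  rw [h5]
  have h6 : (0 : ℝ) ≤ 2 * (n : ℝ) ^ 2 := by positivity
  constructor <;> linarith

open Classical in
/-- the codegree sum of the three-part graph -/
theorem scod_tG (hn : 0 < n) (hd : Disjoint R Y) {t : ℕ} (ht : 0 < t) :
    |(scod t (tG R Y) : ℝ) / (n : ℝ) ^ (t + 2) - TP t (R.card / n) (Y.card / n)| ≤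
      2 * t / n := by
  have hn' : (0 : ℝ) < n := by exact_mod_cast hn
  have h1 : TP t (R.card / n) (Y.card / n) =
      (∑ i : Fin n, ∑ j : Fin n, ((core R Y i ∩ core R Y j).card : ℝ) ^ t) /
        (n : ℝ) ^ (t + 2) := by
    rw [sum_core_pow hd, pow_add]
    unfold TP
    rw [← add_div, div_pow, div_pow, div_pow, div_pow]
    field_simp
  have h2 : (scod t (tG R Y) : ℝ) ≤
      ∑ i : Fin n, ∑ j : Fin n, ((core R Y i ∩ core R Y j).card : ℝ) ^ t := by
    unfold scod
    push_cast
    exact sum_le_sum fun i _ => sum_le_sum fun j _ =>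
      pow_le_pow_left₀ (Nat.cast_nonneg _) (cod_bounds i j).1 t
  have h3 : ∑ i : Fin n, ∑ j : Fin n, ((core R Y i ∩ core R Y j).card : ℝ) ^ t ≤
      scod t (tG R Y) + 2 * t * (n : ℝ) ^ (t + 1) := by
    unfold scod
    push_cast
    have h4 : ∀ i j : Fin n, ((core R Y i ∩ core R Y j).card : ℝ) ^ t ≤
        ((univ.filter (fun z => (tG R Y).Adj i z ∧ (tG R Y).Adj j z)).card : ℝ) ^ t +
          2 * t * (n : ℝ) ^ (t - 1) := by
      intro i j
      obtain ⟨g1, g2⟩ := cod_bounds (R := R) (Y := Y) i j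
      have g3 : ((core R Y i ∩ core R Y j).card : ℝ) ≤ n := by
        have := card_le_univ (core R Y i ∩ core R Y j)
        rw [Fintype.card_fin] at this
        exact_mod_cast this
      have g4 : (0 : ℝ) ≤ (univ.filter (fun z => (tG R Y).Adj i z ∧ (tG R Y).Adj j z)).card :=
        Nat.cast_nonneg _
      have g5 := pow_sub_le t g4 g1
      have g6 : (t : ℝ) * ((core R Y i ∩ core R Y j).card : ℝ) ^ (t - 1) *
          (((core R Y i ∩ core R Y j).card : ℝ) -
          (univ.filter (fun z => (tG R Y).Adj i z ∧ (tG R Y).Adj j z)).card) ≤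
          (t : ℝ) * (n : ℝ) ^ (t - 1) * 2 := by
        refine mul_le_mul ?_ (by linarith) (by linarith) (by positivity)
        exact mul_le_mul_of_nonneg_left (pow_le_pow_left₀ (Nat.cast_nonneg _) g3 _)
          (Nat.cast_nonneg _)
      linarith
    refine (sum_le_sum fun i _ => sum_le_sum fun j _ => h4 i j).trans (le_of_eq ?_)
    simp only [sum_add_distrib, sum_const, card_univ, Fintype.card_fin, nsmul_eq_mul]
    have : (n : ℝ) ^ (t + 1) = n * (n * (n : ℝ) ^ (t - 1)) := by
      rw [← pow_succ', ← pow_succ']; congr 1; omega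
    rw [this]; ring
  rw [h1, ← sub_div, abs_div, abs_of_pos (show (0 : ℝ) < (n : ℝ) ^ (t + 2) by positivity),
    div_le_iff₀ (by positivity), abs_le]
  have h5 : 2 * t / (n : ℝ) * (n : ℝ) ^ (t + 2) = 2 * t * (n : ℝ) ^ (t + 1) := by
    have : (n : ℝ) ^ (t + 2) = (n : ℝ) ^ (t + 1) * n := pow_succ _ _
    rw [this]; field_simp
  rw [h5]
  have h6 : (0 : ℝ) ≤ 2 * t * (n : ℝ) ^ (t + 1) := by positivity
  constructor <;> linarith

end

end Pool.Agent.Lib.Helper7.STK
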