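/-
MP_8790d8_co: the graph, its homomorphisms and its copies.
-/
import Pool.Agent.Lib.Helper7.STK.Upper

set_option autoImplicit false
open Finset

namespace Pool.Agent.Lib.Helper7.STK

open SimpleGraph in
/-- The disjoint union of `m` paths with two edges and one complete bipartite graph `K_{2,t}`. -/
def stkG (m t : ℕ) : SimpleGraph ((Fin m × Fin 3) ⊕ (Fin 2 ⊕ Fin t)) :=
  ((⊥ : SimpleGraph (Fin m)) □ pathGraph 3) ⊕g completeBipartiteGraph (Fin 2) (Fin t)

section
variable {m t : ℕ}

/-- the maps preserving adjacency -/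
def IsHom {V W : Type} (G : SimpleGraph V) (H : SimpleGraph W) (f : V → W) : Prop :=
  ∀ a b, G.Adj a b → H.Adj (f a) (f b)

theorem isHom_iff {W : Type} (H : SimpleGraph W) (f : (Fin m × Fin 3) ⊕ (Fin 2 ⊕ Fin t) → W) :
    IsHom (stkG m t) H f ↔
      (∀ i, H.Adj (f (.inl (i, 0))) (f (.inl (i, 1))) ∧
        H.Adj (f (.inl (i, 1))) (f (.inl (i, 2)))) ∧
      (∀ a b, H.Adj (f (.inr (.inl a))) (f (.inr (.inr b)))) := by
  constructor
  · intro h
    refine ⟨fun i => ⟨h _ _ ?_, h _ _ ?_⟩, fun a b => h _ _ ?_⟩
    · simp [stkG, SimpleGraph.boxProd_adj, SimpleGraph.pathGraph_adj]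
    · simp [stkG, SimpleGraph.boxProd_adj, SimpleGraph.pathGraph_adj]
    · simp [stkG]
  · rintro ⟨h1, h2⟩ a b hab
    rcases a with ⟨i, x⟩ | (a | a) <;> rcases b with ⟨j, y⟩ | (b | b)
    · simp only [stkG, SimpleGraph.sum_adj_inl, SimpleGraph.boxProd_adj, SimpleGraph.bot_adj,
        false_and, false_or, SimpleGraph.pathGraph_adj] at hab
      obtain ⟨hxy, hij⟩ := hab
      subst hij
      obtain ⟨g1, g2⟩ := h1 i
      fin_cases x <;> fin_cases y <;> simp at hxy ⊢
      · exact g1
      · exact g1.symm
      · exact g2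
      · exact g2.symm
    · simp [stkG] at hab
    · simp [stkG] at hab
    · simp [stkG] at hab
    · simp [stkG] at hab
    · exact h2 a b
    · simp [stkG] at hab
    · exact (h2 b a).symm
    · simp [stkG] at hab

open Classical

/-- the number of homomorphisms -/
noncomputable def homs {V W : Type} (G : SimpleGraph V)
    (H : SimpleGraph W) : ℕ := Nat.card {f : V → W // IsHom G H f}

/-- splitting the homomorphisms -/
noncomputable def homEquiv {W : Type} (H : SimpleGraph W) :
    {f : (Fin m × Fin 3) ⊕ (Fin 2 ⊕ Fin t) → W // IsHom (stkG m t) H f} ≃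
      (Fin m → {p : W × W × W // H.Adj p.1 p.2.1 ∧ H.Adj p.2.1 p.2.2}) ×
      {h : (Fin 2 → W) × (Fin t → W) // ∀ a b, H.Adj (h.1 a) (h.2 b)} where
  toFun f := (fun i => ⟨(f.1 (.inl (i, 0)), f.1 (.inl (i, 1)), f.1 (.inl (i, 2))),
      ((isHom_iff H f.1).1 f.2).1 i⟩,
    ⟨(fun a => f.1 (.inr (.inl a)), fun b => f.1 (.inr (.inr b))),
      ((isHom_iff H f.1).1 f.2).2⟩)
  invFun g := ⟨fun x => match x with
    | .inl (i, x) => ![(g.1 i).1.1, (g.1 i).1.2.1, (g.1 i).1.2.2] x
    | .inr (.inl a) => g.2.1.1 a
    | .inr (.inr b) => g.2.1.2 b, by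
      rw [isHom_iff]
      exact ⟨fun i => (g.1 i).2, g.2.2⟩⟩
  left_inv f := by
    apply Subtype.ext
    funext x
    rcases x with ⟨i, x⟩ | (a | a)
    · fin_cases x <;> rfl
    · rfl
    · rfl
  right_inv g := by
    rfl

theorem card_path {W : Type} [Fintype W] (H : SimpleGraph W) :
    Fintype.card {p : W × W × W // H.Adj p.1 p.2.1 ∧ H.Adj p.2.1 p.2.2} = sdeg H := by
  let e : {p : W × W × W // H.Adj p.1 p.2.1 ∧ H.Adj p.2.1 p.2.2} ≃
      (Σ c : W, {u : W // H.Adj c u} × {u : W // H.Adj c u}) :=
    { toFun := fun p => ⟨p.1.2.1, ⟨p.1.1, p.2.1.symm⟩, ⟨p.1.2.2, p.2.2⟩⟩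
      invFun := fun q => ⟨(q.2.1.1, q.1, q.2.2.1), q.2.1.2.symm, q.2.2.2⟩
      left_inv := fun p => rfl
      right_inv := fun q => rfl }
  rw [Fintype.card_congr e, Fintype.card_sigma]
  unfold sdeg
  refine sum_congr rfl fun c _ => ?_
  rw [Fintype.card_prod, Fintype.card_subtype, sq]

theorem card_bip {W : Type} [Fintype W] (H : SimpleGraph W) :
    Fintype.card {h : (Fin 2 → W) × (Fin t → W) // ∀ a b, H.Adj (h.1 a) (h.2 b)} = scod t H := by
  let e : {h : (Fin 2 → W) × (Fin t → W) // ∀ a b, H.Adj (h.1 a) (h.2 b)} ≃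
      (Σ u : W, Σ v : W, (Fin t → {z : W // H.Adj u z ∧ H.Adj v z})) :=
    { toFun := fun h => ⟨h.1.1 0, h.1.1 1, fun b => ⟨h.1.2 b, h.2 0 b, h.2 1 b⟩⟩
      invFun := fun q => ⟨(![q.1, q.2.1], fun b => (q.2.2 b).1), by
        intro a b
        fin_cases a
        · exact (q.2.2 b).2.1
        · exact (q.2.2 b).2.2⟩
      left_inv := fun h => by
        apply Subtype.ext
        refine Prod.ext ?_ rfl
        funext a
        fin_cases a <;> rfl
      right_inv := fun q => rfl }
  rw [Fintype.card_congr e, Fintype.card_sigma]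
  unfold scod
  refine sum_congr rfl fun u _ => ?_
  rw [Fintype.card_sigma]
  refine sum_congr rfl fun v _ => ?_
  rw [Fintype.card_fun, Fintype.card_subtype, Fintype.card_fin]

theorem homs_eq {W : Type} [Fintype W] (H : SimpleGraph W) :
    homs (stkG m t) H = sdeg H ^ m * scod t H := by
  unfold homs
  rw [Nat.card_congr (homEquiv H), Nat.card_eq_fintype_card, Fintype.card_prod,
    Fintype.card_fun, card_path, card_bip, Fintype.card_fin]

end

/-! ### Copies -/

section copies
open Classical
variable {V W : Type} [Fintype V] [Fintype W] (G : SimpleGraph V) (H : SimpleGraph W)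

theorem labelled_le_homs : H.labelledCopyCount G ≤ homs G H := by
  unfold SimpleGraph.labelledCopyCount homs
  rw [Nat.card_eq_fintype_card]
  refine Fintype.card_le_of_injective
    (fun f : SimpleGraph.Copy G H => (⟨fun x => f x, fun a b hab => f.toHom.map_adj hab⟩ :
      {f : V → W // IsHom G H f})) ?_
  intro f g hfg
  ext a
  exact congrFun (congrArg Subtype.val hfg) a

theorem homs_le_labelled : homs G H + (Fintype.card W).descFactorial (Fintype.card V) ≤
    H.labelledCopyCount G + (Fintype.card W) ^ (Fintype.card V) := by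
  -- injective functions
  have h1 : Fintype.card {f : V → W // Function.Injective f} =
      (Fintype.card W).descFactorial (Fintype.card V) := by
    rw [← Fintype.card_embedding_eq]
    exact Fintype.card_congr (Equiv.subtypeInjectiveEquivEmbedding V W)
  have h2 : Fintype.card {f : V → W // IsHom G H f ∧ Function.Injective f} ≤
      H.labelledCopyCount G := by
    unfold SimpleGraph.labelledCopyCount
    refine Fintype.card_le_of_injective
      (fun f : {f : V → W // IsHom G H f ∧ Function.Injective f} =>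
        (⟨⟨f.1, fun {a b} hab => f.2.1 a b hab⟩, f.2.2⟩ : SimpleGraph.Copy G H)) ?_
    intro f g hfg
    apply Subtype.ext
    funext a
    exact congrArg (fun c : SimpleGraph.Copy G H => c a) hfg
  unfold homs
  rw [Nat.card_eq_fintype_card]
  rw [← h1]
  have h3 : Fintype.card {f : V → W // IsHom G H f} +
      Fintype.card {f : V → W // Function.Injective f} ≤
      Fintype.card {f : V → W // IsHom G H f ∧ Function.Injective f} +
      Fintype.card (V → W) := by
    rw [Fintype.card_subtype, Fintype.card_subtype, Fintype.card_subtype]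
    have h4 := card_union_add_card_inter (univ.filter (fun f : V → W => IsHom G H f))
      (univ.filter (fun f : V → W => Function.Injective f))
    have h5 : (univ.filter (fun f : V → W => IsHom G H f)) ∩
      (univ.filter (fun f : V → W => Function.Injective f)) =
      univ.filter (fun f : V → W => IsHom G H f ∧ Function.Injective f) := by
      ext f; simp
    rw [h5] at h4
    have h6 := card_le_univ ((univ.filter (fun f : V → W => IsHom G H f)) ∪
      (univ.filter (fun f : V → W => Function.Injective f)))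
    omega
  rw [Fintype.card_fun] at h3
  omega

end copies

theorem fiber_card {V W : Type} [Fintype V] [Fintype W] (G : SimpleGraph V) (H : SimpleGraph W)
    (G' : H.Subgraph) (φ : G ≃g G'.coe) :
    Nat.card {f : SimpleGraph.Copy G H // SimpleGraph.Copy.toSubgraph f = G'} =
      Nat.card (G ≃g G) := by
  let F : (G ≃g G'.coe) → {f : SimpleGraph.Copy G H // SimpleGraph.Copy.toSubgraph f = G'} :=
    fun ψ => ⟨⟨G'.hom.comp ψ.toHom, SimpleGraph.Subgraph.hom_injective.comp ψ.injective⟩, by
      simp [SimpleGraph.Copy.toSubgraph, SimpleGraph.Subgraph.map_comp]⟩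
  have hF : Function.Bijective F := by
    constructor
    · intro ψ χ h
      have h1 : ∀ a, (F ψ).1 a = (F χ).1 a := fun a => by rw [h]
      apply RelIso.ext
      intro a
      exact Subtype.ext (h1 a)
    · rintro ⟨f, hf⟩
      subst hf
      refine ⟨f.isoToSubgraph, ?_⟩
      apply Subtype.ext
      ext a
      rfl
  rw [← Nat.card_congr (Equiv.ofBijective F hF)]
  exact Nat.card_congr
    { toFun := fun ψ => ψ.trans φ.symm
      invFun := fun χ => χ.trans φ
      left_inv := fun ψ => by
        apply RelIso.ext; intro a; simp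
      right_inv := fun χ => by
        apply RelIso.ext; intro a; simp }

/-- labelled and unlabelled copies -/
theorem labelled_eq {V W : Type} [Fintype V] [Fintype W] (G : SimpleGraph V) (H : SimpleGraph W) :
    H.labelledCopyCount G = Nat.card (G ≃g G) * H.copyCount G := by
  classical
  unfold SimpleGraph.labelledCopyCount SimpleGraph.copyCount
  rw [← Finset.card_univ]
  have hmaps : ∀ f ∈ (univ : Finset (SimpleGraph.Copy G H)), SimpleGraph.Copy.toSubgraph f ∈
      (univ.filter (fun G' : H.Subgraph => Nonempty (G ≃g G'.coe))) := by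
    intro f _
    simp only [mem_filter, mem_univ, true_and]
    exact ⟨f.isoToSubgraph⟩
  rw [card_eq_sum_card_fiberwise hmaps]
  have hfib : ∀ G' ∈ (univ.filter (fun G' : H.Subgraph => Nonempty (G ≃g G'.coe))),
      (univ.filter (fun f : SimpleGraph.Copy G H => SimpleGraph.Copy.toSubgraph f = G')).card =
      Nat.card (G ≃g G) := by
    intro G' hG'
    simp only [mem_filter, mem_univ, true_and] at hG'
    obtain ⟨φ⟩ := hG'
    rw [← fiber_card G H G' φ, Nat.card_eq_fintype_card, Fintype.card_subtype]
  rw [sum_congr rfl hfib, sum_const, smul_eq_mul, mul_comm]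

end Pool.Agent.Lib.Helper7.STK
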