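/-
MP_8790d8_co: definitions for the statement.
-/
import Pool.Agent.Lib.Helper7.STK.Homs

set_option autoImplicit false
open Finset

namespace Pool.Agent.Lib.Helper7.STK

open Classical in
/-- `ex(n,e,G)`: the maximum, over all graphs with `n` vertices and at most `e` edges, of the number
of (unlabelled) copies of `G`. -/
noncomputable def exCopies {V : Type} (G : SimpleGraph V) (n e : ℕ) : ℕ :=
  (univ.filter (fun H : SimpleGraph (Fin n) => H.edgeSet.ncard ≤ e)).sup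
    (fun H => H.copyCount G)

/-- The sequence `H n` (a graph on `n` vertices for each `n`) is an asymptotic maximiser for `G` at
density `β`: `2 e(H n) / n² = β + O(1/n)` and `N(G, H n) = (1 + o(1)) ex(n, ⌊β n²/2⌋, G)`. -/
def IsAsympMaximiser {V : Type} (G : SimpleGraph V) (β : ℝ)
    (H : (n : ℕ) → SimpleGraph (Fin n)) : Prop :=
  (∃ C : ℝ, ∀ n : ℕ, 1 ≤ n → |2 * ((H n).edgeSet.ncard : ℝ) / (n : ℝ) ^ 2 - β| ≤ C / n) ∧
  Asymptotics.IsEquivalent Filter.atTop (fun n : ℕ => ((H n).copyCount G : ℝ))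
    (fun n : ℕ => (exCopies G n ⌊β * (n : ℝ) ^ 2 / 2⌋₊ : ℝ))

/-- The quasi-clique `K_n^e`: write `e = C(a,2) + b` with `b < a`; the vertices `0, …, a-1` form a
clique and the vertex `a` is joined to `0, …, b-1`; there are no other edges. -/
def quasiClique (n e : ℕ) : SimpleGraph (Fin n) where
  Adj i j := i ≠ j ∧ ∃ a b : ℕ, e = a.choose 2 + b ∧ b < a ∧
    (((i : ℕ) < a ∧ (j : ℕ) < a) ∨ ((i : ℕ) = a ∧ (j : ℕ) < b) ∨ ((j : ℕ) = a ∧ (i : ℕ) < b))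
  symm.symm := by
    rintro i j ⟨h, a, b, h1, h2, h3⟩
    exact ⟨h.symm, a, b, h1, h2, by tauto⟩
  loopless := ⟨fun _ h => h.1 rfl⟩

/-- The quasi-star `S_n^e`: the complement of `K_n^{e'}` with `e' = C(n,2) - e`. -/
def quasiStar (n e : ℕ) : SimpleGraph (Fin n) := (quasiClique n (n.choose 2 - e))ᶜ

/-- The graph `T_n^e(q)` for `e = β n²/2`: with `r = ⌊(1 - √(1 - β (1 - q²))) n⌋` and
`y = ⌊√β q n⌋`, the set `R = {0, …, r-1}` is a clique joined to everything, the set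
`Y = {r, …, r+y-1}` is a clique, the set `B` of the remaining vertices is independent, and there are
no edges between `Y` and `B`. -/
noncomputable def tFamily (n : ℕ) (β q : ℝ) : SimpleGraph (Fin n) where
  Adj i j := i ≠ j ∧
    ((i : ℕ) < ⌊(1 - √(1 - β * (1 - q ^ 2))) * n⌋₊ ∨
     (j : ℕ) < ⌊(1 - √(1 - β * (1 - q ^ 2))) * n⌋₊ ∨
     ((i : ℕ) < ⌊(1 - √(1 - β * (1 - q ^ 2))) * n⌋₊ + ⌊√β * q * n⌋₊ ∧
      (j : ℕ) < ⌊(1 - √(1 - β * (1 - q ^ 2))) * n⌋₊ + ⌊√β * q * n⌋₊))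
  symm.symm := by
    rintro i j ⟨h, h1⟩
    exact ⟨h.symm, by tauto⟩
  loopless := ⟨fun _ h => h.1 rfl⟩

/-- `G` is of type STK. -/
def IsTypeSTK {V : Type} (G : SimpleGraph V) : Prop :=
  ∃ γ δ : ℝ, 0 < γ ∧ γ < δ ∧ δ < 1 ∧
    (∀ β : ℝ, 0 ≤ β → β ≤ γ →
      IsAsympMaximiser G β (fun n => quasiStar n ⌊β * (n : ℝ) ^ 2 / 2⌋₊)) ∧
    (∀ β : ℝ, γ ≤ β → β ≤ δ → ∃ q : ℝ, 0 < q ∧ q < 1 ∧
      IsAsympMaximiser G β (fun n => tFamily n β q)) ∧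
    (∀ β : ℝ, δ ≤ β → β ≤ 1 →
      IsAsympMaximiser G β (fun n => quasiClique n ⌊β * (n : ℝ) ^ 2 / 2⌋₊)) ∧
    (∀ β : ℝ, γ < β → β < δ →
      ¬ IsAsympMaximiser G β (fun n => quasiStar n ⌊β * (n : ℝ) ^ 2 / 2⌋₊) ∧
      ¬ IsAsympMaximiser G β (fun n => quasiClique n ⌊β * (n : ℝ) ^ 2 / 2⌋₊))

end Pool.Agent.Lib.Helper7.STK
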