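/-
MP_8790d8_co: limits of the normalised numbers of copies.
-/
import Pool.Agent.Lib.Helper7.STK.Defs
import Pool.Agent.Lib.Helper7.STK.Blow
import Pool.Agent.Lib.Helper7.STK.Scale

set_option autoImplicit false
open Finset Filter Topology

namespace Pool.Agent.Lib.Helper7.STK

theorem tendsto_of_abs_le {x y z : ℕ → ℝ} {L : ℝ} (hy : Tendsto y atTop (𝓝 L))
    (hz : Tendsto z atTop (𝓝 0)) (h : ∀ n, 0 < n → |x n - y n| ≤ z n) :
    Tendsto x atTop (𝓝 L) := by
  have h1 : Tendsto (fun n => y n - z n) atTop (𝓝 L) := by simpa using hy.sub hz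
  have h2 : Tendsto (fun n => y n + z n) atTop (𝓝 L) := by simpa using hy.add hz
  refine tendsto_of_tendsto_of_tendsto_of_le_of_le' h1 h2 ?_ ?_
  · filter_upwards [eventually_gt_atTop 0] with n hn
    have := (abs_le.1 (h n hn)).1; linarith
  · filter_upwards [eventually_gt_atTop 0] with n hn
    have := (abs_le.1 (h n hn)).2; linarith

theorem tendsto_const_div (C : ℝ) : Tendsto (fun n : ℕ => C / (n : ℝ)) atTop (𝓝 0) :=
  tendsto_const_div_atTop_nhds_zero_nat C

/-- convergence for the three-part graphs -/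
theorem tendsto_homs_tG {m t : ℕ} (ht : 0 < t) (R Y : (n : ℕ) → Finset (Fin n))
    (hd : ∀ n, Disjoint (R n) (Y n)) {α υ : ℝ}
    (hR : Tendsto (fun n => ((R n).card : ℝ) / n) atTop (𝓝 α))
    (hY : Tendsto (fun n => ((Y n).card : ℝ) / n) atTop (𝓝 υ)) :
    Tendsto (fun n => (homs (stkG m t) (tG (R n) (Y n)) : ℝ) / (n : ℝ) ^ (m * 3 + (2 + t)))
      atTop (𝓝 (TM α υ ^ m * TP t α υ)) := by
  have hTM : Tendsto (fun n => TM ((R n).card / n) ((Y n).card / n)) atTop (𝓝 (TM α υ)) := by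
    unfold TM
    exact ((((hY.pow 3).add (((hY.pow 2).const_mul 2).mul hR)).add hR).add (hR.pow 2)).sub
      (hR.pow 3)
  have hTP : Tendsto (fun n => TP t ((R n).card / n) ((Y n).card / n)) atTop (𝓝 (TP t α υ)) := by
    unfold TP
    exact ((hR.pow 2).add ((((hR.add hY).pow 2).sub (hR.pow 2)).mul ((hR.add hY).pow t))).add
      ((tendsto_const_nhds.sub ((hR.add hY).pow 2)).mul (hR.pow t))
  have h1 : Tendsto (fun n => (sdeg (tG (R n) (Y n)) : ℝ) / (n : ℝ) ^ 3) atTop (𝓝 (TM α υ)) :=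
    tendsto_of_abs_le hTM (tendsto_const_div 2) fun n hn => sdeg_tG hn (hd n)
  have h2 : Tendsto (fun n => (scod t (tG (R n) (Y n)) : ℝ) / (n : ℝ) ^ (t + 2)) atTop
      (𝓝 (TP t α υ)) :=
    tendsto_of_abs_le hTP (tendsto_const_div (2 * t)) fun n hn => scod_tG hn (hd n) ht
  refine ((h1.pow m).mul h2).congr fun n => ?_
  rw [homs_eq]
  have h3 : (n : ℝ) ^ (m * 3 + (2 + t)) = ((n : ℝ) ^ 3) ^ m * (n : ℝ) ^ (t + 2) := by
    rw [← pow_mul, ← pow_add]; congr 1; ring
  rw [h3, div_pow, div_mul_div_comm]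
  push_cast; rfl

/-- almost all maps are injective -/
theorem tendsto_descFactorial (v : ℕ) :
    Tendsto (fun n : ℕ => (n.descFactorial v : ℝ) / (n : ℝ) ^ v) atTop (𝓝 1) := by
  have h1 : Tendsto (fun n : ℕ => (1 - (v : ℝ) / n) ^ v) atTop (𝓝 1) := by
    have : Tendsto (fun n : ℕ => (1 - (v : ℝ) / n)) atTop (𝓝 (1 - 0)) :=
      tendsto_const_nhds.sub (tendsto_const_div v)
    have h2 := this.pow v
    simpa using h2
  refine tendsto_of_tendsto_of_tendsto_of_le_of_le' h1 tendsto_const_nhds ?_ ?_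
  · filter_upwards [eventually_gt_atTop v, eventually_gt_atTop 0] with n hn hn0
    have hn' : (0 : ℝ) < n := by exact_mod_cast hn0
    have h3 : ((n + 1 - v : ℕ) : ℝ) ^ v ≤ (n.descFactorial v : ℝ) := by
      exact_mod_cast Nat.pow_sub_le_descFactorial n v
    have h4 : ((n : ℝ) - v) ^ v ≤ ((n + 1 - v : ℕ) : ℝ) ^ v := by
      refine pow_le_pow_left₀ ?_ ?_ v
      · rw [sub_nonneg]; exact_mod_cast hn.le
      · rw [Nat.cast_sub (by omega)]; push_cast; linarith
    have h5 : (1 - (v : ℝ) / n) ^ v = ((n : ℝ) - v) ^ v / (n : ℝ) ^ v := by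
      rw [← div_pow]; congr 1; field_simp
    rw [h5]
    exact div_le_div_of_nonneg_right (h4.trans h3) (by positivity)
  · filter_upwards [eventually_gt_atTop 0] with n hn0
    have hn' : (0 : ℝ) < n := by exact_mod_cast hn0
    rw [div_le_one (by positivity)]
    exact_mod_cast Nat.descFactorial_le_pow n v

/-- labelled copies and homomorphisms have the same normalised limit -/
theorem tendsto_labelled {V : Type} [Fintype V] (G : SimpleGraph V)
    (H : (n : ℕ) → SimpleGraph (Fin n)) {L : ℝ}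
    (h : Tendsto (fun n => (homs G (H n) : ℝ) / (n : ℝ) ^ (Fintype.card V)) atTop (𝓝 L)) :
    Tendsto (fun n => ((H n).labelledCopyCount G : ℝ) / (n : ℝ) ^ (Fintype.card V)) atTop
      (𝓝 L) := by
  set v := Fintype.card V with hv
  have h1 := (h.add (tendsto_descFactorial v)).sub (tendsto_const_nhds (x := (1 : ℝ)))
  have h2 : L + 1 - 1 = L := by ring
  rw [h2] at h1
  refine tendsto_of_tendsto_of_tendsto_of_le_of_le' h1 h ?_ ?_
  · filter_upwards [eventually_gt_atTop 0] with n hn0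
    have hn' : (0 : ℝ) < n := by exact_mod_cast hn0
    have h3 := homs_le_labelled G (H n)
    rw [Fintype.card_fin, ← hv] at h3
    have h4 : (homs G (H n) : ℝ) + (n.descFactorial v : ℝ) ≤
        ((H n).labelledCopyCount G : ℝ) + (n : ℝ) ^ v := by exact_mod_cast h3
    rw [← add_div, sub_le_iff_le_add, div_le_iff₀ (by positivity), add_mul,
      div_mul_cancel₀ _ (by positivity), one_mul]
    exact h4
  · filter_upwards with n
    refine div_le_div_of_nonneg_right ?_ (by positivity)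
    exact_mod_cast labelled_le_homs G (H n)

/-- the upper bound for the number of homomorphisms -/
theorem homs_upper {T m : ℕ} (hT : 0 < T) (hm : 0 < m) {β V : ℝ} (hβ : 0 < β)
    (hD : Dom T m β V) : ∃ U : ℕ → ℝ, Tendsto U atTop (𝓝 V) ∧ ∀ n, 0 < n →
      ∀ H : SimpleGraph (Fin n), 2 * (H.edgeSet.ncard : ℝ) ≤ β * (n : ℝ) ^ 2 →
      (homs (stkG m (2 * T)) H : ℝ) ≤ U n * (n : ℝ) ^ (m * 3 + (2 + 2 * T)) := by
  set s : ℕ → ℝ := fun n => Real.sqrt (1 + 1 / β / n) with hs
  set c₁ : ℝ := m * 4 ^ (m - 1) * 3 with hc₁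
  set t : ℝ := ((2 * T : ℕ) : ℝ) with ht
  refine ⟨fun n => V * ((s n ^ 3) ^ m * s n ^ (2 * T + 2)) + (t + c₁ + c₁ * t) / n, ?_, ?_⟩
  · have h1 : Tendsto s atTop (𝓝 1) := by
      have h2 : Tendsto (fun n : ℕ => 1 + 1 / β / (n : ℝ)) atTop (𝓝 (1 + 0)) :=
        tendsto_const_nhds.add (tendsto_const_div (1 / β))
      have h3 := (Real.continuous_sqrt.tendsto (1 + 0)).comp h2
      simp only [add_zero, Real.sqrt_one] at h3
      exact h3
    have h4 : Tendsto (fun n => V * ((s n ^ 3) ^ m * s n ^ (2 * T + 2)) +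
        (t + c₁ + c₁ * t) / n) atTop (𝓝 (V * ((1 ^ 3) ^ m * 1 ^ (2 * T + 2)) + 0)) :=
      (((h1.pow 3).pow m).mul (h1.pow (2 * T + 2))).const_mul V |>.add (tendsto_const_div _)
    simpa using h4
  · intro n hn H hH
    have hn' : (0 : ℝ) < n := by exact_mod_cast hn
    have hn1 : (1 : ℝ) ≤ n := by exact_mod_cast hn
    obtain ⟨p, e, hsh, harea, hval⟩ := upper_graph hn hm (by omega : 0 < 2 * T) H
    have hkc : (p : ℝ) * (1 / n) = p / n := by ring
    have harea' : area (1 / n) p (p / n) e ≤ β + 1 / n := by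
      refine harea.trans ?_
      rw [div_le_iff₀ (by positivity)]
      have : (β + 1 / n) * (n : ℝ) ^ 2 = β * (n : ℝ) ^ 2 + n := by field_simp
      rw [this]; linarith
    -- scaling
    have hs0 : 0 < s n := Real.sqrt_pos.2 (by positivity)
    have hs2 : s n ^ 2 = 1 + 1 / β / n := Real.sq_sqrt (by positivity)
    have hs1 : 1 ≤ s n := by
      have h1 : 0 ≤ 1 / β / n := by positivity
      by_contra hcon
      push Not at hcon
      nlinarith
    have hσ1 : 1 / s n ≤ 1 := by rw [div_le_one hs0]; exact hs1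
    have hsh' := hsh.scale (σ := 1 / s n) (by positivity) hσ1
    have h1 := hD _ _ _ _ hsh' (by rw [← hkc]; ring) (by
      rw [area_scale, div_pow, one_pow, hs2, one_div, inv_mul_le_iff₀ (by positivity)]
      have : (1 + 1 / β / n) * β = β + 1 / n := by field_simp
      rw [this]; exact harea')
    rw [M2_scale, Ph_scale] at h1
    set M := M2 (1 / n) p (p / n) e with hM
    set P := Ph (2 * T) (1 / n) p (p / n) e with hP
    have h2 : M ^ m * P ≤ V * ((s n ^ 3) ^ m * s n ^ (2 * T + 2)) := by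
      have h3 : ((1 / s n) ^ 3 * M) ^ m * ((1 / s n) ^ (2 * T + 2) * P) =
          M ^ m * P / ((s n ^ 3) ^ m * s n ^ (2 * T + 2)) := by
        rw [mul_pow, div_pow, div_pow, div_pow, one_pow, one_pow, one_pow]
        field_simp
      rw [h3, div_le_iff₀ (by positivity)] at h1
      exact h1
    have hM0 : 0 ≤ M := M2_nonneg hsh
    have hM1 : M ≤ 1 := M2_le_one hsh
    have hP0 : 0 ≤ P := Ph_nonneg _ hsh
    have hP1 : P ≤ 1 := Ph_le_one _ (by omega) hsh
    have h4 : (M + 3 / n) ^ m ≤ M ^ m + c₁ / n := by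
      have h5 := pow_sub_le (x := M + 3 / n) (y := M) m hM0 (by
        have : (0 : ℝ) ≤ 3 / n := by positivity
        linarith)
      have h6 : (m : ℝ) * (M + 3 / n) ^ (m - 1) * (M + 3 / n - M) ≤
          m * 4 ^ (m - 1) * (3 / n) := by
        have h7 : (3 : ℝ) / n ≤ 3 := by rw [div_le_iff₀ hn']; linarith
        have h8 : M + 3 / n - M = 3 / n := by ring
        rw [h8]
        refine mul_le_mul_of_nonneg_right ?_ (by positivity)
        refine mul_le_mul_of_nonneg_left ?_ (Nat.cast_nonneg m)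
        exact pow_le_pow_left₀ (by positivity) (by linarith) _
      have h9 : (m : ℝ) * 4 ^ (m - 1) * (3 / n) = c₁ / n := by rw [hc₁]; ring
      linarith
    have hc0 : 0 ≤ c₁ := by rw [hc₁]; positivity
    have ht0 : 0 ≤ t := by rw [ht]; positivity
    have hMm : M ^ m ≤ 1 := pow_le_one₀ hM0 hM1
    have hMm0 : 0 ≤ M ^ m := pow_nonneg hM0 m
    have h10 : (M + 3 / n) ^ m * (P + t / n) ≤ M ^ m * P + (t + c₁ + c₁ * t) / n := by
      have h11 : (M + 3 / n) ^ m * (P + t / n) ≤ (M ^ m + c₁ / n) * (P + t / n) :=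
        mul_le_mul_of_nonneg_right h4 (by positivity)
      have h12 : (M ^ m + c₁ / n) * (P + t / n) = M ^ m * P + M ^ m * (t / n) + c₁ / n * P +
          c₁ / n * (t / n) := by ring
      have h13 : M ^ m * (t / n) ≤ 1 * (t / n) := mul_le_mul_of_nonneg_right hMm (by positivity)
      have h14 : c₁ / n * P ≤ c₁ / n * 1 := mul_le_mul_of_nonneg_left hP1 (by positivity)
      have h15 : c₁ / n * (t / n) ≤ c₁ * t / n := by
        rw [div_mul_div_comm, div_le_div_iff₀ (by positivity) hn']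
        have : 0 ≤ c₁ * t * n := by positivity
        nlinarith
      have h16 : (t + c₁ + c₁ * t) / n = t / n + c₁ / n + c₁ * t / n := by ring
      rw [h16]; linarith
    have h17 : (homs (stkG m (2 * T)) H : ℝ) = (((sdeg H : ℝ) / (n : ℝ) ^ 3) ^ m *
        ((scod (2 * T) H : ℝ) / (n : ℝ) ^ (2 * T + 2))) * (n : ℝ) ^ (m * 3 + (2 + 2 * T)) := by
      rw [homs_eq]
      have h3 : (n : ℝ) ^ (m * 3 + (2 + 2 * T)) = ((n : ℝ) ^ 3) ^ m * (n : ℝ) ^ (2 * T + 2) := by
        rw [← pow_mul, ← pow_add]; congr 1; ring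
      rw [h3, div_pow, div_mul_div_comm]
      push_cast
      rw [div_mul_cancel₀ _ (by positivity)]
    rw [h17]
    refine mul_le_mul_of_nonneg_right ?_ (by positivity)
    exact (hval.trans h10).trans (by linarith)

/-- the number of vertices -/
theorem card_stk (m t : ℕ) : Fintype.card ((Fin m × Fin 3) ⊕ (Fin 2 ⊕ Fin t)) =
    m * 3 + (2 + t) := by
  simp [Fintype.card_sum, Fintype.card_prod]

theorem aut_pos {V : Type} [Fintype V] (G : SimpleGraph V) : 0 < Nat.card (G ≃g G) := by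
  classical
  have : Finite (G ≃g G) := Finite.of_injective (fun f : G ≃g G => f.toEquiv)
    (fun f g h => RelIso.toEquiv_injective h)
  have : Nonempty (G ≃g G) := ⟨RelIso.refl _⟩
  exact Nat.card_pos

/-- the limit of the extremal number -/
theorem ex_tendsto {T m : ℕ} (hT : 0 < T) (hm : 0 < m) {β V : ℝ} (hβ : 0 < β)
    (hD : Dom T m β V) (H : (n : ℕ) → SimpleGraph (Fin n))
    (hedge : ∀ n, 2 * ((H n).edgeSet.ncard : ℝ) ≤ β * (n : ℝ) ^ 2)
    (hH : Tendsto (fun n => ((H n).labelledCopyCount (stkG m (2 * T)) : ℝ) /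
      (n : ℝ) ^ (m * 3 + (2 + 2 * T))) atTop (𝓝 V)) :
    Tendsto (fun n => (Nat.card (stkG m (2 * T) ≃g stkG m (2 * T)) : ℝ) *
      (exCopies (stkG m (2 * T)) n ⌊β * (n : ℝ) ^ 2 / 2⌋₊ : ℝ) /
      (n : ℝ) ^ (m * 3 + (2 + 2 * T))) atTop (𝓝 V) := by
  classical
  obtain ⟨U, hU1, hU2⟩ := homs_upper hT hm hβ hD
  have hle : ∀ (n : ℕ) (K : SimpleGraph (Fin n)), K.edgeSet.ncard ≤ ⌊β * (n : ℝ) ^ 2 / 2⌋₊ ↔
      2 * (K.edgeSet.ncard : ℝ) ≤ β * (n : ℝ) ^ 2 := by
    intro n K
    rw [Nat.le_floor_iff (by positivity)]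
    constructor <;> intro h <;> linarith
  refine tendsto_of_tendsto_of_tendsto_of_le_of_le' hH hU1 ?_ ?_
  · filter_upwards with n
    refine div_le_div_of_nonneg_right ?_ (by positivity)
    have h1 : (H n).copyCount (stkG m (2 * T)) ≤
        exCopies (stkG m (2 * T)) n ⌊β * (n : ℝ) ^ 2 / 2⌋₊ := by
      unfold exCopies
      refine Finset.le_sup (f := fun H : SimpleGraph (Fin n) => H.copyCount (stkG m (2 * T))) ?_
      simp only [mem_filter, mem_univ, true_and]
      exact (hle n (H n)).2 (hedge n)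
    rw [labelled_eq]
    push_cast
    exact mul_le_mul_of_nonneg_left (by exact_mod_cast h1) (Nat.cast_nonneg _)
  · filter_upwards [eventually_gt_atTop 0] with n hn
    have hn' : (0 : ℝ) < n := by exact_mod_cast hn
    rw [div_le_iff₀ (by positivity)]
    -- the maximum is attained
    have hne : (univ.filter (fun K : SimpleGraph (Fin n) =>
        K.edgeSet.ncard ≤ ⌊β * (n : ℝ) ^ 2 / 2⌋₊)).Nonempty := by
      refine ⟨⊥, ?_⟩
      simp only [mem_filter, mem_univ, true_and, SimpleGraph.edgeSet_bot, Set.ncard_empty]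
      exact Nat.zero_le _
    obtain ⟨K, hK, hKe⟩ := exists_mem_eq_sup _ hne
      (fun K : SimpleGraph (Fin n) => K.copyCount (stkG m (2 * T)))
    simp only [mem_filter, mem_univ, true_and] at hK
    have h1 : exCopies (stkG m (2 * T)) n ⌊β * (n : ℝ) ^ 2 / 2⌋₊ =
        K.copyCount (stkG m (2 * T)) := by
      unfold exCopies
      convert hKe
    rw [h1]
    have h2 := hU2 n hn K ((hle n K).1 hK)
    have h3 : ((K.labelledCopyCount (stkG m (2 * T)) : ℕ) : ℝ) ≤
        (homs (stkG m (2 * T)) K : ℝ) := by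
      exact_mod_cast labelled_le_homs (stkG m (2 * T)) K
    rw [labelled_eq] at h3
    push_cast at h3
    exact h3.trans h2

/-- a criterion for asymptotic maximisers -/
theorem isMax_of {T m : ℕ} {β V : ℝ} (hV : 0 < V)
    (hex : Tendsto (fun n => (Nat.card (stkG m (2 * T) ≃g stkG m (2 * T)) : ℝ) *
      (exCopies (stkG m (2 * T)) n ⌊β * (n : ℝ) ^ 2 / 2⌋₊ : ℝ) /
      (n : ℝ) ^ (m * 3 + (2 + 2 * T))) atTop (𝓝 V))
    (H : (n : ℕ) → SimpleGraph (Fin n))
    (hden : ∃ C : ℝ, ∀ n : ℕ, 1 ≤ n →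
      |2 * ((H n).edgeSet.ncard : ℝ) / (n : ℝ) ^ 2 - β| ≤ C / n)
    (hH : Tendsto (fun n => ((H n).labelledCopyCount (stkG m (2 * T)) : ℝ) /
      (n : ℝ) ^ (m * 3 + (2 + 2 * T))) atTop (𝓝 V)) :
    IsAsympMaximiser (stkG m (2 * T)) β H := by
  refine ⟨hden, ?_⟩
  have hA : (0 : ℝ) < Nat.card (stkG m (2 * T) ≃g stkG m (2 * T)) := by
    exact_mod_cast aut_pos _
  apply Asymptotics.isEquivalent_of_tendsto_one
  have h1 := hH.div hex hV.ne'
  rw [div_self hV.ne'] at h1
  refine h1.congr' ?_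
  filter_upwards [eventually_gt_atTop 0] with n hn
  have hn' : (0 : ℝ) < n := by exact_mod_cast hn
  simp only [Pi.div_apply]
  rw [labelled_eq]
  push_cast
  rw [div_div_div_cancel_right₀ (by positivity), mul_div_mul_left _ _ hA.ne']

/-- a criterion for not being an asymptotic maximiser -/
theorem not_isMax_of {T m : ℕ} {β V V' : ℝ} (hV : 0 < V) (hVV : V' ≠ V)
    (hex : Tendsto (fun n => (Nat.card (stkG m (2 * T) ≃g stkG m (2 * T)) : ℝ) *
      (exCopies (stkG m (2 * T)) n ⌊β * (n : ℝ) ^ 2 / 2⌋₊ : ℝ) /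
      (n : ℝ) ^ (m * 3 + (2 + 2 * T))) atTop (𝓝 V))
    (H : (n : ℕ) → SimpleGraph (Fin n))
    (hH : Tendsto (fun n => ((H n).labelledCopyCount (stkG m (2 * T)) : ℝ) /
      (n : ℝ) ^ (m * 3 + (2 + 2 * T))) atTop (𝓝 V')) :
    ¬ IsAsympMaximiser (stkG m (2 * T)) β H := by
  rintro ⟨_, h⟩
  have hA : (0 : ℝ) < Nat.card (stkG m (2 * T) ≃g stkG m (2 * T)) := by
    exact_mod_cast aut_pos _
  have hne : ∀ᶠ n : ℕ in atTop,
      (exCopies (stkG m (2 * T)) n ⌊β * (n : ℝ) ^ 2 / 2⌋₊ : ℝ) ≠ 0 := by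
    have h1 := hex.eventually (lt_mem_nhds hV)
    filter_upwards [h1] with n hn h0
    rw [h0] at hn
    simp at hn
  rw [Asymptotics.isEquivalent_iff_tendsto_one hne] at h
  have h1 := hH.div hex hV.ne'
  have h2 : Tendsto (fun n : ℕ => ((H n).labelledCopyCount (stkG m (2 * T)) : ℝ) /
      (n : ℝ) ^ (m * 3 + (2 + 2 * T)) / ((Nat.card (stkG m (2 * T) ≃g stkG m (2 * T)) : ℝ) *
      (exCopies (stkG m (2 * T)) n ⌊β * (n : ℝ) ^ 2 / 2⌋₊ : ℝ) /
      (n : ℝ) ^ (m * 3 + (2 + 2 * T)))) atTop (𝓝 1) := by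
    refine h.congr' ?_
    filter_upwards [eventually_gt_atTop 0] with n hn
    have hn' : (0 : ℝ) < n := by exact_mod_cast hn
    simp only [Pi.div_apply]
    rw [labelled_eq]
    push_cast
    rw [div_div_div_cancel_right₀ (by positivity), mul_div_mul_left _ _ hA.ne']
  have h3 := tendsto_nhds_unique h1 h2
  rw [div_eq_one_iff_eq hV.ne'] at h3
  exact hVV h3

end Pool.Agent.Lib.Helper7.STK
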