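/-
MP_8790d8_co: the three families.
-/
import Pool.Agent.Lib.Helper7.STK.Limits

set_option autoImplicit false
open Finset Filter Topology

namespace Pool.Agent.Lib.Helper7.STK

/-! ### Cardinalities -/

theorem card_lt (n r : ℕ) : (univ.filter (fun i : Fin n => (i : ℕ) < r)).card = min r n := by
  have h : (univ.filter (fun i : Fin n => (i : ℕ) < r)).card = (range (min r n)).card := by
    refine card_bij (fun i _ => (i : ℕ)) ?_ ?_ ?_
    · intro i hi
      simp only [mem_filter, mem_univ, true_and] at hi
      have := i.2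
      simp only [mem_range]; omega
    · intro i _ j _ h; exact Fin.ext h
    · intro x hx
      simp only [mem_range] at hx
      exact ⟨⟨x, by omega⟩, by simp; omega, rfl⟩
  rw [h, card_range]

theorem card_Ico (n r s : ℕ) (hs : s ≤ n) :
    (univ.filter (fun i : Fin n => r ≤ (i : ℕ) ∧ (i : ℕ) < s)).card = s - r := by
  have h : (univ.filter (fun i : Fin n => r ≤ (i : ℕ) ∧ (i : ℕ) < s)).card = (Ico r s).card := by
    refine card_bij (fun i _ => (i : ℕ)) ?_ ?_ ?_
    · intro i hi
      simp only [mem_filter, mem_univ, true_and] at hi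
      rw [mem_Ico]; exact hi
    · intro i _ j _ h; exact Fin.ext h
    · intro x hx
      rw [mem_Ico] at hx
      exact ⟨⟨x, by omega⟩, by simp; omega, rfl⟩
  rw [h, Nat.card_Ico]

theorem card_ge (n r : ℕ) : (univ.filter (fun i : Fin n => r ≤ (i : ℕ))).card = n - r := by
  have h := card_Ico n r n le_rfl
  rw [← h]
  congr 1
  ext i
  simp only [mem_filter, mem_univ, true_and]
  have := i.2
  omega

/-! ### Edges of the three-part graphs -/

open Classical in
theorem edges_tG {n : ℕ} {R Y : Finset (Fin n)} (hd : Disjoint R Y) :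
    2 * ((tG R Y).edgeSet.ncard : ℝ) = 2 * R.card * n - (R.card : ℝ) ^ 2 + (Y.card : ℝ) ^ 2 -
      R.card - Y.card := by
  have h0 : (2 * ((tG R Y).edgeSet.ncard : ℝ)) =
      ∑ v, ((univ.filter (fun u => (tG R Y).Adj v u)).card : ℝ) := by
    exact_mod_cast two_edges (tG R Y)
  have h1 : ∀ i : Fin n, ((univ.filter (fun u => (tG R Y).Adj i u)).card : ℝ) =
      if i ∈ R then (n : ℝ) - 1 else if i ∈ Y then (R.card : ℝ) + Y.card - 1 else R.card := by
    intro i
    have h2 : univ.filter (fun u => (tG R Y).Adj i u) = (core R Y i).erase i := by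
      ext u
      simp only [mem_filter, mem_univ, true_and, mem_erase]
      constructor
      · intro h
        have : u ≠ i := h.1.symm
        exact ⟨this, (mem_core this).1 h⟩
      · rintro ⟨h, h'⟩
        exact (mem_core h).2 h'
    rw [h2]
    split_ifs with g1 g2
    · rw [core_self_R g1, card_erase_of_mem (mem_univ i), card_univ, Fintype.card_fin]
      have : 1 ≤ n := by have := i.2; omega
      rw [Nat.cast_sub this]; simp
    · rw [core_self_Y g1 g2, card_erase_of_mem (by simp [g2]), card_union_of_disjoint hd]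
      have : 1 ≤ R.card + Y.card := by
        have := card_pos.2 ⟨i, g2⟩; omega
      rw [Nat.cast_sub this]; push_cast; ring
    · rw [core_self_B g1 g2, erase_eq_of_notMem g1]
  rw [h0, sum_congr rfl fun i _ => h1 i, sum3 hd]
  ring

/-! ### The quasi-cliques -/

theorem qc_exists (e : ℕ) : ∃ a b : ℕ, e = a.choose 2 + b ∧ b < a := by
  induction e with
  | zero => exact ⟨1, 0, by simp, by norm_num⟩
  | succ e ih =>
    obtain ⟨a, b, h1, h2⟩ := ih
    by_cases h : b + 1 < a
    · exact ⟨a, b + 1, by omega, h⟩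
    · refine ⟨a + 1, 0, ?_, by omega⟩
      have : (a + 1).choose 2 = a + a.choose 2 := by
        rw [Nat.choose_succ_succ' a 1, Nat.choose_one_right]
      omega

theorem choose_succ_two (a : ℕ) : (a + 1).choose 2 = a + a.choose 2 := by
  rw [Nat.choose_succ_succ' a 1, Nat.choose_one_right]

theorem qc_unique {a b a' b' : ℕ} (h : a.choose 2 + b = a'.choose 2 + b') (hb : b < a)
    (hb' : b' < a') : a = a' ∧ b = b' := by
  have key : ∀ {a b a' b' : ℕ}, a.choose 2 + b = a'.choose 2 + b' → b < a → ¬ a < a' := by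
    intro a b a' b' h hb hlt
    have h1 : (a + 1).choose 2 ≤ a'.choose 2 := Nat.choose_le_choose 2 hlt
    rw [choose_succ_two] at h1
    omega
  have h1 := key h hb
  have h2 := key h.symm hb'
  have h3 : a = a' := by omega
  subst h3
  exact ⟨rfl, by omega⟩

theorem qc_adj {n e a b : ℕ} (he : e = a.choose 2 + b) (hb : b < a) (i j : Fin n) :
    (quasiClique n e).Adj i j ↔ i ≠ j ∧
      (((i : ℕ) < a ∧ (j : ℕ) < a) ∨ ((i : ℕ) = a ∧ (j : ℕ) < b) ∨
        ((j : ℕ) = a ∧ (i : ℕ) < b)) := by
  constructor
  · rintro ⟨h, a', b', h1, h2, h3⟩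
    obtain ⟨rfl, rfl⟩ := qc_unique (h1.symm.trans he) h2 hb
    exact ⟨h, h3⟩
  · rintro ⟨h, h3⟩
    exact ⟨h, a, b, he, hb, h3⟩

theorem qc_ge {n e a b : ℕ} (he : e = a.choose 2 + b) (hb : b < a) :
    tG ∅ (univ.filter (fun i : Fin n => (i : ℕ) < a)) ≤ quasiClique n e := by
  intro i j h
  rw [qc_adj he hb]
  obtain ⟨h1, h2⟩ := h
  simp only [notMem_empty, false_or, mem_filter, mem_univ, true_and] at h2
  exact ⟨h1, Or.inl h2⟩

theorem qc_le {n e a b : ℕ} (he : e = a.choose 2 + b) (hb : b < a) :
    quasiClique n e ≤ tG ∅ (univ.filter (fun i : Fin n => (i : ℕ) < a + 1)) := by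
  intro i j h
  rw [qc_adj he hb] at h
  refine ⟨h.1, ?_⟩
  simp only [notMem_empty, false_or, mem_filter, mem_univ, true_and]
  omega

theorem qs_ge {n e a b : ℕ} (he : n.choose 2 - e = a.choose 2 + b) (hb : b < a) :
    tG (univ.filter (fun i : Fin n => a + 1 ≤ (i : ℕ))) ∅ ≤ quasiStar n e := by
  intro i j h
  obtain ⟨h1, h2⟩ := h
  simp only [notMem_empty, false_and, or_false, mem_filter, mem_univ, true_and] at h2
  unfold quasiStar
  rw [SimpleGraph.compl_adj, qc_adj he hb]
  refine ⟨h1, ?_⟩
  rintro ⟨_, h3⟩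
  omega

theorem qs_le {n e a b : ℕ} (he : n.choose 2 - e = a.choose 2 + b) (hb : b < a) :
    quasiStar n e ≤ tG (univ.filter (fun i : Fin n => a ≤ (i : ℕ))) ∅ := by
  intro i j h
  unfold quasiStar at h
  rw [SimpleGraph.compl_adj, qc_adj he hb] at h
  refine ⟨h.1, ?_⟩
  simp only [notMem_empty, false_and, or_false, mem_filter, mem_univ, true_and]
  by_contra hcon
  exact h.2 ⟨h.1, Or.inl (by omega)⟩

theorem two_choose (a : ℕ) : 2 * (a.choose 2 : ℝ) = (a : ℝ) ^ 2 - a := by
  have h := Nat.choose_two_right a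
  have h2 : 2 * a.choose 2 = a * (a - 1) := by
    rw [h]; exact Nat.mul_div_cancel' (Nat.even_mul_pred_self a).two_dvd
  rcases Nat.eq_zero_or_pos a with h0 | h0
  · subst h0; simp
  · have h3 : (2 * a.choose 2 : ℝ) = (a : ℝ) * ((a - 1 : ℕ) : ℝ) := by exact_mod_cast h2
    rw [h3, Nat.cast_sub h0]; push_cast; ring

open Classical in
theorem edges_qc {n e : ℕ} : ((quasiClique n e).edgeSet.ncard) = min e (n.choose 2) := by
  obtain ⟨a, b, he, hb⟩ := qc_exists e
  rcases lt_or_ge a n with han | han
  · -- proper quasi-clique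
    have hmin : min e (n.choose 2) = e := by
      have h1 : (a + 1).choose 2 ≤ n.choose 2 := Nat.choose_le_choose 2 han
      rw [choose_succ_two] at h1
      omega
    rw [hmin]
    have h0 := two_edges (quasiClique n e)
    have h2 := two_edges (tG ∅ (univ.filter (fun i : Fin n => (i : ℕ) < a)))
    have hsum : ∀ P : Fin n → Fin n → Prop,
        ∑ v, (univ.filter (fun u => P v u)).card = ∑ v, ∑ u, if P v u then 1 else 0 :=
      fun P => sum_congr rfl fun v _ => card_filter _ _
    have h3 : ∑ v, (univ.filter (fun u => (quasiClique n e).Adj v u)).card =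
        ∑ v, (univ.filter (fun u => (tG ∅ (univ.filter (fun i : Fin n => (i : ℕ) < a))).Adj v u)).card
        + b + b := by
      rw [hsum, hsum]
      have h4 : ∑ v : Fin n, ∑ u : Fin n, (if (v : ℕ) = a ∧ (u : ℕ) < b then 1 else 0) = b := by
        have h5 : ∀ v : Fin n, ∑ u : Fin n, (if (v : ℕ) = a ∧ (u : ℕ) < b then 1 else 0) =
            if v = ⟨a, han⟩ then b else 0 := by
          intro v
          by_cases hv : (v : ℕ) = a
          · have hv' : v = ⟨a, han⟩ := Fin.ext hv
            rw [if_pos hv']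
            simp only [hv, true_and]
            rw [← card_filter, card_lt]; omega
          · have hv' : v ≠ ⟨a, han⟩ := fun h => hv (by rw [h])
            rw [if_neg hv']
            simp [hv]
        rw [sum_congr rfl fun v _ => h5 v]; simp
      have h4' : ∑ v : Fin n, ∑ u : Fin n, (if (u : ℕ) = a ∧ (v : ℕ) < b then 1 else 0) = b := by
        rw [sum_comm]; exact h4
      have h6 : ∑ v : Fin n, ∑ u : Fin n, (if (quasiClique n e).Adj v u then 1 else 0) =
          ∑ v : Fin n, ∑ u : Fin n,
          (if (tG ∅ (univ.filter (fun i : Fin n => (i : ℕ) < a))).Adj v u then 1 else 0) +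
          ∑ v : Fin n, ∑ u : Fin n, (if (v : ℕ) = a ∧ (u : ℕ) < b then 1 else 0) +
          ∑ v : Fin n, ∑ u : Fin n, (if (u : ℕ) = a ∧ (v : ℕ) < b then 1 else 0) := by
        rw [← sum_add_distrib, ← sum_add_distrib]
        refine sum_congr rfl fun v _ => ?_
        rw [← sum_add_distrib, ← sum_add_distrib]
        refine sum_congr rfl fun u _ => ?_
        rw [qc_adj he hb]
        have h7 : (tG ∅ (univ.filter (fun i : Fin n => (i : ℕ) < a))).Adj v u ↔
            v ≠ u ∧ ((v : ℕ) < a ∧ (u : ℕ) < a) := by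
          show (v ≠ u ∧ _) ↔ _
          simp
        rw [h7]
        have hne : v ≠ u ↔ (v : ℕ) ≠ u := by rw [ne_eq, Fin.ext_iff]
        rw [hne]
        by_cases g1 : (v : ℕ) < a ∧ (u : ℕ) < a
        · have g2 : ¬ ((v : ℕ) = a ∧ (u : ℕ) < b) := by omega
          have g3 : ¬ ((u : ℕ) = a ∧ (v : ℕ) < b) := by omega
          simp only [g1, g2, g3, true_or, and_true, and_self, if_false, add_zero]
        · by_cases g2 : (v : ℕ) = a ∧ (u : ℕ) < b
          · have g3 : ¬ ((u : ℕ) = a ∧ (v : ℕ) < b) := by omega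
            have g4 : (v : ℕ) ≠ u := by omega
            rw [if_pos ⟨g4, Or.inr (Or.inl g2)⟩, if_neg (fun h => g1 h.2), if_pos g2, if_neg g3]
          · by_cases g3 : (u : ℕ) = a ∧ (v : ℕ) < b
            · have g4 : (v : ℕ) ≠ u := by omega
              rw [if_pos ⟨g4, Or.inr (Or.inr g3)⟩, if_neg (fun h => g1 h.2), if_neg g2, if_pos g3]
            · rw [if_neg (by tauto), if_neg (fun h => g1 h.2), if_neg g2, if_neg g3]
      rw [h6, h4, h4']
    have h5 := edges_tG (n := n) (R := ∅) (Y := univ.filter (fun i : Fin n => (i : ℕ) < a))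
      (disjoint_empty_left _)
    rw [card_lt, min_eq_left han.le] at h5
    simp only [card_empty, Nat.cast_zero, mul_zero, zero_mul] at h5
    rw [← h2] at h3
    rw [h3] at h0
    have h6 : 2 * ((quasiClique n e).edgeSet.ncard : ℝ) =
        2 * ((tG ∅ (univ.filter (fun i : Fin n => (i : ℕ) < a))).edgeSet.ncard : ℝ) + b + b := by
      exact_mod_cast h0
    have h7 := two_choose a
    have h8 : ((quasiClique n e).edgeSet.ncard : ℝ) = (e : ℝ) := by
      have : (e : ℝ) = (a.choose 2 : ℝ) + b := by rw [he]; push_cast; ring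
      rw [this]
      linarith
    exact_mod_cast h8
  · -- complete graph
    have hmin : min e (n.choose 2) = n.choose 2 := by
      have h1 : n.choose 2 ≤ a.choose 2 := Nat.choose_le_choose 2 han
      omega
    rw [hmin]
    have h1 : quasiClique n e = tG ∅ (univ.filter (fun i : Fin n => (i : ℕ) < a)) := by
      refine le_antisymm ?_ (qc_ge he hb)
      intro i j h
      have := i.2
      have := j.2
      refine ⟨h.ne, Or.inr (Or.inr ?_)⟩
      simp only [mem_filter, mem_univ, true_and]
      omega
    rw [h1]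
    have h5 := edges_tG (n := n) (R := ∅) (Y := univ.filter (fun i : Fin n => (i : ℕ) < a))
      (disjoint_empty_left _)
    rw [card_lt, min_eq_right han] at h5
    simp only [card_empty, Nat.cast_zero, mul_zero, zero_mul] at h5
    have h7 := two_choose n
    have h8 : ((tG ∅ (univ.filter (fun i : Fin n => (i : ℕ) < a))).edgeSet.ncard : ℝ) =
        (n.choose 2 : ℝ) := by linarith
    exact_mod_cast h8

open Classical in
theorem edges_compl {n : ℕ} (H : SimpleGraph (Fin n)) :
    Hᶜ.edgeSet.ncard + H.edgeSet.ncard = n.choose 2 := by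
  have h1 := two_edges H
  have h2 : 2 * Hᶜ.edgeSet.ncard = ∑ v, (univ.filter (fun u => Hᶜ.Adj v u)).card := by
    convert two_edges Hᶜ
  have h3 : ∑ v, (univ.filter (fun u => Hᶜ.Adj v u)).card +
      ∑ v, (univ.filter (fun u => H.Adj v u)).card = n * (n - 1) := by
    rw [← sum_add_distrib]
    have h4 : ∀ v : Fin n, (univ.filter (fun u => Hᶜ.Adj v u)).card +
        (univ.filter (fun u => H.Adj v u)).card = n - 1 := by
      intro v
      rw [← card_union_of_disjoint]
      · have h5 : (univ.filter (fun u => Hᶜ.Adj v u)) ∪ (univ.filter (fun u => H.Adj v u)) =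
            univ.erase v := by
          ext u
          simp only [mem_union, mem_filter, mem_univ, true_and, mem_erase, and_true,
            SimpleGraph.compl_adj]
          constructor
          · rintro (h | h)
            · exact h.1.symm
            · exact h.ne.symm
          · intro h
            by_cases h' : H.Adj v u
            · exact Or.inr h'
            · exact Or.inl ⟨h.symm, h'⟩
        rw [h5, card_erase_of_mem (mem_univ v), card_univ, Fintype.card_fin]
      · rw [disjoint_filter]
        intro u _ h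
        rw [SimpleGraph.compl_adj] at h
        exact h.2
    rw [sum_congr rfl fun v _ => h4 v]; simp
  rw [← h1, ← h2] at h3
  rw [Nat.choose_two_right]
  have h4 := Nat.even_mul_pred_self n
  obtain ⟨k, hk⟩ := h4
  omega

theorem edges_qs {n e : ℕ} : ((quasiStar n e).edgeSet.ncard) = min e (n.choose 2) := by
  have h1 := edges_compl (quasiClique n (n.choose 2 - e))
  have h2 := edges_qc (n := n) (e := n.choose 2 - e)
  unfold quasiStar
  omega

end Pool.Agent.Lib.Helper7.STK
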