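/-
MP_8790d8_co: limits along the three families.
-/
import Pool.Agent.Lib.Helper7.STK.Families

set_option autoImplicit false
open Finset Filter Topology

namespace Pool.Agent.Lib.Helper7.STK

/-- clique sizes -/
theorem size_tendsto {e a b : ℕ → ℕ} {β : ℝ} (he : ∀ n, e n = (a n).choose 2 + b n)
    (hb : ∀ n, b n < a n)
    (h : Tendsto (fun n => 2 * (e n : ℝ) / (n : ℝ) ^ 2) atTop (𝓝 β)) :
    Tendsto (fun n => (a n : ℝ) / n) atTop (𝓝 (Real.sqrt β)) := by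
  have h1 : Tendsto (fun n : ℕ => 1 / 4 / (n : ℝ) / (n : ℝ)) atTop (𝓝 0) := by
    have h2 := (tendsto_const_div (1 / 4)).mul (tendsto_const_div 1)
    simp only [mul_zero] at h2
    refine h2.congr fun n => ?_
    ring
  have h2 : Tendsto (fun n : ℕ => Real.sqrt (2 * (e n : ℝ) / (n : ℝ) ^ 2 +
      1 / 4 / (n : ℝ) / (n : ℝ))) atTop (𝓝 (Real.sqrt β)) := by
    have h3 := (Real.continuous_sqrt.tendsto (β + 0)).comp (h.add h1)
    rw [add_zero] at h3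
    exact h3
  refine tendsto_of_abs_le h2 (tendsto_const_div (1 / 2)) fun n hn => ?_
  have hn' : (0 : ℝ) < n := by exact_mod_cast hn
  have e1 : (2 * (e n : ℝ)) = (a n : ℝ) ^ 2 - a n + 2 * b n := by
    rw [he n]; push_cast
    have := two_choose (a n)
    linarith
  have e2 : (b n : ℝ) + 1 ≤ a n := by exact_mod_cast hb n
  have e3 : (0 : ℝ) ≤ b n := Nat.cast_nonneg _
  set x := (a n : ℝ) / n with hx
  set y := 2 * (e n : ℝ) / (n : ℝ) ^ 2 + 1 / 4 / (n : ℝ) / (n : ℝ) with hy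
  have hyy : y = ((a n : ℝ) ^ 2 - a n + 2 * b n + 1 / 4) / (n : ℝ) ^ 2 := by
    rw [hy, e1]; field_simp
  have hx0 : 0 ≤ x := by positivity
  have hh : 0 < 1 / 2 / (n : ℝ) := by positivity
  rw [abs_le]
  constructor
  · -- sqrt y ≤ x + 1/(2n)
    have h5 : Real.sqrt y ≤ x + 1 / 2 / n := by
      rw [Real.sqrt_le_left (by positivity)]
      have : (x + 1 / 2 / n) ^ 2 = ((a n : ℝ) ^ 2 + a n + 1 / 4) / (n : ℝ) ^ 2 := by
        rw [hx]; field_simp; ring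
      rw [this, hyy]
      exact div_le_div_of_nonneg_right (by linarith) (by positivity)
    linarith
  · have h5 : x - 1 / 2 / n ≤ Real.sqrt y := by
      refine Real.le_sqrt_of_sq_le ?_
      have : (x - 1 / 2 / n) ^ 2 = ((a n : ℝ) ^ 2 - a n + 1 / 4) / (n : ℝ) ^ 2 := by
        rw [hx]; field_simp; ring
      rw [this, hyy]
      exact div_le_div_of_nonneg_right (by linarith) (by positivity)
    linarith

theorem floor_bounds {β : ℝ} (hβ : 0 ≤ β) (n : ℕ) :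
    2 * (⌊β * (n : ℝ) ^ 2 / 2⌋₊ : ℝ) ≤ β * (n : ℝ) ^ 2 ∧
    β * (n : ℝ) ^ 2 - 2 ≤ 2 * (⌊β * (n : ℝ) ^ 2 / 2⌋₊ : ℝ) := by
  have h1 := Nat.floor_le (show 0 ≤ β * (n : ℝ) ^ 2 / 2 by positivity)
  have h2 := Nat.lt_floor_add_one (β * (n : ℝ) ^ 2 / 2)
  constructor <;> linarith

theorem min_bounds {β : ℝ} (hβ : 0 ≤ β) (hβ1 : β ≤ 1) (n : ℕ) (hn : 1 ≤ n) :
    |2 * ((min ⌊β * (n : ℝ) ^ 2 / 2⌋₊ (n.choose 2) : ℕ) : ℝ) / (n : ℝ) ^ 2 - β| ≤
      (2 : ℝ) / n := by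
  have hn' : (1 : ℝ) ≤ n := by exact_mod_cast hn
  have hn0 : (0 : ℝ) < n := by linarith
  obtain ⟨h1, h2⟩ := floor_bounds hβ n
  have h3 := two_choose n
  have h4 : β * (n : ℝ) ^ 2 ≤ (n : ℝ) ^ 2 := by nlinarith [sq_nonneg (n : ℝ)]
  have e1 : 2 * ((min ⌊β * (n : ℝ) ^ 2 / 2⌋₊ (n.choose 2) : ℕ) : ℝ) / (n : ℝ) ^ 2 - β =
      (2 * ((min ⌊β * (n : ℝ) ^ 2 / 2⌋₊ (n.choose 2) : ℕ) : ℝ) - β * (n : ℝ) ^ 2) /
        (n : ℝ) ^ 2 := by field_simp
  have e2 : (2 : ℝ) / n = 2 * n / (n : ℝ) ^ 2 := by field_simp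
  rw [e1, e2, abs_div, abs_of_pos (show (0 : ℝ) < (n : ℝ) ^ 2 by positivity)]
  refine div_le_div_of_nonneg_right ?_ (by positivity)
  rw [abs_le]
  rcases le_total ⌊β * (n : ℝ) ^ 2 / 2⌋₊ (n.choose 2) with h5 | h5
  · rw [min_eq_left h5]
    constructor <;> linarith
  · rw [min_eq_right h5]
    have h6 : (n.choose 2 : ℝ) ≤ (⌊β * (n : ℝ) ^ 2 / 2⌋₊ : ℝ) := by exact_mod_cast h5
    constructor <;> linarith

theorem min_le {β : ℝ} (hβ : 0 ≤ β) (n : ℕ) :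
    2 * ((min ⌊β * (n : ℝ) ^ 2 / 2⌋₊ (n.choose 2) : ℕ) : ℝ) ≤ β * (n : ℝ) ^ 2 := by
  obtain ⟨h1, _⟩ := floor_bounds hβ n
  have h2 : ((min ⌊β * (n : ℝ) ^ 2 / 2⌋₊ (n.choose 2) : ℕ) : ℝ) ≤
      (⌊β * (n : ℝ) ^ 2 / 2⌋₊ : ℝ) := by exact_mod_cast Nat.min_le_left _ _
  linarith

theorem e_tendsto {β : ℝ} (hβ : 0 ≤ β) :
    Tendsto (fun n : ℕ => 2 * (⌊β * (n : ℝ) ^ 2 / 2⌋₊ : ℝ) / (n : ℝ) ^ 2) atTop (𝓝 β) := by
  refine tendsto_of_abs_le tendsto_const_nhds (tendsto_const_div 2) fun n hn => ?_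
  have hn' : (1 : ℝ) ≤ n := by exact_mod_cast hn
  have hn0 : (0 : ℝ) < n := by linarith
  obtain ⟨h1, h2⟩ := floor_bounds hβ n
  have e1 : 2 * (⌊β * (n : ℝ) ^ 2 / 2⌋₊ : ℝ) / (n : ℝ) ^ 2 - β =
      (2 * (⌊β * (n : ℝ) ^ 2 / 2⌋₊ : ℝ) - β * (n : ℝ) ^ 2) / (n : ℝ) ^ 2 := by field_simp
  have e2 : (2 : ℝ) / n = 2 * n / (n : ℝ) ^ 2 := by field_simp
  rw [e1, e2, abs_div, abs_of_pos (show (0 : ℝ) < (n : ℝ) ^ 2 by positivity)]
  refine div_le_div_of_nonneg_right ?_ (by positivity)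
  rw [abs_le]
  constructor <;> linarith

theorem e_tendsto' {β : ℝ} (hβ : 0 ≤ β) (hβ1 : β ≤ 1) :
    Tendsto (fun n : ℕ => 2 * ((n.choose 2 - ⌊β * (n : ℝ) ^ 2 / 2⌋₊ : ℕ) : ℝ) / (n : ℝ) ^ 2)
      atTop (𝓝 (1 - β)) := by
  refine tendsto_of_abs_le tendsto_const_nhds (tendsto_const_div 2) fun n hn => ?_
  have hn' : (1 : ℝ) ≤ n := by exact_mod_cast hn
  have hn0 : (0 : ℝ) < n := by linarith
  obtain ⟨h1, h2⟩ := floor_bounds hβ n
  have h3 := two_choose n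
  have h4 : β * (n : ℝ) ^ 2 ≤ (n : ℝ) ^ 2 := by nlinarith [sq_nonneg (n : ℝ)]
  have e1 : 2 * ((n.choose 2 - ⌊β * (n : ℝ) ^ 2 / 2⌋₊ : ℕ) : ℝ) / (n : ℝ) ^ 2 - (1 - β) =
      (2 * ((n.choose 2 - ⌊β * (n : ℝ) ^ 2 / 2⌋₊ : ℕ) : ℝ) - (1 - β) * (n : ℝ) ^ 2) /
        (n : ℝ) ^ 2 := by field_simp
  have e2 : (2 : ℝ) / n = 2 * n / (n : ℝ) ^ 2 := by field_simp
  rw [e1, e2, abs_div, abs_of_pos (show (0 : ℝ) < (n : ℝ) ^ 2 by positivity)]
  refine div_le_div_of_nonneg_right ?_ (by positivity)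
  rw [abs_le]
  rcases le_total ⌊β * (n : ℝ) ^ 2 / 2⌋₊ (n.choose 2) with h5 | h5
  · rw [Nat.cast_sub h5]
    constructor <;> linarith
  · have h6 : (n.choose 2 : ℝ) ≤ (⌊β * (n : ℝ) ^ 2 / 2⌋₊ : ℝ) := by exact_mod_cast h5
    have h7 : n.choose 2 - ⌊β * (n : ℝ) ^ 2 / 2⌋₊ = 0 := by omega
    rw [h7, Nat.cast_zero]
    constructor <;> linarith

theorem homs_mono {V W : Type} [Fintype V] [Fintype W] (G : SimpleGraph V) {H H' : SimpleGraph W}
    (h : H ≤ H') : homs G H ≤ homs G H' := by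
  classical
  unfold homs
  refine Nat.card_le_card_of_injective
    (fun f : {f : V → W // IsHom G H f} => (⟨f.1, fun a b hab => h (f.2 a b hab)⟩ :
      {f : V → W // IsHom G H' f})) ?_
  intro f g hfg
  exact Subtype.ext (congrArg (fun x : {f : V → W // IsHom G H' f} => x.1) hfg)

theorem squeeze_homs {V : Type} [Fintype V] (G : SimpleGraph V) (v : ℕ)
    (A B C : (n : ℕ) → SimpleGraph (Fin n)) {L : ℝ} (h1 : ∀ n, A n ≤ B n) (h2 : ∀ n, B n ≤ C n)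
    (hA : Tendsto (fun n => (homs G (A n) : ℝ) / (n : ℝ) ^ v) atTop (𝓝 L))
    (hC : Tendsto (fun n => (homs G (C n) : ℝ) / (n : ℝ) ^ v) atTop (𝓝 L)) :
    Tendsto (fun n => (homs G (B n) : ℝ) / (n : ℝ) ^ v) atTop (𝓝 L) := by
  refine tendsto_of_tendsto_of_tendsto_of_le_of_le hA hC (fun n => ?_) (fun n => ?_)
  · exact div_le_div_of_nonneg_right (Nat.cast_le.2 (homs_mono G (h1 n))) (by positivity)
  · exact div_le_div_of_nonneg_right (Nat.cast_le.2 (homs_mono G (h2 n))) (by positivity)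

theorem min_size {a : ℕ → ℕ} {x : ℝ} (hx : x ≤ 1)
    (h : Tendsto (fun n => (a n : ℝ) / n) atTop (𝓝 x)) (c : ℕ) :
    Tendsto (fun n => ((min (a n + c) n : ℕ) : ℝ) / n) atTop (𝓝 x) := by
  have h1 : Tendsto (fun n : ℕ => min ((a n : ℝ) / n + c / n) 1) atTop (𝓝 (min (x + 0) 1)) :=
    (h.add (tendsto_const_div c)).min tendsto_const_nhds
  rw [add_zero, min_eq_left hx] at h1
  refine h1.congr' ?_
  filter_upwards [eventually_gt_atTop 0] with n hn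
  have hn' : (0 : ℝ) < n := by exact_mod_cast hn
  rw [Nat.cast_min, ← add_div, ← min_div_div_right hn'.le, div_self hn'.ne']
  push_cast; rfl

theorem sub_size {a : ℕ → ℕ} {x : ℝ} (hx : x ≤ 1)
    (h : Tendsto (fun n => (a n : ℝ) / n) atTop (𝓝 x)) (c : ℕ) :
    Tendsto (fun n => ((n - (a n + c) : ℕ) : ℝ) / n) atTop (𝓝 (1 - x)) := by
  have h1 := (tendsto_const_nhds (x := (1 : ℝ))).sub (min_size hx h c)
  refine h1.congr' ?_
  filter_upwards [eventually_gt_atTop 0] with n hn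
  have hn' : (0 : ℝ) < n := by exact_mod_cast hn
  have h2 : (((n - (a n + c) : ℕ) : ℝ)) = n - ((min (a n + c) n : ℕ) : ℝ) := by
    rw [eq_sub_iff_add_eq]
    exact_mod_cast (by omega : n - (a n + c) + min (a n + c) n = n)
  rw [h2, sub_div, div_self hn'.ne']

/-- the limit along the quasi-cliques -/
theorem K_limit {m t : ℕ} (ht : 0 < t) {β : ℝ} (h0 : 0 ≤ β) (h1 : β ≤ 1) :
    Tendsto (fun n => (homs (stkG m t) (quasiClique n ⌊β * (n : ℝ) ^ 2 / 2⌋₊) : ℝ) /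
      (n : ℝ) ^ (m * 3 + (2 + t))) atTop (𝓝 (TM 0 (√β) ^ m * TP t 0 (√β))) := by
  choose a b he hb using fun n : ℕ => qc_exists ⌊β * (n : ℝ) ^ 2 / 2⌋₊
  have hsize := size_tendsto he hb (e_tendsto h0)
  have hs1 : √β ≤ 1 := by rw [Real.sqrt_le_left (by norm_num)]; simpa using h1
  have hzero : Tendsto (fun n : ℕ => (((∅ : Finset (Fin n)).card : ℕ) : ℝ) / n) atTop (𝓝 0) := by
    simp
  refine squeeze_homs _ _
    (fun n => tG ∅ (univ.filter (fun i : Fin n => (i : ℕ) < a n))) _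
    (fun n => tG ∅ (univ.filter (fun i : Fin n => (i : ℕ) < a n + 1)))
    (fun n => qc_ge (he n) (hb n)) (fun n => qc_le (he n) (hb n)) ?_ ?_
  · refine tendsto_homs_tG ht _ _ (fun n => disjoint_empty_left _) hzero ?_
    have := min_size hs1 hsize 0
    simp only [card_lt]
    simpa using this
  · refine tendsto_homs_tG ht _ _ (fun n => disjoint_empty_left _) hzero ?_
    have := min_size hs1 hsize 1
    simp only [card_lt]
    exact this

/-- the limit along the quasi-stars -/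
theorem S_limit {m t : ℕ} (ht : 0 < t) {β : ℝ} (h0 : 0 ≤ β) (h1 : β ≤ 1) :
    Tendsto (fun n => (homs (stkG m t) (quasiStar n ⌊β * (n : ℝ) ^ 2 / 2⌋₊) : ℝ) /
      (n : ℝ) ^ (m * 3 + (2 + t))) atTop (𝓝 (TM (rS β) 0 ^ m * TP t (rS β) 0)) := by
  choose a b he hb using fun n : ℕ => qc_exists (n.choose 2 - ⌊β * (n : ℝ) ^ 2 / 2⌋₊)
  have hsize := size_tendsto he hb (e_tendsto' h0 h1)
  have hs1 : √(1 - β) ≤ 1 := by rw [Real.sqrt_le_left (by norm_num)]; simpa using h0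
  have hzero : Tendsto (fun n : ℕ => (((∅ : Finset (Fin n)).card : ℕ) : ℝ) / n) atTop (𝓝 0) := by
    simp
  refine squeeze_homs _ _
    (fun n => tG (univ.filter (fun i : Fin n => a n + 1 ≤ (i : ℕ))) ∅) _
    (fun n => tG (univ.filter (fun i : Fin n => a n ≤ (i : ℕ))) ∅)
    (fun n => qs_ge (he n) (hb n)) (fun n => qs_le (he n) (hb n)) ?_ ?_
  · refine tendsto_homs_tG ht _ _ (fun n => disjoint_empty_right _) ?_ hzero
    have := sub_size hs1 hsize 1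
    simp only [card_ge]
    exact this
  · refine tendsto_homs_tG ht _ _ (fun n => disjoint_empty_right _) ?_ hzero
    have := sub_size hs1 hsize 0
    simp only [card_ge]
    unfold rS
    simpa using this

/-- the parts of the `T` graph -/
theorem tFamily_eq (n : ℕ) (β q a u : ℝ) (ha : 1 - √(1 - β * (1 - q ^ 2)) = a)
    (hu : √β * q = u) :
    tFamily n β q = tG (univ.filter (fun i : Fin n => (i : ℕ) < ⌊a * n⌋₊))
      (univ.filter (fun i : Fin n => ⌊a * n⌋₊ ≤ (i : ℕ) ∧ (i : ℕ) < ⌊a * n⌋₊ + ⌊u * n⌋₊)) := by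
  ext i j
  show (i ≠ j ∧ _) ↔ (i ≠ j ∧ _)
  rw [ha, hu]
  simp only [mem_filter, mem_univ, true_and]
  constructor
  · rintro ⟨h, h1⟩
    refine ⟨h, ?_⟩
    omega
  · rintro ⟨h, h1⟩
    refine ⟨h, ?_⟩
    omega

theorem parts_disjoint (n r s : ℕ) : Disjoint (univ.filter (fun i : Fin n => (i : ℕ) < r))
    (univ.filter (fun i : Fin n => r ≤ (i : ℕ) ∧ (i : ℕ) < s)) := by
  rw [disjoint_filter]
  intro i _ h h'
  omega

theorem floor_sum {a u : ℝ} (ha : 0 ≤ a) (hu : 0 ≤ u) (hau : a + u ≤ 1) (n : ℕ) :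
    ⌊a * n⌋₊ + ⌊u * n⌋₊ ≤ n := by
  have h1 := Nat.floor_le (show 0 ≤ a * n by positivity)
  have h2 := Nat.floor_le (show 0 ≤ u * n by positivity)
  have h3 : (a + u) * n ≤ 1 * n := mul_le_mul_of_nonneg_right hau (Nat.cast_nonneg n)
  have h4 : ((⌊a * n⌋₊ + ⌊u * n⌋₊ : ℕ) : ℝ) ≤ n := by push_cast; linarith
  exact_mod_cast h4

/-- the limit along the `T` graphs -/
theorem T_limit {m t : ℕ} (ht : 0 < t) {β q a u : ℝ} (ha : 1 - √(1 - β * (1 - q ^ 2)) = a)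
    (hu : √β * q = u) (ha0 : 0 ≤ a) (hu0 : 0 ≤ u) (hau : a + u ≤ 1) :
    Tendsto (fun n => (homs (stkG m t) (tFamily n β q) : ℝ) /
      (n : ℝ) ^ (m * 3 + (2 + t))) atTop (𝓝 (TM a u ^ m * TP t a u)) := by
  have h1 : ∀ n, tFamily n β q = _ := fun n => tFamily_eq n β q a u ha hu
  simp only [h1]
  refine tendsto_homs_tG ht _ _ (fun n => parts_disjoint n _ _) ?_ ?_
  · have h2 : ∀ n : ℕ, (univ.filter (fun i : Fin n => (i : ℕ) < ⌊a * n⌋₊)).card = ⌊a * n⌋₊ := by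
      intro n
      rw [card_lt]
      have := floor_sum ha0 hu0 hau n
      omega
    simp only [h2]
    exact (tendsto_nat_floor_mul_div_atTop ha0).comp tendsto_natCast_atTop_atTop
  · have h2 : ∀ n : ℕ, (univ.filter (fun i : Fin n => ⌊a * n⌋₊ ≤ (i : ℕ) ∧
        (i : ℕ) < ⌊a * n⌋₊ + ⌊u * n⌋₊)).card = ⌊u * n⌋₊ := by
      intro n
      rw [card_Ico n _ _ (floor_sum ha0 hu0 hau n)]
      omega
    simp only [h2]
    exact (tendsto_nat_floor_mul_div_atTop hu0).comp tendsto_natCast_atTop_atTop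

/-- the number of edges of the `T` graphs -/
theorem T_edges {β q a u : ℝ} (ha : 1 - √(1 - β * (1 - q ^ 2)) = a)
    (hu : √β * q = u) (ha0 : 0 ≤ a) (hu0 : 0 ≤ u) (hau : a + u ≤ 1) (hβ : TA a u = β) (n : ℕ) :
    2 * ((tFamily n β q).edgeSet.ncard : ℝ) ≤ β * (n : ℝ) ^ 2 ∧
    β * (n : ℝ) ^ 2 - 5 * n ≤ 2 * ((tFamily n β q).edgeSet.ncard : ℝ) := by
  rw [tFamily_eq n β q a u ha hu, edges_tG (parts_disjoint n _ _),
    card_Ico n _ _ (floor_sum ha0 hu0 hau n), card_lt]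
  have h0 := floor_sum ha0 hu0 hau n
  rw [min_eq_left (by omega), Nat.add_sub_cancel_left]
  have h1 := Nat.floor_le (show 0 ≤ a * n by positivity)
  have h2 := Nat.floor_le (show 0 ≤ u * n by positivity)
  have h3 := Nat.lt_floor_add_one (a * n)
  have h4 := Nat.lt_floor_add_one (u * n)
  set r : ℝ := (⌊a * n⌋₊ : ℝ) with hr
  set y : ℝ := (⌊u * n⌋₊ : ℝ) with hy
  have hr0 : 0 ≤ r := Nat.cast_nonneg _
  have hy0 : 0 ≤ y := Nat.cast_nonneg _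
  have hn0 : (0 : ℝ) ≤ n := Nat.cast_nonneg _
  have ha1 : a ≤ 1 := by linarith
  have hu1 : u ≤ 1 := by linarith
  have han : a * n ≤ n := by nlinarith
  have hun : u * n ≤ n := by nlinarith
  rw [← hβ]
  unfold TA
  have e1 : (2 * (a * n) * n - (a * n) ^ 2) - (2 * r * n - r ^ 2) =
      (a * n - r) * (2 * n - a * n - r) := by ring
  have e2 : (u * n) ^ 2 - y ^ 2 = (u * n - y) * (u * n + y) := by ring
  have f1 : 0 ≤ (a * n - r) * (2 * n - a * n - r) := mul_nonneg (by linarith) (by linarith)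
  have f2 : (a * n - r) * (2 * n - a * n - r) ≤ 1 * (2 * n) :=
    mul_le_mul (by linarith) (by linarith) (by linarith) (by norm_num)
  have f3 : 0 ≤ (u * n - y) * (u * n + y) := mul_nonneg (by linarith) (by positivity)
  have f4 : (u * n - y) * (u * n + y) ≤ 1 * (2 * n) :=
    mul_le_mul (by linarith) (by linarith) (by positivity) (by norm_num)
  have f5 : r + y ≤ n := by
    rw [hr, hy]; exact_mod_cast h0
  have e3 : (u ^ 2 + 2 * a - a ^ 2) * (n : ℝ) ^ 2 = (2 * (a * n) * n - (a * n) ^ 2) +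
      (u * n) ^ 2 := by ring
  rw [e3]
  constructor <;> linarith

end Pool.Agent.Lib.Helper7.STK
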