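/-
MP_8790d8_co: assembly.
-/
import Pool.Agent.Lib.Helper7.STK.FamLimits
import Pool.Agent.Lib.Helper7.STK.Analysis

set_option autoImplicit false
open Finset Filter Topology

namespace Pool.Agent.Lib.Helper7.STK

theorem lab {m T : ℕ} (H : (n : ℕ) → SimpleGraph (Fin n)) {L : ℝ}
    (h : Tendsto (fun n => (homs (stkG m (2 * T)) (H n) : ℝ) /
      (n : ℝ) ^ (m * 3 + (2 + 2 * T))) atTop (𝓝 L)) :
    Tendsto (fun n => ((H n).labelledCopyCount (stkG m (2 * T)) : ℝ) /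
      (n : ℝ) ^ (m * 3 + (2 + 2 * T))) atTop (𝓝 L) := by
  have h1 := tendsto_labelled (stkG m (2 * T)) H (L := L) (by rw [card_stk]; exact h)
  rw [card_stk] at h1
  exact h1

theorem PS_pos {T m : ℕ} {β : ℝ} (h0 : 0 < β) (h1 : β ≤ 1) : 0 < PS T m β := by
  obtain ⟨r1, r2, r3, r4⟩ := rS_facts h0.le h1
  have hr : 0 < rS β := by
    rcases eq_or_lt_of_le r1 with h | h
    · exfalso
      rw [← h] at r4
      unfold TA at r4
      linarith
    · exact h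
  unfold PS
  refine mul_pos (pow_pos ?_ _) (lt_of_lt_of_le (by positivity) (TP_S_ge _ r1 r2))
  unfold TM
  have e1 : 0 < rS β ^ 3 := by positivity
  have e2 : rS β ^ 3 ≤ rS β ^ 2 := pow_le_pow_of_le_one r1 r2 (by norm_num)
  nlinarith

theorem PT_pos {T m : ℕ} {β a : ℝ} (hβ : bm ≤ β) (hβ' : β ≤ 81 / 100)
    (ha : 0 ≤ a) (ha' : a ≤ 1 / 50) : 0 < PT T m β a := by
  obtain ⟨h1, h2, h3, h4, h5⟩ := uu_facts hβ hβ' ha ha'
  unfold PT
  have hu : 0 < uu β a := by linarith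
  have e2 : 0 ≤ a ^ 2 - a ^ 3 := by
    have : a ^ 2 - a ^ 3 = a ^ 2 * (1 - a) := by ring
    rw [this]
    exact mul_nonneg (sq_nonneg a) (by linarith)
  refine mul_pos (pow_pos ?_ _) ?_
  · unfold TM
    have e1 : 0 < (uu β a) ^ 3 := by positivity
    have e3 : 0 ≤ 2 * (uu β a) ^ 2 * a := by positivity
    linarith
  · unfold TP
    have g1 : 0 < (a + uu β a) ^ 2 - a ^ 2 := by nlinarith
    have g2 : 0 ≤ 1 - (a + uu β a) ^ 2 := by nlinarith
    have g3 : 0 < (a + uu β a) ^ (2 * T) := by positivity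
    have g4 : 0 ≤ a ^ (2 * T) := by positivity
    nlinarith [mul_pos g1 g3, mul_nonneg g2 g4, sq_nonneg a]

theorem PT_K_pos {T m : ℕ} (hT : 0 < T) {β : ℝ} (h0 : 0 < β) : 0 < PT T m β 0 := by
  rw [PT_K hT]
  have : 0 < √β := Real.sqrt_pos.2 h0
  positivity

theorem no_copies {n m t : ℕ} (ht : 0 < t) (H : SimpleGraph (Fin n))
    (h : H.edgeSet.ncard = 0) : H.copyCount (stkG m t) = 0 := by
  rw [SimpleGraph.copyCount_eq_zero]
  rintro ⟨f⟩
  have h1 : (stkG m t).Adj (.inr (.inl 0)) (.inr (.inr ⟨0, ht⟩)) := by simp [stkG]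
  have h2 := f.toHom.map_adj h1
  rw [Set.ncard_eq_zero (Set.toFinite _)] at h
  have h3 : s(f.toHom (.inr (.inl 0)), f.toHom (.inr (.inr ⟨0, ht⟩))) ∈ H.edgeSet :=
    H.mem_edgeSet.2 h2
  rw [h] at h3
  exact h3

theorem zero_case {m t : ℕ} (ht : 0 < t) :
    IsAsympMaximiser (stkG m t) 0 (fun n => quasiStar n ⌊(0 : ℝ) * (n : ℝ) ^ 2 / 2⌋₊) := by
  have h0 : ∀ n : ℕ, ⌊(0 : ℝ) * (n : ℝ) ^ 2 / 2⌋₊ = 0 := by intro n; simp
  have hz : ∀ n : ℕ, (quasiStar n ⌊(0 : ℝ) * (n : ℝ) ^ 2 / 2⌋₊).edgeSet.ncard = 0 := by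
    intro n; rw [edges_qs, h0]; simp
  refine ⟨⟨0, fun n _ => ?_⟩, ?_⟩
  · rw [hz]; simp
  · have h1 : (fun n : ℕ => (((quasiStar n ⌊(0 : ℝ) * (n : ℝ) ^ 2 / 2⌋₊).copyCount
        (stkG m t) : ℕ) : ℝ)) = fun n : ℕ =>
        (exCopies (stkG m t) n ⌊(0 : ℝ) * (n : ℝ) ^ 2 / 2⌋₊ : ℝ) := by
      funext n
      rw [no_copies ht _ (hz n), h0]
      have h2 : exCopies (stkG m t) n 0 = 0 := by
        unfold exCopies
        refine Nat.eq_zero_of_le_zero (Finset.sup_le fun H hH => ?_)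
        simp only [mem_filter, mem_univ, true_and, Nat.le_zero] at hH
        exact (no_copies ht H hH).le
      rw [h2]
    rw [h1]

/-- the graph is of type STK -/
theorem main {T m : ℕ} (hP : Par T m) : IsTypeSTK (stkG m (2 * T)) := by
  have hT : 0 < T := by have := hP.T5; omega
  have hm : 0 < m := by
    rcases Nat.eq_zero_or_pos m with h | h
    · have := hP.m12; rw [h] at this; norm_num at this
    · exact h
  have ht : 0 < 2 * T := by omega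
  have hb := bm_bp
  obtain ⟨γ, δ, hγ0, hγδ, hδ1, hγb, hδ8, hS, hTT, hK, hstrict⟩ := analysis hP
  -- the T family
  have hfam : ∀ β, γ ≤ β → β ≤ δ → ∀ a, 0 < a → a ≤ 1 / 50 → Dom T m β (PT T m β a) →
      ∃ q : ℝ, 0 < q ∧ q < 1 ∧
      (∃ C : ℝ, ∀ n : ℕ, 1 ≤ n →
        |2 * ((tFamily n β q).edgeSet.ncard : ℝ) / (n : ℝ) ^ 2 - β| ≤ C / n) ∧
      Tendsto (fun n => ((tFamily n β q).labelledCopyCount (stkG m (2 * T)) : ℝ) /
        (n : ℝ) ^ (m * 3 + (2 + 2 * T))) atTop (𝓝 (PT T m β a)) ∧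
      Tendsto (fun n => (Nat.card (stkG m (2 * T) ≃g stkG m (2 * T)) : ℝ) *
        (exCopies (stkG m (2 * T)) n ⌊β * (n : ℝ) ^ 2 / 2⌋₊ : ℝ) /
        (n : ℝ) ^ (m * 3 + (2 + 2 * T))) atTop (𝓝 (PT T m β a)) := by
    intro β hβ1 hβ2 a ha0 ha1 hD
    have hβb : bm ≤ β := hγb.trans hβ1
    have hβ8 : β ≤ 81 / 100 := hβ2.trans hδ8
    obtain ⟨u1, u2, u3, u4, u5⟩ := uu_facts hβb hβ8 ha0.le ha1
    set u := uu β a with hu
    have hβ0 : 0 < β := by linarith [hb.2.1]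
    have hsq : 0 < √β := Real.sqrt_pos.2 hβ0
    have hsq2 : √β ^ 2 = β := Real.sq_sqrt hβ0.le
    set q := u / √β with hq
    have hu0 : 0 < u := by linarith
    have hq0 : 0 < q := div_pos hu0 hsq
    have hu' : √β * q = u := by rw [hq]; field_simp
    have hq1 : q < 1 := by
      rw [hq, div_lt_one hsq]
      have h1 : u ^ 2 < √β ^ 2 := by rw [u1, hsq2]; nlinarith
      exact lt_of_pow_lt_pow_left₀ 2 hsq.le h1
    have ha' : 1 - √(1 - β * (1 - q ^ 2)) = a := by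
      have h1 : β * q ^ 2 = u ^ 2 := by rw [← hu', mul_pow, hsq2]
      have h2 : 1 - β * (1 - q ^ 2) = (1 - a) ^ 2 := by
        have : 1 - β * (1 - q ^ 2) = 1 - β + β * q ^ 2 := by ring
        rw [this, h1, u1]; ring
      rw [h2, Real.sqrt_sq (by linarith)]; ring
    have hau : a + u ≤ 1 := by linarith
    have hlim := lab (m := m) (T := T) _ (T_limit ht ha' hu' ha0.le hu0.le hau)
    have hedge := T_edges ha' hu' ha0.le hu0.le hau u5
    have hval : TM a u ^ m * TP (2 * T) a u = PT T m β a := rfl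
    rw [hval] at hlim
    refine ⟨q, hq0, hq1, ⟨5, fun n hn => ?_⟩, hlim,
      ex_tendsto hT hm hβ0 hD _ (fun n => (hedge n).1) hlim⟩
    have hn' : (1 : ℝ) ≤ n := by exact_mod_cast hn
    have hn0 : (0 : ℝ) < n := by linarith
    obtain ⟨g1, g2⟩ := hedge n
    have e1 : 2 * ((tFamily n β q).edgeSet.ncard : ℝ) / (n : ℝ) ^ 2 - β =
        (2 * ((tFamily n β q).edgeSet.ncard : ℝ) - β * (n : ℝ) ^ 2) / (n : ℝ) ^ 2 := by
      field_simp
    have e2 : (5 : ℝ) / n = 5 * n / (n : ℝ) ^ 2 := by field_simp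
    rw [e1, e2, abs_div, abs_of_pos (show (0 : ℝ) < (n : ℝ) ^ 2 by positivity)]
    refine div_le_div_of_nonneg_right ?_ (by positivity)
    rw [abs_le]
    constructor <;> linarith
  -- quasi-stars
  have hstar : ∀ β, 0 < β → β ≤ 1 →
      Tendsto (fun n => ((quasiStar n ⌊β * (n : ℝ) ^ 2 / 2⌋₊).labelledCopyCount
        (stkG m (2 * T)) : ℝ) / (n : ℝ) ^ (m * 3 + (2 + 2 * T))) atTop (𝓝 (PS T m β)) :=
    fun β h0 h1 => lab _ (S_limit ht h0.le h1)
  -- quasi-cliques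
  have hcl : ∀ β, 0 < β → β ≤ 1 →
      Tendsto (fun n => ((quasiClique n ⌊β * (n : ℝ) ^ 2 / 2⌋₊).labelledCopyCount
        (stkG m (2 * T)) : ℝ) / (n : ℝ) ^ (m * 3 + (2 + 2 * T))) atTop (𝓝 (PT T m β 0)) := by
    intro β h0 h1
    have h2 := lab _ (K_limit (m := m) ht h0.le h1)
    have h3 : TM 0 (√β) ^ m * TP (2 * T) 0 (√β) = PT T m β 0 := by
      unfold PT; rw [uu_K]
    rw [h3] at h2
    exact h2
  refine ⟨γ, δ, hγ0, hγδ, hδ1, ?_, ?_, ?_, ?_⟩
  · intro β h0 h1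
    rcases eq_or_lt_of_le h0 with h | h
    · rw [← h]; exact zero_case ht
    · have hβ1 : β ≤ 1 := by linarith
      have hlim := hstar β h hβ1
      have hex := ex_tendsto hT hm h (hS β h0 h1) _ (fun n => by
        rw [edges_qs]; exact min_le h0 n) hlim
      refine isMax_of (PS_pos h hβ1) hex _ ⟨2, fun n hn => ?_⟩ hlim
      rw [edges_qs]; exact min_bounds h0 hβ1 n hn
  · intro β h1 h2
    obtain ⟨a, ha0, ha1, hD⟩ := hTT β h1 h2
    obtain ⟨q, hq0, hq1, hden, hlim, hex⟩ := hfam β h1 h2 a ha0 ha1 hD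
    exact ⟨q, hq0, hq1, isMax_of (PT_pos (hγb.trans h1) (h2.trans hδ8) ha0.le ha1) hex _ hden
      hlim⟩
  · intro β h1 h2
    have hβ0 : 0 < β := by linarith
    have hlim := hcl β hβ0 h2
    have hex := ex_tendsto hT hm hβ0 (hK β h1 h2) _ (fun n => by
      rw [edges_qc]; exact min_le hβ0.le n) hlim
    refine isMax_of (PT_K_pos hT hβ0) hex _ ⟨2, fun n hn => ?_⟩ hlim
    rw [edges_qc]; exact min_bounds hβ0.le h2 n hn
  · intro β h1 h2
    have hβ0 : 0 < β := by linarith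
    have hβ1 : β ≤ 1 := by linarith
    obtain ⟨a, ha0, ha1, hD, hlt1, hlt2⟩ := hstrict β h1 h2
    obtain ⟨q, hq0, hq1, hden, hlim, hex⟩ := hfam β h1.le h2.le a ha0 ha1 hD
    have hV := PT_pos (T := T) (m := m) (hγb.trans h1.le) (h2.le.trans hδ8) ha0.le ha1
    exact ⟨not_isMax_of hV hlt1.ne hex _ (hstar β hβ0 hβ1),
      not_isMax_of hV hlt2.ne hex _ (hcl β hβ0 hβ1)⟩

end Pool.Agent.Lib.Helper7.STK
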